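import Pool.Agent.H80.CLO.Nd6

/-!
# The slope polynomial of a tuple: the theorem

`nd4`: the conclusion `Nd4O` from the data `Nd4H` with small exponents.
-/

set_option autoImplicit false

namespace Pool.CLO80

open Finset Real Filter
open Pool.Agent.H49.Ent Pool.Agent.H32.Dense Pool.STK
open Pool.BFL (Pb)
open Pool.K2S (cpn)

/-! ### Polynomially bounded functions -/

/-- Nonnegative and at most a power. -/
def PB (f : ℝ → ℝ) : Prop :=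
  (∀ x : ℝ, 1 ≤ x → 0 ≤ f x) ∧ ∃ A : ℕ, ∀ x : ℝ, 1 ≤ x → f x ≤ A * x ^ A

theorem PB.const {c : ℝ} (hc : 0 ≤ c) : PB fun _ => c := by
  obtain ⟨A, hA⟩ := exists_nat_ge c
  refine ⟨fun _ _ => hc, A, fun x hx => ?_⟩
  have h1 : (1 : ℝ) ≤ x ^ A := one_le_pow₀ hx
  have h2 : (0 : ℝ) ≤ A := Nat.cast_nonneg A
  nlinarith

theorem PB.id : PB fun x => x := ⟨fun x hx => by linarith, 1, fun x _ => by simp⟩

theorem PB.add {f g : ℝ → ℝ} (hf : PB f) (hg : PB g) : PB fun x => f x + g x := by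
  obtain ⟨hf0, A, hA⟩ := hf
  obtain ⟨hg0, B, hB⟩ := hg
  refine ⟨fun x hx => add_nonneg (hf0 x hx) (hg0 x hx), A + B, fun x hx => ?_⟩
  have h1 : x ^ A ≤ x ^ (A + B) := pow_le_pow_right₀ hx (Nat.le_add_right _ _)
  have h2 : x ^ B ≤ x ^ (A + B) := pow_le_pow_right₀ hx (Nat.le_add_left _ _)
  push_cast
  have h3 := mul_le_mul_of_nonneg_left h1 (Nat.cast_nonneg (α := ℝ) A)
  have h4 := mul_le_mul_of_nonneg_left h2 (Nat.cast_nonneg (α := ℝ) B)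
  have := hA x hx
  have := hB x hx
  nlinarith

theorem PB.mul {f g : ℝ → ℝ} (hf : PB f) (hg : PB g) : PB fun x => f x * g x := by
  obtain ⟨hf0, A, hA⟩ := hf
  obtain ⟨hg0, B, hB⟩ := hg
  refine ⟨fun x hx => mul_nonneg (hf0 x hx) (hg0 x hx), A * B + A + B, fun x hx => ?_⟩
  have h1 : f x * g x ≤ (A * x ^ A) * (B * x ^ B) :=
    mul_le_mul (hA x hx) (hB x hx) (hg0 x hx) ((hf0 x hx).trans (hA x hx))
  have h2 : x ^ (A + B) ≤ x ^ (A * B + A + B) := pow_le_pow_right₀ hx (by omega)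
  have h3 : (0 : ℝ) ≤ A * B := by positivity
  have h4 := mul_le_mul_of_nonneg_left h2 h3
  have h5 : (0 : ℝ) ≤ x ^ (A * B + A + B) := by positivity
  have hA0 : (0 : ℝ) ≤ A := Nat.cast_nonneg A
  have hB0 : (0 : ℝ) ≤ B := Nat.cast_nonneg B
  push_cast
  calc f x * g x ≤ (A * x ^ A) * (B * x ^ B) := h1
    _ = A * B * x ^ (A + B) := by rw [pow_add]; ring
    _ ≤ A * B * x ^ (A * B + A + B) := h4
    _ ≤ _ := by nlinarith [mul_nonneg hA0 h5, mul_nonneg hB0 h5]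

theorem PB.pow {f : ℝ → ℝ} (hf : PB f) : ∀ n : ℕ, PB fun x => f x ^ n
  | 0 => by simpa using PB.const (c := 1) zero_le_one
  | n + 1 => by
    have h := (PB.pow hf n).mul hf
    simpa [pow_succ] using h

theorem PB.bT (K : ℕ) {B : ℝ → ℝ} (hB : PB B) : PB fun x => bT K x (B x) := by
  unfold Pool.CLO80.bT
  exact (PB.const (by positivity)).mul (hB.mul ((((PB.const (by norm_num)).mul PB.id).mul PB.id).pow K))

theorem PB.lT (K : ℕ) {B : ℝ → ℝ} (hB : PB B) : PB fun x => lT K x (B x) := by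
  unfold Pool.CLO80.lT
  exact (PB.const (by positivity)).mul (hB.mul (((PB.const (by positivity)).mul PB.id).mul
    ((((PB.const (by norm_num)).mul PB.id).mul PB.id).pow K)))

/-! ### The functions -/

/-- `M δ₁`. -/
noncomputable def f1 (K : ℕ) (x : ℝ) : ℝ := (2 + 2 * lT K x x) * x

noncomputable def f2 (K : ℕ) (x : ℝ) : ℝ := 4 * (bT K x x + kK K) + 5

noncomputable def f3 (K : ℕ) (x : ℝ) : ℝ :=
  2 * (((K + 1) * ((K + 1) * (2 ^ K * x ^ K) * (2 * f1 K x + 2))) + 1) + 1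

noncomputable def fB (C : ℕ) (x : ℝ) : ℝ := C * (2 * x) ^ C * x

noncomputable def f6 (K C : ℕ) (x : ℝ) : ℝ := bT K x (fB C x)

noncomputable def f7 (K C C' : ℕ) (x : ℝ) : ℝ :=
  C' * (2 * x) ^ C' * (f1 K x + x + C * (2 * x) ^ C * ((1 + lT K x x) * x) +
    lT K x (fB C x) * x)

noncomputable def f8 (K C : ℕ) (x : ℝ) : ℝ := 8 * C * (f1 K x + kK K) + 3 + kK K

theorem pb_f1 (K : ℕ) : PB (f1 K) := by
  unfold f1
  exact ((PB.const (by norm_num)).add ((PB.const (by norm_num)).mul (PB.lT K PB.id))).mul PB.id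

theorem pb_f2 (K : ℕ) : PB (f2 K) := by
  unfold f2
  exact ((PB.const (by norm_num)).mul ((PB.bT K PB.id).add (PB.const (kK_nonneg K)))).add
    (PB.const (by norm_num))

theorem pb_f3 (K : ℕ) : PB (f3 K) := by
  unfold f3
  exact ((PB.const (by norm_num)).mul ((((PB.const (by positivity)).mul (((PB.const (by
    positivity)).mul ((PB.const (by positivity)).mul (PB.id.pow K))).mul
    (((PB.const (by norm_num)).mul (pb_f1 K)).add (PB.const (by norm_num))))).add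
    (PB.const (by norm_num))))).add (PB.const (by norm_num))

theorem pb_fB (C : ℕ) : PB (fB C) := by
  unfold fB
  exact ((PB.const (Nat.cast_nonneg C)).mul (((PB.const (by norm_num)).mul PB.id).pow C)).mul PB.id

theorem pb_f6 (K C : ℕ) : PB (f6 K C) := by
  unfold f6
  exact PB.bT K (pb_fB C)

theorem pb_f7 (K C C' : ℕ) : PB (f7 K C C') := by
  unfold f7
  exact ((PB.const (Nat.cast_nonneg C')).mul (((PB.const (by norm_num)).mul PB.id).pow C')).mul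
    ((((pb_f1 K).add PB.id).add (((PB.const (Nat.cast_nonneg C)).mul
      (((PB.const (by norm_num)).mul PB.id).pow C)).mul (((PB.const (by norm_num)).add
      (PB.lT K PB.id)).mul PB.id))).add ((PB.lT K (pb_fB C)).mul PB.id))

theorem pb_f8 (K C : ℕ) : PB (f8 K C) := by
  unfold f8
  exact (((PB.const (by positivity)).mul ((pb_f1 K).add (PB.const (kK_nonneg K)))).add
    (PB.const (by norm_num))).add (PB.const (kK_nonneg K))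

/-- One power for all. -/
theorem pb_all (K C₂ C₃ C₇ : ℕ) : ∃ a : ℕ, 1 ≤ a ∧ ∀ x : ℝ, 1 ≤ x →
    f1 K x ≤ a * x ^ a ∧ f2 K x ≤ a * x ^ a ∧ f3 K x ≤ a * x ^ a ∧ f6 K C₂ x ≤ a * x ^ a ∧
    f7 K C₂ C₇ x ≤ a * x ^ a ∧ f8 K C₃ x ≤ a * x ^ a := by
  obtain ⟨h10, -⟩ := pb_f1 K
  obtain ⟨h20, -⟩ := pb_f2 K
  obtain ⟨h30, -⟩ := pb_f3 K
  obtain ⟨h60, -⟩ := pb_f6 K C₂
  obtain ⟨h70, -⟩ := pb_f7 K C₂ C₇
  obtain ⟨h80, -⟩ := pb_f8 K C₃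
  obtain ⟨-, A, hA⟩ := ((((((pb_f1 K).add (pb_f2 K)).add (pb_f3 K)).add (pb_f6 K C₂)).add
    (pb_f7 K C₂ C₇)).add (pb_f8 K C₃)).add (PB.const (c := 1) zero_le_one)
  have hA1 : 1 ≤ A := by
    by_contra hcon
    have : A = 0 := by omega
    have h := hA 1 le_rfl
    rw [this] at h
    push_cast at h
    have := h10 1 le_rfl
    have := h20 1 le_rfl
    have := h30 1 le_rfl
    have := h60 1 le_rfl
    have := h70 1 le_rfl
    have := h80 1 le_rfl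
    linarith
  refine ⟨A, hA1, fun x hx => ?_⟩
  have h := hA x hx
  have := h10 x hx
  have := h20 x hx
  have := h30 x hx
  have := h60 x hx
  have := h70 x hx
  have := h80 x hx
  refine ⟨?_, ?_, ?_, ?_, ?_, ?_⟩ <;> linarith

/-- Large numbers. -/
theorem ev_num {a C : ℕ} {θ e : ℝ} (hθ : 0 < θ) (he : 0 < e) (ha : 1 ≤ a) :
    ∃ M₀ : ℕ, ∀ M : ℕ, M₀ ≤ M → 1 ≤ M ∧ 4 * (a : ℝ) ≤ (M : ℝ) ^ (a * θ) ∧
      Real.log 2 ≤ e * Real.log M ∧ 4 ≤ (M : ℝ) ^ θ ∧ (C : ℝ) ≤ (M : ℝ) ^ (1 / 2 : ℝ) := by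
  have ha0 : (0 : ℝ) < a := by exact_mod_cast ha
  have hc := tendsto_natCast_atTop_atTop (R := ℝ)
  have h1 := ((tendsto_rpow_atTop (mul_pos ha0 hθ)).comp hc).eventually_ge_atTop (4 * (a : ℝ))
  have h2 := ((Real.tendsto_log_atTop.comp hc).eventually_ge_atTop (Real.log 2 / e))
  have h3 := ((tendsto_rpow_atTop hθ).comp hc).eventually_ge_atTop (4 : ℝ)
  have h4 := ((tendsto_rpow_atTop (show (0 : ℝ) < 1 / 2 by norm_num)).comp hc).eventually_ge_atTop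
    (C : ℝ)
  have h5 := eventually_ge_atTop (α := ℕ) 1
  obtain ⟨M₀, hM₀⟩ := eventually_atTop.1 (h1.and (h2.and (h3.and (h4.and h5))))
  refine ⟨M₀, fun M hM => ?_⟩
  obtain ⟨g1, g2, g3, g4, g5⟩ := hM₀ M hM
  refine ⟨g5, g1, ?_, g3, g4⟩
  have g2' : Real.log 2 / e ≤ Real.log M := g2
  rw [div_le_iff₀ he] at g2'
  linarith

/-! ### The conclusion with explicit numbers -/

set_option maxHeartbeats 400000 in
/-- **The conclusion**, with explicit numbers. -/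
theorem nd4_core (K D : ℕ) : ∃ C₂ C₃ C₇ : ℕ, ∀ {Ω Λ Pt Y X Z Uf C V : Type} [Fintype Ω] {q : Ω → ℝ}
    {L : Ω → Λ} {P : Ω → Pt} {y : Ω → Y} {x : Ω → X} {Qc : Ω → Z} {Up : Ω → Uf} {ct : Ω → C} {ell : Ω → V}
    {τ U φc : Ω → ℤ} {φ : Ω → ℝ} {uP cP : C → V → Polynomial ℝ} {n M : ℕ}
    {jj : Fin (K + 1) → Fin n} {Θ Θ₂ ε e c : ℝ},
    Nd4H q L P y x Qc Up ct ell τ U φc φ uP cP D M jj Θ ε e c → 1 ≤ M → 4 ≤ Θ → Θ ≤ M → 1 < Θ₂ →
    0 ≤ ε → ε ≤ 1 → 0 ≤ e → (C₂ : ℝ) ≤ (1 / Θ) ^ C₂ * (2 * M + 1) →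
    (C₇ : ℝ) ≤ (1 / Θ) ^ C₇ * (2 * M + 1) → (C₃ : ℝ) ≤ (1 / Θ₂) ^ C₃ * (2 * M + 1) →
    ∀ δ₁ δ₃ δ₇ c₂ c₃ c₇ Bf δf ef cf : ℝ, δ₁ = (2 + 2 * lT K Θ Θ) * ε →
    δ₃ = kK K / M + C₃ * Θ₂ ^ C₃ * (2 * (δ₁ + kK K / M)) →
    δ₇ = C₇ * (2 * Θ) ^ C₇ * (δ₁ + ε + C₂ * (2 * Θ) ^ C₂ * ((1 + lT K Θ Θ) * ε) +
      lT K Θ (C₂ * (2 * Θ) ^ C₂ * Θ) * ε) →
    c₂ = (K + 3) * (c + (e + Real.log 2) / Real.log Θ) →
    c₃ = 2 * (2 * c) + (e + 2 * eG K M Θ δ₁ e (2 * c) (bT K Θ Θ) + Real.log 2) /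
      Real.log Θ₂ →
    c₇ = c + 2 * c + 2 * c₂ + (2 * e + Real.log 2) / Real.log Θ →
    bT K Θ Θ + kK K ≤ Bf → bT K Θ (C₂ * (2 * Θ) ^ C₂ * Θ) ≤ Bf → δ₁ + δ₃ ≤ δf → δ₃ + δ₇ ≤ δf →
    2 * c + c₃ ≤ cf → c₃ + c₇ ≤ cf →
    eG K M Θ δ₁ e (2 * c) (bT K Θ Θ) + (Real.log 2 + (Real.log (2 * (2 * (M * (C₃ * Θ₂ ^ C₃ *
      (2 * (δ₁ + kK K / M)))) + 1) + 1) + c₃ * Real.log (4 * (M * (bT K Θ Θ + kK K) + 1) + 1))) ≤
      ef →
    ∃ (Wv : Pt → Polynomial ℝ) (Qp : Λ → ℝ → Polynomial ℝ),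
      Nd4O q L P Qc τ U φ K ((K + 1) * D) M Bf δf ef cf Wv Qp := by
  classical
  obtain ⟨C₂, -, hS2⟩ := nd_S2 K D
  obtain ⟨C₃, -, hS3⟩ := nd_S3 K
  obtain ⟨C₇, -, hS7⟩ := nd_S7 K
  refine ⟨C₂, C₃, C₇, ?_⟩
  intro Ω Λ Pt Y X Z Uf C V _ q L P y x Qc Up ct ell τ U φc φ uP cP n M jj Θ Θ₂ ε e c H hM hΘ hΘM hΘ₂ hε
    hε1 he hC₂ hC₇ hC₃ δ₁ δ₃ δ₇ c₂ c₃ c₇ Bf δf ef cf hδ₁ hδ₃ hδ₇ hc₂ hc₃ hc₇ hBf hBf' hδf hδf' hcf
    hcf' hef
  have hq := H.law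
  have q0 := hq.nonneg
  have hM0 : (0 : ℝ) < M := by
    have : (1 : ℝ) ≤ M := by exact_mod_cast hM
    linarith
  have hb0 : 0 ≤ bT K Θ Θ := by
    unfold bT
    have : 0 ≤ Θ := by linarith
    positivity
  have hl0 : 0 ≤ lT K Θ Θ := by
    unfold lT
    have : 0 ≤ Θ := by linarith
    positivity
  have hδ₁0 : 0 ≤ δ₁ := by
    rw [hδ₁]
    positivity
  obtain ⟨Gv, g1, g2, g3⟩ := nd_S1 H hM (by linarith) hε hε1
  rw [← hδ₁] at g3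
  have s2 := hS2 H hM (by linarith) hε hε1 he hC₂
  rw [← hc₂] at s2
  obtain ⟨Wv, w1, w2, w3, w4⟩ := hS3 H hM hΘ hΘM hΘ₂ hb0 hδ₁0 hC₃ Gv g1 g2 g3
  rw [← hc₃] at w3 w4
  rw [← hδ₃] at w3
  have hB₂0 : (0 : ℝ) ≤ C₂ * (2 * Θ) ^ C₂ * Θ := by
    have : 0 ≤ Θ := by linarith
    positivity
  obtain ⟨Qp, p1, p2, p3⟩ := hS7 H hM (by linarith) hB₂0 hC₇ Gv g1 g3 s2
  rw [← hδ₇, ← hc₇] at p3
  refine ⟨Wv, Qp,
    { dW := w1
      bW := fun a u hu => (w2 a u hu).trans hBf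
      dQ := p1
      bQ := fun l u s hu hs => (p2 l u s hu hs).trans hBf'
      near := ?_
      path := ?_
      few := fun u hu => (w4 u hu).trans hef }⟩
  · have h1 := Pool.STB.Pb_or q0 (fun ω => ¬ |φ ω - (Gv (Qc ω) (y ω)).eval ((U ω : ℝ) / M)| ≤ δ₁)
      (fun ω => ¬ ∀ u : ℝ, |u| ≤ 1 → |(Gv (Qc ω) (y ω)).eval u - (Wv (P ω)).eval u| ≤ δ₃)
    refine (Pool.STB.Pb_mono q0 fun ω hω hn => ?_).trans (h1.trans (by linarith))
    by_contra hcon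
    push Not at hcon
    have h2 := hcon.1
    have h3 := hcon.2 _ (frac_le hM (H.Ub ω hω))
    have h4 := abs_sub_le (φ ω) ((Gv (Qc ω) (y ω)).eval ((U ω : ℝ) / M))
      ((Wv (P ω)).eval ((U ω : ℝ) / M))
    exact hn (by linarith)
  · have h1 := Pool.STB.Pb_or q0
      (fun ω => ¬ ∀ u : ℝ, |u| ≤ 1 → |(Gv (Qc ω) (y ω)).eval u - (Wv (P ω)).eval u| ≤ δ₃)
      (fun ω => ¬ ∀ u : ℝ, |u| ≤ 1 → |(Gv (Qc ω) (y ω)).eval u -
        (Qp (L ω) u).eval ((τ ω : ℝ) / M)| ≤ δ₇)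
    refine (Pool.STB.Pb_mono q0 fun ω hω hn => ?_).trans (h1.trans (by linarith))
    by_contra hcon
    push Not at hcon
    refine hn fun u hu => ?_
    have h2 := hcon.1 u hu
    have h3 := hcon.2 u hu
    have h4 := abs_sub_le ((Wv (P ω)).eval u) ((Gv (Qc ω) (y ω)).eval u)
      ((Qp (L ω) u).eval ((τ ω : ℝ) / M))
    rw [abs_sub_comm ((Wv (P ω)).eval u) ((Gv (Qc ω) (y ω)).eval u)] at h4
    linarith

/-! ### The theorem -/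

theorem pw_cond {C M : ℕ} {t : ℝ} (hM : 1 ≤ M) (hC : (C : ℝ) ≤ (M : ℝ) ^ (1 / 2 : ℝ))
    (ht : C * t ≤ 1 / 2) : (C : ℝ) ≤ (1 / (M : ℝ) ^ t) ^ C * (2 * M + 1) := by
  have hM1 : (1 : ℝ) ≤ M := by exact_mod_cast hM
  have hM0 : (0 : ℝ) < M := by linarith
  have e1 : (1 / (M : ℝ) ^ t) ^ C = (M : ℝ) ^ (-(t * C)) := by
    rw [one_div, ← Real.rpow_neg hM0.le, ← Real.rpow_natCast, ← Real.rpow_mul hM0.le]
    ring_nf
  have e2 : (M : ℝ) ^ (-(1 / 2 : ℝ)) ≤ (M : ℝ) ^ (-(t * C)) :=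
    Real.rpow_le_rpow_of_exponent_le hM1 (by linarith)
  have e3 : (M : ℝ) ^ (-(1 / 2 : ℝ)) * M = (M : ℝ) ^ (1 / 2 : ℝ) := by
    nth_rewrite 2 [← Real.rpow_one (M : ℝ)]
    rw [← Real.rpow_add hM0]
    norm_num
  rw [e1]
  have e4 : 0 < (M : ℝ) ^ (-(t * C)) := by positivity
  calc (C : ℝ) ≤ (M : ℝ) ^ (-(1 / 2 : ℝ)) * M := by rw [e3]; exact hC
    _ ≤ (M : ℝ) ^ (-(t * C)) * M := mul_le_mul_of_nonneg_right e2 hM0.le
    _ ≤ _ := mul_le_mul_of_nonneg_left (by linarith) e4.le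

set_option maxHeartbeats 1000000 in
/-- **The slope of a tuple is a closed polynomial in the height.** -/
theorem nd4 (K D : ℕ) {θ' : ℝ} (hθ' : 0 < θ') (hθ'1 : θ' ≤ 1) : ∃ (θ e c : ℝ) (M₀ : ℕ),
    0 < θ ∧ 0 < e ∧ 0 < c ∧ ∀ {Ω Λ Pt Y X Z Uf C V : Type} [Fintype Ω] {q : Ω → ℝ}
    {L : Ω → Λ} {P : Ω → Pt} {y : Ω → Y} {x : Ω → X} {Qc : Ω → Z} {Up : Ω → Uf} {ct : Ω → C} {ell : Ω → V}
    {τ U φc : Ω → ℤ} {φ : Ω → ℝ} {uP cP : C → V → Polynomial ℝ} {n M : ℕ}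
    {jj : Fin (K + 1) → Fin n},
    Nd4H q L P y x Qc Up ct ell τ U φc φ uP cP D M jj ((M : ℝ) ^ θ) ((M : ℝ) ^ (θ - 1))
      (e * Real.log M) c → M₀ ≤ M →
    ∃ (Wv : Pt → Polynomial ℝ) (Qp : Λ → ℝ → Polynomial ℝ),
      Nd4O q L P Qc τ U φ K ((K + 1) * D) M ((M : ℝ) ^ θ') ((M : ℝ) ^ (θ' - 1))
        (θ' * Real.log M) θ' Wv Qp := by
  classical
  obtain ⟨C₂, C₃, C₇, hcore⟩ := nd4_core K D
  obtain ⟨a, ha1, hpb⟩ := pb_all K C₂ C₃ C₇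
  have ha1' : (1 : ℝ) ≤ a := by exact_mod_cast ha1
  obtain ⟨κ, hκ⟩ : ∃ κ : ℝ, κ = K + 1 := ⟨_, rfl⟩
  have hκ1 : 1 ≤ κ := by rw [hκ]; have : (0 : ℝ) ≤ K := Nat.cast_nonneg K; linarith
  obtain ⟨G, hG⟩ : ∃ G : ℝ, G = 1 + 4 * a * κ + 4 * κ ^ 2 + 8 * κ ^ 3 + 4 * κ := ⟨_, rfl⟩
  have hG1 : 1 ≤ G := by
    rw [hG]
    have : 0 ≤ (a : ℝ) * κ := by positivity
    nlinarith [pow_nonneg (show (0 : ℝ) ≤ κ by linarith) 2, pow_nonneg (show (0 : ℝ) ≤ κ by linarith) 3]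
  obtain ⟨N, hN⟩ : ∃ N : ℝ, N = 100 + 10 * G + 4 * a + 12 * (κ + 2) + 2 * C₂ + 2 * C₇ := ⟨_, rfl⟩
  have hC₂0 : (0 : ℝ) ≤ C₂ := Nat.cast_nonneg _
  have hC₃0 : (0 : ℝ) ≤ C₃ := Nat.cast_nonneg _
  have hC₇0 : (0 : ℝ) ≤ C₇ := Nat.cast_nonneg _
  have hN1 : 100 ≤ N := by rw [hN]; linarith
  obtain ⟨η, hη⟩ : ∃ η : ℝ, η = θ' / N := ⟨_, rfl⟩
  have hη0 : 0 < η := by rw [hη]; positivity
  have hηN : η * N = θ' := by rw [hη]; field_simp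
  obtain ⟨θ₂, hθ₂⟩ : ∃ θ₂ : ℝ, θ₂ = θ' / (8 * (C₃ + 1)) := ⟨_, rfl⟩
  have hθ₂0 : 0 < θ₂ := by rw [hθ₂]; positivity
  have hθ₂C : C₃ * θ₂ ≤ θ' / 8 := by
    rw [hθ₂, mul_div_assoc', div_le_div_iff₀ (by positivity) (by norm_num)]
    nlinarith
  have hθ₂1 : θ₂ ≤ θ' / 8 := by
    rw [hθ₂]
    refine div_le_div_of_nonneg_left hθ'.le (by norm_num) (by linarith)
  obtain ⟨θ, hθ⟩ : ∃ θ : ℝ, θ = η * θ₂ := ⟨_, rfl⟩
  have hθ0 : 0 < θ := by rw [hθ]; positivity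
  have hθη : θ ≤ η := by
    rw [hθ]
    nlinarith
  have hη1 : η ≤ 1 := by
    have : η * 100 ≤ η * N := mul_le_mul_of_nonneg_left hN1 hη0.le
    linarith
  have hθ1 : θ ≤ 1 := hθη.trans hη1
  obtain ⟨e, he⟩ : ∃ e : ℝ, e = θ * θ := ⟨_, rfl⟩
  have he0 : 0 < e := by rw [he]; positivity
  have heθ : e ≤ θ := by rw [he]; nlinarith
  obtain ⟨M₀, hM₀⟩ := ev_num (a := a) (C := C₂ + C₃ + C₇) hθ0 he0 ha1
  refine ⟨θ, e, θ, M₀, hθ0, he0, hθ0, ?_⟩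
  intro Ω Λ Pt Y X Z Uf C V _ q L P y x Qc Up ct ell τ U φc φ uP cP n M jj H hMM
  obtain ⟨hM, n1, n2, n3, n4⟩ := hM₀ M hMM
  have hM1 : (1 : ℝ) ≤ M := by exact_mod_cast hM
  have hM0 : (0 : ℝ) < M := by linarith
  obtain ⟨ℓ, hℓ⟩ : ∃ ℓ : ℝ, ℓ = Real.log M := ⟨_, rfl⟩
  obtain ⟨Θ, hΘ⟩ : ∃ Θ : ℝ, Θ = (M : ℝ) ^ θ := ⟨_, rfl⟩
  obtain ⟨Θ₂, hΘ₂⟩ : ∃ Θ₂ : ℝ, Θ₂ = (M : ℝ) ^ θ₂ := ⟨_, rfl⟩
  have hlΘ : Real.log Θ = θ * ℓ := by rw [hΘ, Real.log_rpow hM0, hℓ]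
  have hlΘ₂ : Real.log Θ₂ = θ₂ * ℓ := by rw [hΘ₂, Real.log_rpow hM0, hℓ]
  have hΘ4 : 4 ≤ Θ := by rw [hΘ]; exact n3
  have hΘ0 : 0 < Θ := by linarith
  have hℓ0 : 0 < ℓ := by
    have h1 : 0 < Real.log Θ := Real.log_pos (by linarith)
    rw [hlΘ] at h1
    exact (mul_pos_iff_of_pos_left hθ0).1 h1
  have hΘ₂1 : 1 < Θ₂ := by
    have h1 : 0 < Real.log Θ₂ := by rw [hlΘ₂]; positivity
    by_contra hcon
    push Not at hcon
    have h2 : 0 < Θ₂ := by rw [hΘ₂]; positivity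
    have := Real.log_nonpos h2.le hcon
    linarith
  have hΘM : Θ ≤ M := by
    rw [hΘ]
    nth_rewrite 2 [← Real.rpow_one (M : ℝ)]
    exact Real.rpow_le_rpow_of_exponent_le hM1 hθ1
  obtain ⟨ε, hε⟩ : ∃ ε : ℝ, ε = (M : ℝ) ^ (θ - 1) := ⟨_, rfl⟩
  have hεM : ε * M = Θ := by
    rw [hε, hΘ]
    nth_rewrite 2 [← Real.rpow_one (M : ℝ)]
    rw [← Real.rpow_add hM0]
    ring_nf
  have hεΘ : ε = Θ / M := by rw [eq_div_iff hM0.ne', hεM]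
  have hε0 : 0 ≤ ε := by rw [hε]; positivity
  have hε1 : ε ≤ 1 := by rw [hεΘ, div_le_one hM0]; exact hΘM
  rw [← hΘ, ← hε, ← hℓ] at H
  rw [← hℓ] at n2
  -- the power
  obtain ⟨β, hβ⟩ : ∃ β : ℝ, β = 2 * a * θ := ⟨_, rfl⟩
  have hβ0 : 0 < β := by rw [hβ]; positivity
  obtain ⟨B, hB⟩ : ∃ B : ℝ, B = (M : ℝ) ^ β := ⟨_, rfl⟩
  have hB0 : 0 < B := by rw [hB]; positivity
  have hlB : Real.log B = β * ℓ := by rw [hB, Real.log_rpow hM0, hℓ]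
  have hΘa : Θ ^ a = (M : ℝ) ^ (a * θ) := by
    rw [hΘ, ← Real.rpow_natCast, ← Real.rpow_mul hM0.le]
    ring_nf
  have hXB : 4 * (a * Θ ^ a) ≤ B := by
    have h1 : B = (M : ℝ) ^ (a * θ) * Θ ^ a := by
      rw [hΘa, ← Real.rpow_add hM0, hB, hβ]
      ring_nf
    rw [h1]
    have h2 : 0 ≤ Θ ^ a := by positivity
    calc 4 * (a * Θ ^ a) = 4 * a * Θ ^ a := by ring
      _ ≤ _ := mul_le_mul_of_nonneg_right n1 h2
  obtain ⟨g1, g2, g3, g6, g7, g8⟩ := hpb Θ (by linarith)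
  obtain ⟨W, hW⟩ : ∃ W : ℝ, W = Θ₂ ^ C₃ := ⟨_, rfl⟩
  have hW1 : 1 ≤ W := by rw [hW]; exact one_le_pow₀ hΘ₂1.le
  have hlW : Real.log W = C₃ * θ₂ * ℓ := by
    rw [hW, Real.log_pow, hlΘ₂]
    ring
  have hf10 := (pb_f1 K).1 Θ (by linarith)
  have hf80 := (pb_f8 K C₃).1 Θ (by linarith)
  have hk := kK_nonneg K
  -- the data
  obtain ⟨δ₁, hδ₁⟩ : ∃ δ₁ : ℝ, δ₁ = (2 + 2 * lT K Θ Θ) * ε := ⟨_, rfl⟩
  have hδ₁' : δ₁ = f1 K Θ / M := by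
    rw [hδ₁, hεΘ]
    unfold f1
    ring
  obtain ⟨δ₃, hδ₃⟩ : ∃ δ₃ : ℝ, δ₃ = kK K / M + C₃ * Θ₂ ^ C₃ * (2 * (δ₁ + kK K / M)) := ⟨_, rfl⟩
  have hδ₃' : δ₃ ≤ B * W / 4 / M := by
    rw [hδ₃, hδ₁', ← hW, ← add_div]
    have e1 : kK K / M + C₃ * W * (2 * ((f1 K Θ + kK K) / M)) =
        (kK K + C₃ * W * (2 * (f1 K Θ + kK K))) / M := by ring
    rw [e1]
    refine div_le_div_of_nonneg_right ?_ hM0.le
    have h1 : kK K ≤ kK K * W := le_mul_of_one_le_right hk hW1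
    have h2 : f8 K C₃ Θ * W ≤ B / 4 * W :=
      mul_le_mul_of_nonneg_right (by linarith) (by linarith)
    unfold f8 at h2
    have h3 : 0 ≤ C₃ * W * (f1 K Θ + kK K) := by positivity
    linarith
  obtain ⟨δ₇, hδ₇⟩ : ∃ δ₇ : ℝ, δ₇ = C₇ * (2 * Θ) ^ C₇ * (δ₁ + ε + C₂ * (2 * Θ) ^ C₂ *
    ((1 + lT K Θ Θ) * ε) + lT K Θ (C₂ * (2 * Θ) ^ C₂ * Θ) * ε) := ⟨_, rfl⟩
  have hδ₇' : δ₇ = f7 K C₂ C₇ Θ / M := by
    rw [hδ₇, hδ₁', hεΘ]
    unfold f7 fB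
    ring
  obtain ⟨A, hA⟩ : ∃ A : ℝ, A = bT K Θ Θ := ⟨_, rfl⟩
  have hA0 : 0 ≤ A := by
    rw [hA]
    exact (PB.bT K PB.id).1 Θ (by linarith)
  have hf2 : 4 * (A + kK K) + 5 ≤ B / 4 := by
    have h1 : f2 K Θ = 4 * (A + kK K) + 5 := by
      unfold f2
      rw [hA]
    rw [← h1]
    linarith
  -- the logarithms
  have hL1 : Real.log (2 * (M * ((K + 1) * ((K + 1) * (2 ^ K * Θ ^ K) * (2 * δ₁ + 2 / M))) + 1) + 1)
      ≤ β * ℓ := by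
    have h1 : 2 * (M * (((K : ℝ) + 1) * ((K + 1) * (2 ^ K * Θ ^ K) * (2 * δ₁ + 2 / M))) + 1) + 1 =
        f3 K Θ := by
      rw [hδ₁']
      unfold f3
      have h2 : (M : ℝ) ≠ 0 := hM0.ne'
      field_simp
    rw [h1, ← hlB]
    have h2 : 0 < f3 K Θ := by
      unfold f3
      have : 0 ≤ ((K : ℝ) + 1) * ((K + 1) * (2 ^ K * Θ ^ K) * (2 * f1 K Θ + 2)) := by positivity
      linarith
    exact Real.log_le_log h2 (by linarith)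
  have hL5 : Real.log (8 * (M * δ₁) + 16) ≤ β * ℓ := by
    have h0 : 0 ≤ f1 K Θ := hf10
    have h1 : 2 * f1 K Θ + 2 ≤ ((K : ℝ) + 1) * ((K + 1) * (2 ^ K * Θ ^ K) * (2 * f1 K Θ + 2)) := by
      have a1 : (1 : ℝ) ≤ 2 ^ K := one_le_pow₀ (by norm_num)
      have a2 : (1 : ℝ) ≤ Θ ^ K := one_le_pow₀ (by linarith)
      have a3 : (1 : ℝ) ≤ (K : ℝ) + 1 := by
        have : (0 : ℝ) ≤ K := Nat.cast_nonneg K
        linarith
      have a4 : (1 : ℝ) ≤ 2 ^ K * Θ ^ K := one_le_mul_of_one_le_of_one_le a1 a2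
      have a5 : (1 : ℝ) ≤ (K + 1) * (2 ^ K * Θ ^ K) := one_le_mul_of_one_le_of_one_le a3 a4
      have a6 : 0 ≤ 2 * f1 K Θ + 2 := by linarith
      have a7 : 2 * f1 K Θ + 2 ≤ (K + 1) * (2 ^ K * Θ ^ K) * (2 * f1 K Θ + 2) :=
        le_mul_of_one_le_left a6 a5
      exact a7.trans (le_mul_of_one_le_left (a6.trans a7) a3)
    have h2 : 8 * (M * δ₁) + 16 ≤ B := by
      rw [hδ₁']
      have e1 : 8 * ((M : ℝ) * (f1 K Θ / M)) = 8 * f1 K Θ := by field_simp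
      rw [e1]
      have h3 : 2 * (f3 K Θ) ≤ B / 2 := by linarith
      unfold f3 at h3
      have h4 : 16 ≤ B := by
        have b1 : (1 : ℝ) ≤ a * Θ ^ a := by
          have b2 : (1 : ℝ) ≤ Θ ^ a := one_le_pow₀ (by linarith)
          exact one_le_mul_of_one_le_of_one_le ha1' b2
        have b3 : (4 : ℝ) ≤ Θ ^ a := by
          calc (4 : ℝ) ≤ Θ := hΘ4
            _ = Θ ^ 1 := (pow_one _).symm
            _ ≤ Θ ^ a := pow_le_pow_right₀ (by linarith) ha1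
        have b4 : Θ ^ a ≤ a * Θ ^ a := le_mul_of_one_le_left (by linarith) ha1'
        linarith
      linarith
    have h3 : 0 ≤ (M : ℝ) * δ₁ := by
      rw [hδ₁']
      positivity
    rw [← hlB]
    exact Real.log_le_log (by linarith) h2
  have hL3 : Real.log (4 * (M * (A + kK K) + 1) + 1) ≤ 2 * ℓ := by
    have h1 : 4 * (M * (A + kK K) + 1) + 1 ≤ M * B := by
      have h2 : (M : ℝ) * (4 * (A + kK K) + 5) ≤ M * (B / 4) := mul_le_mul_of_nonneg_left hf2 hM0.le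
      have h3 : 0 ≤ (M : ℝ) * B := by positivity
      linarith
    have h2 : 0 ≤ (M : ℝ) * (A + kK K) := by positivity
    refine (Real.log_le_log (by linarith) h1).trans ?_
    rw [Real.log_mul hM0.ne' hB0.ne', ← hℓ, hlB]
    have h3 : β ≤ 1 := by
      rw [hβ]
      have h4 : 2 * (a : ℝ) * θ ≤ η * N := by
        have h5 : 2 * (a : ℝ) ≤ N := by rw [hN]; linarith
        calc 2 * (a : ℝ) * θ ≤ 2 * a * η := mul_le_mul_of_nonneg_left hθη (by positivity)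
          _ = η * (2 * a) := by ring
          _ ≤ _ := mul_le_mul_of_nonneg_left h5 hη0.le
      linarith
    have h4 := mul_le_mul_of_nonneg_right h3 hℓ0.le
    linarith
  have hL2 : Real.log (4 * (M * A + 1) + 1) ≤ 2 * ℓ := by
    have h2 : 0 ≤ (M : ℝ) * A := by positivity
    have h3 : (M : ℝ) * A ≤ M * (A + kK K) := mul_le_mul_of_nonneg_left (by linarith) hM0.le
    exact (Real.log_le_log (by linarith) (by linarith)).trans hL3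
  have hL4 : Real.log (2 * (2 * (M * (C₃ * Θ₂ ^ C₃ * (2 * (δ₁ + kK K / M)))) + 1) + 1) ≤
      β * ℓ + C₃ * θ₂ * ℓ := by
    have h1 : 2 * (2 * (M * (C₃ * Θ₂ ^ C₃ * (2 * (δ₁ + kK K / M)))) + 1) + 1 ≤ B * W := by
      rw [hδ₁', ← hW]
      have e1 : 2 * (2 * (M * (C₃ * W * (2 * (f1 K Θ / M + kK K / M)))) + 1) + 1 =
          8 * C₃ * (f1 K Θ + kK K) * W + 3 := by
        have h2 : (M : ℝ) ≠ 0 := hM0.ne'
        field_simp
        ring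
      rw [e1]
      have h2 : f8 K C₃ Θ * W ≤ B * W :=
        mul_le_mul_of_nonneg_right (by linarith) (by linarith)
      unfold f8 at h2
      have h3 : 0 ≤ kK K * W := mul_nonneg hk (by linarith)
      linarith
    have h3 : 0 < 2 * (2 * (M * (C₃ * Θ₂ ^ C₃ * (2 * (δ₁ + kK K / M)))) + 1) + 1 := by
      have h4 : 0 ≤ δ₁ := by rw [hδ₁']; positivity
      have h5 : 0 ≤ (M : ℝ) * (C₃ * Θ₂ ^ C₃ * (2 * (δ₁ + kK K / M))) := by positivity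
      linarith
    refine (Real.log_le_log h3 h1).trans (le_of_eq ?_)
    rw [Real.log_mul hB0.ne' (by linarith), hlB, hlW]
  -- the entropy of the code
  have hβη : β = 2 * a * (η * θ₂) := by rw [hβ, hθ]
  have hqe : (e * ℓ + Real.log 2) / Real.log Θ ≤ 2 * θ := by
    rw [hlΘ, div_le_iff₀ (by positivity), he]
    rw [he] at n2
    linarith
  have hqe0 : 0 ≤ (e * ℓ + Real.log 2) / Real.log Θ := by
    have := Real.log_pos one_lt_two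
    rw [hlΘ]
    positivity
  have heGb : eG K M Θ δ₁ (e * ℓ) (2 * θ) A ≤ θ * G * ℓ := by
    unfold eG
    rw [← hκ]
    have e1 : 2 * κ ^ 2 * (e * ℓ + Real.log 2) / Real.log Θ =
        2 * κ ^ 2 * ((e * ℓ + Real.log 2) / Real.log Θ) := by ring
    rw [e1]
    rw [← hκ] at hL1
    obtain ⟨Q, hQ⟩ : ∃ Q, Q = (e * ℓ + Real.log 2) / Real.log Θ := ⟨_, rfl⟩
    rw [← hQ] at hqe hqe0 ⊢
    have hκ0 : 0 ≤ κ := by linarith
    have h1 : 2 * κ ^ 2 * Q ≤ 4 * κ ^ 2 * θ := by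
      have := mul_le_mul_of_nonneg_left hqe (show 0 ≤ 2 * κ ^ 2 by positivity)
      linarith
    have h2 : 0 ≤ κ * (2 * θ) + 2 * κ ^ 2 * Q := by positivity
    have h3 : (κ * (2 * θ) + 2 * κ ^ 2 * Q) * Real.log (4 * (M * A + 1) + 1) ≤
        (2 * κ * θ + 4 * κ ^ 2 * θ) * (2 * ℓ) := by
      refine (mul_le_mul_of_nonneg_left hL2 h2).trans (mul_le_mul_of_nonneg_right ?_ (by positivity))
      linarith
    have h4 : κ * (Real.log (2 * (M * (κ * (κ * (2 ^ K * Θ ^ K) * (2 * δ₁ + 2 / M))) + 1) + 1) +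
        (κ * (2 * θ) + 2 * κ ^ 2 * Q) * Real.log (4 * (M * A + 1) + 1)) ≤
        κ * (β * ℓ + (2 * κ * θ + 4 * κ ^ 2 * θ) * (2 * ℓ)) :=
      mul_le_mul_of_nonneg_left (by linarith) hκ0
    have h5 : e * ℓ ≤ θ * ℓ := mul_le_mul_of_nonneg_right heθ hℓ0.le
    have h6 : κ * (e * ℓ + (2 * (e * ℓ) + Real.log 2 + Real.log (8 * (M * δ₁) + 16))) ≤
        κ * (4 * (θ * ℓ) + β * ℓ) := by
      refine mul_le_mul_of_nonneg_left ?_ hκ0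
      linarith
    rw [hG]
    rw [hβ] at h4 h6
    linarith
  have heG0 : 0 ≤ θ * G * ℓ := by positivity
  have hθθ : θ = η * θ₂ := hθ
  -- the masses
  obtain ⟨c₂, hc₂⟩ : ∃ c₂ : ℝ, c₂ = (K + 3) * (θ + (e * ℓ + Real.log 2) / Real.log Θ) := ⟨_, rfl⟩
  obtain ⟨c₃, hc₃⟩ : ∃ c₃ : ℝ, c₃ = 2 * (2 * θ) + (e * ℓ + 2 * eG K M Θ δ₁ (e * ℓ) (2 * θ) A +
    Real.log 2) / Real.log Θ₂ := ⟨_, rfl⟩
  obtain ⟨c₇, hc₇⟩ : ∃ c₇ : ℝ, c₇ = θ + 2 * θ + 2 * c₂ + (2 * (e * ℓ) + Real.log 2) /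
    Real.log Θ := ⟨_, rfl⟩
  have hc₂' : c₂ ≤ 3 * (κ + 2) * η := by
    rw [hc₂]
    have h1 : θ + (e * ℓ + Real.log 2) / Real.log Θ ≤ 3 * η := by linarith
    have h2 : (K : ℝ) + 3 = κ + 2 := by rw [hκ]; ring
    rw [h2]
    have := mul_le_mul_of_nonneg_left h1 (show 0 ≤ κ + 2 by linarith)
    linarith
  have hc₃' : c₃ ≤ (6 + 2 * G) * η := by
    rw [hc₃, hlΘ₂]
    have h1 : (e * ℓ + 2 * eG K M Θ δ₁ (e * ℓ) (2 * θ) A + Real.log 2) / (θ₂ * ℓ) ≤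
        2 * η + 2 * G * η := by
      rw [div_le_iff₀ (by positivity)]
      have h2 : e * ℓ ≤ θ * ℓ := mul_le_mul_of_nonneg_right heθ hℓ0.le
      have h3 : (2 * η + 2 * G * η) * (θ₂ * ℓ) = 2 * (θ * ℓ) + 2 * (θ * G * ℓ) := by
        rw [hθθ]
        ring
      rw [h3]
      linarith
    linarith
  have hc₇' : c₇ ≤ (6 + 6 * (κ + 2)) * η := by
    rw [hc₇]
    have h1 : (2 * (e * ℓ) + Real.log 2) / Real.log Θ ≤ 3 * θ := by
      rw [hlΘ, div_le_iff₀ (by positivity)]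
      have h2 : e * ℓ = θ * (θ * ℓ) := by rw [he]; ring
      rw [h2] at n2 ⊢
      linarith
    linarith
  have hNη : η * (100 + 10 * G + 4 * a + 12 * (κ + 2) + 2 * C₂ + 2 * C₇) = θ' := by
    rw [← hN]
    exact hηN
  have hηG : 0 ≤ η * G := by positivity
  have hηa : 0 ≤ η * a := by positivity
  have hηκ : 0 ≤ η * (κ + 2) := by positivity
  have hηC₂ : 0 ≤ η * C₂ := by positivity
  have hηC₇ : 0 ≤ η * C₇ := by positivity
  have hβθ : β ≤ 2 * (η * a) := by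
    rw [hβ]
    have := mul_le_mul_of_nonneg_left hθη (show (0 : ℝ) ≤ 2 * a by positivity)
    linarith
  refine hcore (Θ₂ := Θ₂) H hM hΘ4 hΘM hΘ₂1 hε0 hε1 (by positivity) ?_ ?_ ?_ δ₁ δ₃ δ₇ c₂ c₃ c₇ _ _ _
    _ hδ₁ hδ₃ hδ₇ hc₂ (by rw [hc₃, hA]) hc₇ ?_ ?_ ?_ ?_ ?_ ?_ ?_
  · rw [hΘ]
    refine pw_cond hM ?_ ?_
    · refine le_trans ?_ n4
      push_cast
      linarith
    · have : C₂ * θ ≤ C₂ * η := mul_le_mul_of_nonneg_left hθη hC₂0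
      linarith
  · rw [hΘ]
    refine pw_cond hM ?_ ?_
    · refine le_trans ?_ n4
      push_cast
      linarith
    · have : C₇ * θ ≤ C₇ * η := mul_le_mul_of_nonneg_left hθη hC₇0
      linarith
  · rw [hΘ₂]
    refine pw_cond hM ?_ (by linarith)
    refine le_trans ?_ n4
    push_cast
    linarith
  · -- the bound
    rw [← hA]
    have h1 : B ≤ (M : ℝ) ^ θ' := by
      rw [hB]
      exact Real.rpow_le_rpow_of_exponent_le hM1 (by linarith)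
    linarith
  · have h1 : B ≤ (M : ℝ) ^ θ' := by
      rw [hB]
      exact Real.rpow_le_rpow_of_exponent_le hM1 (by linarith)
    have h2 : bT K Θ (C₂ * (2 * Θ) ^ C₂ * Θ) = f6 K C₂ Θ := rfl
    rw [h2]
    have h3 : 0 ≤ a * Θ ^ a := by positivity
    linarith
  · -- the precision
    have h1 : B * W / M ≤ (M : ℝ) ^ (θ' - 1) := by
      have h2 : W = (M : ℝ) ^ (C₃ * θ₂) := by
        rw [hW, hΘ₂, ← Real.rpow_natCast, ← Real.rpow_mul hM0.le]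
        ring_nf
      rw [h2, hB, ← Real.rpow_add hM0, Real.rpow_sub hM0, Real.rpow_one]
      refine div_le_div_of_nonneg_right ?_ hM0.le
      exact Real.rpow_le_rpow_of_exponent_le hM1 (by linarith)
    have h3 : δ₁ ≤ B * W / 4 / M := by
      rw [hδ₁']
      refine div_le_div_of_nonneg_right ?_ hM0.le
      have h4 : B ≤ B * W := le_mul_of_one_le_right hB0.le hW1
      linarith
    have h5 : 0 ≤ B * W / M := by positivity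
    have h6 : B * W / 4 / M = B * W / M / 4 := by ring
    rw [h6] at h3 hδ₃'
    linarith
  · have h1 : B * W / M ≤ (M : ℝ) ^ (θ' - 1) := by
      have h2 : W = (M : ℝ) ^ (C₃ * θ₂) := by
        rw [hW, hΘ₂, ← Real.rpow_natCast, ← Real.rpow_mul hM0.le]
        ring_nf
      rw [h2, hB, ← Real.rpow_add hM0, Real.rpow_sub hM0, Real.rpow_one]
      refine div_le_div_of_nonneg_right ?_ hM0.le
      exact Real.rpow_le_rpow_of_exponent_le hM1 (by linarith)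
    have h3 : δ₇ ≤ B * W / 4 / M := by
      rw [hδ₇']
      refine div_le_div_of_nonneg_right ?_ hM0.le
      have h4 : B ≤ B * W := le_mul_of_one_le_right hB0.le hW1
      linarith
    have h5 : 0 ≤ B * W / M := by positivity
    have h6 : B * W / 4 / M = B * W / M / 4 := by ring
    rw [h6] at h3 hδ₃'
    linarith
  · linarith
  · linarith
  · -- the entropy
    rw [← hA]
    have h1 : c₃ * Real.log (4 * (M * (A + kK K) + 1) + 1) ≤ (6 + 2 * G) * η * (2 * ℓ) := by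
      have h2 : 0 ≤ Real.log (4 * (M * (A + kK K) + 1) + 1) := Real.log_nonneg (by
        have : 0 ≤ (M : ℝ) * (A + kK K) := by positivity
        linarith)
      refine (mul_le_mul_of_nonneg_right hc₃' h2).trans (mul_le_mul_of_nonneg_left hL3 ?_)
      positivity
    have h3 : θ * G * ℓ ≤ η * G * ℓ :=
      mul_le_mul_of_nonneg_right (mul_le_mul_of_nonneg_right hθη (by linarith)) hℓ0.le
    have h4 : e * ℓ ≤ η * ℓ := mul_le_mul_of_nonneg_right (heθ.trans hθη) hℓ0.le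
    have h5 : β * ℓ ≤ 2 * (η * a) * ℓ := mul_le_mul_of_nonneg_right hβθ hℓ0.le
    have h6 : C₃ * θ₂ * ℓ ≤ θ' / 8 * ℓ := mul_le_mul_of_nonneg_right hθ₂C hℓ0.le
    have h7 : (η * G + η + 2 * (η * a) + θ' / 8 + (6 + 2 * G) * η * 2) * ℓ ≤ θ' * ℓ := by
      refine mul_le_mul_of_nonneg_right ?_ hℓ0.le
      linarith
    rw [← hℓ]
    linarith

end Pool.CLO80
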