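import Pool.Agent.H80.CLO.Out
import Pool.Agent.H82.STB.Chp
import Pool.Agent.H82.STB.Ful
import Pool.Agent.H98.STB.Rdg
import Pool.Agent.H37.STA.Low

/-!
# The closed polynomials of a family of values, class form

`clo_cls`: the positions in closed coordinates (`PosO`), the fullness of the places `0`, `1`, general position
of the directions, the direction free of the later record, and a family of closed values, few given the near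
position, polynomial along the lines: exactly closed polynomials.
-/

set_option autoImplicit false

namespace Pool.CLO80

open Finset Real MvPolynomial
open Pool.Agent.H49.Ent Pool.Agent.H32.Dense Pool.STK Pool.KA Pool.KSAT Pool.K2S Pool.PB Pool.S6C
open Pool.GEN Pool.CHT Pool.CHX Pool.D2Con Pool.D2A Pool.D2F Pool.RCD
open Pool.STB (V3 Po Bx cv PosR posR_of cnt_int)
open Pool.STB6 (CloH)
open Pool.STB82 (Fst dg exists_fst exists_fst' full_cls WinG WinV wing_cls winV_num LevN yv hgP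
  lift_D log_box slam_coarse)
open Pool.STB65 (InpP PosO grd_bx Rs)
open Pool.BFL (Pb)
open Pool.LBT (ThrOf)
open Pool.LA91 (FulC)
open Pool.PB.Trl (rt rt_mem t_rt)
open Pool.STA37 (chart_near)

variable {m : ℕ}

/-- The direction, if it is in the unit box. -/
noncomputable def xV (v : V3) : V3 := open Classical in if Bx 1 v then v else 0

theorem xV_bx (v : V3) : Bx 1 (xV v) := by
  classical
  unfold xV
  split_ifs with h
  · exact h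
  · exact fun i => by simp

theorem xV_of {v : V3} (h : Bx 1 v) : xV v = v := by
  classical
  unfold xV
  rw [if_pos h]

/-- The logarithm of the number of cells, with a remainder. -/
theorem log_box' {J n : ℕ} {σ R : ℝ} (hσ : 0 ≤ σ) (hn : n ≤ J) (hR0 : 0 ≤ R)
    (hR : R ≤ 2 ^ (J - n)) :
    Real.log (5 * σ * 2 ^ J / 2 ^ n + R + 1 + 1) ≤
      ((J : ℝ) - n) * Real.log 2 + Real.log (5 * σ + 3) := by
  have h1 : (2 : ℝ) ^ J / 2 ^ n = 2 ^ (J - n) := by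
    rw [div_eq_iff (by positivity), ← pow_add, Nat.sub_add_cancel hn]
  have h2 : (1 : ℝ) ≤ 2 ^ (J - n) := one_le_pow₀ (by norm_num)
  have h3 : 5 * σ * 2 ^ J / 2 ^ n + R + 1 + 1 ≤ 2 ^ (J - n) * (5 * σ + 3) := by
    rw [mul_div_assoc, h1]
    nlinarith
  have h4 : 0 < 5 * σ * 2 ^ J / 2 ^ n + R + 1 + 1 := by positivity
  refine (Real.log_le_log h4 h3).trans ?_
  rw [Real.log_mul (by positivity) (by positivity), Real.log_pow, Nat.cast_sub hn]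

/-- **The position is full given the closed record**, class form. -/
theorem posf_cls {S : PCl m} (hS : TmH S) {c : ℕ → Fin m} {a' : ℝ} {sf : ℕ → ℝ} (ha' : a' ≤ 1)
    (hful : FulC S c 0 2 a' sf) {ε : ℝ} (hε : 0 < ε) :
    Bas S (fun J F B => 0 < Pe F.p B ∧ ∀ (W₀ d k g1 : ℕ) (σ Kp Lp x0 x1 e : ℝ)
      (Pl : LnT F → MvPolynomial (Option (Fin m)) ℝ) (ctr xo : ℕ → F.Ω → V3) (D₁ : LnT F → V3)
      (Pv : PtT F → MvPolynomial (Option (Fin m)) ℝ),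
      PosO F B W₀ d k 1 σ Kp (yv F c W₀ g1 Pl) (hgP c W₀ g1 Pl) ctr xo D₁ → 0 < σ →
      (∀ ω, B ω → Pv (ptr F J ω) = Pl (slam F W₀ ω)) →
      (∀ ω ω', B ω → B ω' → Pv (ptr F J ω) = Pv (ptr F J ω') → F.T ω = F.T ω' →
        F.Z ω = F.Z ω' → F.X J ω (c 0) = F.X J ω' (c 0) →
        |eval (bt F ω) (Pv (ptr F J ω)) - eval (bt F ω') (Pv (ptr F J ω'))| ≤ Lp / 2 ^ J) →
      W₀ + d ≤ ⌊a' * J⌋₊ → W₀ + d + k ≤ J → g1 + d + k ≤ J → 0 ≤ Lp →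
      Lp ≤ 2 ^ (J - (g1 + d + k)) → sf 0 * J ≤ W₀ + d + x0 → sf 1 * J ≤ g1 + d + x1 →
      (x0 + x1) * Real.log 2 + 3 * Real.log (5 * σ + 3) + 2 * ε * J + 4 * Real.log 3 ≤ e →
      ∀ (Y : Type) (y : F.Ω → Y), Fst (slam F (W₀ + d)) (fun ω => ptr F J ω) B y →
      3 * Real.log (2 * ((2 ^ k : ℕ) : ℝ) + 1) - e ≤
        CH (Pool.Agent.H49.Ent.cond F.p B True) (fun ω => cv (2 ^ k) (xo 0 ω)) y) := by
  classical
  have hl2 : 0 < Real.log 2 := Real.log_pos one_lt_two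
  have hl21 : Real.log 2 ≤ 1 := by
    have := Real.log_two_lt_d9
    linarith
  refine Bas.mono 0 ((full_cls hS hε).and (hful (ε / 2) (by positivity))) ?_
  rintro J - F B ⟨⟨hB, hT⟩, Hf⟩
  refine ⟨hB, ?_⟩
  intro W₀ d k g1 σ Kp Lp x0 x1 e Pl ctr xo D₁ Pv O hσ hcl hLp hWa hWk hgk hLp0 hLpJ hs0 hs1 hnum Y
    y hy
  have hJ0 : (0 : ℝ) ≤ J := Nat.cast_nonneg J
  have haJ : ⌊a' * J⌋₊ ≤ J := by
    refine Nat.floor_le_of_le ?_
    nlinarith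
  -- time
  have kT : ((J : ℝ) - ((W₀ + d : ℕ) : ℝ)) * Real.log 2 - (ε * J + Real.log 3) ≤
      CH (Pool.Agent.H49.Ent.cond F.p B True) (fun ω => F.W ω) (slam F (W₀ + d)) := by
    have h1 := hT (W₀ + d) (J - (W₀ + d)) (by omega)
    have h2 : ((J : ℝ) - ((W₀ + d : ℕ) : ℝ)) * Real.log 2 ≤
        Real.log (2 * ((2 ^ (J - (W₀ + d)) : ℕ) : ℝ) + 1) := by
      have e1 : ((J : ℝ) - ((W₀ + d : ℕ) : ℝ)) = ((J - (W₀ + d) : ℕ) : ℝ) := by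
        rw [Nat.cast_sub (by omega)]
      rw [e1, ← Real.log_pow]
      refine Real.log_le_log (by positivity) ?_
      push_cast
      have : (1 : ℝ) ≤ 2 ^ (J - (W₀ + d)) := one_le_pow₀ one_le_two
      linarith
    have h3 : CH (Pool.Agent.H49.Ent.cond F.p B True) (dg F (W₀ + d) (J - (W₀ + d)))
        (slam F (W₀ + d)) ≤ CH (Pool.Agent.H49.Ent.cond F.p B True) (fun ω => F.W ω)
          (slam F (W₀ + d)) :=
      CH_mono_left (isLaw_cond F.isLaw hB).nonneg fun ω ω' a b e => by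
        simp only [Prod.mk.injEq] at e
        have e4 : F.T ω = F.T ω' := congrArg Prod.fst e.1
        unfold dg Fam.T1
        rw [e4]
    linarith
  -- the positions
  have k01 : ∀ (V₂ : Type) (z₂ : PtT F → V₂) (z₂' : LnT F → V₂),
      (∀ ω, B ω → z₂ (ptr F J ω) = z₂' (slam F (W₀ + d) ω)) →
      (1 - sf 0 - ε / 2) * Real.log 2 * J ≤ CH (Pool.Agent.H49.Ent.cond F.p B True)
        (fun ω => F.X J ω (c 0)) (fun ω => (z₂' (slam F (W₀ + d) ω), F.W ω)) ∧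
      (1 - sf 1 - ε / 2) * Real.log 2 * J ≤ CH (Pool.Agent.H49.Ent.cond F.p B True)
        (fun ω => F.X J ω (c 1)) (fun ω => (F.X J ω (c 0), z₂' (slam F (W₀ + d) ω), F.W ω)) := by
    intro V₂ z₂ z₂' hz₂
    obtain ⟨D', hD'⟩ := lift_D F hWa haJ z₂'
    have h1 := Hf V₂ z₂ D' (fun ω hω => by rw [hD', hz₂ ω hω])
    have hn0 := (isLaw_cond F.isLaw hB).nonneg
    refine ⟨(h1 0 le_rfl (by norm_num)).trans ?_, (h1 1 (by norm_num) (by norm_num)).trans ?_⟩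
    · refine CH_mono_cond hn0 fun ω ω' _ _ e => ?_
      simp only [Prod.mk.injEq] at e ⊢
      rw [hD', hD'] at e
      exact e.2
    · refine CH_mono_cond hn0 fun ω ω' _ _ e => ?_
      simp only [Prod.mk.injEq] at e ⊢
      rw [hD', hD'] at e
      exact ⟨congrFun e.1 0, e.2⟩
  -- the readings
  have hW0 : W₀ + d + 0 * k = W₀ + d := by ring
  have hcc := O.cc 0 one_pos
  rw [hW0] at hcc
  have cP : Cl2 (slam F (W₀ + d)) (fun ω => ptr F J ω) B (fun ω => Pv (ptr F J ω)) := by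
    obtain ⟨D', hD'⟩ := lift_D F (show W₀ ≤ W₀ + d by omega) (show W₀ + d ≤ J by omega) Pl
    exact ⟨⟨D', fun ω hω => by rw [hD']; exact hcl ω hω⟩, Pv, fun ω _ => rfl⟩
  obtain ⟨ψs, hψs⟩ := lift_D F (show W₀ ≤ W₀ + d by omega) (show W₀ + d ≤ J by omega)
    (fun s : LnT F => s.2.2)
  have cS : Cl2 (slam F (W₀ + d)) (fun ω => ptr F J ω) B (fun ω => (slam F W₀ ω).2.2) := by
    refine ⟨⟨ψs, fun ω _ => (hψs ω).symm⟩, ?_⟩
    obtain ⟨φ, hφ⟩ : ∃ φ : PtT F → ℕ, ∀ ω, φ (ptr F J ω) = (slam F W₀ ω).2.2 := by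
      refine ⟨fun s => s.2.1 / 2 ^ (J - W₀), fun ω => ?_⟩
      rfl
    exact ⟨φ, fun ω _ => (hφ ω).symm⟩
  have hyc := hy.cl
  have cY : Cl2 (slam F (W₀ + d)) (fun ω => ptr F J ω) B
      (fun ω => (ctr 0 ω, Pv (ptr F J ω), (slam F W₀ ω).2.2)) := by
    obtain ⟨⟨φ1, h1⟩, ψ1, h1'⟩ := hcc
    obtain ⟨⟨φ2, h2⟩, ψ2, h2'⟩ := cP
    obtain ⟨⟨φ3, h3⟩, ψ3, h3'⟩ := cS
    exact ⟨⟨fun s => (φ1 s, φ2 s, φ3 s), fun ω hω =>
      Prod.ext (h1 ω hω) (Prod.ext (h2 ω hω) (h3 ω hω))⟩,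
      fun s => (ψ1 s, ψ2 s, ψ3 s), fun ω hω =>
        Prod.ext (h1' ω hω) (Prod.ext (h2' ω hω) (h3' ω hω))⟩
  have hpr := posR_of F hσ O one_pos (κ₀ := c 0) (κ₁ := c 1) (g₀ := W₀) (g₁ := g1)
    (b₀ := fun _ => 0) (b₁ := fun ω => eval (bt F ω) (Pl (slam F W₀ ω))) (Lp := Lp)
    (y₀ := fun ω => (ctr 0 ω, Pv (ptr F J ω), (slam F W₀ ω).2.2)) (by omega)
    (fun ω ω' _ _ e => ⟨congrArg Prod.fst e, congrArg (fun v => v.2.2) e⟩) (fun ω _ => rfl)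
    (fun ω _ => by
      show (2 : ℝ) ^ W₀ * F.x ω (c 0) = 2 ^ W₀ * (F.x ω (c 0) - 0)
      rw [sub_zero]) (fun ω _ => rfl) (fun ω ω' _ _ _ _ => rfl)
    (fun ω ω' hω hω' e eW eX => by
      have e1 : Pv (ptr F J ω) = Pv (ptr F J ω') := congrArg (fun v => v.2.1) e
      have e2 : F.T ω = F.T ω' := congrArg Prod.fst eW
      have e3 : F.Z ω = F.Z ω' := congrArg Prod.snd eW
      show |eval (bt F ω) (Pl (slam F W₀ ω)) - eval (bt F ω') (Pl (slam F W₀ ω'))| ≤ Lp / 2 ^ J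
      rw [← hcl ω hω, ← hcl ω' hω']
      exact hLp ω ω' hω hω' e1 e2 e3 eX)
  have n0 : W₀ + d + 0 * k + k = W₀ + (d + k) := by ring
  have n1 : g1 + d + 0 * k + k = g1 + (d + k) := by ring
  rw [n0, n1] at hpr
  have hp1 : 0 ≤ 5 * σ * 2 ^ J / 2 ^ (W₀ + (d + k)) := by positivity
  have hp2 : 0 ≤ 5 * σ * 2 ^ J / 2 ^ (W₀ + (d + k)) + 1 := by positivity
  have hp3 : 0 ≤ 5 * σ * 2 ^ J / 2 ^ (g1 + (d + k)) + Lp + 1 := by positivity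
  refine le_trans ?_ (posf_fam F hB hy cY hp1 hp2 hp3 hpr kT k01)
  -- the numbers
  have b1 := log_box (J := J) (n := W₀ + (d + k)) (R := 0) hσ.le (by omega) le_rfl
  have b2 := log_box (J := J) (n := W₀ + (d + k)) (R := 1) hσ.le (by omega) zero_le_one
  have b3 := log_box' (J := J) (n := g1 + (d + k)) (R := Lp) hσ.le (by omega) hLp0 (by
    rwa [show g1 + (d + k) = g1 + d + k by ring])
  rw [add_zero, add_zero] at b1
  have m1 : Real.log (5 * σ + 1) ≤ Real.log (5 * σ + 3) :=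
    Real.log_le_log (by positivity) (by linarith)
  have m2 : Real.log (5 * σ + 1 + 1) ≤ Real.log (5 * σ + 3) :=
    Real.log_le_log (by positivity) (by linarith)
  have m3 : Real.log (2 * ((2 ^ k : ℕ) : ℝ) + 1) ≤ k * Real.log 2 + Real.log 3 := by
    rw [← Real.log_pow, ← Real.log_mul (by positivity) (by norm_num)]
    refine Real.log_le_log (by positivity) ?_
    push_cast
    have : (1 : ℝ) ≤ 2 ^ k := one_le_pow₀ one_le_two
    linarith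
  push_cast at b1 b2 b3 ⊢
  have k4 : (sf 0 * J + sf 1 * J) * Real.log 2 ≤ (W₀ + d + x0 + (g1 + d + x1)) * Real.log 2 :=
    mul_le_mul_of_nonneg_right (by linarith) hl2.le
  have k5 : ε / 2 * Real.log 2 * J ≤ ε / 2 * J := by
    have : ε / 2 * Real.log 2 ≤ ε / 2 * 1 := mul_le_mul_of_nonneg_left hl21 (by positivity)
    nlinarith
  push_cast at m3
  nlinarith

/-- **The exactly closed polynomials** of the values `Vo j`, `j < q`, over the positions `xo`. -/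
structure CloO {J : ℕ} (F : Fam m J) (B B' : F.Ω → Prop) (W N q : ℕ) (M c₀ κ γ : ℝ)
    (xo : F.Ω → V3) (Vo : ℕ → F.Ω → ℝ) (fG : ℕ → PtT F → Po) (fL : ℕ → LnT F → Po) : Prop where
  sub : Sub B' B
  mass : (1 - c₀) * Pe F.p B ≤ Pe F.p B'
  dG : ∀ j y, (fG j y).totalDegree ≤ 3 * N
  dL : ∀ j s, (fL j s).totalDegree ≤ 3 * N
  cl : ∀ j < q, ∀ ω, B' ω → fG j (ptr F J ω) = fL j (slam F W ω)
  bd : ∀ j < q, ∀ ω, B' ω → ∀ v, Bx 5 v → |eval v (fG j (ptr F J ω))| ≤ M ^ κ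
  near : ∀ j < q, ∀ ω, B' ω → |Vo j ω - eval (xo ω) (fG j (ptr F J ω))| ≤ M ^ (-γ)

/-- **The closed polynomials of a family of values**, class form. -/
theorem clo_cls (N q K₁ : ℕ) {c₀ κ : ℝ} (hc₀ : 0 < c₀) (hκ : 0 < κ) : ∃ (γ γ₀ e₀ cc C : ℝ) (k₀ : ℕ),
    0 < γ ∧ 0 < γ₀ ∧ 0 < e₀ ∧ 0 < cc ∧ 1 ≤ C ∧
    ∀ {m : ℕ} {θ : ℝ} {S : PCl m} {P : List (Fin m) × Fin m → ℝ → ℝ → ℝ}
      (_ : ThrOf (chsys m θ) S P) (_ : TmH S) (c : ℕ → Fin m) {a : ℚ} {eb h : ℝ}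
      (_ : 0 < a) (_ : a ≤ 1) (_ : 0 < θ) (_ : eb < θ * a) (_ : 0 < h)
      (_ : bet P c 0 a a + h ≤ 1) (_ : bet P c 1 a a + h ≤ 1) {a' : ℝ} {sf : ℕ → ℝ}
      (_ : a' ≤ 1) (_ : FulC S c 0 2 a' sf) {ε : ℝ} (_ : 0 < ε),
    Bas S (fun J F B => 0 < Pe F.p B ∧ ∀ (W₀ d k g1 e₁ e₂ x z v : ℕ) (Y σ Kp x0 x1 : ℝ)
      (Pv : PtT F → MvPolynomial (Option (Fin m)) ℝ) (Pl : LnT F → MvPolynomial (Option (Fin m)) ℝ)
      (yt : PtT F → V3) (ctr xo : ℕ → F.Ω → V3) (D₁ : LnT F → V3),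
      InpP F B W₀ d k 1 (K₁ + 1) Y (yv F c W₀ g1 Pl) yt (hgP c W₀ g1 Pl) →
      PosO F B W₀ d k 1 σ Kp (yv F c W₀ g1 Pl) (hgP c W₀ g1 Pl) ctr xo D₁ →
      Kp ≤ ((2 ^ k : ℕ) : ℝ) ^ e₀ → 0 < σ → 0 ≤ Y →
      (∀ y, (Pv y).totalDegree ≤ K₁) → (∀ y, DepC c 1 (Pv y)) →
      (∀ ω, B ω → Pv (ptr F J ω) = Pl (slam F W₀ ω)) →
      (∀ ω, B ω → ∀ b : Option (Fin m) → ℝ, |b none - F.t ω| ≤ 1 / 2 ^ W₀ →
        |b (some (c 0)) - F.x ω (c 0)| ≤ 1 / 2 ^ W₀ →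
        |eval b (pderiv (some (c 0)) (Pv (ptr F J ω)))| ≤ 2 ^ e₁) →
      W₀ + d + k ≤ J → k₀ ≤ k →
      LevN J (bet P c 0 a a + h) (bet P c 1 a a + h) a eb (W₀ + d + k) W₀ (d + k) d k g1 e₁ e₂ x z
        v Y σ (((2 ^ k : ℕ) : ℝ) ^ (-γ₀)) C →
      W₀ + d ≤ ⌊a' * J⌋₊ → sf 0 * J ≤ W₀ + d + x0 → sf 1 * J ≤ g1 + d + x1 →
      (x0 + x1) * Real.log 2 + 3 * Real.log (5 * σ + 3) + 2 * ε * J + 4 * Real.log 3 ≤
        e₀ * Real.log ((2 ^ k : ℕ) : ℝ) → 0 ≤ x0 + x1 →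
      (∀ (Y : Type) (y : F.Ω → Y), Fst (slam F (W₀ + d)) (fun ω => ptr F J ω) B y →
        ∀ (Z : Type) (z : F.Ω → Z), Fst (slam F (W₀ + d + k)) (fun ω => ptr F J ω) B z →
        CH (Pool.Agent.H49.Ent.cond F.p B True) (fun ω => D₁ (slam F (W₀ + d) ω)) y -
          e₀ * Real.log ((2 ^ k : ℕ) : ℝ) ≤
        CH (Pool.Agent.H49.Ent.cond F.p B True) (fun ω => D₁ (slam F (W₀ + d) ω)) z) →
      ∀ (Vo : ℕ → F.Ω → ℝ) (Q : ℕ → LnT F → Polynomial ℝ),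
      (∀ j < q, Cl2 (slam F (W₀ + d + k)) (fun ω => ptr F J ω) B (Vo j)) →
      (∀ j < q, ∀ ω, B ω → |Vo j ω| ≤ ((2 ^ k : ℕ) : ℝ) ^ e₀) →
      (∀ j < q, ∀ l, (Q j l).natDegree ≤ N) →
      (∀ j < q, ∀ l (s : ℝ), |s| ≤ 2 → |(Q j l).eval s| ≤ ((2 ^ k : ℕ) : ℝ) ^ e₀) →
      (∀ j < q, Pb (Pool.Agent.H49.Ent.cond F.p B True) (fun ω =>
        ¬ |Vo j ω - (Q j (slam F (W₀ + d) ω)).eval ((dg F (W₀ + d) k ω : ℝ) /
          ((2 ^ k : ℕ) : ℝ))| ≤ ((2 ^ k : ℕ) : ℝ) ^ e₀ / ((2 ^ k : ℕ) : ℝ)) ≤ cc) →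
      (∀ j < q, ∀ (Y : Type) (y : F.Ω → Y), Fst (slam F (W₀ + d)) (fun ω => ptr F J ω) B y →
        CH (Pool.Agent.H49.Ent.cond F.p B True) (fun ω => ⌊((2 ^ k : ℕ) : ℝ) * Vo j ω⌋)
          (fun ω => (cv (2 ^ k) (xo 0 ω), y ω)) ≤ e₀ * Real.log ((2 ^ k : ℕ) : ℝ)) →
      ∃ (B' : F.Ω → Prop) (fG : ℕ → PtT F → Po) (fL : ℕ → LnT F → Po),
        CloO F B B' (W₀ + d) N q ((2 ^ k : ℕ) : ℝ) c₀ κ γ (xo 0) Vo fG fL) := by
  classical
  obtain ⟨γ, γ₁, hγ, hγ₁, hout⟩ := clo_out N q c₀ κ hc₀ hκ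
  obtain ⟨e₀, cc, k₀, he₀, hcc, hout⟩ := hout γ₁ hγ₁ le_rfl
  obtain ⟨C, hC, hwn⟩ := winV_num K₁
  refine ⟨γ, γ₁, e₀, cc, C, k₀, hγ, hγ₁, he₀, hcc, hC, ?_⟩
  intro m θ S P hP hS c a eb h ha0 ha1 hθ heb hh h0 h1 a' sf ha' hful ε hε
  refine Bas.mono 0 (((posf_cls hS ha' hful hε).and (full_cls hS hε)).and
    (wing_cls hP c K₁ a eb h ha0 ha1 hθ heb hh h0 h1 hcc)) ?_
  rintro J - F B ⟨⟨⟨hB, Hp⟩, ⟨-, Hf⟩⟩, Hg⟩
  refine ⟨hB, ?_⟩
  intro W₀ d k g1 e₁ e₂ x z v Y σ Kp x0 x1 Pv Pl yt ctr xo D₁ I O hKp hσ hY hdeg hdep hcl hlip hWJ hk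
    L hWa hs0 hs1 hnum hx01 hfree Vo Q hVc hVK hQd hQK hpath hfew
  have hJ1 := L.J1
  have hMk : ((2 ^ k : ℕ) : ℝ) = 2 ^ k := by push_cast; rfl
  obtain ⟨Zt, zp, hz⟩ := exists_fst' (slam F (W₀ + d + k)) (fun ω => ptr F J ω) B
  obtain ⟨Yt, y, hy⟩ := exists_fst (slam F (W₀ + d)) (fun ω => ptr F J ω) B
  have hW0 : W₀ + d + 0 * k = W₀ + d := by ring
  have hl2 : 0 < Real.log 2 := Real.log_pos one_lt_two
  have hl3 : 0 < Real.log 3 := Real.log_pos (by norm_num)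
  have hlσ : 0 < Real.log (5 * σ + 3) := Real.log_pos (by linarith)
  have hJ0 : (0 : ℝ) ≤ J := Nat.cast_nonneg J
  -- general position
  obtain ⟨ρ, δ', e₁', e₂', g0, p0, p1, N', N0, mu, ε', V, b0, b0', P1, P1', hWV⟩ :=
    hwn c W₀ d k 1 g1 e₁ e₂ x z v 0 Y σ Kp (bet P c 0 a a + h) (bet P c 1 a a + h) eb
      (((2 ^ k : ℕ) : ℝ) ^ (-γ₁)) a Pv Pl (fun ω => D₁ (slam F (W₀ + d) ω)) xV I O
      (fun ω _ => xV_of (grd_bx (O.dg _))) one_pos (by omega) hσ hY hdeg hdep hcl hlip (by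
        rw [show W₀ + d + 0 * k + k = W₀ + d + k by ring, show d + 0 * k + k = d + k by ring]
        exact L)
  have hG := Hg _ _ _ _ _ _ _ _ _ _ _ _ _ _ _ _ _ _ _ _ _ hB hWV
  rw [show W₀ + d + 0 * k + k = W₀ + d + k by ring] at hG
  -- full
  have hnum2 : 0 ≤ (x0 + x1) * Real.log 2 := mul_nonneg hx01 hl2.le
  have hfull : Real.log (2 * ((2 ^ k : ℕ) : ℝ) + 1) - e₀ * Real.log ((2 ^ k : ℕ) : ℝ) ≤
      CH (Pool.Agent.H49.Ent.cond F.p B True) (dg F (W₀ + d) k) (slam F (W₀ + d)) := by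
    refine le_trans ?_ (Hf (W₀ + d) k hWJ)
    have : 0 ≤ ε * J := by positivity
    linarith
  -- the position
  have hposf := Hp W₀ d k g1 σ Kp (2 ^ e₁) x0 x1 (e₀ * Real.log ((2 ^ k : ℕ) : ℝ)) Pl ctr xo D₁ Pv O
    hσ hcl (fun ω ω' hω hω' e1 e2 e3 e4 => by
      rw [← e1]
      refine chart_near (Prod.ext e2 e3) e4 (hdep _) fun b hb1 hb2 => hlip ω hω b ?_ ?_
      · rw [hb1, sub_self, abs_zero]
        positivity
      · refine hb2.trans (one_div_le_one_div_of_le (by positivity) ?_)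
        exact pow_le_pow_right₀ one_le_two (by omega)) hWa hWJ (by omega) (by positivity)
    (by
      refine pow_le_pow_right₀ one_le_two ?_
      have := L.e1
      omega) hs0 hs1 hnum Yt y hy
  have hcx := O.cx 0 one_pos
  rw [show W₀ + d + 0 * k + k = W₀ + d + k by ring] at hcx
  have hKe : 0 ≤ ((2 ^ k : ℕ) : ℝ) ^ e₀ := by positivity
  -- the data
  obtain ⟨xz, hxz, hxz'⟩ := hz.fac hcx 0
  have hxz1 : ∀ r, Bx 1 (xz r) := fun r => by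
    rcases hxz' r with h1 | ⟨ω, h1, h2⟩
    · rw [h1]
      exact fun i => by simp
    · rw [h2]
      exact O.x1 0 one_pos ω h1
  have hVz : ∀ j, ∃ V : Zt → ℝ, j < q → (∀ ω, B ω → V (zp (ptr F J ω)) = Vo j ω) ∧
      ∀ r, |V r| ≤ ((2 ^ k : ℕ) : ℝ) ^ e₀ := by
    intro j
    by_cases hj : j < q
    · obtain ⟨V, hV, hV'⟩ := hz.fac (hVc j hj) 0
      refine ⟨V, fun _ => ⟨hV, fun r => ?_⟩⟩
      rcases hV' r with h1 | ⟨ω, h1, h2⟩
      · rw [h1, abs_zero]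
        exact hKe
      · rw [h2]
        exact hVK j hj ω h1
    · exact ⟨0, fun h => absurd h hj⟩
  choose Vz hVz using hVz
  have hcH : ∀ j < q, CloH (Pool.Agent.H49.Ent.cond F.p B True) (slam F (W₀ + d))
      (fun ω => zp (ptr F J ω)) y (dg F (W₀ + d) k) D₁ xV xz (Vz j) (Q j) N (2 ^ k)
      (((2 ^ k : ℕ) : ℝ) ^ e₀) (e₀ * Real.log ((2 ^ k : ℕ) : ℝ)) (((2 ^ k : ℕ) : ℝ) ^ (-γ₁))
      cc := by
    intro j hj
    refine mk_CloH F hB hWJ hz hy hxz hxz1 (hVz j hj).1 (hVz j hj).2 hfull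
      (hfree Yt y hy Zt _ hz) xV_bx ?_ hposf ?_ (hQd j hj) (hQK j hj)
      (hpath j hj) (hfew j hj Yt y hy)
    · intro ω ω' hω hω' e
      have h1 := O.pos 0 one_pos ω ω' hω hω'
      rw [hW0] at h1
      have h2 := h1 e
      intro i
      rw [xV_of (grd_bx (O.dg _)), hMk]
      refine (h2 i).trans ?_
      rw [hMk] at hKp
      exact div_le_div_of_nonneg_right hKp (by positivity)
    · intro H hH
      exact hG Zt zp hz.cl H hH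
  obtain ⟨B', fG, fL, o1, o2, o3, o4, o5, o6, o7⟩ := hout k hk F B hB (W₀ + d) zp y D₁ xV xz Vz Q hcH
  refine ⟨B', fG, fL, o1, o2, o3, o4, o5, o6, fun j hj ω hω => ?_⟩
  have h1 := o7 j hj ω hω
  rwa [(hVz j hj).1 ω (o1 ω hω), hxz ω (o1 ω hω)] at h1

end Pool.CLO80
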