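import Pool.Agent.H80.CLO.Cls

/-!
# A closed value is few bits given the near position

`few_fam`: a value closed at the window `W'` is few bits given the cell of the position and the closed record of
the window `W`, if it is few bits given the exact position and this record, and the exact position is full given
the record of the window `W'`. `few_cls`: class form.
-/

set_option autoImplicit false

namespace Pool.CLO80

open Finset Real MvPolynomial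
open Pool.Agent.H49.Ent Pool.Agent.H32.Dense Pool.STK Pool.KA Pool.KSAT Pool.K2S Pool.PB Pool.S6C
open Pool.GEN Pool.CHT Pool.CHX Pool.D2Con Pool.D2A Pool.D2F Pool.RCD
open Pool.STB (V3 Po Bx cv PosR posR_of cnt_int)
open Pool.STB82 (Fst dg exists_fst exists_fst' full_cls yv hgP lift_D log_box slam_coarse
  cond_pos_B)
open Pool.STB65 (InpP PosO grd_bx Rs)
open Pool.BFL (Pb)
open Pool.LA91 (FulC)
open Pool.PB.Trl (rt rt_mem t_rt)

variable {m J : ℕ}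

/-- **A closed value is few bits given the near position.** -/
theorem few_fam (F : Fam m J) {B : F.Ω → Prop} (hB : 0 < Pe F.p B) {W W' k : ℕ} (hWW : W ≤ W')
    (hWJ : W' ≤ J) {κ₀ κ₁ : Fin m}
    {xo : F.Ω → V3} {Y : Type} {y : F.Ω → Y} (hy : Fst (slam F W) (fun ω => ptr F J ω) B y)
    {Z : Type} {z : F.Ω → Z} (hz : Fst (slam F W') (fun ω => ptr F J ω) B z)
    (cx : Cl2 (slam F W') (fun ω => ptr F J ω) B xo)
    {Y₀ : Type} {y₀ : F.Ω → Y₀} (cy : Cl2 (slam F W) (fun ω => ptr F J ω) B y₀)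
    {DT D₀ D₁ lT l₀ l₁ : ℝ} (hDT : 0 ≤ DT) (hD₀ : 0 ≤ D₀) (hD₁ : 0 ≤ D₁)
    (hpr : PosR F B k κ₀ κ₁ xo y₀ DT D₀ D₁)
    (kT : lT ≤ CH (Pool.Agent.H49.Ent.cond F.p B True) (fun ω => F.W ω) (slam F W'))
    (k01 : ∀ (V₂ : Type) (z₂ : PtT F → V₂) (z₂' : LnT F → V₂),
      (∀ ω, B ω → z₂ (ptr F J ω) = z₂' (slam F W' ω)) →
      l₀ ≤ CH (Pool.Agent.H49.Ent.cond F.p B True) (fun ω => F.X J ω κ₀)
        (fun ω => (z₂' (slam F W' ω), F.W ω)) ∧
      l₁ ≤ CH (Pool.Agent.H49.Ent.cond F.p B True) (fun ω => F.X J ω κ₁)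
        (fun ω => (F.X J ω κ₀, z₂' (slam F W' ω), F.W ω)))
    {V' : Type} {V : F.Ω → V'} (hV : Cl2 (slam F W') (fun ω => ptr F J ω) B V) :
    CH (Pool.Agent.H49.Ent.cond F.p B True) V (fun ω => (cv (2 ^ k) (xo ω), y ω)) ≤
      CH (Pool.Agent.H49.Ent.cond F.p B True) V
        (fun ω => ((F.X J ω κ₁, F.X J ω κ₀, F.W ω), y ω)) +
      (Real.log (DT + 1) + Real.log (D₀ + 1) + Real.log (D₁ + 1) - (lT + l₀ + l₁)) := by
  classical
  have hlaw := isLaw_cond F.isLaw hB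
  have hn := hlaw.nonneg
  obtain ⟨p, hp⟩ : ∃ p, p = Pool.Agent.H49.Ent.cond F.p B True := ⟨_, rfl⟩
  have hpB : ∀ ω, 0 < p ω → B ω := fun ω h => cond_pos_B (hp ▸ h)
  obtain ⟨⟨φ, hφ⟩, ψ, hψ⟩ := hz.cl
  have hyy : ∀ (V' : Type) (w : F.Ω → V'), Cl2 (slam F W) (fun ω => ptr F J ω) B w →
      ∀ ω ω', B ω → B ω' → y ω = y ω' → w ω = w ω' := fun V' w hw => hy.fin V' w hw
  have hzz : ∀ (V' : Type) (w : F.Ω → V'), Cl2 (slam F W') (fun ω => ptr F J ω) B w →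
      ∀ ω ω', B ω → B ω' → z ω = z ω' → w ω = w ω' := fun V' w hw => hz.fin V' w hw
  have cZ : Cl2 (slam F W) (fun ω => ptr F J ω) B (fun ω => F.Z ω) :=
    ⟨⟨fun s => s.2.1, fun ω _ => rfl⟩, fun s => s.2.2, fun ω _ => rfl⟩
  obtain ⟨k0, k1⟩ := k01 Z ψ φ fun ω hω => by rw [← hφ ω hω, ← hψ ω hω]
  rw [← hp] at hlaw hn kT k0 k1 ⊢
  -- upper bound
  have up : CH p (fun ω => (F.X J ω κ₁, F.X J ω κ₀, F.W ω)) (fun ω => (cv (2 ^ k) (xo ω), y ω)) ≤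
        Real.log (DT + 1) + Real.log (D₀ + 1) + Real.log (D₁ + 1) := by
    have b1 := CH_chain hn (fun ω => F.X J ω κ₁) (fun ω => (F.X J ω κ₀, F.W ω))
      (fun ω => (cv (2 ^ k) (xo ω), y ω))
    have b2 := CH_chain hn (fun ω => F.X J ω κ₀) (fun ω => F.W ω)
      (fun ω => (cv (2 ^ k) (xo ω), y ω))
    have b3 : CH p (fun ω => F.X J ω κ₀) (fun ω => (F.W ω, (cv (2 ^ k) (xo ω), y ω))) ≤
        Real.log (D₀ + 1) :=
      cnt_int hlaw _ _ hD₀ fun ω ω' a b e => by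
        simp only [Prod.mk.injEq] at e
        exact hpr.p0 ω ω' (hpB _ a) (hpB _ b) (hyy _ _ cy _ _ (hpB _ a) (hpB _ b) e.2.2) e.2.1 e.1
    have b4 : CH p (fun ω => F.X J ω κ₁)
        (fun ω => ((F.X J ω κ₀, F.W ω), (cv (2 ^ k) (xo ω), y ω))) ≤ Real.log (D₁ + 1) :=
      cnt_int hlaw _ _ hD₁ fun ω ω' a b e => by
        simp only [Prod.mk.injEq] at e
        exact hpr.p1 ω ω' (hpB _ a) (hpB _ b) (hyy _ _ cy _ _ (hpB _ a) (hpB _ b) e.2.2) e.2.1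
          e.1.2 e.1.1
    have b5 : CH p (fun ω => F.W ω) (fun ω => (cv (2 ^ k) (xo ω), y ω)) ≤ Real.log (DT + 1) := by
      have c1 : CH p (fun ω => F.W ω) (fun ω => (cv (2 ^ k) (xo ω), y ω)) ≤
          CH p (fun ω => (F.T ω : ℤ)) (fun ω => (cv (2 ^ k) (xo ω), y ω)) :=
        CH_mono_left hn fun ω ω' a b e => by
          simp only [Prod.mk.injEq] at e
          have e4 : F.T ω = F.T ω' := by exact_mod_cast e.1
          have e5 := hyy _ _ cZ _ _ (hpB _ a) (hpB _ b) e.2.2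
          show F.W ω = F.W ω'
          unfold Fam.W
          rw [e4]
          exact congrArg _ e5
      refine c1.trans (cnt_int hlaw _ _ hDT fun ω ω' a b e => ?_)
      simp only [Prod.mk.injEq] at e
      exact hpr.tm ω ω' (hpB _ a) (hpB _ b) (hyy _ _ cy _ _ (hpB _ a) (hpB _ b) e.2) e.1
    linarith
  -- lower bound
  have low : lT + l₀ + l₁ ≤ CH p (fun ω => (F.X J ω κ₁, F.X J ω κ₀, F.W ω)) z := by
    have b1 := CH_chain hn (fun ω => F.X J ω κ₁) (fun ω => (F.X J ω κ₀, F.W ω)) z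
    have b2 := CH_chain hn (fun ω => F.X J ω κ₀) (fun ω => F.W ω) z
    have b3 : CH p (fun ω => F.X J ω κ₀) (fun ω => (φ (slam F W' ω), F.W ω)) ≤
        CH p (fun ω => F.X J ω κ₀) (fun ω => (F.W ω, z ω)) :=
      CH_mono_cond hn fun ω ω' a b e => by
        simp only [Prod.mk.injEq] at e ⊢
        exact ⟨e.2, by rw [hφ ω (hpB ω a), hφ ω' (hpB ω' b)]; exact e.1⟩
    have b4 : CH p (fun ω => F.X J ω κ₁) (fun ω => (F.X J ω κ₀, φ (slam F W' ω), F.W ω)) ≤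
        CH p (fun ω => F.X J ω κ₁) (fun ω => ((F.X J ω κ₀, F.W ω), z ω)) :=
      CH_mono_cond hn fun ω ω' a b e => by
        simp only [Prod.mk.injEq] at e ⊢
        exact ⟨⟨e.1, e.2.2⟩, by rw [hφ ω (hpB ω a), hφ ω' (hpB ω' b)]; exact e.2.1⟩
    have b5 : CH p (fun ω => F.W ω) (slam F W') ≤ CH p (fun ω => F.W ω) z :=
      CH_mono_cond hn fun ω ω' a b e => by
        rw [hφ ω (hpB ω a), hφ ω' (hpB ω' b), e]
    linarith
  -- together
  have c1 := CH_chain hn V (fun ω => (F.X J ω κ₁, F.X J ω κ₀, F.W ω))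
    (fun ω => (cv (2 ^ k) (xo ω), y ω))
  have c2 := CH_chain hn (fun ω => (F.X J ω κ₁, F.X J ω κ₀, F.W ω)) V
    (fun ω => (cv (2 ^ k) (xo ω), y ω))
  have c3 : CH p (fun ω => (V ω, (F.X J ω κ₁, F.X J ω κ₀, F.W ω)))
      (fun ω => (cv (2 ^ k) (xo ω), y ω)) =
      CH p (fun ω => ((F.X J ω κ₁, F.X J ω κ₀, F.W ω), V ω))
        (fun ω => (cv (2 ^ k) (xo ω), y ω)) :=
    CH_congr hn (fun _ _ _ _ e => by
      have e' := Prod.ext_iff.1 (Prod.ext_iff.1 e).1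
      exact Prod.ext e'.2 e'.1) (fun _ _ _ _ e => by
      have e' := Prod.ext_iff.1 (Prod.ext_iff.1 e).1
      exact Prod.ext e'.2 e'.1) (fun _ _ _ _ e => e) (fun _ _ _ _ e => e)
  have c4 : CH p V (fun ω => ((F.X J ω κ₁, F.X J ω κ₀, F.W ω), (cv (2 ^ k) (xo ω), y ω))) ≤
      CH p V (fun ω => ((F.X J ω κ₁, F.X J ω κ₀, F.W ω), y ω)) :=
    CH_mono_cond hn fun ω ω' _ _ e => by
      simp only [Prod.mk.injEq] at e ⊢
      exact ⟨e.1, e.2.2⟩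
  have c5 : CH p (fun ω => (F.X J ω κ₁, F.X J ω κ₀, F.W ω)) z ≤
      CH p (fun ω => (F.X J ω κ₁, F.X J ω κ₀, F.W ω))
        (fun ω => (V ω, (cv (2 ^ k) (xo ω), y ω))) :=
    CH_mono_cond hn fun ω ω' a b e => by
      have h1 := hzz _ _ hV ω ω' (hpB ω a) (hpB ω' b) e
      have h2 := hzz _ _ cx ω ω' (hpB ω a) (hpB ω' b) e
      have h3 := hy.mono hz (slam_coarse F hWW hWJ B) ω ω' (hpB ω a) (hpB ω' b) e
      show (V ω, (cv (2 ^ k) (xo ω), y ω)) = (V ω', (cv (2 ^ k) (xo ω'), y ω'))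
      rw [h1, h2, h3]
  linarith

/-- **A closed value is few bits given the near position**, class form. -/
theorem few_cls {S : PCl m} (hS : TmH S) {c : ℕ → Fin m} {a' : ℝ} {sf : ℕ → ℝ} (ha' : a' ≤ 1)
    (hful : FulC S c 0 2 a' sf) {ε : ℝ} (hε : 0 < ε) :
    Bas S (fun J F B => 0 < Pe F.p B ∧ ∀ (W₀ d k g1 : ℕ) (σ Kp Lp x0 x1 e : ℝ)
      (Pl : LnT F → MvPolynomial (Option (Fin m)) ℝ) (ctr xo : ℕ → F.Ω → V3) (D₁ : LnT F → V3)
      (Pv : PtT F → MvPolynomial (Option (Fin m)) ℝ),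
      PosO F B W₀ d k 1 σ Kp (yv F c W₀ g1 Pl) (hgP c W₀ g1 Pl) ctr xo D₁ → 0 < σ →
      (∀ ω, B ω → Pv (ptr F J ω) = Pl (slam F W₀ ω)) →
      (∀ ω ω', B ω → B ω' → Pv (ptr F J ω) = Pv (ptr F J ω') → F.T ω = F.T ω' →
        F.Z ω = F.Z ω' → F.X J ω (c 0) = F.X J ω' (c 0) →
        |eval (bt F ω) (Pv (ptr F J ω)) - eval (bt F ω') (Pv (ptr F J ω'))| ≤ Lp / 2 ^ J) →
      W₀ + d + k ≤ ⌊a' * J⌋₊ → g1 + d + k ≤ J → 0 ≤ Lp →
      Lp ≤ 2 ^ (J - (g1 + d + k)) → sf 0 * J ≤ W₀ + d + k + x0 → sf 1 * J ≤ g1 + d + k + x1 →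
      (x0 + x1) * Real.log 2 + 3 * Real.log (5 * σ + 3) + 2 * ε * J + 4 * Real.log 3 ≤ e →
      ∀ (Y : Type) (y : F.Ω → Y), Fst (slam F (W₀ + d)) (fun ω => ptr F J ω) B y →
      ∀ (V' : Type) (V : F.Ω → V'), Cl2 (slam F (W₀ + d + k)) (fun ω => ptr F J ω) B V →
      CH (Pool.Agent.H49.Ent.cond F.p B True) V (fun ω => (cv (2 ^ k) (xo 0 ω), y ω)) ≤
        CH (Pool.Agent.H49.Ent.cond F.p B True) V
          (fun ω => ((F.X J ω (c 1), F.X J ω (c 0), F.W ω), y ω)) + e) := by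
  classical
  have hl2 : 0 < Real.log 2 := Real.log_pos one_lt_two
  have hl21 : Real.log 2 ≤ 1 := by
    have := Real.log_two_lt_d9
    linarith
  refine Bas.mono 0 ((full_cls hS hε).and (hful (ε / 2) (by positivity))) ?_
  rintro J - F B ⟨⟨hB, hT⟩, Hf⟩
  refine ⟨hB, ?_⟩
  intro W₀ d k g1 σ Kp Lp x0 x1 e Pl ctr xo D₁ Pv O hσ hcl hLp hWa hgk hLp0 hLpJ hs0 hs1 hnum Y
    y hy V' V hV
  have hJ0 : (0 : ℝ) ≤ J := Nat.cast_nonneg J
  have haJ : ⌊a' * J⌋₊ ≤ J := by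
    refine Nat.floor_le_of_le ?_
    nlinarith
  have hWk : W₀ + d + k ≤ J := hWa.trans haJ
  -- time
  have kT : ((J : ℝ) - ((W₀ + d + k : ℕ) : ℝ)) * Real.log 2 - (ε * J + Real.log 3) ≤
      CH (Pool.Agent.H49.Ent.cond F.p B True) (fun ω => F.W ω) (slam F (W₀ + d + k)) := by
    have h1 := hT (W₀ + d + k) (J - (W₀ + d + k)) (by omega)
    have h2 : ((J : ℝ) - ((W₀ + d + k : ℕ) : ℝ)) * Real.log 2 ≤
        Real.log (2 * ((2 ^ (J - (W₀ + d + k)) : ℕ) : ℝ) + 1) := by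
      have e1 : ((J : ℝ) - ((W₀ + d + k : ℕ) : ℝ)) = ((J - (W₀ + d + k) : ℕ) : ℝ) := by
        rw [Nat.cast_sub (by omega)]
      rw [e1, ← Real.log_pow]
      refine Real.log_le_log (by positivity) ?_
      push_cast
      have : (1 : ℝ) ≤ 2 ^ (J - (W₀ + d + k)) := one_le_pow₀ one_le_two
      linarith
    have h3 : CH (Pool.Agent.H49.Ent.cond F.p B True) (dg F (W₀ + d + k) (J - (W₀ + d + k)))
        (slam F (W₀ + d + k)) ≤ CH (Pool.Agent.H49.Ent.cond F.p B True) (fun ω => F.W ω)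
          (slam F (W₀ + d + k)) :=
      CH_mono_left (isLaw_cond F.isLaw hB).nonneg fun ω ω' a b e => by
        simp only [Prod.mk.injEq] at e
        have e4 : F.T ω = F.T ω' := congrArg Prod.fst e.1
        unfold dg Fam.T1
        rw [e4]
    linarith
  -- the positions
  have k01 : ∀ (V₂ : Type) (z₂ : PtT F → V₂) (z₂' : LnT F → V₂),
      (∀ ω, B ω → z₂ (ptr F J ω) = z₂' (slam F (W₀ + d + k) ω)) →
      (1 - sf 0 - ε / 2) * Real.log 2 * J ≤ CH (Pool.Agent.H49.Ent.cond F.p B True)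
        (fun ω => F.X J ω (c 0)) (fun ω => (z₂' (slam F (W₀ + d + k) ω), F.W ω)) ∧
      (1 - sf 1 - ε / 2) * Real.log 2 * J ≤ CH (Pool.Agent.H49.Ent.cond F.p B True)
        (fun ω => F.X J ω (c 1))
        (fun ω => (F.X J ω (c 0), z₂' (slam F (W₀ + d + k) ω), F.W ω)) := by
    intro V₂ z₂ z₂' hz₂
    obtain ⟨D', hD'⟩ := lift_D F hWa haJ z₂'
    have h1 := Hf V₂ z₂ D' (fun ω hω => by rw [hD', hz₂ ω hω])
    have hn0 := (isLaw_cond F.isLaw hB).nonneg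
    refine ⟨(h1 0 le_rfl (by norm_num)).trans ?_, (h1 1 (by norm_num) (by norm_num)).trans ?_⟩
    · refine CH_mono_cond hn0 fun ω ω' _ _ e => ?_
      simp only [Prod.mk.injEq] at e ⊢
      rw [hD', hD'] at e
      exact e.2
    · refine CH_mono_cond hn0 fun ω ω' _ _ e => ?_
      simp only [Prod.mk.injEq] at e ⊢
      rw [hD', hD'] at e
      exact ⟨congrFun e.1 0, e.2⟩
  -- the readings
  have hW0 : W₀ + d + 0 * k = W₀ + d := by ring
  have hcc := O.cc 0 one_pos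
  rw [hW0] at hcc
  have hcx := O.cx 0 one_pos
  rw [show W₀ + d + 0 * k + k = W₀ + d + k by ring] at hcx
  have cP : Cl2 (slam F (W₀ + d)) (fun ω => ptr F J ω) B (fun ω => Pv (ptr F J ω)) := by
    obtain ⟨D', hD'⟩ := lift_D F (show W₀ ≤ W₀ + d by omega) (show W₀ + d ≤ J by omega) Pl
    exact ⟨⟨D', fun ω hω => by rw [hD']; exact hcl ω hω⟩, Pv, fun ω _ => rfl⟩
  obtain ⟨ψs, hψs⟩ := lift_D F (show W₀ ≤ W₀ + d by omega) (show W₀ + d ≤ J by omega)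
    (fun s : LnT F => s.2.2)
  have cS : Cl2 (slam F (W₀ + d)) (fun ω => ptr F J ω) B (fun ω => (slam F W₀ ω).2.2) := by
    refine ⟨⟨ψs, fun ω _ => (hψs ω).symm⟩, ?_⟩
    obtain ⟨φ, hφ⟩ : ∃ φ : PtT F → ℕ, ∀ ω, φ (ptr F J ω) = (slam F W₀ ω).2.2 := by
      refine ⟨fun s => s.2.1 / 2 ^ (J - W₀), fun ω => ?_⟩
      rfl
    exact ⟨φ, fun ω _ => (hφ ω).symm⟩
  have cY : Cl2 (slam F (W₀ + d)) (fun ω => ptr F J ω) B
      (fun ω => (ctr 0 ω, Pv (ptr F J ω), (slam F W₀ ω).2.2)) := by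
    obtain ⟨⟨φ1, h1⟩, ψ1, h1'⟩ := hcc
    obtain ⟨⟨φ2, h2⟩, ψ2, h2'⟩ := cP
    obtain ⟨⟨φ3, h3⟩, ψ3, h3'⟩ := cS
    exact ⟨⟨fun s => (φ1 s, φ2 s, φ3 s), fun ω hω =>
      Prod.ext (h1 ω hω) (Prod.ext (h2 ω hω) (h3 ω hω))⟩,
      fun s => (ψ1 s, ψ2 s, ψ3 s), fun ω hω =>
        Prod.ext (h1' ω hω) (Prod.ext (h2' ω hω) (h3' ω hω))⟩
  have hpr := posR_of F hσ O one_pos (κ₀ := c 0) (κ₁ := c 1) (g₀ := W₀) (g₁ := g1)
    (b₀ := fun _ => 0) (b₁ := fun ω => eval (bt F ω) (Pl (slam F W₀ ω))) (Lp := Lp)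
    (y₀ := fun ω => (ctr 0 ω, Pv (ptr F J ω), (slam F W₀ ω).2.2)) (by omega)
    (fun ω ω' _ _ e => ⟨congrArg Prod.fst e, congrArg (fun v => v.2.2) e⟩) (fun ω _ => rfl)
    (fun ω _ => by
      show (2 : ℝ) ^ W₀ * F.x ω (c 0) = 2 ^ W₀ * (F.x ω (c 0) - 0)
      rw [sub_zero]) (fun ω _ => rfl) (fun ω ω' _ _ _ _ => rfl)
    (fun ω ω' hω hω' e eW eX => by
      have e1 : Pv (ptr F J ω) = Pv (ptr F J ω') := congrArg (fun v => v.2.1) e
      have e2 : F.T ω = F.T ω' := congrArg Prod.fst eW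
      have e3 : F.Z ω = F.Z ω' := congrArg Prod.snd eW
      show |eval (bt F ω) (Pl (slam F W₀ ω)) - eval (bt F ω') (Pl (slam F W₀ ω'))| ≤ Lp / 2 ^ J
      rw [← hcl ω hω, ← hcl ω' hω']
      exact hLp ω ω' hω hω' e1 e2 e3 eX)
  have n0 : W₀ + d + 0 * k + k = W₀ + (d + k) := by ring
  have n1 : g1 + d + 0 * k + k = g1 + (d + k) := by ring
  rw [n0, n1] at hpr
  have hp1 : 0 ≤ 5 * σ * 2 ^ J / 2 ^ (W₀ + (d + k)) := by positivity
  have hp2 : 0 ≤ 5 * σ * 2 ^ J / 2 ^ (W₀ + (d + k)) + 1 := by positivity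
  have hp3 : 0 ≤ 5 * σ * 2 ^ J / 2 ^ (g1 + (d + k)) + Lp + 1 := by positivity
  obtain ⟨Zt, z, hz⟩ := exists_fst (slam F (W₀ + d + k)) (fun ω => ptr F J ω) B
  refine (few_fam F hB (show W₀ + d ≤ W₀ + d + k by omega) hWk hy hz hcx cY hp1 hp2 hp3 hpr kT k01
    hV).trans ?_
  -- the numbers
  have b1 := log_box (J := J) (n := W₀ + (d + k)) (R := 0) hσ.le (by omega) le_rfl
  have b2 := log_box (J := J) (n := W₀ + (d + k)) (R := 1) hσ.le (by omega) zero_le_one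
  have b3 := log_box' (J := J) (n := g1 + (d + k)) (R := Lp) hσ.le (by omega) hLp0 (by
    rwa [show g1 + (d + k) = g1 + d + k by ring])
  rw [add_zero, add_zero] at b1
  have m1 : Real.log (5 * σ + 1) ≤ Real.log (5 * σ + 3) :=
    Real.log_le_log (by positivity) (by linarith)
  have m2 : Real.log (5 * σ + 1 + 1) ≤ Real.log (5 * σ + 3) :=
    Real.log_le_log (by positivity) (by linarith)
  have m3 : 0 < Real.log 3 := Real.log_pos (by norm_num)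
  push_cast at b1 b2 b3 ⊢
  have k4 : (sf 0 * J + sf 1 * J) * Real.log 2 ≤
      (W₀ + d + k + x0 + (g1 + d + k + x1)) * Real.log 2 :=
    mul_le_mul_of_nonneg_right (by linarith) hl2.le
  have k5 : ε / 2 * Real.log 2 * J ≤ ε / 2 * J := by
    have : ε / 2 * Real.log 2 ≤ ε / 2 * 1 := mul_le_mul_of_nonneg_left hl21 (by positivity)
    nlinarith
  nlinarith

end Pool.CLO80
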