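import Pool.Agent.H80.CLO.Tp
import Pool.Agent.H60.K2S.S235
import Pool.Agent.H65.X.Xg

/-!
# A polynomial free of the common datum

`cpn_sel`: selection of the partners. `gam_pol`: the polynomial `Gv (g ω)` at the full height `U ω` is near a
function of `L`; if `g` is free of `L` given the record `z`, then the polynomials of two samples with the same `L`
are near.
-/

set_option autoImplicit false

namespace Pool.CLO80

open Finset Real MvPolynomial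
open Pool.Agent.H49.Ent Pool.Agent.H32.Dense Pool.STK
open Pool.BFL (Pb)
open Pool.K2S (cpn exists_partners)
open Pool.CLU (cpn_law cpn_pos cpn_marg cpn_nonneg)
open Pool.STB6 (node read_mv m1 m1_eval m1_deg)
open Pool.KAF (Pr Pr_eq)

section

variable {Ω G : Type} [Fintype Ω]

/-- The mass of the complement. -/
theorem Pb_compl {p : Ω → ℝ} (hp : IsLaw p) (A : Ω → Prop) :
    Pb p (fun ω => ¬ A ω) = 1 - Pb p A := by
  classical
  unfold Pb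
  rw [← hp.sum_one, ← Finset.sum_sub_distrib]
  refine Finset.sum_congr rfl fun ω _ => ?_
  by_cases h : A ω
  · rw [if_pos h, if_neg (not_not.2 h), sub_self]
  · rw [if_neg h, if_pos h, sub_zero]

theorem Pr_Pb (p : Ω → ℝ) (A : Ω → Prop) : Pr p {ω | A ω} = Pb p A := by
  classical
  rw [Pr_eq]
  unfold Pb
  refine Finset.sum_congr rfl fun ω _ => ?_
  by_cases h : A ω
  · rw [if_pos h, if_pos (by simpa using h)]
  · rw [if_neg h, if_neg (by simpa using h)]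

/-- **Selection of the partners.** -/
theorem cpn_sel {q : Ω → ℝ} (hq : IsLaw q) (g : Ω → G) (n : ℕ)
    (Bad : (Fin (n + 1) → Ω) → Prop) :
    ∃ ζ : G → Fin n → Ω, (∀ ω, 0 < q ω → ∀ i, g (ζ (g ω) i) = g ω ∧ 0 < q (ζ (g ω) i)) ∧
      Pb q (fun ω => Bad (Fin.cons ω (ζ (g ω)))) ≤ Pb (cpn q g n) Bad := by
  classical
  obtain ⟨ζ, h1, h2⟩ := exists_partners hq g n (fun w => ¬ Bad w)
  refine ⟨ζ, h1, ?_⟩
  have e1 : Pr (cpn q g n) {w | ¬ Bad w} = Pb (cpn q g n) (fun w => ¬ Bad w) := Pr_Pb _ _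
  have e2 : Pr q {ω | ¬ Bad (Fin.cons ω (ζ (g ω)))} =
      Pb q (fun ω => ¬ Bad (Fin.cons ω (ζ (g ω)))) := Pr_Pb _ _
  rw [e1, e2, Pb_compl (cpn_law hq g n), Pb_compl hq] at h2
  linarith

end

/-- **A polynomial free of the common datum.** -/
theorem gam_pol (K : ℕ) : ∃ Cr : ℕ, 1 ≤ Cr ∧ ∀ (Ω Λ Z V : Type) [Fintype Ω] (p : Ω → ℝ) (L : Ω → Λ)
    (z : Ω → Z) (g : Ω → V) (Gv : V → Polynomial ℝ) (U : Ω → ℤ) (φ : Ω → ℝ) (M : ℕ)
    (e e₁ ρ δ c₁ : ℝ), IsLaw p → 1 ≤ M → 0 < ρ → ρ < 1 → (Cr : ℝ) ≤ ρ ^ Cr * (2 * M + 1) →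
    (∀ ω, 0 < p ω → |U ω| ≤ (M : ℤ)) → Det p L U → Det p L z → Det p L φ →
    Real.log (2 * M + 1) - e ≤ CH p U z → CH p g z ≤ CH p g L + e₁ →
    (∀ v, (Gv v).natDegree ≤ K) →
    Pb p (fun ω => ¬ |(Gv (g ω)).eval ((U ω : ℝ) / M) - φ ω| ≤ δ) ≤ c₁ →
    Pb (cpn p L 1) (fun w => ¬ ∀ u : ℝ, |u| ≤ 1 →
      |(Gv (g (w 0))).eval u - (Gv (g (w 1))).eval u| ≤ Cr * (1 / ρ) ^ Cr * (2 * δ)) ≤
      2 * c₁ + (e + 2 * e₁ + Real.log 2) / Real.log (1 / ρ) := by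
  classical
  obtain ⟨Cr, hCr, hr⟩ := read_mv 1 K
  refine ⟨Cr, hCr, ?_⟩
  intro Ω Λ Z V _ p L z g Gv U φ M e e₁ ρ δ c₁ hp hM hρ hρ1 hCM hUM hLU hLz hLφ hfull hfree hG hE
  have p0 := hp.nonneg
  have hl : 0 < Real.log (1 / ρ) := Real.log_pos (by rw [lt_div_iff₀ hρ]; linarith)
  have hql := cpn_law hp L 1
  have q0 := hql.nonneg
  have hpos := cpn_pos p0 L 1
  -- the height is full given the record and the two codes
  have a1 : CH p U z - e₁ ≤ CH p U (fun ω => (g ω, z ω)) := by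
    have b1 := CH_bayes p0 U g z
    have b2 : CH p g L ≤ CH p g (fun ω => (U ω, z ω)) :=
      CH_mono_cond p0 fun ω ω' h h' e => Prod.ext (hLU _ _ h h' e) (hLz _ _ h h' e)
    linarith
  have a2 := node hp L z g 1 hLz (e := e₁) (by linarith) U g
  have a3 : Real.log (2 * M + 1) - (e + 2 * e₁) ≤ CH (cpn p L 1) (fun v => fun _ : Fin 1 => U (v 0))
      (fun v => (g (v 0), (z (v 0), fun i : Fin 1 => g (v i.succ)))) := by
    have b1 : CH (cpn p L 1) (fun v => U (v 0))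
        (fun v => (g (v 0), (z (v 0), fun i : Fin 1 => g (v i.succ)))) =
        CH (cpn p L 1) (fun v => fun _ : Fin 1 => U (v 0))
        (fun v => (g (v 0), (z (v 0), fun i : Fin 1 => g (v i.succ)))) :=
      CH_congr q0 (fun w w' _ _ h => funext fun _ => (Prod.ext_iff.1 h).1)
        (fun w w' _ _ h => congrFun (Prod.ext_iff.1 h).1 0) (fun _ _ _ _ h => h)
        (fun _ _ _ _ h => h)
    push_cast at a2
    linarith
  have h1 := hr (Fin 2 → Ω) (V × (Z × (Fin 1 → V))) (cpn p L 1)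
    (fun v => (g (v 0), (z (v 0), fun i : Fin 1 => g (v i.succ)))) M (fun v => fun _ => U (v 0))
    (fun w => m1 (Gv w.1 - Gv (w.2.2 0))) (fun _ => 2 * δ)
    (fun v => |(Gv (g (v 0))).eval ((U (v 0) : ℝ) / M) - φ (v 0)| ≤ δ ∧
      |(Gv (g (v 1))).eval ((U (v 1) : ℝ) / M) - φ (v 1)| ≤ δ) (e + 2 * e₁) ρ 1 hql hM hρ
    hρ1.le hCM le_rfl (fun v hv _ => hUM _ ((hpos v hv).1 0))
    (by rw [Nat.cast_one, one_mul]; exact a3) (fun v hv hE => ⟨fun i => (m1_deg _ i).trans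
      ((Polynomial.natDegree_sub_le _ _).trans (max_le (hG _) (hG _))), by
      rw [m1_eval, Polynomial.eval_sub]
      have e1 : L (v 0) = L (v 1) := ((hpos v hv).2 1).symm
      have e2 := hLU _ _ ((hpos v hv).1 0) ((hpos v hv).1 1) e1
      have e3 := hLφ _ _ ((hpos v hv).1 0) ((hpos v hv).1 1) e1
      have h3 := hE.2
      rw [← e2, ← e3] at h3
      show |(Gv (g (v 0))).eval ((U (v 0) : ℝ) / M) - (Gv (g (v 1))).eval ((U (v 0) : ℝ) / M)| ≤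
        2 * δ
      have e4 : (Gv (g (v 0))).eval ((U (v 0) : ℝ) / M) - (Gv (g (v 1))).eval ((U (v 0) : ℝ) / M) =
          ((Gv (g (v 0))).eval ((U (v 0) : ℝ) / M) - φ (v 0)) -
          ((Gv (g (v 1))).eval ((U (v 0) : ℝ) / M) - φ (v 0)) := by ring
      rw [e4]
      refine (abs_sub _ _).trans ?_
      linarith [hE.1]⟩)
  rw [← le_div_iff₀ hl] at h1
  have b0 : Pb (cpn p L 1) (fun v => ¬ |(Gv (g (v 0))).eval ((U (v 0) : ℝ) / M) - φ (v 0)| ≤ δ) ≤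
      c₁ := by
    rw [Pool.XLF.Pb_cpn_at p0 L 1 0 (fun ω => ¬ |(Gv (g ω)).eval ((U ω : ℝ) / M) - φ ω| ≤ δ)]
    exact hE
  have b1 : Pb (cpn p L 1) (fun v => ¬ |(Gv (g (v 1))).eval ((U (v 1) : ℝ) / M) - φ (v 1)| ≤ δ) ≤
      c₁ := by
    rw [Pool.XLF.Pb_cpn_at p0 L 1 1 (fun ω => ¬ |(Gv (g ω)).eval ((U ω : ℝ) / M) - φ ω| ≤ δ)]
    exact hE
  have h2 := Pool.STB.Pb_or q0 (fun v => ¬ |(Gv (g (v 0))).eval ((U (v 0) : ℝ) / M) - φ (v 0)| ≤ δ)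
    (fun v => ¬ |(Gv (g (v 1))).eval ((U (v 1) : ℝ) / M) - φ (v 1)| ≤ δ)
  have h3 := Pool.STB.Pb_or q0 (fun v => ¬ |(Gv (g (v 0))).eval ((U (v 0) : ℝ) / M) - φ (v 0)| ≤ δ ∨
    ¬ |(Gv (g (v 1))).eval ((U (v 1) : ℝ) / M) - φ (v 1)| ≤ δ)
    (fun v => (|(Gv (g (v 0))).eval ((U (v 0) : ℝ) / M) - φ (v 0)| ≤ δ ∧
      |(Gv (g (v 1))).eval ((U (v 1) : ℝ) / M) - φ (v 1)| ≤ δ) ∧ ∃ x : Fin 1 → ℝ,
      (∀ i, |x i| ≤ 1) ∧ Cr * (1 / ρ) ^ Cr * (2 * δ) <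
        |eval x (m1 (Gv (g (v 0)) - Gv (g (v (Fin.succ 0)))))|)
  refine (Pool.STB.Pb_mono q0 fun v _ hn => ?_).trans (h3.trans ?_)
  · by_cases h4 : |(Gv (g (v 0))).eval ((U (v 0) : ℝ) / M) - φ (v 0)| ≤ δ ∧
      |(Gv (g (v 1))).eval ((U (v 1) : ℝ) / M) - φ (v 1)| ≤ δ
    · right
      refine ⟨h4, ?_⟩
      push Not at hn
      obtain ⟨u, hu, hu'⟩ := hn
      refine ⟨fun _ => u, fun _ => hu, ?_⟩
      rw [m1_eval, Polynomial.eval_sub]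
      exact hu'
    · exact Or.inl (not_and_or.1 h4)
  · linarith

end Pool.CLO80
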