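import Pool.Agent.H6.STB.CloS
import Pool.Agent.H98.STB.NfF

/-!
# The data of `CloStmt` on an event

`mk_CloH`: the structure `CloH` for the records which are the finest closed functions at a window and behind
it. `posf_fam`: the position is full given the closed record.
-/

set_option autoImplicit false

namespace Pool.CLO80

open Finset Real
open Pool.Agent.H49.Ent Pool.Agent.H32.Dense Pool.STK Pool.KA Pool.KSAT Pool.K2S Pool.PB Pool.S6C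
open Pool.GEN Pool.CHT Pool.CHX Pool.D2Con Pool.D2A Pool.D2F Pool.RCD
open Pool.STB (V3 Po Bx cv PosR cnt_int)
open Pool.STB6 (CloH)
open Pool.STB82 (Fst dg dg_nonneg dg_lt slam_coarse cond_pos_B ch_eq exists_fst)
open Pool.BFL (Pb)

variable {m J : ℕ}

/-- **The structure `CloH`** from the data of the lines and the closed data of the points. -/
theorem mk_CloH (F : Fam m J) {B : F.Ω → Prop} (hB : 0 < Pe F.p B) {W k N : ℕ} (hWk : W + k ≤ J)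
    {Zt Yt 𝒟 : Type} {z : F.Ω → Zt} {y : F.Ω → Yt} (hz : Fst (slam F (W + k)) (fun ω => ptr F J ω) B z)
    (hy : Fst (slam F W) (fun ω => ptr F J ω) B y) {D : LnT F → 𝒟} {X : 𝒟 → V3}
    {xo : F.Ω → V3} {Vo : F.Ω → ℝ} {P : LnT F → Polynomial ℝ}
    {x : Zt → V3} {V : Zt → ℝ} (hx : ∀ ω, B ω → x (z ω) = xo ω) (hx1 : ∀ r, Bx 1 (x r))
    (hV : ∀ ω, B ω → V (z ω) = Vo ω) {K e η c : ℝ} (hVK : ∀ r, |V r| ≤ K)
    (full : Real.log (2 * ((2 ^ k : ℕ) : ℝ) + 1) - e ≤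
      CH (Pool.Agent.H49.Ent.cond F.p B True) (dg F W k) (slam F W))
    (free : CH (Pool.Agent.H49.Ent.cond F.p B True) (fun ω => D (slam F W ω)) y - e ≤
      CH (Pool.Agent.H49.Ent.cond F.p B True) (fun ω => D (slam F W ω)) z)
    (X1 : ∀ d, Bx 1 (X d))
    (pos : ∀ ω ω', B ω → B ω' → slam F W ω = slam F W ω' →
      Bx (K / ((2 ^ k : ℕ) : ℝ)) (xo ω' - xo ω -
        (((dg F W k ω' : ℝ) - dg F W k ω) / ((2 ^ k : ℕ) : ℝ)) • X (D (slam F W ω))))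
    (posf : 3 * Real.log (2 * ((2 ^ k : ℕ) : ℝ) + 1) - e ≤
      CH (Pool.Agent.H49.Ent.cond F.p B True) (fun ω => cv (2 ^ k) (xo ω)) y)
    (gp : ∀ H : Zt → V3, (∀ r, Bx 1 (H r) ∧ ∃ i, |H r i| = 1) →
      Pb (Pool.Agent.H49.Ent.cond F.p B True)
        (fun ω => |∑ i, H (z ω) i * X (D (slam F W ω)) i| ≤ η) ≤ c)
    (Pd : ∀ l, (P l).natDegree ≤ N) (PK : ∀ l (s : ℝ), |s| ≤ 2 → |(P l).eval s| ≤ K)
    (path : Pb (Pool.Agent.H49.Ent.cond F.p B True)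
      (fun ω => ¬ |Vo ω - (P (slam F W ω)).eval ((dg F W k ω : ℝ) / ((2 ^ k : ℕ) : ℝ))| ≤
        K / ((2 ^ k : ℕ) : ℝ)) ≤ c)
    (few : CH (Pool.Agent.H49.Ent.cond F.p B True) (fun ω => ⌊((2 ^ k : ℕ) : ℝ) * Vo ω⌋)
      (fun ω => (cv (2 ^ k) (xo ω), y ω)) ≤ e) :
    CloH (Pool.Agent.H49.Ent.cond F.p B True) (slam F W) z y (dg F W k) D X x V P N (2 ^ k)
      K e η c := by
  have hlaw := isLaw_cond F.isLaw hB
  refine
    { law := hlaw
      yL := ?_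
      yz := ?_
      tM := ?_
      full := full
      free := free
      X1 := X1
      x1 := hx1
      pos := ?_
      posf := ?_
      gp := gp
      Pd := Pd
      PK := PK
      VK := hVK
      path := ?_
      few := ?_ }
  · intro ω ω' h1 h2 e1
    obtain ⟨⟨φ, hφ⟩, -⟩ := hy.cl
    rw [hφ ω (cond_pos_B h1), hφ ω' (cond_pos_B h2), e1]
  · intro ω ω' h1 h2 e1
    exact hy.mono hz (slam_coarse F (by omega) hWk B) ω ω' (cond_pos_B h1) (cond_pos_B h2) e1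
  · intro ω _
    rw [abs_of_nonneg (dg_nonneg F W k ω)]
    push_cast
    exact (dg_lt F W k ω).le
  · intro ω ω' h1 h2 e1
    rw [hx ω (cond_pos_B h1), hx ω' (cond_pos_B h2)]
    exact pos ω ω' (cond_pos_B h1) (cond_pos_B h2) e1
  · refine posf.trans (le_of_eq ?_)
    exact ch_eq hlaw.nonneg (fun ω h => by rw [hx ω (cond_pos_B h)]) fun ω _ => rfl
  · refine le_trans (Pool.STB.Pb_mono hlaw.nonneg fun ω h hn => ?_) path
    rwa [hV ω (cond_pos_B h)] at hn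
  · refine le_trans (le_of_eq ?_) few
    exact ch_eq hlaw.nonneg (fun ω h => by rw [hV ω (cond_pos_B h)])
      fun ω h => by rw [hx ω (cond_pos_B h)]

/-- **The position is full given the closed record.** -/
theorem posf_fam (F : Fam m J) {B : F.Ω → Prop} (hB : 0 < Pe F.p B) {W k : ℕ} {κ₀ κ₁ : Fin m}
    {xo : F.Ω → V3} {Y : Type} {y : F.Ω → Y} (hy : Fst (slam F W) (fun ω => ptr F J ω) B y)
    {Y₀ : Type} {y₀ : F.Ω → Y₀} (cy : Cl2 (slam F W) (fun ω => ptr F J ω) B y₀)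
    {DT D₀ D₁ lT l₀ l₁ : ℝ} (hDT : 0 ≤ DT) (hD₀ : 0 ≤ D₀) (hD₁ : 0 ≤ D₁)
    (hpr : PosR F B k κ₀ κ₁ xo y₀ DT D₀ D₁)
    (kT : lT ≤ CH (Pool.Agent.H49.Ent.cond F.p B True) (fun ω => F.W ω) (slam F W))
    (k01 : ∀ (V₂ : Type) (z₂ : PtT F → V₂) (z₂' : LnT F → V₂),
      (∀ ω, B ω → z₂ (ptr F J ω) = z₂' (slam F W ω)) →
      l₀ ≤ CH (Pool.Agent.H49.Ent.cond F.p B True) (fun ω => F.X J ω κ₀)
        (fun ω => (z₂' (slam F W ω), F.W ω)) ∧
      l₁ ≤ CH (Pool.Agent.H49.Ent.cond F.p B True) (fun ω => F.X J ω κ₁)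
        (fun ω => (F.X J ω κ₀, z₂' (slam F W ω), F.W ω))) :
    lT + l₀ + l₁ - (Real.log (DT + 1) + Real.log (D₀ + 1) + Real.log (D₁ + 1)) ≤
      CH (Pool.Agent.H49.Ent.cond F.p B True) (fun ω => cv (2 ^ k) (xo ω)) y := by
  classical
  have hlaw := isLaw_cond F.isLaw hB
  have hn := hlaw.nonneg
  obtain ⟨p, hp⟩ : ∃ p, p = Pool.Agent.H49.Ent.cond F.p B True := ⟨_, rfl⟩
  have hpB : ∀ ω, 0 < p ω → B ω := fun ω h => cond_pos_B (hp ▸ h)
  obtain ⟨⟨φ, hφ⟩, ψ, hψ⟩ := hy.cl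
  have hyy : ∀ (V' : Type) (w : F.Ω → V'), Cl2 (slam F W) (fun ω => ptr F J ω) B w →
      ∀ ω ω', B ω → B ω' → y ω = y ω' → w ω = w ω' := fun V' w hw => hy.fin V' w hw
  have cZ : Cl2 (slam F W) (fun ω => ptr F J ω) B (fun ω => F.Z ω) :=
    ⟨⟨fun s => s.2.1, fun ω _ => rfl⟩, fun s => s.2.2, fun ω _ => rfl⟩
  obtain ⟨k0, k1⟩ := k01 Y ψ φ fun ω hω => by rw [← hφ ω hω, ← hψ ω hω]
  rw [← hp] at hlaw hn kT k0 k1 ⊢
  -- upper bound
  have up : CH p (fun ω => (F.X J ω κ₁, F.X J ω κ₀, F.W ω)) (fun ω => (cv (2 ^ k) (xo ω), y ω)) ≤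
        Real.log (DT + 1) + Real.log (D₀ + 1) + Real.log (D₁ + 1) := by
    have b1 := CH_chain hn (fun ω => F.X J ω κ₁) (fun ω => (F.X J ω κ₀, F.W ω))
      (fun ω => (cv (2 ^ k) (xo ω), y ω))
    have b2 := CH_chain hn (fun ω => F.X J ω κ₀) (fun ω => F.W ω)
      (fun ω => (cv (2 ^ k) (xo ω), y ω))
    have b3 : CH p (fun ω => F.X J ω κ₀) (fun ω => (F.W ω, (cv (2 ^ k) (xo ω), y ω))) ≤
        Real.log (D₀ + 1) :=
      cnt_int hlaw _ _ hD₀ fun ω ω' a b e => by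
        simp only [Prod.mk.injEq] at e
        exact hpr.p0 ω ω' (hpB _ a) (hpB _ b) (hyy _ _ cy _ _ (hpB _ a) (hpB _ b) e.2.2) e.2.1 e.1
    have b4 : CH p (fun ω => F.X J ω κ₁)
        (fun ω => ((F.X J ω κ₀, F.W ω), (cv (2 ^ k) (xo ω), y ω))) ≤ Real.log (D₁ + 1) :=
      cnt_int hlaw _ _ hD₁ fun ω ω' a b e => by
        simp only [Prod.mk.injEq] at e
        exact hpr.p1 ω ω' (hpB _ a) (hpB _ b) (hyy _ _ cy _ _ (hpB _ a) (hpB _ b) e.2.2) e.2.1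
          e.1.2 e.1.1
    have b5 : CH p (fun ω => F.W ω) (fun ω => (cv (2 ^ k) (xo ω), y ω)) ≤ Real.log (DT + 1) := by
      have c1 : CH p (fun ω => F.W ω) (fun ω => (cv (2 ^ k) (xo ω), y ω)) ≤
          CH p (fun ω => (F.T ω : ℤ)) (fun ω => (cv (2 ^ k) (xo ω), y ω)) :=
        CH_mono_left hn fun ω ω' a b e => by
          simp only [Prod.mk.injEq] at e
          have e4 : F.T ω = F.T ω' := by exact_mod_cast e.1
          have e5 := hyy _ _ cZ _ _ (hpB _ a) (hpB _ b) e.2.2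
          show F.W ω = F.W ω'
          unfold Fam.W
          rw [e4]
          exact congrArg _ e5
      refine c1.trans (cnt_int hlaw _ _ hDT fun ω ω' a b e => ?_)
      simp only [Prod.mk.injEq] at e
      exact hpr.tm ω ω' (hpB _ a) (hpB _ b) (hyy _ _ cy _ _ (hpB _ a) (hpB _ b) e.2) e.1
    linarith
  -- lower bound
  have low : lT + l₀ + l₁ ≤ CH p (fun ω => (F.X J ω κ₁, F.X J ω κ₀, F.W ω)) y := by
    have b1 := CH_chain hn (fun ω => F.X J ω κ₁) (fun ω => (F.X J ω κ₀, F.W ω)) y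
    have b2 := CH_chain hn (fun ω => F.X J ω κ₀) (fun ω => F.W ω) y
    have b3 : CH p (fun ω => F.X J ω κ₀) (fun ω => (φ (slam F W ω), F.W ω)) ≤
        CH p (fun ω => F.X J ω κ₀) (fun ω => (F.W ω, y ω)) :=
      CH_mono_cond hn fun ω ω' a b e => by
        simp only [Prod.mk.injEq] at e ⊢
        exact ⟨e.2, by rw [hφ ω (hpB ω a), hφ ω' (hpB ω' b)]; exact e.1⟩
    have b4 : CH p (fun ω => F.X J ω κ₁) (fun ω => (F.X J ω κ₀, φ (slam F W ω), F.W ω)) ≤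
        CH p (fun ω => F.X J ω κ₁) (fun ω => ((F.X J ω κ₀, F.W ω), y ω)) :=
      CH_mono_cond hn fun ω ω' a b e => by
        simp only [Prod.mk.injEq] at e ⊢
        exact ⟨⟨e.1, e.2.2⟩, by rw [hφ ω (hpB ω a), hφ ω' (hpB ω' b)]; exact e.2.1⟩
    have b5 : CH p (fun ω => F.W ω) (slam F W) ≤ CH p (fun ω => F.W ω) y :=
      CH_mono_cond hn fun ω ω' a b e => by
        rw [hφ ω (hpB ω a), hφ ω' (hpB ω' b), e]
    linarith
  -- together
  have c1 : CH p (fun ω => (F.X J ω κ₁, F.X J ω κ₀, F.W ω)) y ≤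
      CH p (fun ω => (cv (2 ^ k) (xo ω), (F.X J ω κ₁, F.X J ω κ₀, F.W ω))) y :=
    CH_mono_left hn fun ω ω' _ _ e => (Prod.ext_iff.1 (Prod.ext_iff.1 e).1).2
  have c2 := CH_chain hn (fun ω => cv (2 ^ k) (xo ω)) (fun ω => (F.X J ω κ₁, F.X J ω κ₀, F.W ω)) y
  have c3 := CH_chain hn (fun ω => (F.X J ω κ₁, F.X J ω κ₀, F.W ω)) (fun ω => cv (2 ^ k) (xo ω)) y
  have c4 : CH p (fun ω => (cv (2 ^ k) (xo ω), (F.X J ω κ₁, F.X J ω κ₀, F.W ω))) y =
      CH p (fun ω => ((F.X J ω κ₁, F.X J ω κ₀, F.W ω), cv (2 ^ k) (xo ω))) y :=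
    CH_congr hn (fun _ _ _ _ e => by
      have e' := Prod.ext_iff.1 (Prod.ext_iff.1 e).1
      exact Prod.ext e'.2 e'.1) (fun _ _ _ _ e => by
      have e' := Prod.ext_iff.1 (Prod.ext_iff.1 e).1
      exact Prod.ext e'.2 e'.1) (fun _ _ _ _ e => e) (fun _ _ _ _ e => e)
  linarith

end Pool.CLO80
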