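import Pool.Agent.H80.CLO.Nds

/-!
# The slope polynomial of a tuple

`nd4_core`: the conclusion `Nd4O` from the data `Nd4H`, with explicit numbers.
-/

set_option autoImplicit false

namespace Pool.CLO80

open Finset Real
open Pool.Agent.H49.Ent Pool.Agent.H32.Dense Pool.STK
open Pool.BFL (Pb)
open Pool.K2S (cpn)
open Pool.NDD66 (mu Lam)
open Pool.CLU (cpn_law cpn_pos)
open Pool.FLT (lag_bd gpt gpt_abs gpt_sep gpt_pos)
open Pool.P4E (few_vec)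
open Pool.STB6 (node)

section tuple

variable {C V : Type} {K n : ℕ}

/-- The remainder of a tuple relative to the record `a`. -/
noncomputable def tR (uP cP : C → V → Polynomial ℝ) (jj : Fin (K + 1) → Fin n) (a : C)
    (f : Fin (n + 1) → V) : Polynomial ℝ :=
  tpR (fun i => uP a (hd jj f i)) (fun i => cP a (hd jj f i)) (fun i => (uP a (hd jj f i)).eval 0)

/-- The interpolation polynomial of a tail, in the time. -/
noncomputable def tS (uP cP : C → V → Polynomial ℝ) (jj : Fin (K + 1) → Fin n) (a : C)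
    (g : Fin n → V) (u : ℝ) : Polynomial ℝ :=
  tpS (fun i => uP a (g (jj i))) (fun i => cP a (g (jj i))) (fun i => (uP a (g (jj i))).eval 0) u

/-- The interpolation polynomial of a tail, in the height. -/
noncomputable def tU (uP cP : C → V → Polynomial ℝ) (jj : Fin (K + 1) → Fin n) (a : C)
    (g : Fin n → V) (s : ℝ) : Polynomial ℝ :=
  tpU (fun i => uP a (g (jj i))) (fun i => cP a (g (jj i))) (fun i => (uP a (g (jj i))).eval 0) s

variable {uP cP : C → V → Polynomial ℝ} {jj : Fin (K + 1) → Fin n}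

theorem tR_eval (a : C) (f : Fin (n + 1) → V) (s : ℝ) : (tR uP cP jj a f).eval s =
    (cP a (f 0)).eval s -
      (tS uP cP jj a (fun j => f j.succ) ((uP a (f 0)).eval s)).eval s :=
  tpR_eval _ _ _ s

theorem tU_eval (a : C) (g : Fin n → V) (u s : ℝ) :
    (tU uP cP jj a g s).eval u = (tS uP cP jj a g u).eval s :=
  tpU_eval _ _ _ u s

theorem tR_deg {D : ℕ} (hu : ∀ a v, (uP a v).natDegree ≤ D) (hc : ∀ a v, (cP a v).natDegree ≤ D)
    (a : C) (f : Fin (n + 1) → V) : (tR uP cP jj a f).natDegree ≤ (K + 1) * D :=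
  tpR_deg (fun _ => hu _ _) (fun _ => hc _ _) _

theorem tS_deg {D : ℕ} (hu : ∀ a v, (uP a v).natDegree ≤ D) (hc : ∀ a v, (cP a v).natDegree ≤ D)
    (a : C) (g : Fin n → V) (u : ℝ) : (tS uP cP jj a g u).natDegree ≤ (K + 1) * D :=
  tpS_deg (hu _ _) (fun _ => hc _ _) _ _

theorem tU_deg (a : C) (g : Fin n → V) (s : ℝ) : (tU uP cP jj a g s).natDegree ≤ K :=
  tpU_deg _ _ _ _

/-- A good tail at a time. -/
def gT (uP cP : C → V → Polynomial ℝ) (jj : Fin (K + 1) → Fin n) (Θ B : ℝ) (a : C)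
    (g : Fin n → V) (s : ℝ) : Prop :=
  (∀ i k, i ≠ k → 1 / Θ ≤ |(uP a (g (jj i))).eval 0 - (uP a (g (jj k))).eval 0|) ∧
  (∀ i k, |(uP a (g (jj i))).eval 0 - (uP a (g (jj k))).eval 0| ≤ 4 * Θ) ∧
  ∀ i, |(uP a (g (jj i))).eval s| ≤ 6 * Θ ∧ |(cP a (g (jj i))).eval s| ≤ B

/-- The bound of the interpolation polynomial. -/
noncomputable def bT (K : ℕ) (Θ B : ℝ) : ℝ := (K + 1) * (B * (16 * Θ * Θ) ^ K)

/-- The Lipschitz constant of the interpolation polynomial. -/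
noncomputable def lT (K : ℕ) (Θ B : ℝ) : ℝ := (K + 1) * (B * (K * Θ * (16 * Θ * Θ) ^ K))

theorem gT_hgt {Θ B s u : ℝ} {a : C} {g : Fin n → V}
    (h : gT uP cP jj Θ B a g s) (hu : |u| ≤ 6 * Θ) (j : Fin (K + 1)) :
    |u - (uP a (g (jj 0))).eval s - ((uP a (g (jj j))).eval 0 - (uP a (g (jj 0))).eval 0)| ≤
      16 * Θ := by
  have h1 := (h.2.2 0).1
  have h2 := h.2.1 j 0
  have h3 := abs_sub (u - (uP a (g (jj 0))).eval s)
    ((uP a (g (jj j))).eval 0 - (uP a (g (jj 0))).eval 0)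
  have h4 := abs_sub u ((uP a (g (jj 0))).eval s)
  linarith

theorem div_one_div' (x Θ : ℝ) : x / (1 / Θ) = x * Θ := by
  rw [one_div, div_inv_eq_mul]

theorem tS_bd {Θ B s u : ℝ} {a : C} {g : Fin n → V} (hΘ : 1 ≤ Θ) (hB : 0 ≤ B)
    (h : gT uP cP jj Θ B a g s) (hu : |u| ≤ 6 * Θ) :
    |(tS uP cP jj a g u).eval s| ≤ bT K Θ B := by
  have hΘ0 : 0 < Θ := by linarith
  refine (tpS_bd (σ := 1 / Θ) (H := 16 * Θ) (B := B) (by positivity) h.1 hB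
    (fun i => (h.2.2 i).2) (gT_hgt h hu)).trans (le_of_eq ?_)
  unfold bT
  rw [div_one_div']

theorem tS_lip {Θ B s u u' ε : ℝ} {a : C} {g : Fin n → V} (hΘ : 1 ≤ Θ)
    (h : gT uP cP jj Θ B a g s) (hu : |u| ≤ 6 * Θ) (hu' : |u'| ≤ 6 * Θ) (hε : |u - u'| ≤ ε) :
    |(tS uP cP jj a g u).eval s - (tS uP cP jj a g u').eval s| ≤ lT K Θ B * ε := by
  have hΘ0 : 0 < Θ := by linarith
  refine (tpS_lip (σ := 1 / Θ) (H := 16 * Θ) (B := B) (by positivity) (by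
    rw [div_le_iff₀ hΘ0]
    nlinarith) h.1 (fun i => (h.2.2 i).2) (gT_hgt h hu) (gT_hgt h hu') hε).trans (le_of_eq ?_)
  unfold lT
  rw [div_one_div', div_one_div']
  ring

/-- The event of the structure. -/
def nG (uP cP : C → V → Polynomial ℝ) (jj : Fin (K + 1) → Fin n) (Θ ε : ℝ) (a : C) (s : ℝ)
    (f : Fin (n + 1) → V) : Prop :=
  (∀ i k, i ≠ k → 1 / Θ ≤ |(uP a (hd jj f i)).eval 0 - (uP a (hd jj f k)).eval 0|) ∧
  (∀ i, |(uP a (hd jj f i)).eval s| ≤ Θ ∧ |(cP a (hd jj f i)).eval s| ≤ Θ) ∧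
  |∑ i, mu (fun i => (uP a (hd jj f i)).eval 0) i * (cP a (hd jj f i)).eval s| ≤ ε

/-- The paths of the heights are parallel. -/
def nP (uP : C → V → Polynomial ℝ) (ε : ℝ) (a : C) (f : Fin (n + 1) → V) : Prop :=
  ∀ (j : Fin (n + 1)) (s : ℝ), |s| ≤ 2 →
    |(uP a (f j)).eval s - (uP a (f 0)).eval s - ((uP a (f j)).eval 0 - (uP a (f 0)).eval 0)| ≤ ε

theorem nP_hd {ε : ℝ} {a : C} {f : Fin (n + 1) → V} (h : nP uP ε a f) (i : Fin (K + 2)) (s : ℝ)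
    (hs : |s| ≤ 2) : |(uP a (hd jj f i)).eval s - (uP a (f 0)).eval s -
      ((uP a (hd jj f i)).eval 0 - (uP a (f 0)).eval 0)| ≤ ε := by
  refine Fin.cases ?_ (fun j => ?_) i
  · exact h 0 s hs
  · exact h _ s hs

theorem nG_dif {Θ ε s : ℝ} {a : C} {f : Fin (n + 1) → V} (hΘ : 1 ≤ Θ) (hε1 : ε ≤ 1)
    (h : nG uP cP jj Θ ε a s f) (hp : nP uP ε a f) (hs : |s| ≤ 2) (i k : Fin (K + 2)) :
    |(uP a (hd jj f i)).eval 0 - (uP a (hd jj f k)).eval 0| ≤ 4 * Θ := by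
  have h1 := (h.2.1 i).1
  have h2 := (h.2.1 k).1
  have h3 := nP_hd (jj := jj) hp i s hs
  have h4 := nP_hd (jj := jj) hp k s hs
  obtain ⟨x, hx⟩ : ∃ x, x = (uP a (hd jj f i)).eval s := ⟨_, rfl⟩
  obtain ⟨y, hy⟩ : ∃ y, y = (uP a (hd jj f k)).eval s := ⟨_, rfl⟩
  obtain ⟨z, hz⟩ : ∃ z, z = (uP a (f 0)).eval s := ⟨_, rfl⟩
  obtain ⟨x', hx'⟩ : ∃ x, x = (uP a (hd jj f i)).eval 0 := ⟨_, rfl⟩
  obtain ⟨y', hy'⟩ : ∃ y, y = (uP a (hd jj f k)).eval 0 := ⟨_, rfl⟩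
  obtain ⟨z', hz'⟩ : ∃ z, z = (uP a (f 0)).eval 0 := ⟨_, rfl⟩
  rw [← hx] at h1
  rw [← hy] at h2
  rw [← hx, ← hz, ← hx', ← hz'] at h3
  rw [← hy, ← hz, ← hy', ← hz'] at h4
  rw [← hx', ← hy']
  rw [abs_le] at h1 h2 h3 h4 ⊢
  constructor <;> linarith [h1.1, h1.2, h2.1, h2.2, h3.1, h3.2, h4.1, h4.2]

theorem nG_gT {Θ ε s : ℝ} {a : C} {f : Fin (n + 1) → V} (hΘ : 1 ≤ Θ) (hε1 : ε ≤ 1)
    (h : nG uP cP jj Θ ε a s f) (hp : nP uP ε a f) (hs : |s| ≤ 2) :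
    gT uP cP jj Θ Θ a (fun j => f j.succ) s := by
  refine ⟨fun i k hik => ?_, fun i k => ?_, fun i => ⟨?_, ?_⟩⟩
  · exact h.1 i.succ k.succ fun e => hik (Fin.succ_injective _ e)
  · exact nG_dif hΘ hε1 h hp hs i.succ k.succ
  · have := (h.2.1 i.succ).1
    refine le_trans this (by linarith)
  · exact (h.2.1 i.succ).2

/-- **The remainder at the own time.** -/
theorem nG_R {Θ ε s : ℝ} {a : C} {f : Fin (n + 1) → V} (hΘ : 1 ≤ Θ) (hε : 0 ≤ ε) (hε1 : ε ≤ 1)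
    (h : nG uP cP jj Θ ε a s f) (hp : nP uP ε a f) (hs : |s| ≤ 2) :
    |(tR uP cP jj a f).eval s| ≤ (1 + lT K Θ Θ) * ε := by
  have hΘ0 : 0 < Θ := by linarith
  refine (tpR_near (σ := 1 / Θ) (H := 16 * Θ) (B := Θ) (ε₀ := ε) (ε₁ := ε) (by positivity) (by
    rw [div_le_iff₀ hΘ0]
    nlinarith) h.1 (fun i k => by
      have := nG_dif hΘ hε1 h hp hs i k
      linarith) hε (fun i => (h.2.1 i).2) (fun i => nP_hd hp i s hs) h.2.2).trans (le_of_eq ?_)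
  unfold lT
  rw [div_one_div', div_one_div']
  ring

/-- **The value at the own time.** -/
theorem nG_S {Θ ε s u φ : ℝ} {a : C} {f : Fin (n + 1) → V} (hΘ : 1 ≤ Θ) (hε : 0 ≤ ε)
    (hε1 : ε ≤ 1) (h : nG uP cP jj Θ ε a s f) (hp : nP uP ε a f) (hs : |s| ≤ 2) (hu : |u| ≤ 1)
    (h1 : |(uP a (f 0)).eval s - u| ≤ ε) (h2 : |(cP a (f 0)).eval s - φ| ≤ ε) :
    |φ - (tS uP cP jj a (fun j => f j.succ) u).eval s| ≤ (2 + 2 * lT K Θ Θ) * ε := by
  have h3 := nG_R hΘ hε hε1 h hp hs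
  have h4 := tS_lip hΘ (nG_gT hΘ hε1 h hp hs) (u := (uP a (f 0)).eval s) (u' := u) (ε := ε)
    (by
      have h5 : |(uP a (f 0)).eval s| ≤ Θ := (h.2.1 0).1
      linarith) (by linarith) h1
  rw [tR_eval] at h3
  have e1 : φ - (tS uP cP jj a (fun j => f j.succ) u).eval s =
      -((cP a (f 0)).eval s - φ) + ((cP a (f 0)).eval s -
        (tS uP cP jj a (fun j => f j.succ) ((uP a (f 0)).eval s)).eval s) +
      ((tS uP cP jj a (fun j => f j.succ) ((uP a (f 0)).eval s)).eval s -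
        (tS uP cP jj a (fun j => f j.succ) u).eval s) := by ring
  rw [e1]
  have h6 := abs_add_le (-((cP a (f 0)).eval s - φ) + ((cP a (f 0)).eval s -
        (tS uP cP jj a (fun j => f j.succ) ((uP a (f 0)).eval s)).eval s))
      ((tS uP cP jj a (fun j => f j.succ) ((uP a (f 0)).eval s)).eval s -
        (tS uP cP jj a (fun j => f j.succ) u).eval s)
  have h7 := abs_add_le (-((cP a (f 0)).eval s - φ)) ((cP a (f 0)).eval s -
        (tS uP cP jj a (fun j => f j.succ) ((uP a (f 0)).eval s)).eval s)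
  rw [abs_neg] at h7
  nlinarith

end tuple

section core

variable {Ω Λ Pt Y X Z Uf C V : Type} [Fintype Ω] {q : Ω → ℝ} {L : Ω → Λ} {P : Ω → Pt} {y : Ω → Y}
  {x : Ω → X} {Qc : Ω → Z} {Up : Ω → Uf} {ct : Ω → C} {ell : Ω → V} {τ U φc : Ω → ℤ} {φ : Ω → ℝ}
  {uP cP : C → V → Polynomial ℝ} {K n D M : ℕ} {jj : Fin (K + 1) → Fin n} {Θ ε e c : ℝ}

theorem frac_le {M : ℕ} (hM : 1 ≤ M) {t : ℤ} (ht : |t| ≤ (M : ℤ)) : |(t : ℝ) / M| ≤ 1 := by
  have hM0 : (0 : ℝ) < M := by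
    have : (1 : ℝ) ≤ M := by exact_mod_cast hM
    linarith
  rw [abs_div, abs_of_pos hM0, div_le_one hM0]
  exact_mod_cast ht

theorem Nd4H.nP (H : Nd4H q L P y x Qc Up ct ell τ U φc φ uP cP D M jj Θ ε e c)
    {w : Fin (n + 1) → Ω} (hw : 0 < cpn q y n w) : nP uP ε (ct (w 0)) (fun j => ell (w j)) := by
  have hpos := cpn_pos H.law.nonneg y n w hw
  intro j s hs
  exact H.par (w 0) (w j) (hpos.1 0) (hpos.1 j) (hpos.2 j).symm s hs

set_option maxHeartbeats 400000 in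
/-- **The polynomial at the own time.** -/
theorem nd_S1 (H : Nd4H q L P y x Qc Up ct ell τ U φc φ uP cP D M jj Θ ε e c) (hM : 1 ≤ M)
    (hΘ : 1 ≤ Θ) (hε : 0 ≤ ε) (hε1 : ε ≤ 1) : ∃ Gv : Z → Y → Polynomial ℝ,
      (∀ z a, (Gv z a).natDegree ≤ K) ∧
      (∀ z a (u : ℝ), |u| ≤ 1 → |(Gv z a).eval u| ≤ bT K Θ Θ) ∧
      Pb q (fun ω => ¬ |φ ω - (Gv (Qc ω) (y ω)).eval ((U ω : ℝ) / M)| ≤
        (2 + 2 * lT K Θ Θ) * ε) ≤ 2 * c := by
  classical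
  have hq := H.law
  have q0 := hq.nonneg
  have hQl := cpn_law hq y n
  have Q0 := hQl.nonneg
  have hpos := cpn_pos q0 y n
  have hb0 : 0 ≤ bT K Θ Θ := by
    unfold bT
    have : 0 ≤ Θ := by linarith
    positivity
  obtain ⟨cQ, hcQ⟩ := det_fac hq H.Qt
  obtain ⟨τY, hτY⟩ := det_fac hq H.yt
  obtain ⟨Good, hGood⟩ : ∃ Good : (Fin (n + 1) → Ω) → Prop, Good = fun w =>
    gT uP cP jj Θ Θ (ct (w 0)) (fun j => ell (w j.succ)) ((τ (w 0) : ℝ) / M) ∧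
    |φ (w 0) - (tS uP cP jj (ct (w 0)) (fun j => ell (w j.succ)) ((U (w 0) : ℝ) / M)).eval
      ((τ (w 0) : ℝ) / M)| ≤ (2 + 2 * lT K Θ Θ) * ε := ⟨_, rfl⟩
  obtain ⟨ζ, hζ, hsel⟩ := cpn_sel hq y n (fun w => ¬ Good w)
  have hbad : Pb (cpn q y n) (fun w => ¬ Good w) ≤ 2 * c := by
    have h1 := Pool.STB.Pb_or Q0 (fun w => ¬ nG uP cP jj Θ ε (ct (w 0)) ((τ (w 0) : ℝ) / M)
        (fun j => ell (w j)))
      (fun w => ¬ (|(uP (ct (w 0)) (ell (w 0))).eval ((τ (w 0) : ℝ) / M) - (U (w 0) : ℝ) / M| ≤ ε ∧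
        |(cP (ct (w 0)) (ell (w 0))).eval ((τ (w 0) : ℝ) / M) - φ (w 0)| ≤ ε))
    have h2 : Pb (cpn q y n) (fun w => ¬ nG uP cP jj Θ ε (ct (w 0)) ((τ (w 0) : ℝ) / M)
        (fun j => ell (w j))) ≤ c := H.dd
    have h3 : Pb (cpn q y n) (fun w => ¬ (|(uP (ct (w 0)) (ell (w 0))).eval ((τ (w 0) : ℝ) / M) -
        (U (w 0) : ℝ) / M| ≤ ε ∧
        |(cP (ct (w 0)) (ell (w 0))).eval ((τ (w 0) : ℝ) / M) - φ (w 0)| ≤ ε)) ≤ c := by
      rw [Pool.XLF.Pb_cpn_at q0 y n 0 (fun ω => ¬ (|(uP (ct ω) (ell ω)).eval ((τ ω : ℝ) / M) -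
        (U ω : ℝ) / M| ≤ ε ∧ |(cP (ct ω) (ell ω)).eval ((τ ω : ℝ) / M) - φ ω| ≤ ε))]
      exact H.own
    refine (Pool.STB.Pb_mono Q0 fun w hw hn => ?_).trans (h1.trans (by linarith))
    by_contra hcon
    rw [not_or, not_not, not_not] at hcon
    obtain ⟨c1, c2, c3⟩ := hcon
    have hs := frac_le hM (H.tb _ ((hpos w hw).1 0))
    have hs2 : |(τ (w 0) : ℝ) / M| ≤ 2 := by linarith
    have hp := H.nP hw
    have g1 := nG_gT (f := fun j => ell (w j)) hΘ hε1 c1 hp hs2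
    have g2 := nG_S (f := fun j => ell (w j)) hΘ hε hε1 c1 hp hs2
      (frac_le hM (H.Ub _ ((hpos w hw).1 0))) c2 c3
    refine hn ?_
    rw [hGood]
    exact ⟨g1, g2⟩
  refine ⟨fun z a => if gT uP cP jj Θ Θ (cQ z) (fun j => ell (ζ a j)) ((τY a : ℝ) / M) then
    tU uP cP jj (cQ z) (fun j => ell (ζ a j)) ((τY a : ℝ) / M) else 0, ?_, ?_, ?_⟩
  · intro z a
    simp only
    split_ifs
    · exact tU_deg _ _ _
    · rw [Polynomial.natDegree_zero]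
      exact Nat.zero_le _
  · intro z a u hu
    simp only
    split_ifs with h
    · rw [tU_eval]
      exact tS_bd hΘ (by linarith) h (by linarith)
    · rw [Polynomial.eval_zero, abs_zero]
      exact hb0
  · refine (Pool.STB.Pb_mono q0 fun ω hω hn => ?_).trans (hsel.trans hbad)
    intro hg
    rw [hGood] at hg
    refine hn ?_
    obtain ⟨v, hv⟩ : ∃ v : Fin (n + 1) → Ω, v = Fin.cons ω (ζ (y ω)) := ⟨_, rfl⟩
    rw [← hv] at hg
    have e2 : v 0 = ω := by rw [hv, Fin.cons_zero]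
    have e1 : (fun j : Fin n => ell (v j.succ)) = fun j => ell (ζ (y ω) j) := by
      funext j
      rw [hv, Fin.cons_succ]
    rw [e1, e2] at hg
    beta_reduce
    rw [hcQ ω hω, hτY ω hω, if_pos hg.1, tU_eval]
    exact hg.2

set_option maxHeartbeats 400000 in
/-- **The paths.** -/
theorem nd_S2 (K D : ℕ) : ∃ Cr : ℕ, 1 ≤ Cr ∧ ∀ {Ω Λ Pt Y X Z Uf C V : Type} [Fintype Ω] {q : Ω → ℝ}
    {L : Ω → Λ} {P : Ω → Pt} {y : Ω → Y} {x : Ω → X} {Qc : Ω → Z} {Up : Ω → Uf} {ct : Ω → C} {ell : Ω → V}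
    {τ U φc : Ω → ℤ} {φ : Ω → ℝ} {uP cP : C → V → Polynomial ℝ} {n M : ℕ}
    {jj : Fin (K + 1) → Fin n} {Θ ε e c : ℝ},
    Nd4H q L P y x Qc Up ct ell τ U φc φ uP cP D M jj Θ ε e c → 1 ≤ M → 1 < Θ → 0 ≤ ε → ε ≤ 1 →
    0 ≤ e → (Cr : ℝ) ≤ (1 / Θ) ^ Cr * (2 * M + 1) →
    Pb (cpn q y n) (fun w => ¬ ∀ s : ℝ, |s| ≤ 2 →
      gT uP cP jj Θ (Cr * (2 * Θ) ^ Cr * Θ) (ct (w 0)) (fun j => ell (w j.succ)) s ∧
      |(tR uP cP jj (ct (w 0)) (fun j => ell (w j))).eval s| ≤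
        Cr * (2 * Θ) ^ Cr * ((1 + lT K Θ Θ) * ε)) ≤
      (K + 3) * (c + (e + Real.log 2) / Real.log Θ) := by
  classical
  obtain ⟨Cr, hCr, hr⟩ := rdv ((K + 1) * (D + 1))
  refine ⟨Cr, hCr, ?_⟩
  intro Ω Λ Pt Y X Z Uf C V _ q L P y x Qc Up ct ell τ U φc φ uP cP n M jj Θ ε e c H hM hΘ hε hε1 he hCM
  have hq := H.law
  have q0 := hq.nonneg
  have hQl := cpn_law hq y n
  have Q0 := hQl.nonneg
  have hpos := cpn_pos q0 y n
  have hΘ0 : 0 < Θ := by linarith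
  have hρ1 : 1 / Θ < 1 := by rw [div_lt_one hΘ0]; exact hΘ
  have hρ : 0 < 1 / Θ := by positivity
  have e0 : (2 : ℝ) / (1 / Θ) = 2 * Θ := div_one_div' _ _
  have e0' : (1 : ℝ) / (1 / Θ) = Θ := by rw [div_one_div', one_mul]
  have hc0 : 0 ≤ c := (Pool.MIC.Pb_nonneg q0 _).trans H.own
  have hlΘ : 0 < Real.log Θ := Real.log_pos hΘ
  obtain ⟨ψc, hψc⟩ := det_fac hq H.Lc
  obtain ⟨ψe, hψe⟩ := det_fac hq H.Ll
  obtain ⟨W, hW⟩ : ∃ W : (Fin (n + 1) → Ω) → Λ × (Fin n → V),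
    W = fun w => (L (w 0), fun i : Fin n => ell (w i.succ)) := ⟨_, rfl⟩
  have hfT := H.fT
  rw [← hW] at hfT
  have hdeg : (K + 1) * D ≤ (K + 1) * (D + 1) := Nat.mul_le_mul_left _ (Nat.le_succ D)
  have hdeg' : D ≤ (K + 1) * (D + 1) := by nlinarith
  have hnG : Pb (cpn q y n) (fun w => ¬ nG uP cP jj Θ ε (ct (w 0)) ((τ (w 0) : ℝ) / M)
        (fun j => ell (w j))) ≤ c := H.dd
  have hfull : ∀ w, 0 < cpn q y n w → (Fin.cons (ψe (W w).1) (W w).2 : Fin (n + 1) → V) =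
      fun j => ell (w j) := by
    intro w hw
    rw [hW]
    funext j
    refine Fin.cases ?_ (fun i => ?_) j
    · exact hψe _ ((hpos w hw).1 0)
    · rfl
  -- the remainder
  have h1 := hr (Fin (n + 1) → Ω) (Λ × (Fin n → V)) (cpn q y n) W M (fun w => τ (w 0))
    (fun p => tR uP cP jj (ψc p.1) (Fin.cons (ψe p.1) p.2)) e (1 / Θ) ((1 + lT K Θ Θ) * ε) c hQl hM
    hρ hρ1 hCM (fun w hw => H.tb _ ((hpos w hw).1 0)) hfT
    (fun p => (tR_deg H.uD H.cD _ _).trans hdeg) (by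
      refine (Pool.STB.Pb_mono Q0 fun w hw hn => ?_).trans hnG
      intro hg
      refine hn ?_
      rw [hfull w hw]
      have e1 : ψc (W w).1 = ct (w 0) := by
        rw [hW]
        exact hψc _ ((hpos w hw).1 0)
      rw [e1]
      have hs := frac_le hM (H.tb _ ((hpos w hw).1 0))
      exact nG_R hΘ.le hε hε1 hg (H.nP hw) (by linarith))
  rw [e0, e0'] at h1
  -- the paths of the slopes
  have h2 : ∀ i : Fin (K + 1), Pb (cpn q y n) (fun w => ¬ ∀ s : ℝ, |s| ≤ 2 →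
      |(cP (ct (w 0)) (ell (w (jj i).succ))).eval s| ≤ Cr * (2 * Θ) ^ Cr * Θ) ≤
      c + (e + Real.log 2) / Real.log Θ := by
    intro i
    have h3 := hr (Fin (n + 1) → Ω) (Λ × (Fin n → V)) (cpn q y n) W M (fun w => τ (w 0))
      (fun p => cP (ψc p.1) (p.2 (jj i))) e (1 / Θ) Θ c hQl hM
      hρ hρ1 hCM (fun w hw => H.tb _ ((hpos w hw).1 0)) hfT
      (fun p => (H.cD _ _).trans hdeg') (by
        refine (Pool.STB.Pb_mono Q0 fun w hw hn => ?_).trans hnG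
        intro hg
        refine hn ?_
        have e1 : ψc (W w).1 = ct (w 0) := by
          rw [hW]
          exact hψc _ ((hpos w hw).1 0)
        have e2 : (W w).2 (jj i) = ell (w (jj i).succ) := by rw [hW]
        rw [e1, e2]
        exact (hg.2.1 i.succ).2)
    rw [e0, e0'] at h3
    refine (Pool.STB.Pb_mono Q0 fun w hw hn => ?_).trans h3
    intro hcon
    refine hn fun s hs => ?_
    have h4 := hcon s hs
    have e1 : ψc (W w).1 = ct (w 0) := by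
      rw [hW]
      exact hψc _ ((hpos w hw).1 0)
    have e2 : (W w).2 (jj i) = ell (w (jj i).succ) := by rw [hW]
    rwa [e1, e2] at h4
  -- together
  have h5 := Pool.STB.Pb_or Q0 (fun w => ¬ nG uP cP jj Θ ε (ct (w 0)) ((τ (w 0) : ℝ) / M)
        (fun j => ell (w j)))
    (fun w => ¬ ∀ s : ℝ, |s| ≤ 2 → |(tR uP cP jj (ψc (W w).1)
      (Fin.cons (ψe (W w).1) (W w).2)).eval s| ≤ Cr * (2 * Θ) ^ Cr * ((1 + lT K Θ Θ) * ε))
  have h6 := Pool.MIC.Pb_exists_le Q0 (fun (i : Fin (K + 1)) (w : Fin (n + 1) → Ω) =>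
    ¬ ∀ s : ℝ, |s| ≤ 2 → |(cP (ct (w 0)) (ell (w (jj i).succ))).eval s| ≤ Cr * (2 * Θ) ^ Cr * Θ)
  have h7 : ∑ i : Fin (K + 1), Pb (cpn q y n) (fun w => ¬ ∀ s : ℝ, |s| ≤ 2 →
      |(cP (ct (w 0)) (ell (w (jj i).succ))).eval s| ≤ Cr * (2 * Θ) ^ Cr * Θ) ≤
      (K + 1) * (c + (e + Real.log 2) / Real.log Θ) := by
    refine (Finset.sum_le_sum fun i _ => h2 i).trans (le_of_eq ?_)
    rw [Finset.sum_const, Finset.card_univ, Fintype.card_fin, nsmul_eq_mul]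
    push_cast
    ring
  have h8 := Pool.STB.Pb_or Q0 (fun w => ¬ nG uP cP jj Θ ε (ct (w 0)) ((τ (w 0) : ℝ) / M)
        (fun j => ell (w j)) ∨ ¬ ∀ s : ℝ, |s| ≤ 2 → |(tR uP cP jj (ψc (W w).1)
      (Fin.cons (ψe (W w).1) (W w).2)).eval s| ≤ Cr * (2 * Θ) ^ Cr * ((1 + lT K Θ Θ) * ε))
    (fun w => ∃ i : Fin (K + 1), ¬ ∀ s : ℝ, |s| ≤ 2 →
      |(cP (ct (w 0)) (ell (w (jj i).succ))).eval s| ≤ Cr * (2 * Θ) ^ Cr * Θ)
  have h9 : 0 ≤ (e + Real.log 2) / Real.log Θ := by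
    have : 0 < Real.log 2 := Real.log_pos one_lt_two
    positivity
  refine (Pool.STB.Pb_mono Q0 fun w hw hn => ?_).trans (h8.trans (by linarith))
  by_contra hcon
  push Not at hcon
  obtain ⟨⟨c1, c2⟩, c3⟩ := hcon
  refine hn fun s hs => ?_
  have e1 : ψc (W w).1 = ct (w 0) := by
    rw [hW]
    exact hψc _ ((hpos w hw).1 0)
  rw [e1, hfull w hw] at c2
  have hp := H.nP hw
  have ht := frac_le hM (H.tb _ ((hpos w hw).1 0))
  refine ⟨⟨fun i k hik => ?_, fun i k => ?_, fun i => ⟨?_, c3 i s hs⟩⟩, c2 s hs⟩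
  · exact c1.1 i.succ k.succ fun h => hik (Fin.succ_injective _ h)
  · exact nG_dif hΘ.le hε1 c1 hp (by linarith) i.succ k.succ
  · have f1 := nG_dif hΘ.le hε1 c1 hp (by linarith) i.succ 0
    have f2 := hp (jj i).succ s hs
    have f3 := H.uB _ ((hpos w hw).1 0) s hs
    have f1' : |(uP (ct (w 0)) (ell (w (jj i).succ))).eval 0 -
      (uP (ct (w 0)) (ell (w 0))).eval 0| ≤ 4 * Θ := f1
    have f2' : |(uP (ct (w 0)) (ell (w (jj i).succ))).eval s -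
      (uP (ct (w 0)) (ell (w 0))).eval s - ((uP (ct (w 0)) (ell (w (jj i).succ))).eval 0 -
      (uP (ct (w 0)) (ell (w 0))).eval 0)| ≤ ε := f2
    rw [abs_le] at f1' f2' f3 ⊢
    constructor <;> linarith [f1'.1, f1'.2, f2'.1, f2'.2, f3.1, f3.2]

end core

end Pool.CLO80
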