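import Pool.Agent.H80.CLO.Nd4

/-!
# The slope polynomial of a tuple: a function of the point, and few
-/

set_option autoImplicit false

namespace Pool.CLO80

open Finset Real
open Pool.Agent.H49.Ent Pool.Agent.H32.Dense Pool.STK
open Pool.BFL (Pb)
open Pool.K2S (cpn)
open Pool.NDD66 (mu Lam)
open Pool.CLU (cpn_law cpn_pos)
open Pool.FLT (lag_bd gpt gpt_abs gpt_sep gpt_pos)
open Pool.P4E (few_vec)
open Pool.STB6 (node)

/-- The constant of the interpolation at the grid. -/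
noncomputable def kK (K : ℕ) : ℝ := (K + 1) * ((K + 1) * (2 ^ K * (K + 1) ^ K))

theorem kK_nonneg (K : ℕ) : 0 ≤ kK K := by
  unfold kK
  positivity

/-- The entropy of the code. -/
noncomputable def eG (K M : ℕ) (Θ δ e c A : ℝ) : ℝ :=
  Real.log 2 + (K + 1) * (Real.log (2 * (M * ((K + 1) * ((K + 1) * (2 ^ K * Θ ^ K) *
    (2 * δ + 2 / M))) + 1) + 1) + ((K + 1) * c + 2 * (K + 1) ^ 2 * (e + Real.log 2) /
    Real.log Θ) * Real.log (4 * (M * A + 1) + 1)) +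
    (K + 1) * (e + (2 * e + Real.log 2 + Real.log (8 * (M * δ) + 16)))

/-- The polynomial and its code. -/
theorem dec_near {K M : ℕ} (hM : 1 ≤ M) {G : Polynomial ℝ} (hG : G.natDegree ≤ K)
    {v : Fin (K + 1) → ℤ} (hv : ∀ l, v l = ⌊(M : ℝ) * G.eval (gpt (K + 1) l)⌋) {u : ℝ}
    (hu : |u| ≤ 1) : |G.eval u - (decP K M v).eval u| ≤ kK K / M := by
  have hM1 : (1 : ℝ) ≤ M := by exact_mod_cast hM
  have hM0 : (0 : ℝ) < M := by linarith
  have hK0 : (0 : ℝ) < K + 1 := by positivity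
  have h1 := lag_bd (D := K) (gpt (K + 1)) (s := 1 / (K + 1)) (ε := 1 / M) (by positivity)
    gpt_abs (fun i j hij => by
      have := gpt_sep hij
      push_cast at this
      exact this) (G - decP K M v)
    ((Polynomial.natDegree_sub_le _ _).trans (max_le hG (decP_deg _ _ _)))
    (fun l => by
      rw [Polynomial.eval_sub, decP_eval, hv]
      have g1 := Int.floor_le ((M : ℝ) * G.eval (gpt (K + 1) l))
      have g2 := Int.lt_floor_add_one ((M : ℝ) * G.eval (gpt (K + 1) l))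
      obtain ⟨z, hz⟩ : ∃ z : ℝ, z = G.eval (gpt (K + 1) l) := ⟨_, rfl⟩
      obtain ⟨w, hw⟩ : ∃ w : ℝ, w = ((⌊(M : ℝ) * G.eval (gpt (K + 1) l)⌋ : ℤ) : ℝ) := ⟨_, rfl⟩
      rw [← hw, ← hz] at g1 g2 ⊢
      have e1 : z - w / M = (M * z - w) / M := by field_simp
      rw [e1, abs_div, abs_of_pos hM0]
      refine div_le_div_of_nonneg_right ?_ hM0.le
      rw [abs_le]
      constructor <;> linarith) hu
  rw [Polynomial.eval_sub] at h1
  refine h1.trans (le_of_eq ?_)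
  unfold kK
  rw [one_div, one_div, inv_pow, div_inv_eq_mul]
  ring

theorem CH_swp {Ω X Y W : Type} [Fintype Ω] {q : Ω → ℝ} (q0 : ∀ ω, 0 ≤ q ω) (x : Ω → X) (y : Ω → Y)
    (w : Ω → W) : CH q (fun ω => (x ω, y ω)) w = CH q (fun ω => (y ω, x ω)) w :=
  CH_congr q0 (fun _ _ _ _ e => by
    have e' := Prod.ext_iff.1 (Prod.ext_iff.1 e).1
    exact Prod.ext e'.2 e'.1) (fun _ _ _ _ e => by
    have e' := Prod.ext_iff.1 (Prod.ext_iff.1 e).1
    exact Prod.ext e'.2 e'.1) (fun _ _ _ _ e => e) (fun _ _ _ _ e => e)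

/-- **The finer digits drop**: a code which is few given `Up`, `V`, and near a function of `V`, `y` on an event, is
few given `V`, if `Up` is as free given `V`, `y` as given `V`. -/
theorem few_up {Ω Up' V' Y' : Type} [Fintype Ω] {q : Ω → ℝ} (q0 : ∀ ω, 0 ≤ q ω) {φc φd : Ω → ℤ}
    {Up : Ω → Up'} {V : Ω → V'} {y : Ω → Y'} {e e' m : ℝ}
    (hf : CH q φc (fun ω => (Up ω, V ω)) ≤ e)
    (hU : CH q Up V ≤ CH q Up (fun ω => (V ω, y ω)) + e') (Gd : Ω → Prop)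
    [DecidablePred Gd] (hm : 0 ≤ m)
    (hd : ∀ ω, φd ω = if Gd ω then φc ω else 0) (f : V' × Y' → ℝ) (hs : ∑ ω, q ω = 1)
    (hn : ∀ ω, 0 < q ω → Gd ω → |(φc ω : ℝ) - f (V ω, y ω)| ≤ m) :
    CH q φd V ≤ e + e' + Real.log 2 + Real.log (8 * m + 8) := by
  classical
  -- the count
  have h1 : CH q φd (fun ω => (V ω, y ω)) ≤ Real.log (8 * m + 8) := by
    have h2 := CH_le_card q0 hs φd (fun ω => (V ω, y ω)) (fun v =>
      insert 0 (Finset.Icc ⌈f v - m⌉ ⌊f v + m⌋)) (fun ω hω => by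
        rw [Finset.mem_insert, Finset.mem_Icc]
        by_cases hg : Gd ω
        · right
          have h3 := abs_le.1 (hn ω hω hg)
          have e1 : φd ω = φc ω := by rw [hd, if_pos hg]
          rw [e1]
          exact ⟨Int.ceil_le.2 (by linarith [h3.1]), Int.le_floor.2 (by linarith [h3.2])⟩
        · left
          rw [hd, if_neg hg])
    refine h2.trans ?_
    have h4 : ∀ ω, Real.log ((insert (0 : ℤ) (Finset.Icc ⌈f (V ω, y ω) - m⌉
        ⌊f (V ω, y ω) + m⌋)).card : ℝ) ≤ Real.log (8 * m + 8) := by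
      intro ω
      have h5 : ((insert (0 : ℤ) (Finset.Icc ⌈f (V ω, y ω) - m⌉
          ⌊f (V ω, y ω) + m⌋)).card : ℝ) ≤ 8 * m + 8 := by
        have h6 := Finset.card_insert_le (0 : ℤ) (Finset.Icc ⌈f (V ω, y ω) - m⌉
          ⌊f (V ω, y ω) + m⌋)
        rw [Int.card_Icc] at h6
        have h7 : ((⌊f (V ω, y ω) + m⌋ + 1 - ⌈f (V ω, y ω) - m⌉).toNat : ℝ) ≤ 2 * m + 1 := by
          have a1 := Int.floor_le (f (V ω, y ω) + m)
          have a2 := Int.le_ceil (f (V ω, y ω) - m)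
          rcases le_or_gt 0 (⌊f (V ω, y ω) + m⌋ + 1 - ⌈f (V ω, y ω) - m⌉) with h8 | h8
          · have h9 : ((⌊f (V ω, y ω) + m⌋ + 1 - ⌈f (V ω, y ω) - m⌉).toNat : ℝ) =
                ((⌊f (V ω, y ω) + m⌋ + 1 - ⌈f (V ω, y ω) - m⌉ : ℤ) : ℝ) := by
              exact_mod_cast Int.toNat_of_nonneg h8
            rw [h9]
            push_cast
            linarith
          · rw [Int.toNat_of_nonpos h8.le]
            push_cast
            linarith
        have h10 : ((insert (0 : ℤ) (Finset.Icc ⌈f (V ω, y ω) - m⌉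
            ⌊f (V ω, y ω) + m⌋)).card : ℝ) ≤
            ((⌊f (V ω, y ω) + m⌋ + 1 - ⌈f (V ω, y ω) - m⌉).toNat : ℝ) + 1 := by
          exact_mod_cast h6
        linarith
      refine Real.log_le_log ?_ h5
      exact_mod_cast Finset.card_pos.2 ⟨0, Finset.mem_insert_self _ _⟩
    have h5 : Ex q (fun ω => Real.log ((insert (0 : ℤ) (Finset.Icc ⌈f (V ω, y ω) - m⌉
        ⌊f (V ω, y ω) + m⌋)).card : ℝ)) ≤ Ex q (fun _ => Real.log (8 * m + 8)) :=
      Finset.sum_le_sum fun ω _ => mul_le_mul_of_nonneg_left (h4 ω) (q0 ω)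
    rw [Ex_const hs] at h5
    exact h5
  -- few with the finer digits
  have h2 : CH q φd (fun ω => (Up ω, V ω)) ≤ e + Real.log 2 := by
    have a1 := CH_le_add q0 φd (fun ω => (φc ω, decide (Gd ω))) (fun ω => (Up ω, V ω))
    have a2 : CH q φd (fun ω => ((φc ω, decide (Gd ω)), (Up ω, V ω))) = 0 :=
      CH_eq_zero q0 fun ω ω' _ _ h => by
        have h3 := (Prod.ext_iff.1 h).1
        have h4 := (Prod.ext_iff.1 h3).1
        have h5 := (Prod.ext_iff.1 h3).2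
        simp only [decide_eq_decide] at h5
        rw [hd, hd]
        simp only at h4
        by_cases hg : Gd ω
        · rw [if_pos hg, if_pos (h5.1 hg), h4]
        · rw [if_neg hg, if_neg fun hh => hg (h5.2 hh)]
    have a3 := CH_chain q0 (fun ω => decide (Gd ω)) φc (fun ω => (Up ω, V ω))
    have a4 : CH q (fun ω => (φc ω, decide (Gd ω))) (fun ω => (Up ω, V ω)) =
        CH q (fun ω => (decide (Gd ω), φc ω)) (fun ω => (Up ω, V ω)) :=
      CH_swp q0 _ _ _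
    have a5 : CH q (fun ω => decide (Gd ω)) (fun ω => (φc ω, (Up ω, V ω))) ≤ Real.log 2 := by
      have a6 := CH_le_card q0 hs (fun ω => decide (Gd ω)) (fun ω => (φc ω, (Up ω, V ω)))
        (fun _ => Finset.univ) (fun ω _ => Finset.mem_univ _)
      rw [Ex_const hs] at a6
      simpa using a6
    linarith
  have b1 := CH_chain q0 φd Up V
  have b2 := CH_chain q0 Up φd V
  have b3 : CH q (fun ω => (φd ω, Up ω)) V = CH q (fun ω => (Up ω, φd ω)) V :=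
    CH_swp q0 _ _ _
  have b4 : CH q Up (fun ω => (φd ω, (V ω, y ω))) ≤ CH q Up (fun ω => (φd ω, V ω)) :=
    CH_mono_cond q0 fun ω ω' _ _ h => by
      have h1 := Prod.ext_iff.1 h
      exact Prod.ext h1.1 (Prod.ext_iff.1 h1.2).1
  have b5 := CH_chain q0 φd Up (fun ω => (V ω, y ω))
  have b6 := CH_chain q0 Up φd (fun ω => (V ω, y ω))
  have b7 : CH q (fun ω => (φd ω, Up ω)) (fun ω => (V ω, y ω)) =
      CH q (fun ω => (Up ω, φd ω)) (fun ω => (V ω, y ω)) :=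
    CH_swp q0 _ _ _
  have b8 := CH_nonneg q0 φd (fun ω => (Up ω, (V ω, y ω)))
  linarith

set_option maxHeartbeats 400000 in
/-- **The polynomial is a function of the point, and few.** -/
theorem nd_S3 (K : ℕ) : ∃ Cr : ℕ, 1 ≤ Cr ∧ ∀ {Ω Λ Pt Y X Z Uf C V : Type} [Fintype Ω] {q : Ω → ℝ}
    {L : Ω → Λ} {P : Ω → Pt} {y : Ω → Y} {x : Ω → X} {Qc : Ω → Z} {Up : Ω → Uf} {ct : Ω → C} {ell : Ω → V}
    {τ U φc : Ω → ℤ} {φ : Ω → ℝ} {uP cP : C → V → Polynomial ℝ} {n D M : ℕ}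
    {jj : Fin (K + 1) → Fin n} {Θ Θ₂ ε e c δ₁ c₁ A : ℝ},
    Nd4H q L P y x Qc Up ct ell τ U φc φ uP cP D M jj Θ ε e c → 1 ≤ M → 4 ≤ Θ → Θ ≤ M → 1 < Θ₂ →
    0 ≤ A → 0 ≤ δ₁ → (Cr : ℝ) ≤ (1 / Θ₂) ^ Cr * (2 * M + 1) → ∀ Gv : Z → Y → Polynomial ℝ,
    (∀ z a, (Gv z a).natDegree ≤ K) → (∀ z a (u : ℝ), |u| ≤ 1 → |(Gv z a).eval u| ≤ A) →
    Pb q (fun ω => ¬ |φ ω - (Gv (Qc ω) (y ω)).eval ((U ω : ℝ) / M)| ≤ δ₁) ≤ c₁ →
    ∃ Wv : Pt → Polynomial ℝ, (∀ a, (Wv a).natDegree ≤ K) ∧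
      (∀ a (u : ℝ), |u| ≤ 1 → |(Wv a).eval u| ≤ A + kK K) ∧
      Pb q (fun ω => ¬ ∀ u : ℝ, |u| ≤ 1 → |(Gv (Qc ω) (y ω)).eval u - (Wv (P ω)).eval u| ≤
        kK K / M + Cr * Θ₂ ^ Cr * (2 * (δ₁ + kK K / M))) ≤
        2 * c₁ + (e + 2 * eG K M Θ δ₁ e c₁ A + Real.log 2) / Real.log Θ₂ ∧
      ∀ u : ℝ, |u| ≤ 1 → CH q (fun ω => ⌊(M : ℝ) * (Wv (P ω)).eval u⌋) Qc ≤
        eG K M Θ δ₁ e c₁ A + (Real.log 2 + (Real.log (2 * (2 * (M * (Cr * Θ₂ ^ Cr *
          (2 * (δ₁ + kK K / M)))) + 1) + 1) + (2 * c₁ + (e + 2 * eG K M Θ δ₁ e c₁ A +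
          Real.log 2) / Real.log Θ₂) * Real.log (4 * (M * (A + kK K) + 1) + 1))) := by
  classical
  obtain ⟨Cr, hCr, hgam⟩ := gam_pol K
  refine ⟨Cr, hCr, ?_⟩
  intro Ω Λ Pt Y X Z Uf C V _ q L P y x Qc Up ct ell τ U φc φ uP cP n D M jj Θ Θ₂ ε e c δ₁ c₁ A H hM hΘ
    hΘM hΘ₂ hA hδ₁ hCM Gv hGd hGb hG
  have hq := H.law
  have q0 := hq.nonneg
  have hM1 : (1 : ℝ) ≤ M := by exact_mod_cast hM
  have hM0 : (0 : ℝ) < M := by linarith
  have hΘ₂0 : 0 < Θ₂ := by linarith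
  have hk := kK_nonneg K
  have hkM : kK K / M ≤ kK K := div_le_self hk hM1
  have hkM0 : 0 ≤ kK K / M := by positivity
  obtain ⟨cd, hcd⟩ : ∃ cd : Ω → Fin (K + 1) → ℤ, cd = fun ω => fun l : Fin (K + 1) =>
    ⌊(M : ℝ) * (Gv (Qc ω) (y ω)).eval (gpt (K + 1) l)⌋ := ⟨_, rfl⟩
  have hdn : ∀ ω (u : ℝ), |u| ≤ 1 →
      |(Gv (Qc ω) (y ω)).eval u - (decP K M (cd ω)).eval u| ≤ kK K / M := fun ω u hu =>
    dec_near hM (hGd _ _) (fun l => by rw [hcd]) hu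
  -- the entropy of the code
  have hfU : Real.log (2 * M + 1) - e ≤ CH q U (fun ω => (Qc ω, (Qc ω, y ω))) :=
    H.fU.trans (CH_mono_cond q0 fun ω ω' _ _ h => by
      have h1 := Prod.ext_iff.1 h
      exact Prod.ext h1.1 h)
  -- the slope without its finer digits
  obtain ⟨Gd, hGd'⟩ : ∃ Gd : Ω → Prop, Gd = fun ω =>
      |φ ω - (Gv (Qc ω) (y ω)).eval ((U ω : ℝ) / M)| ≤ δ₁ := ⟨_, rfl⟩
  obtain ⟨φ', hφ'⟩ : ∃ φ' : Ω → ℝ, φ' = fun ω => if Gd ω then φ ω else 0 := ⟨_, rfl⟩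
  obtain ⟨φd, hφd⟩ : ∃ φd : Ω → ℤ, φd = fun ω => if Gd ω then φc ω else 0 := ⟨_, rfl⟩
  have hfew := few_up q0 H.few H.fUp Gd (φd := φd) (m := M * δ₁ + 1) (by positivity)
    (fun ω => by rw [hφd]) (fun v : (ℤ × Z) × Y => M * (Gv v.1.2 v.2).eval ((v.1.1 : ℝ) / M))
    hq.sum_one (fun ω hω hg => by
      rw [hGd'] at hg
      have h1 := H.pc ω hω
      have h2 : |(M : ℝ) * φ ω - M * (Gv (Qc ω) (y ω)).eval ((U ω : ℝ) / M)| ≤ M * δ₁ := by
        rw [← mul_sub, abs_mul, abs_of_pos hM0]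
        exact mul_le_mul_of_nonneg_left hg hM0.le
      obtain ⟨z, hz⟩ : ∃ z, z = (M : ℝ) * (Gv (Qc ω) (y ω)).eval ((U ω : ℝ) / M) := ⟨_, rfl⟩
      show |(φc ω : ℝ) - M * (Gv (Qc ω) (y ω)).eval ((U ω : ℝ) / M)| ≤ M * δ₁ + 1
      rw [← hz] at h2 ⊢
      rw [abs_le] at h1 h2 ⊢
      constructor <;> linarith [h1.1, h1.2, h2.1, h2.2])
  have hcode := few_code K hq (fun ω => (Qc ω, y ω)) Qc U φd φ' (fun p => Gv p.1 p.2) M hM hΘ hΘM hA
    hδ₁ H.Ub hfU hfew (fun ω hω => by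
      rw [hφ', hφd]
      simp only
      split_ifs with hg
      · exact H.pc ω hω
      · push_cast
        simp) (fun p => hGd _ _) (fun p u hu => hGb _ _ u hu)
    ((Pool.STB.Pb_mono q0 fun ω _ hn hg => hn (by
      rw [hφ']
      simp only
      rw [if_pos (by rw [hGd']; exact hg)]
      exact hg)).trans hG)
  have hcode' : CH q cd Qc ≤ eG K M Θ δ₁ e c₁ A := by
    rw [hcd]
    refine hcode.trans (le_of_eq ?_)
    unfold eG
    rw [show 8 * (M * δ₁ + 1) + 8 = 8 * (M * δ₁) + 16 by ring]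
    ring
  have heG := (CH_nonneg q0 cd Qc).trans hcode'
  have hfU2 : Real.log (2 * M + 1) - e ≤ CH q U Qc :=
    H.fU.trans (CH_mono_cond q0 fun ω ω' _ _ h => (Prod.ext_iff.1 h).1)
  have hg := hgam Ω Pt Z (Fin (K + 1) → ℤ) q P Qc cd (decP K M) U φ M e (eG K M Θ δ₁ e c₁ A)
    (1 / Θ₂) (δ₁ + kK K / M) c₁ hq hM (by positivity) (by rw [div_lt_one hΘ₂0]; exact hΘ₂) hCM
    H.Ub H.PU H.PQ H.Pp hfU2 (by
      have := CH_nonneg q0 cd P
      linarith) (fun v => decP_deg _ _ _) (by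
      refine (Pool.STB.Pb_mono q0 fun ω hω hn => ?_).trans hG
      intro hh
      refine hn ?_
      have h1 := hdn ω _ (frac_le hM (H.Ub ω hω))
      have e1 : (decP K M (cd ω)).eval ((U ω : ℝ) / M) - φ ω =
          -(φ ω - (Gv (Qc ω) (y ω)).eval ((U ω : ℝ) / M)) -
          ((Gv (Qc ω) (y ω)).eval ((U ω : ℝ) / M) - (decP K M (cd ω)).eval ((U ω : ℝ) / M)) := by
        ring
      rw [e1]
      have h2 := abs_sub (-(φ ω - (Gv (Qc ω) (y ω)).eval ((U ω : ℝ) / M)))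
          ((Gv (Qc ω) (y ω)).eval ((U ω : ℝ) / M) - (decP K M (cd ω)).eval ((U ω : ℝ) / M))
      rw [abs_neg] at h2
      linarith)
  have e0' : (1 : ℝ) / (1 / Θ₂) = Θ₂ := by rw [div_one_div', one_mul]
  rw [e0'] at hg
  obtain ⟨δW, hδW⟩ : ∃ δW : ℝ, δW = Cr * Θ₂ ^ Cr * (2 * (δ₁ + kK K / M)) := ⟨_, rfl⟩
  have hδW0 : 0 ≤ δW := by rw [hδW]; positivity
  obtain ⟨c₅, hc₅⟩ : ∃ c₅ : ℝ, c₅ = 2 * c₁ + (e + 2 * eG K M Θ δ₁ e c₁ A + Real.log 2) /
    Real.log Θ₂ := ⟨_, rfl⟩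
  rw [← hδW, ← hc₅] at hg ⊢
  obtain ⟨ζ, hζ, hsel⟩ := cpn_sel hq P 1 (fun w => ¬ ∀ u : ℝ, |u| ≤ 1 →
    |(decP K M (cd (w 0))).eval u - (decP K M (cd (w 1))).eval u| ≤ δW)
  have hsel' : Pb q (fun ω => ¬ ∀ u : ℝ, |u| ≤ 1 →
      |(decP K M (cd ω)).eval u - (decP K M (cd (ζ (P ω) 0))).eval u| ≤ δW) ≤ c₅ :=
    le_trans (le_of_eq rfl) (hsel.trans hg)
  have hWb : ∀ ω (u : ℝ), |u| ≤ 1 → |(decP K M (cd ω)).eval u| ≤ A + kK K := by
    intro ω u hu
    have h1 := hdn ω u hu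
    have h2 := hGb (Qc ω) (y ω) u hu
    have e1 : (decP K M (cd ω)).eval u = (Gv (Qc ω) (y ω)).eval u -
      ((Gv (Qc ω) (y ω)).eval u - (decP K M (cd ω)).eval u) := by ring
    rw [e1]
    refine (abs_sub _ _).trans ?_
    linarith
  refine ⟨fun a => decP K M (cd (ζ a 0)), fun a => decP_deg _ _ _, fun a u hu => hWb _ u hu, ?_, ?_⟩
  · refine (Pool.STB.Pb_mono q0 fun ω _ hn => ?_).trans hsel'
    intro hh
    refine hn fun u hu => ?_
    have h1 := hdn ω u hu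
    have h2 := hh u hu
    have h3 := abs_sub_le ((Gv (Qc ω) (y ω)).eval u) ((decP K M (cd ω)).eval u)
      ((decP K M (cd (ζ (P ω) 0))).eval u)
    linarith
  · intro u hu
    have b1 : CH q (fun ω => ⌊(M : ℝ) * (decP K M (cd (ζ (P ω) 0))).eval u⌋) Qc =
        CH q (fun ω => fun _ : Fin 1 => ⌊(M : ℝ) * (decP K M (cd (ζ (P ω) 0))).eval u⌋) Qc :=
      CH_congr q0 (fun w w' _ _ h => funext fun _ => (Prod.ext_iff.1 h).1)
        (fun w w' _ _ h => congrFun (Prod.ext_iff.1 h).1 0) (fun _ _ _ _ h => h)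
        (fun _ _ _ _ h => h)
    have b2 := CH_le_add q0 (fun ω => fun _ : Fin 1 => ⌊(M : ℝ) *
      (decP K M (cd (ζ (P ω) 0))).eval u⌋) cd Qc
    have b3 := few_vec hq (fun ω => fun _ : Fin 1 => ⌊(M : ℝ) *
      (decP K M (cd (ζ (P ω) 0))).eval u⌋) (fun ω => (cd ω, Qc ω))
      (fun ω => ∀ u : ℝ, |u| ≤ 1 →
        |(decP K M (cd ω)).eval u - (decP K M (cd (ζ (P ω) 0))).eval u| ≤ δW)
      (m := 2 * (M * δW) + 1) (B := M * (A + kK K) + 1) (by positivity) (by positivity)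
      (fun ω ω' _ _ hE hE' h _ => by
        have h1 := hE u hu
        have h2 := hE' u hu
        have h3 : cd ω = cd ω' := (Prod.ext_iff.1 h).1
        rw [← h3] at h2
        obtain ⟨z, hz⟩ : ∃ z, z = (decP K M (cd ω)).eval u := ⟨_, rfl⟩
        obtain ⟨z1, hz1⟩ : ∃ z, z = (decP K M (cd (ζ (P ω) 0))).eval u := ⟨_, rfl⟩
        obtain ⟨z2, hz2⟩ : ∃ z, z = (decP K M (cd (ζ (P ω') 0))).eval u := ⟨_, rfl⟩
        rw [← hz, ← hz1] at h1
        rw [← hz, ← hz2] at h2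
        rw [← hz1, ← hz2]
        push_cast
        have g1 := Int.floor_le ((M : ℝ) * z1)
        have g2 := Int.lt_floor_add_one ((M : ℝ) * z1)
        have g3 := Int.floor_le ((M : ℝ) * z2)
        have g4 := Int.lt_floor_add_one ((M : ℝ) * z2)
        have g5 : |(M : ℝ) * z1 - M * z2| ≤ 2 * (M * δW) := by
          rw [← mul_sub, abs_mul, abs_of_pos hM0]
          have h4 : |z1 - z2| ≤ 2 * δW := by
            rw [abs_le] at h1 h2 ⊢
            constructor <;> linarith [h1.1, h1.2, h2.1, h2.2]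
          calc (M : ℝ) * |z1 - z2| ≤ M * (2 * δW) := mul_le_mul_of_nonneg_left h4 hM0.le
            _ = _ := by ring
        rw [abs_le] at g5 ⊢
        constructor <;> linarith [g5.1, g5.2])
      (fun ω _ _ => by
        have h2 := hWb (ζ (P ω) 0) u hu
        obtain ⟨z1, hz1⟩ : ∃ z, z = (decP K M (cd (ζ (P ω) 0))).eval u := ⟨_, rfl⟩
        rw [← hz1] at h2 ⊢
        have g1 := Int.floor_le ((M : ℝ) * z1)
        have g2 := Int.lt_floor_add_one ((M : ℝ) * z1)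
        have g3 : |(M : ℝ) * z1| ≤ M * (A + kK K) := by
          rw [abs_mul, abs_of_pos hM0]
          exact mul_le_mul_of_nonneg_left h2 hM0.le
        rw [abs_le] at g3 ⊢
        constructor <;> linarith [g3.1, g3.2])
    have hlog : 0 ≤ Real.log (4 * (M * (A + kK K) + 1) + 1) := Real.log_nonneg (by
      have : 0 ≤ (M : ℝ) * (A + kK K) := by positivity
      linarith)
    have b4 := mul_le_mul_of_nonneg_right hsel' hlog
    push_cast at b3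
    rw [b1]
    linarith

end Pool.CLO80
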