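import Pool.Agent.H80.CLO.Nd5

/-!
# The slope polynomial of a tuple: the path
-/

set_option autoImplicit false

namespace Pool.CLO80

open Finset Real
open Pool.Agent.H49.Ent Pool.Agent.H32.Dense Pool.STK
open Pool.BFL (Pb)
open Pool.K2S (cpn)
open Pool.NDD66 (mu Lam)
open Pool.CLU (cpn_law cpn_pos)
open Pool.STB6 (node)
open Pool.H52.TIE (CH_cpn)

set_option maxHeartbeats 400000 in
/-- **The path of the polynomial.** -/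
theorem nd_S7 (K : ℕ) : ∃ Cr : ℕ, 1 ≤ Cr ∧ ∀ {Ω Λ Pt Y X Z Uf C V : Type} [Fintype Ω] {q : Ω → ℝ}
    {L : Ω → Λ} {P : Ω → Pt} {y : Ω → Y} {x : Ω → X} {Qc : Ω → Z} {Up : Ω → Uf} {ct : Ω → C} {ell : Ω → V}
    {τ U φc : Ω → ℤ} {φ : Ω → ℝ} {uP cP : C → V → Polynomial ℝ} {n D M : ℕ}
    {jj : Fin (K + 1) → Fin n} {Θ ε e c δ₁ c₁ B₂ d₂ c₂ : ℝ},
    Nd4H q L P y x Qc Up ct ell τ U φc φ uP cP D M jj Θ ε e c → 1 ≤ M → 1 < Θ → 0 ≤ B₂ →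
    (Cr : ℝ) ≤ (1 / Θ) ^ Cr * (2 * M + 1) → ∀ Gv : Z → Y → Polynomial ℝ,
    (∀ z a, (Gv z a).natDegree ≤ K) →
    Pb q (fun ω => ¬ |φ ω - (Gv (Qc ω) (y ω)).eval ((U ω : ℝ) / M)| ≤ δ₁) ≤ c₁ →
    Pb (cpn q y n) (fun w => ¬ ∀ s : ℝ, |s| ≤ 2 →
      gT uP cP jj Θ B₂ (ct (w 0)) (fun j => ell (w j.succ)) s ∧
      |(tR uP cP jj (ct (w 0)) (fun j => ell (w j))).eval s| ≤ d₂) ≤ c₂ →
    ∃ Qp : Λ → ℝ → Polynomial ℝ, (∀ l u, (Qp l u).natDegree ≤ (K + 1) * D) ∧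
      (∀ l (u s : ℝ), |u| ≤ 1 → |s| ≤ 2 → |(Qp l u).eval s| ≤ bT K Θ B₂) ∧
      Pb q (fun ω => ¬ ∀ u : ℝ, |u| ≤ 1 → |(Gv (Qc ω) (y ω)).eval u -
        (Qp (L ω) u).eval ((τ ω : ℝ) / M)| ≤ Cr * (2 * Θ) ^ Cr * (δ₁ + ε + d₂ + lT K Θ B₂ * ε)) ≤
        c + c₁ + 2 * c₂ + (2 * e + Real.log 2) / Real.log Θ := by
  classical
  obtain ⟨Cr, hCr, hr⟩ := rdv K
  refine ⟨Cr, hCr, ?_⟩
  intro Ω Λ Pt Y X Z Uf C V _ q L P y x Qc Up ct ell τ U φc φ uP cP n D M jj Θ ε e c δ₁ c₁ B₂ d₂ c₂ H hM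
    hΘ hB₂ hCM Gv hGd hG hS2
  have hq := H.law
  have q0 := hq.nonneg
  have hQl := cpn_law hq y n
  have Q0 := hQl.nonneg
  have hpos := cpn_pos q0 y n
  have hΘ0 : 0 < Θ := by linarith
  have hρ1 : 1 / Θ < 1 := by rw [div_lt_one hΘ0]; exact hΘ
  have e0 : (2 : ℝ) / (1 / Θ) = 2 * Θ := div_one_div' _ _
  have e0' : (1 : ℝ) / (1 / Θ) = Θ := by rw [div_one_div', one_mul]
  obtain ⟨cQ, hcQ⟩ := det_fac hq H.Qt
  obtain ⟨τY, hτY⟩ := det_fac hq H.yt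
  obtain ⟨Q, hQ⟩ : ∃ Q, Q = cpn q y n := ⟨_, rfl⟩
  have hat : ∀ A : Ω → Prop, Pb Q (fun w => A (w 0)) = Pb q A := fun A => by
    rw [hQ]
    exact Pool.XLF.Pb_cpn_at q0 y n 0 A
  have hCHat : ∀ {S T : Type} (X : Ω → S) (B : Ω → T), CH Q (fun w => X (w 0)) (fun w => B (w 0)) =
      CH q X B := fun X B => by
    rw [hQ]
    exact CH_cpn hq y n 0 X B
  have hfl := H.fl
  rw [← hQ] at hS2 hQl Q0 hpos hfl
  obtain ⟨L', hL'⟩ : ∃ L' : (Fin (n + 1) → Ω) → Λ, L' = fun w => L (w 0) := ⟨_, rfl⟩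
  obtain ⟨G, hGt⟩ : ∃ G : (Fin (n + 1) → Ω) → Fin n → V, G = fun w i => ell (w i.succ) := ⟨_, rfl⟩
  have hRl := cpn_law hQl L' 1
  have R0 := hRl.nonneg
  have hposR := cpn_pos Q0 L' 1
  rw [← hGt, ← hL'] at hfl
  -- the height is full
  have a1 := node hQl L' (fun w => x (w 0)) G 1 (fun w w' hw hw' h => by
    rw [hL'] at h
    exact H.Lx _ _ ((hpos w hw).1 0) ((hpos w' hw').1 0) h) (e := e) (by linarith)
    (fun w => U (w 0)) (fun w => (Qc (w 0), y (w 0)))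
  have a2 : CH Q (fun w => U (w 0)) (fun w => ((Qc (w 0), y (w 0)), x (w 0))) =
      CH q U (fun ω => ((Qc ω, y ω), x ω)) := hCHat U (fun ω => ((Qc ω, y ω), x ω))
  have a3 : CH q U (fun ω => (Qc ω, y ω)) ≤ CH q U (fun ω => ((Qc ω, y ω), x ω)) :=
    CH_mono_cond q0 fun ω ω' hω hω' h => Prod.ext h (H.yx _ _ hω hω' h)
  have hfU := H.fU
  have a4 : Real.log (2 * M + 1) - 2 * e ≤ CH (cpn Q L' 1) (fun v => U (v 0 0))
      (fun v => ((Qc (v 0 0), y (v 0 0)), (x (v 0 0), fun i : Fin 1 => G (v i.succ)))) := by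
    have a5 := a1
    rw [a2] at a5
    push_cast at a5
    linarith
  obtain ⟨W, hW⟩ : ∃ W : (Fin 2 → Fin (n + 1) → Ω) → (Z × Y) × (X × (Fin 1 → Fin n → V)),
    W = fun v => ((Qc (v 0 0), y (v 0 0)), (x (v 0 0), fun i : Fin 1 => G (v i.succ))) := ⟨_, rfl⟩
  rw [← hW] at a4
  -- the masses
  obtain ⟨E1, hE1⟩ : ∃ E1 : Ω → Prop, E1 = fun ω =>
    (|(uP (ct ω) (ell ω)).eval ((τ ω : ℝ) / M) - (U ω : ℝ) / M| ≤ ε ∧
      |(cP (ct ω) (ell ω)).eval ((τ ω : ℝ) / M) - φ ω| ≤ ε) := ⟨_, rfl⟩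
  obtain ⟨E2, hE2⟩ : ∃ E2 : Ω → Prop, E2 = fun ω =>
    |φ ω - (Gv (Qc ω) (y ω)).eval ((U ω : ℝ) / M)| ≤ δ₁ := ⟨_, rfl⟩
  obtain ⟨E3, hE3⟩ : ∃ E3 : (Fin (n + 1) → Ω) → Prop, E3 = fun w => ∀ s : ℝ, |s| ≤ 2 →
      gT uP cP jj Θ B₂ (ct (w 0)) (fun j => ell (w j.succ)) s ∧
      |(tR uP cP jj (ct (w 0)) (fun j => ell (w j))).eval s| ≤ d₂ := ⟨_, rfl⟩
  have m1 : Pb (cpn Q L' 1) (fun v => ¬ E1 (v 0 0)) ≤ c := by
    rw [Pool.XLF.Pb_cpn_at Q0 L' 1 0 (fun w => ¬ E1 (w 0)), hat (fun ω => ¬ E1 ω), hE1]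
    exact H.own
  have m2 : Pb (cpn Q L' 1) (fun v => ¬ E2 (v 0 0)) ≤ c₁ := by
    rw [Pool.XLF.Pb_cpn_at Q0 L' 1 0 (fun w => ¬ E2 (w 0)), hat (fun ω => ¬ E2 ω), hE2]
    exact hG
  have m3 : Pb (cpn Q L' 1) (fun v => ¬ E3 (v 1)) ≤ c₂ := by
    rw [Pool.XLF.Pb_cpn_at Q0 L' 1 1 (fun w => ¬ E3 w), hE3]
    exact hS2
  obtain ⟨δ₃, hδ₃⟩ : ∃ δ₃ : ℝ, δ₃ = Cr * (2 * Θ) ^ Cr * (δ₁ + ε + d₂ + lT K Θ B₂ * ε) := ⟨_, rfl⟩
  have m4 := Pool.STB.Pb_or R0 (fun v => ¬ E1 (v 0 0)) (fun v => ¬ E2 (v 0 0))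
  have m5 := Pool.STB.Pb_or R0 (fun v => ¬ E1 (v 0 0) ∨ ¬ E2 (v 0 0)) (fun v => ¬ E3 (v 1))
  have h1 := hr (Fin 2 → Fin (n + 1) → Ω) ((Z × Y) × (X × (Fin 1 → Fin n → V))) (cpn Q L' 1) W M
    (fun v => U (v 0 0))
    (fun p => Gv p.1.1 p.1.2 - tU uP cP jj (cQ p.1.1) (p.2.2 0) ((τY p.1.2 : ℝ) / M)) (2 * e)
    (1 / Θ) (δ₁ + ε + d₂ + lT K Θ B₂ * ε) (c + c₁ + c₂) hRl hM (by positivity) hρ1 hCM
    (fun v hv => H.Ub _ ((hpos _ ((hposR v hv).1 0)).1 0)) a4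
    (fun p => (Polynomial.natDegree_sub_le _ _).trans (max_le (hGd _ _) (tU_deg _ _ _))) (by
      refine (Pool.STB.Pb_mono R0 fun v hv hn => ?_).trans (m5.trans (by linarith))
      by_contra hcon
      push Not at hcon
      obtain ⟨⟨c1, c2⟩, c3⟩ := hcon
      refine hn ?_
      have hv0 := (hposR v hv).1 0
      have hv1 := (hposR v hv).1 1
      have p0 := (hpos _ hv0).1 0
      have p1 := (hpos _ hv1).1 0
      have hLL : L (v 1 0) = L (v 0 0) := by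
        have h := (hposR v hv).2 1
        rw [hL'] at h
        exact h
      have hct := H.Lc _ _ p1 p0 hLL
      have hell := H.Ll _ _ p1 p0 hLL
      have ht := frac_le hM (H.tb _ p0)
      have hs2 : |(τ (v 0 0) : ℝ) / M| ≤ 2 := by linarith
      rw [hE1] at c1
      rw [hE2] at c2
      rw [hE3] at c3
      have c4 := c3 _ hs2
      have hWz : (W v).1 = (Qc (v 0 0), y (v 0 0)) := by rw [hW]
      have hWt : (W v).2.2 0 = fun j => ell (v 1 j.succ) := by rw [hW, hGt]; rfl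
      rw [hWz, hWt, hcQ _ p0, hτY _ p0, Polynomial.eval_sub, tU_eval]
      have g1 := c4.1
      have g2 := c4.2
      rw [tR_eval] at g2
      rw [hct] at g1 g2
      have e5 : (cP (ct (v 0 0)) ((fun j => ell (v 1 j)) 0)) = cP (ct (v 0 0)) (ell (v 0 0)) := by
        rw [← hell]
      have e6 : (uP (ct (v 0 0)) ((fun j => ell (v 1 j)) 0)) = uP (ct (v 0 0)) (ell (v 0 0)) := by
        rw [← hell]
      rw [e5, e6] at g2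
      have hub := H.uB _ p0 _ hs2
      have hUb := frac_le hM (H.Ub _ p0)
      have g3 := tS_lip hΘ.le g1 (u := (uP (ct (v 0 0)) (ell (v 0 0))).eval ((τ (v 0 0) : ℝ) / M))
        (u' := (U (v 0 0) : ℝ) / M) (ε := ε) (by linarith) (by linarith) c1.1
      obtain ⟨z1, hz1⟩ : ∃ z, z = (Gv (Qc (v 0 0)) (y (v 0 0))).eval ((U (v 0 0) : ℝ) / M) :=
        ⟨_, rfl⟩
      obtain ⟨z2, hz2⟩ : ∃ z, z = (cP (ct (v 0 0)) (ell (v 0 0))).eval ((τ (v 0 0) : ℝ) / M) :=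
        ⟨_, rfl⟩
      obtain ⟨z3, hz3⟩ : ∃ z, z = (tS uP cP jj (ct (v 0 0)) (fun j => ell (v 1 j.succ))
        ((uP (ct (v 0 0)) (ell (v 0 0))).eval ((τ (v 0 0) : ℝ) / M))).eval
        ((τ (v 0 0) : ℝ) / M) := ⟨_, rfl⟩
      obtain ⟨z4, hz4⟩ : ∃ z, z = (tS uP cP jj (ct (v 0 0)) (fun j => ell (v 1 j.succ))
        ((U (v 0 0) : ℝ) / M)).eval ((τ (v 0 0) : ℝ) / M) := ⟨_, rfl⟩
      have c12 := c1.2
      rw [← hz2] at c12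
      rw [← hz1] at c2
      rw [← hz3, ← hz4] at g3
      rw [← hz2, ← hz3] at g2
      rw [← hz1, ← hz4]
      rw [abs_le] at c12 c2 g2 g3 ⊢
      constructor <;> linarith [c12.1, c12.2, c2.1, c2.2, g2.1, g2.2, g3.1, g3.2])
  rw [e0, e0', ← hδ₃] at h1
  -- selection
  obtain ⟨Pr, hPr⟩ : ∃ Pr : Ω → (Fin (n + 1) → Ω) → Prop, Pr = fun a w =>
    (∀ s : ℝ, |s| ≤ 2 → gT uP cP jj Θ B₂ (ct (w 0)) (fun j => ell (w j.succ)) s) ∧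
    ∀ u : ℝ, |u| ≤ 1 → |(Gv (Qc a) (y a)).eval u -
      (tS uP cP jj (ct (w 0)) (fun j => ell (w j.succ)) u).eval ((τ a : ℝ) / M)| ≤ δ₃ := ⟨_, rfl⟩
  have m6 := Pool.STB.Pb_or R0 (fun v => ¬ ∀ s : ℝ, |s| ≤ 2 → |((fun p : (Z × Y) ×
      (X × (Fin 1 → Fin n → V)) => Gv p.1.1 p.1.2 - tU uP cP jj (cQ p.1.1) (p.2.2 0)
        ((τY p.1.2 : ℝ) / M)) (W v)).eval s| ≤ δ₃) (fun v => ¬ E3 (v 1))
  have m7 : Pb (cpn Q L' 1) (fun v => ¬ Pr (v 0 0) (v 1)) ≤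
      c + c₁ + 2 * c₂ + (2 * e + Real.log 2) / Real.log Θ := by
    refine (Pool.STB.Pb_mono R0 fun v hv hn => ?_).trans (m6.trans (by linarith))
    by_contra hcon
    push Not at hcon
    obtain ⟨c1, c2⟩ := hcon
    refine hn ?_
    have hv0 := (hposR v hv).1 0
    have hv1 := (hposR v hv).1 1
    have p0 := (hpos _ hv0).1 0
    have p1 := (hpos _ hv1).1 0
    have hLL : L (v 1 0) = L (v 0 0) := by
      have h := (hposR v hv).2 1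
      rw [hL'] at h
      exact h
    have hct := H.Lc _ _ p1 p0 hLL
    rw [hE3] at c2
    rw [hPr]
    refine ⟨fun s hs => (c2 s hs).1, fun u hu => ?_⟩
    have c3 := c1 u (by linarith)
    have hWz : (W v).1 = (Qc (v 0 0), y (v 0 0)) := by rw [hW]
    have hWt : (W v).2.2 0 = fun j => ell (v 1 j.succ) := by rw [hW, hGt]; rfl
    simp only [hWz, hWt] at c3
    rw [hcQ _ p0, hτY _ p0, Polynomial.eval_sub, tU_eval] at c3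
    rw [hct]
    exact c3
  obtain ⟨ζ, -, hsel⟩ := cpn_sel hQl L' 1 (fun v => ¬ Pr (v 0 0) (v 1))
  have hsel' : Pb q (fun ω => ¬ Pr ω (ζ (L ω) 0)) ≤
      c + c₁ + 2 * c₂ + (2 * e + Real.log 2) / Real.log Θ := by
    rw [← hat (fun ω => ¬ Pr ω (ζ (L ω) 0))]
    refine le_trans (le_of_eq ?_) (hsel.trans m7)
    rw [hL']
    rfl
  refine ⟨fun l u => if ∀ s : ℝ, |s| ≤ 2 →
    gT uP cP jj Θ B₂ (ct (ζ l 0 0)) (fun j => ell (ζ l 0 j.succ)) s then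
    tS uP cP jj (ct (ζ l 0 0)) (fun j => ell (ζ l 0 j.succ)) u else 0, ?_, ?_, ?_⟩
  · intro l u
    beta_reduce
    split_ifs
    · exact tS_deg H.uD H.cD _ _ _
    · rw [Polynomial.natDegree_zero]
      exact Nat.zero_le _
  · intro l u s hu hs
    beta_reduce
    split_ifs with h
    · exact tS_bd hΘ.le hB₂ (h s hs) (by linarith)
    · rw [Polynomial.eval_zero, abs_zero]
      unfold bT
      positivity
  · refine (Pool.STB.Pb_mono q0 fun ω _ hn => ?_).trans hsel'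
    intro hh
    rw [hPr] at hh
    refine hn fun u hu => ?_
    beta_reduce
    rw [if_pos hh.1, ← hδ₃]
    exact hh.2 u hu

end Pool.CLO80
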