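import Pool.Agent.H80.CLO.Gp
import Pool.Agent.H54.ND.Cfg3
import Pool.Agent.H19.FLT.Nal
import Pool.Agent.H16.P4.Few

/-!
# Tools for the slope polynomial of a tuple

`rdv`: reading a polynomial of one variable at a full integer. `tpS_lip`: the interpolation polynomial in the
height. `few_code`: the code of a polynomial with few values at the full height is few. `decP`: the polynomial
with given values at the grid.
-/

set_option autoImplicit false

namespace Pool.CLO80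

open Finset Real MvPolynomial
open Pool.Agent.H49.Ent Pool.Agent.H32.Dense Pool.STK
open Pool.BFL (Pb)
open Pool.K2S (cpn)
open Pool.CLU (cpn_law cpn_pos cpn_marg cpn_nonneg)
open Pool.STB6 (node read_mv m1 m1_eval m1_deg)
open Pool.NDD66 (mu Lam mu_le Lam_le)
open Pool.FLT (lag_bd gpt gpt_abs gpt_sep gpt_pos)
open Pool.P4E (few_vec)
open Pool.ND54 (cpn_tail sep_cpn)
open Pool.H52.TIE (CH_cpn CH_cpn_zero)

variable {Ω : Type} [Fintype Ω]

/-- A quantity determined by another one is a function of it. -/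
theorem det_fac {S T : Type} {p : Ω → ℝ} (hp : IsLaw p) {X : Ω → S} {Y : Ω → T}
    (h : Det p X Y) : ∃ f : S → T, ∀ ω, 0 < p ω → f (X ω) = Y ω := by
  classical
  have hne : Nonempty T := by
    by_contra hcon
    have h1 : ∀ ω, p ω ≤ 0 := fun ω => by
      exact absurd ⟨Y ω⟩ hcon
    have h2 := hp.sum_one
    have h3 : ∑ ω, p ω ≤ 0 := Finset.sum_nonpos fun ω _ => h1 ω
    linarith
  obtain ⟨y₀⟩ := hne
  refine ⟨fun s => if h : ∃ ω, 0 < p ω ∧ X ω = s then Y h.choose else y₀, fun ω hω => ?_⟩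
  have hex : ∃ ω', 0 < p ω' ∧ X ω' = X ω := ⟨ω, hω, rfl⟩
  simp only [dif_pos hex]
  exact h _ _ hex.choose_spec.1 hω hex.choose_spec.2

/-- **Reading a polynomial of one variable** at a full integer. -/
theorem rdv (N : ℕ) : ∃ Cr : ℕ, 1 ≤ Cr ∧ ∀ (Ω τ : Type) [Fintype Ω] (q : Ω → ℝ) (W : Ω → τ)
    (M : ℕ) (ξ : Ω → ℤ) (g : τ → Polynomial ℝ) (e ρ δ c₁ : ℝ), IsLaw q → 1 ≤ M → 0 < ρ → ρ < 1 →
    (Cr : ℝ) ≤ ρ ^ Cr * (2 * M + 1) → (∀ ω, 0 < q ω → |ξ ω| ≤ (M : ℤ)) →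
    Real.log (2 * M + 1) - e ≤ CH q ξ W → (∀ w, (g w).natDegree ≤ N) →
    Pb q (fun ω => ¬ |(g (W ω)).eval ((ξ ω : ℝ) / M)| ≤ δ) ≤ c₁ →
    Pb q (fun ω => ¬ ∀ s : ℝ, |s| ≤ 2 → |(g (W ω)).eval s| ≤ Cr * (2 / ρ) ^ Cr * δ) ≤
      c₁ + (e + Real.log 2) / Real.log (1 / ρ) := by
  classical
  obtain ⟨Cr, hCr, hr⟩ := read_mv 1 N
  refine ⟨Cr, hCr, ?_⟩
  intro Ω τ _ q W M ξ g e ρ δ c₁ hq hM hρ hρ1 hCM hξ hfull hg hE
  have q0 := hq.nonneg
  have hl : 0 < Real.log (1 / ρ) := Real.log_pos (by rw [lt_div_iff₀ hρ]; linarith)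
  have a3 : Real.log (2 * M + 1) - e ≤ CH q (fun ω => fun _ : Fin 1 => ξ ω) W := by
    have b1 : CH q ξ W = CH q (fun ω => fun _ : Fin 1 => ξ ω) W :=
      CH_congr q0 (fun w w' _ _ h => funext fun _ => (Prod.ext_iff.1 h).1)
        (fun w w' _ _ h => congrFun (Prod.ext_iff.1 h).1 0) (fun _ _ _ _ h => h)
        (fun _ _ _ _ h => h)
    linarith
  have h1 := hr Ω τ q W M (fun ω => fun _ => ξ ω) (fun w => m1 (g w)) (fun _ => δ)
    (fun ω => |(g (W ω)).eval ((ξ ω : ℝ) / M)| ≤ δ) e ρ 2 hq hM hρ hρ1.le hCM one_le_two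
    (fun ω hω _ => hξ ω hω) (by rw [Nat.cast_one, one_mul]; exact a3)
    (fun ω _ hw => ⟨fun i => (m1_deg _ i).trans (hg _), by
      rw [m1_eval]
      exact hw⟩)
  rw [← le_div_iff₀ hl] at h1
  have h2 := Pool.STB.Pb_or q0 (fun ω => ¬ |(g (W ω)).eval ((ξ ω : ℝ) / M)| ≤ δ)
    (fun ω => |(g (W ω)).eval ((ξ ω : ℝ) / M)| ≤ δ ∧ ∃ z : Fin 1 → ℝ, (∀ i, |z i| ≤ 2) ∧
      Cr * (2 / ρ) ^ Cr * δ < |eval z (m1 (g (W ω)))|)
  refine (Pool.STB.Pb_mono q0 fun ω _ hn => ?_).trans (h2.trans (add_le_add hE h1))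
  by_cases h3 : |(g (W ω)).eval ((ξ ω : ℝ) / M)| ≤ δ
  · right
    refine ⟨h3, ?_⟩
    push Not at hn
    obtain ⟨s, hs, hs'⟩ := hn
    exact ⟨fun _ => s, fun _ => hs, by rw [m1_eval]; exact hs'⟩
  · exact Or.inl h3

/-- **The interpolation polynomial is Lipschitz in the height.** -/
theorem tpS_lip {K : ℕ} {uP cP : Fin (K + 1) → Polynomial ℝ} {h : Fin (K + 1) → ℝ}
    {u u' s B σ H ε : ℝ} (hσ : 0 < σ) (hσH : σ ≤ H) (hs : ∀ i j, i ≠ j → σ ≤ |h i - h j|)
    (hc : ∀ i, |(cP i).eval s| ≤ B) (hH : ∀ j, |u - (uP 0).eval s - (h j - h 0)| ≤ H)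
    (hH' : ∀ j, |u' - (uP 0).eval s - (h j - h 0)| ≤ H) (hu : |u - u'| ≤ ε) :
    |(tpS uP cP h u).eval s - (tpS uP cP h u').eval s| ≤
      (K + 1) * (B * (K * (ε / σ) * (H / σ) ^ K)) := by
  classical
  have hε : 0 ≤ ε := (abs_nonneg _).trans hu
  have hB : 0 ≤ B := (abs_nonneg _).trans (hc 0)
  rw [tpS_eval, tpS_eval, ← Finset.sum_sub_distrib]
  refine (Finset.abs_sum_le_sum_abs _ _).trans ?_
  refine (Finset.sum_le_card_nsmul _ _ (B * (K * (ε / σ) * (H / σ) ^ K)) fun i _ => ?_).trans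
    (le_of_eq ?_)
  · rw [← mul_sub, abs_mul]
    refine mul_le_mul (hc _) ?_ (abs_nonneg _) hB
    have hfac : ∀ j ∈ univ.erase i, ∀ z : ℝ, |z| ≤ H → |(h i - h j)⁻¹ * z| ≤ H / σ := by
      intro j hj z hz
      have h2 := hs i j (Finset.ne_of_mem_erase hj).symm
      rw [abs_mul, abs_inv, inv_mul_eq_div]
      exact div_le_div₀ ((abs_nonneg _).trans hz) hz hσ h2
    have h3 := prod_near (univ.erase i)
      (f := fun j => (h i - h j)⁻¹ * (u - (uP 0).eval s - (h j - h 0)))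
      (g := fun j => (h i - h j)⁻¹ * (u' - (uP 0).eval s - (h j - h 0)))
      (H := H / σ) (ε := ε / σ) (by rw [le_div_iff₀ hσ]; linarith) (by positivity)
      (fun j hj => hfac j hj _ (hH j)) (fun j hj => hfac j hj _ (hH' j))
      (fun j hj => by
        have h2 := hs i j (Finset.ne_of_mem_erase hj).symm
        rw [← mul_sub, abs_mul, abs_inv, inv_mul_eq_div]
        have e1 : u - (uP 0).eval s - (h j - h 0) - (u' - (uP 0).eval s - (h j - h 0)) =
            u - u' := by ring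
        rw [e1]
        exact div_le_div₀ hε hu hσ h2)
    rw [Finset.card_erase_of_mem (Finset.mem_univ _), Finset.card_univ, Fintype.card_fin,
      Nat.add_sub_cancel] at h3
    exact h3
  · rw [Finset.card_univ, Fintype.card_fin, nsmul_eq_mul]
    push_cast
    ring

/-! ### The polynomial with given values at the grid -/

/-- **The polynomial of degree at most `K` with the values `v l / M`** at the grid. -/
noncomputable def decP (K M : ℕ) (v : Fin (K + 1) → ℤ) : Polynomial ℝ :=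
  Lagrange.interpolate Finset.univ (gpt (K + 1)) (fun l => (v l : ℝ) / M)

theorem gpt_inj (N : ℕ) : Function.Injective (gpt N) := by
  intro i j h
  by_contra hij
  have h1 := gpt_sep hij
  have h2 : (0 : ℝ) < N := by exact_mod_cast i.pos
  rw [h, sub_self, abs_zero] at h1
  have : 0 < 1 / (N : ℝ) := by positivity
  linarith

theorem decP_deg (K M : ℕ) (v : Fin (K + 1) → ℤ) : (decP K M v).natDegree ≤ K := by
  unfold decP
  have h1 := Lagrange.degree_interpolate_lt (s := Finset.univ) (v := gpt (K + 1))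
    (fun l => (v l : ℝ) / M) ((gpt_inj (K + 1)).injOn)
  rw [Finset.card_univ, Fintype.card_fin] at h1
  rw [Polynomial.natDegree_le_iff_coeff_eq_zero]
  intro N hN
  exact (Polynomial.degree_lt_iff_coeff_zero _ _).1 h1 N (by omega)

theorem decP_eval (K M : ℕ) (v : Fin (K + 1) → ℤ) (l : Fin (K + 1)) :
    (decP K M v).eval (gpt (K + 1) l) = (v l : ℝ) / M := by
  unfold decP
  exact Lagrange.eval_interpolate_at_node _ ((gpt_inj (K + 1)).injOn) (Finset.mem_univ l)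

/-! ### Few codes -/

/-- The number of cells. -/
theorem num_sep {M : ℕ} {Θ : ℝ} (hM : 1 ≤ M) (hΘ : 4 ≤ Θ) (hΘM : Θ ≤ M) :
    Real.log Θ / 2 ≤ Real.log ((2 * M + 1 : ℕ) : ℝ) - Real.log (2 * ((⌊(M : ℝ) / Θ⌋₊ : ℕ) : ℝ) + 1) := by
  have hM1 : (1 : ℝ) ≤ M := by exact_mod_cast hM
  have hM0 : (0 : ℝ) < M := by linarith
  have hΘ0 : 0 < Θ := by linarith
  have h1 : ((⌊(M : ℝ) / Θ⌋₊ : ℕ) : ℝ) ≤ M / Θ := Nat.floor_le (by positivity)
  have h2 : 1 ≤ (M : ℝ) / Θ := by rw [le_div_iff₀ hΘ0]; linarith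
  have h3 : 2 * ((⌊(M : ℝ) / Θ⌋₊ : ℕ) : ℝ) + 1 ≤ 3 * (M / Θ) := by linarith
  have h4 : 0 ≤ ((⌊(M : ℝ) / Θ⌋₊ : ℕ) : ℝ) := Nat.cast_nonneg _
  have h5 : Real.log (2 * ((⌊(M : ℝ) / Θ⌋₊ : ℕ) : ℝ) + 1) ≤ Real.log (3 * (M / Θ)) :=
    Real.log_le_log (by positivity) h3
  have h6 : Real.log (3 * (M / Θ)) + Real.log Θ / 2 ≤ Real.log ((2 * M + 1 : ℕ) : ℝ) := by
    have e1 : Real.log Θ / 2 = Real.log (Real.sqrt Θ) := by
      rw [Real.log_sqrt hΘ0.le]
    have hs : 2 ≤ Real.sqrt Θ := by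
      rw [show (2 : ℝ) = Real.sqrt 4 by
        rw [show (4 : ℝ) = 2 ^ 2 by norm_num, Real.sqrt_sq (by norm_num)]]
      exact Real.sqrt_le_sqrt hΘ
    have hs2 : Real.sqrt Θ * Real.sqrt Θ = Θ := Real.mul_self_sqrt hΘ0.le
    rw [e1, ← Real.log_mul (by positivity) (by positivity)]
    refine Real.log_le_log (by positivity) ?_
    push_cast
    have e2 : 3 * (M / Θ) * Real.sqrt Θ = 3 * M / Real.sqrt Θ := by
      rw [eq_div_iff (by positivity)]
      calc 3 * (M / Θ) * Real.sqrt Θ * Real.sqrt Θ = 3 * (M / Θ) * (Real.sqrt Θ * Real.sqrt Θ) := by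
            ring
        _ = 3 * M := by rw [hs2]; field_simp
    rw [e2, div_le_iff₀ (by positivity)]
    nlinarith
  linarith

/-- **The code of the polynomial is few**, if the value at the full height is few. -/
theorem few_code {Y Z : Type} (K : ℕ) {q : Ω → ℝ} (hq : IsLaw q) (y : Ω → Y) (Qc : Ω → Z)
    (U φc : Ω → ℤ) (φ : Ω → ℝ) (Gv : Y → Polynomial ℝ) (M : ℕ) {Θ δ e ef c A₄ : ℝ} (hM : 1 ≤ M)
    (hΘ : 4 ≤ Θ) (hΘM : Θ ≤ M) (hA₄ : 0 ≤ A₄) (hδ : 0 ≤ δ) (hU : ∀ ω, 0 < q ω → |U ω| ≤ (M : ℤ))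
    (fU : Real.log (2 * M + 1) - e ≤ CH q U (fun ω => (Qc ω, y ω)))
    (few : CH q φc (fun ω => (U ω, Qc ω)) ≤ ef)
    (hφc : ∀ ω, 0 < q ω → |(M : ℝ) * φ ω - φc ω| ≤ 1)
    (hd : ∀ a, (Gv a).natDegree ≤ K) (hb : ∀ a (u : ℝ), |u| ≤ 1 → |(Gv a).eval u| ≤ A₄)
    (hG : Pb q (fun ω => ¬ |φ ω - (Gv (y ω)).eval ((U ω : ℝ) / M)| ≤ δ) ≤ c) :
    CH q (fun ω => fun l : Fin (K + 1) => ⌊(M : ℝ) * (Gv (y ω)).eval (gpt (K + 1) l)⌋) Qc ≤
      Real.log 2 + (K + 1) * (Real.log (2 * (M * ((K + 1) * ((K + 1) * (2 ^ K * Θ ^ K) *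
        (2 * δ + 2 / M))) + 1) + 1) + ((K + 1) * c + 2 * (K + 1) ^ 2 * (e + Real.log 2) /
        Real.log Θ) * Real.log (4 * (M * A₄ + 1) + 1)) + (K + 1) * (e + ef) := by
  classical
  have q0 := hq.nonneg
  have hM1 : (1 : ℝ) ≤ M := by exact_mod_cast hM
  have hM0 : (0 : ℝ) < M := by linarith
  have hΘ0 : 0 < Θ := by linarith
  have hlΘ : 0 < Real.log Θ := Real.log_pos (by linarith)
  obtain ⟨y', hy'⟩ : ∃ y' : Ω → Z × Y, y' = fun ω => (Qc ω, y ω) := ⟨_, rfl⟩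
  have hQl := cpn_law hq y' K
  have Q0 := hQl.nonneg
  have hpos := cpn_pos q0 y' K
  have hDy : Det q y' y := fun ω ω' _ _ h => by
    rw [hy'] at h
    exact (Prod.ext_iff.1 h).2
  have hDQ : Det q y' Qc := fun ω ω' _ _ h => by
    rw [hy'] at h
    exact (Prod.ext_iff.1 h).1
  rw [← hy'] at fU
  obtain ⟨cd, hcd⟩ : ∃ cd : Ω → Fin (K + 1) → ℤ, cd = fun ω => fun l : Fin (K + 1) =>
    ⌊(M : ℝ) * (Gv (y ω)).eval (gpt (K + 1) l)⌋ := ⟨_, rfl⟩
  rw [← hcd]
  -- the entropies of the copies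
  obtain ⟨V, hV⟩ : ∃ V : (Fin (K + 1) → Ω) → Fin (K + 1) → ℤ × ℤ,
    V = fun w i => (φc (w i), U (w i)) := ⟨_, rfl⟩
  have e1 : CH (cpn q y' K) (fun w => cd (w 0)) (fun w => Qc (w 0)) = CH q cd Qc :=
    CH_cpn hq y' K 0 cd Qc
  have e2 : CH (cpn q y' K) V (fun w => Qc (w 0)) ≤ (K + 1) * (Real.log (2 * M + 1) + ef) := by
    have h1 := Pool.KS3.CH_pi_le Q0 V (fun w => Qc (w 0))
    have h2 : ∀ i : Fin (K + 1), CH (cpn q y' K) (fun w => V w i) (fun w => Qc (w 0)) ≤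
        Real.log (2 * M + 1) + ef := by
      intro i
      have h3 : CH (cpn q y' K) (fun w => V w i) (fun w => Qc (w 0)) =
          CH q (fun ω => (φc ω, U ω)) Qc := by
        rw [hV]
        exact CH_cpn_zero hq y' K i (fun ω => (φc ω, U ω)) Qc hDQ
      rw [h3, CH_chain q0]
      have h4 : CH q U Qc ≤ Real.log (2 * M + 1) := by
        have h5 := CH_le_card q0 hq.sum_one U Qc (fun _ => Finset.Icc (-(M : ℤ)) M)
          (fun ω hω => by
            have := abs_le.1 (hU ω hω)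
            rw [Finset.mem_Icc]
            exact this)
        rw [Ex_const hq.sum_one, Int.card_Icc] at h5
        have h6 : (((M : ℤ) + 1 - -(M : ℤ)).toNat : ℝ) = 2 * M + 1 := by
          have : ((M : ℤ) + 1 - -(M : ℤ)).toNat = 2 * M + 1 := by omega
          rw [this]
          push_cast
          ring
        rwa [h6] at h5
      linarith
    refine h1.trans ((Finset.sum_le_sum fun i _ => h2 i).trans (le_of_eq ?_))
    rw [Finset.sum_const, Finset.card_univ, Fintype.card_fin, nsmul_eq_mul]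
    push_cast
    ring
  have e3 : (K + 1) * (Real.log (2 * M + 1) - e) ≤
      CH (cpn q y' K) V (fun w => (cd (w 0), Qc (w 0))) := by
    have h1 : CH (cpn q y' K) (fun w => (fun j : Fin K => U (w j.succ), U (w 0)))
        (fun w => y' (w 0)) ≤ CH (cpn q y' K) V (fun w => (cd (w 0), Qc (w 0))) := by
      refine (CH_mono_left Q0 (X' := V) fun w w' _ _ h => ?_).trans
        (CH_mono_cond Q0 fun w w' hw hw' h => ?_)
      · have h2 := (Prod.ext_iff.1 h).1
        rw [hV] at h2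
        refine Prod.ext (funext fun j => ?_) ?_
        · exact (Prod.ext_iff.1 (congrFun h2 j.succ)).2
        · exact (Prod.ext_iff.1 (congrFun h2 0)).2
      · have hw0 := (hpos w hw).1 0
        have hw0' := (hpos w' hw').1 0
        have h2 := hDy _ _ hw0 hw0' h
        have h3 := hDQ _ _ hw0 hw0' h
        refine Prod.ext ?_ h3
        show cd (w 0) = cd (w' 0)
        rw [hcd]
        simp only [h2]
    have h2 := CH_chain Q0 (fun w => fun j : Fin K => U (w j.succ)) (fun w => U (w 0))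
      (fun w => y' (w 0))
    have h3 : CH (cpn q y' K) (fun w => U (w 0)) (fun w => y' (w 0)) = CH q U y' :=
      CH_cpn hq y' K 0 U y'
    have h4 : K * CH q U y' ≤ CH (cpn q y' K) (fun w => fun j : Fin K => U (w j.succ))
        (fun w => (U (w 0), y' (w 0))) :=
      (cpn_tail hq y' U K).trans (CH_mono_cond Q0 fun w w' _ _ h => by
        have h' : w 0 = w' 0 := h
        rw [h'])
    have h5 : (K : ℝ) * (Real.log (2 * M + 1) - e) ≤ K * CH q U y' :=
      mul_le_mul_of_nonneg_left fU (Nat.cast_nonneg K)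
    linarith
  have e4 := CH_bayes Q0 (fun w => cd (w 0)) V (fun w => Qc (w 0))
  -- counting
  obtain ⟨Ks, hKs⟩ : ∃ Ks : ℕ, Ks = ⌊(M : ℝ) / Θ⌋₊ := ⟨_, rfl⟩
  obtain ⟨E, hE⟩ : ∃ E : (Fin (K + 1) → Ω) → Prop, E = fun w =>
    (∀ i, |φ (w i) - (Gv (y (w i))).eval ((U (w i) : ℝ) / M)| ≤ δ) ∧
      ∀ i j, i ≠ j → (Ks : ℤ) < |U (w i) - U (w j)| := ⟨_, rfl⟩
  have hPE : Pb (cpn q y' K) (fun w => ¬ E w) ≤ (K + 1) * c + 2 * (K + 1) ^ 2 *
      (e + Real.log 2) / Real.log Θ := by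
    have h1 : Pb (cpn q y' K) (fun w => ∃ i,
        ¬ |φ (w i) - (Gv (y (w i))).eval ((U (w i) : ℝ) / M)| ≤ δ) ≤ (K + 1) * c := by
      refine (Pool.MIC.Pb_exists_le Q0 _).trans ?_
      refine (Finset.sum_le_sum (g := fun _ => c) fun i _ => ?_).trans (le_of_eq ?_)
      · rw [Pool.XLF.Pb_cpn_at q0 y' K i
          (fun ω => ¬ |φ ω - (Gv (y ω)).eval ((U ω : ℝ) / M)| ≤ δ)]
        exact hG
      · rw [Finset.sum_const, Finset.card_univ, Fintype.card_fin, nsmul_eq_mul]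
        push_cast
        ring
    have h2 := sep_cpn hq U y' (fun _ => Finset.Icc (-(M : ℤ)) M) (2 * M + 1) Ks K (θ := e)
      (by omega) (fun ω hω => by
        have := abs_le.1 (hU ω hω)
        rw [Finset.mem_Icc]
        exact this) (fun v => by
        rw [Int.card_Icc]
        omega) (by push_cast; exact fU) (by
        have := num_sep hM hΘ hΘM
        rw [← hKs] at this
        linarith)
    have h3 := num_sep hM hΘ hΘM
    rw [← hKs] at h3
    have h4 : Pb (cpn q y' K) (fun w => ∃ i j, i ≠ j ∧ |U (w i) - U (w j)| ≤ (Ks : ℤ)) ≤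
        2 * (K + 1) ^ 2 * (e + Real.log 2) / Real.log Θ := by
      rw [le_div_iff₀ hlΘ]
      have h5 := Pool.MIC.Pb_nonneg Q0 (fun w : Fin (K + 1) → Ω =>
        ∃ i j, i ≠ j ∧ |U (w i) - U (w j)| ≤ (Ks : ℤ))
      have h6 := mul_le_mul_of_nonneg_left h3 h5
      nlinarith
    have h5 := Pool.STB.Pb_or Q0 (fun w : Fin (K + 1) → Ω => ∃ i,
        ¬ |φ (w i) - (Gv (y (w i))).eval ((U (w i) : ℝ) / M)| ≤ δ)
      (fun w => ∃ i j, i ≠ j ∧ |U (w i) - U (w j)| ≤ (Ks : ℤ))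
    refine (Pool.STB.Pb_mono Q0 fun w _ hn => ?_).trans (h5.trans (add_le_add h1 h4))
    by_contra hcon
    push Not at hcon
    exact hn (by rw [hE]; exact ⟨hcon.1, hcon.2⟩)
  have e5 := few_vec hQl (fun w => cd (w 0)) (fun w => (V w, Qc (w 0))) E
    (m := M * ((K + 1) * ((K + 1) * (2 ^ K * Θ ^ K) * (2 * δ + 2 / M))) + 1)
    (B := M * A₄ + 1) (by positivity) (by positivity) (fun w w' hw hw' hEw hEw' h l => by
      rw [hE] at hEw hEw'
      have h1 := (Prod.ext_iff.1 h).1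
      rw [hV] at h1
      have hφ : ∀ i, φc (w i) = φc (w' i) := fun i => (Prod.ext_iff.1 (congrFun h1 i)).1
      have hUU : ∀ i, U (w i) = U (w' i) := fun i => (Prod.ext_iff.1 (congrFun h1 i)).2
      have hyy : ∀ (v : Fin (K + 1) → Ω), 0 < cpn q y' K v → ∀ i, y (v i) = y (v 0) :=
        fun v hv i => hDy _ _ ((hpos v hv).1 i) ((hpos v hv).1 0) ((hpos v hv).2 i)
      have hval : ∀ i, |(Gv (y (w 0)) - Gv (y (w' 0))).eval ((U (w i) : ℝ) / M)| ≤
          2 * δ + 2 / M := by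
        intro i
        have a1 := hEw.1 i
        have a2 := hEw'.1 i
        rw [hyy w hw i] at a1
        rw [hyy w' hw' i, ← hUU i] at a2
        have a3 : |φ (w i) - φ (w' i)| ≤ 2 / M := by
          have b1 := hφc _ ((hpos w hw).1 i)
          have b2 := hφc _ ((hpos w' hw').1 i)
          rw [← hφ i] at b2
          have e0 : |φ (w i) - φ (w' i)| * (M : ℝ) = |(φ (w i) - φ (w' i)) * (M : ℝ)| := by
            rw [abs_mul, abs_of_pos hM0]
          have e1 : (φ (w i) - φ (w' i)) * (M : ℝ) = (M * φ (w i) - φc (w i)) -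
              (M * φ (w' i) - φc (w i)) := by ring
          rw [le_div_iff₀ hM0, e0, e1]
          exact (abs_sub _ _).trans (by linarith)
        rw [Polynomial.eval_sub]
        have e1 : (Gv (y (w 0))).eval ((U (w i) : ℝ) / M) -
            (Gv (y (w' 0))).eval ((U (w i) : ℝ) / M) =
            (φ (w i) - φ (w' i)) - (φ (w i) - (Gv (y (w 0))).eval ((U (w i) : ℝ) / M)) +
            (φ (w' i) - (Gv (y (w' 0))).eval ((U (w i) : ℝ) / M)) := by ring
        rw [e1]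
        refine (abs_add_le _ _).trans ?_
        have := abs_sub (φ (w i) - φ (w' i)) (φ (w i) - (Gv (y (w 0))).eval ((U (w i) : ℝ) / M))
        linarith
      have hsep : ∀ i j, i ≠ j → 1 / Θ ≤ |(U (w i) : ℝ) / M - (U (w j) : ℝ) / M| := by
        intro i j hij
        have a1 := hEw.2 i j hij
        have a2 : (M : ℝ) / Θ ≤ |(U (w i) : ℝ) - U (w j)| := by
          have b1 : (M : ℝ) / Θ < Ks + 1 := by
            rw [hKs]
            exact Nat.lt_floor_add_one _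
          have b2 : ((Ks : ℤ) : ℝ) + 1 ≤ ((|U (w i) - U (w j)| : ℤ) : ℝ) := by exact_mod_cast a1
          push_cast at b2
          linarith
        rw [← sub_div, abs_div, abs_of_pos hM0, le_div_iff₀ hM0]
        calc 1 / Θ * M = M / Θ := by ring
          _ ≤ _ := a2
      have hbd := lag_bd (D := K) (fun i => (U (w i) : ℝ) / M) (s := 1 / Θ) (by positivity)
        (fun i => by
          rw [abs_div, abs_of_pos hM0, div_le_one hM0]
          have := hU _ ((hpos w hw).1 i)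
          exact_mod_cast this) hsep (Gv (y (w 0)) - Gv (y (w' 0)))
        ((Polynomial.natDegree_sub_le _ _).trans (max_le (hd _) (hd _))) hval
        (t := gpt (K + 1) l) (gpt_abs l)
      rw [Polynomial.eval_sub] at hbd
      have e6 : (2 : ℝ) ^ K / (1 / Θ) ^ K = 2 ^ K * Θ ^ K := by
        rw [one_div, inv_pow, div_inv_eq_mul]
      rw [e6] at hbd
      have f1 : cd (w 0) l = ⌊(M : ℝ) * (Gv (y (w 0))).eval (gpt (K + 1) l)⌋ := by rw [hcd]
      have f2 : cd (w' 0) l = ⌊(M : ℝ) * (Gv (y (w' 0))).eval (gpt (K + 1) l)⌋ := by rw [hcd]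
      rw [f1, f2]
      push_cast
      have g1 := Int.floor_le ((M : ℝ) * (Gv (y (w 0))).eval (gpt (K + 1) l))
      have g2 := Int.lt_floor_add_one ((M : ℝ) * (Gv (y (w 0))).eval (gpt (K + 1) l))
      have g3 := Int.floor_le ((M : ℝ) * (Gv (y (w' 0))).eval (gpt (K + 1) l))
      have g4 := Int.lt_floor_add_one ((M : ℝ) * (Gv (y (w' 0))).eval (gpt (K + 1) l))
      have g5 : |(M : ℝ) * (Gv (y (w 0))).eval (gpt (K + 1) l) -
          M * (Gv (y (w' 0))).eval (gpt (K + 1) l)| ≤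
          M * ((K + 1) * ((K + 1) * (2 ^ K * Θ ^ K) * (2 * δ + 2 / M))) := by
        rw [← mul_sub, abs_mul, abs_of_pos hM0]
        exact mul_le_mul_of_nonneg_left hbd hM0.le
      have g6 := abs_le.1 g5
      rw [abs_le]
      constructor <;> linarith)
    (fun w hw l => by
      have f1 : cd (w 0) l = ⌊(M : ℝ) * (Gv (y (w 0))).eval (gpt (K + 1) l)⌋ := by rw [hcd]
      rw [f1]
      have g1 := Int.floor_le ((M : ℝ) * (Gv (y (w 0))).eval (gpt (K + 1) l))
      have g2 := Int.lt_floor_add_one ((M : ℝ) * (Gv (y (w 0))).eval (gpt (K + 1) l))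
      have g3 := abs_le.1 (hb (y (w 0)) _ (gpt_abs l))
      have g4 : (M : ℝ) * (Gv (y (w 0))).eval (gpt (K + 1) l) ≤ M * A₄ :=
        mul_le_mul_of_nonneg_left g3.2 hM0.le
      have g5 : -(M * A₄) ≤ (M : ℝ) * (Gv (y (w 0))).eval (gpt (K + 1) l) := by
        have := mul_le_mul_of_nonneg_left g3.1 hM0.le
        linarith
      rw [abs_le]
      constructor <;> linarith)
  have hlog : 0 ≤ Real.log (4 * (M * A₄ + 1) + 1) := Real.log_nonneg (by
    have : 0 ≤ (M : ℝ) * A₄ := by positivity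
    linarith)
  have e6 := mul_le_mul_of_nonneg_right hPE hlog
  push_cast at e5
  have hK1 : (0 : ℝ) < K + 1 := by positivity
  have e7 : ((K : ℝ) + 1) * (Real.log (2 * (M * ((K + 1) * ((K + 1) * (2 ^ K * Θ ^ K) *
        (2 * δ + 2 / M))) + 1) + 1) + Pb (cpn q y' K) (fun w => ¬ E w) *
        Real.log (4 * (M * A₄ + 1) + 1)) ≤ (K + 1) * (Real.log (2 * (M * ((K + 1) * ((K + 1) *
        (2 ^ K * Θ ^ K) * (2 * δ + 2 / M))) + 1) + 1) + ((K + 1) * c + 2 * (K + 1) ^ 2 *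
        (e + Real.log 2) / Real.log Θ) * Real.log (4 * (M * A₄ + 1) + 1)) :=
    mul_le_mul_of_nonneg_left (by linarith) hK1.le
  linarith

end Pool.CLO80
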