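import Pool.Agent.H80.CLO.Nda

/-!
# The slope polynomial of a tuple: the data

`Nd4H`: the data of a law of configurations. `Nd4O`: the conclusion: the slope is a polynomial in the height, a
function of the point, polynomial in the time along the line, and few given the near position.
-/

set_option autoImplicit false

namespace Pool.CLO80

open Finset Real
open Pool.Agent.H49.Ent Pool.Agent.H32.Dense Pool.STK
open Pool.BFL (Pb)
open Pool.K2S (cpn)
open Pool.NDD66 (mu Lam)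
open Pool.CLU (cpn_law cpn_pos)

variable {Ω Λ Pt Y X Z Uf C V : Type} [Fintype Ω]

/-- The first entry, and the entries `(jj i).succ`. -/
def hd {α : Type} {K n : ℕ} (jj : Fin (K + 1) → Fin n) (f : Fin (n + 1) → α) : Fin (K + 2) → α :=
  Fin.cons (f 0) (fun i => f (jj i).succ)

/-- **The data.** `L` the line with its window, `P` the point, `y` the common datum of the copies,
`x` the near data and the closed record, `Qc` the near position and the closed record, `ct` the closed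
record, `ell` the data of the line (which give its paths of the height `uP` and of the slope `cP` relative to a
closed record, in the relative time), `Up` the finer digits of the height, `τ` the time, `U` the height, `φ` the slope of the sample, `φc` its code.
The lines number `0` and `(jj i).succ` are those of the divided difference; the remaining ones are auxiliary. -/
structure Nd4H (q : Ω → ℝ) (L : Ω → Λ) (P : Ω → Pt) (y : Ω → Y) (x : Ω → X) (Qc : Ω → Z)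
    (Up : Ω → Uf) (ct : Ω → C) (ell : Ω → V) (τ U φc : Ω → ℤ) (φ : Ω → ℝ) (uP cP : C → V → Polynomial ℝ)
    {K n : ℕ} (D M : ℕ) (jj : Fin (K + 1) → Fin n) (Θ ε e c : ℝ) : Prop where
  law : IsLaw q
  Lx : Det q L x
  yx : Det q (fun ω => (Qc ω, y ω)) x
  yt : Det q y τ
  Ll : Det q L ell
  Lc : Det q L ct
  Qt : Det q Qc ct
  PU : Det q P U
  Pp : Det q P φ
  PQ : Det q P Qc
  Ub : ∀ ω, 0 < q ω → |U ω| ≤ (M : ℤ)
  tb : ∀ ω, 0 < q ω → |τ ω| ≤ (M : ℤ)
  pc : ∀ ω, 0 < q ω → |(M : ℝ) * φ ω - φc ω| ≤ 1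
  uD : ∀ a v, (uP a v).natDegree ≤ D
  cD : ∀ a v, (cP a v).natDegree ≤ D
  uB : ∀ ω, 0 < q ω → ∀ s : ℝ, |s| ≤ 2 → |(uP (ct ω) (ell ω)).eval s| ≤ Θ
  own : Pb q (fun ω => ¬ (|(uP (ct ω) (ell ω)).eval ((τ ω : ℝ) / M) - (U ω : ℝ) / M| ≤ ε ∧
    |(cP (ct ω) (ell ω)).eval ((τ ω : ℝ) / M) - φ ω| ≤ ε)) ≤ c
  par : ∀ ω ω', 0 < q ω → 0 < q ω' → y ω = y ω' → ∀ s : ℝ, |s| ≤ 2 →
    |(uP (ct ω) (ell ω')).eval s - (uP (ct ω) (ell ω)).eval s -
      ((uP (ct ω) (ell ω')).eval 0 - (uP (ct ω) (ell ω)).eval 0)| ≤ ε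
  fT : Real.log (2 * M + 1) - e ≤ CH (cpn q y n) (fun w => τ (w 0))
    (fun w => (L (w 0), fun i : Fin n => ell (w i.succ)))
  fU : Real.log (2 * M + 1) - e ≤ CH q U (fun ω => (Qc ω, y ω))
  fl : CH (cpn q y n) (fun w => fun i : Fin n => ell (w i.succ)) (fun w => x (w 0)) ≤
    CH (cpn q y n) (fun w => fun i : Fin n => ell (w i.succ)) (fun w => L (w 0)) + e
  few : CH q φc (fun ω => (Up ω, (U ω, Qc ω))) ≤ e
  fUp : CH q Up (fun ω => (U ω, Qc ω)) ≤ CH q Up (fun ω => ((U ω, Qc ω), y ω)) + e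
  dd : Pb (cpn q y n) (fun w => ¬ (
    (∀ i k, i ≠ k → 1 / Θ ≤ |(uP (ct (w 0)) (hd jj (fun j => ell (w j)) i)).eval 0 -
      (uP (ct (w 0)) (hd jj (fun j => ell (w j)) k)).eval 0|) ∧
    (∀ i, |(uP (ct (w 0)) (hd jj (fun j => ell (w j)) i)).eval ((τ (w 0) : ℝ) / M)| ≤ Θ ∧
      |(cP (ct (w 0)) (hd jj (fun j => ell (w j)) i)).eval ((τ (w 0) : ℝ) / M)| ≤ Θ) ∧
    |∑ i, mu (fun i => (uP (ct (w 0)) (hd jj (fun j => ell (w j)) i)).eval 0) i *
      (cP (ct (w 0)) (hd jj (fun j => ell (w j)) i)).eval ((τ (w 0) : ℝ) / M)| ≤ ε)) ≤ c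

/-- **The conclusion.** -/
structure Nd4O (q : Ω → ℝ) (L : Ω → Λ) (P : Ω → Pt) (Qc : Ω → Z) (τ U : Ω → ℤ) (φ : Ω → ℝ)
    (K D M : ℕ) (B δ e c : ℝ) (Wv : Pt → Polynomial ℝ) (Qp : Λ → ℝ → Polynomial ℝ) : Prop where
  dW : ∀ a, (Wv a).natDegree ≤ K
  bW : ∀ a (u : ℝ), |u| ≤ 1 → |(Wv a).eval u| ≤ B
  dQ : ∀ l u, (Qp l u).natDegree ≤ D
  bQ : ∀ l (u s : ℝ), |u| ≤ 1 → |s| ≤ 2 → |(Qp l u).eval s| ≤ B
  near : Pb q (fun ω => ¬ |φ ω - (Wv (P ω)).eval ((U ω : ℝ) / M)| ≤ δ) ≤ c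
  path : Pb q (fun ω => ¬ ∀ u : ℝ, |u| ≤ 1 →
    |(Wv (P ω)).eval u - (Qp (L ω) u).eval ((τ ω : ℝ) / M)| ≤ δ) ≤ c
  few : ∀ u : ℝ, |u| ≤ 1 → CH q (fun ω => ⌊(M : ℝ) * (Wv (P ω)).eval u⌋) Qc ≤ e

/-- **The tails are free of the line**, from the freeness of the data of one line and the time. -/
theorem fl_of {T Y₀ : Type} {q : Ω → ℝ} (hq : IsLaw q) {L : Ω → Λ} {y : Ω → Y} {x : Ω → X}
    {ell : Ω → V} {n : ℕ} (t : Ω → T) (y₀ : Ω → Y₀) {e₁ e₂ : ℝ}
    (hL : Det q L x) (hy : Det q y y₀) (hx : Det q (fun ω => (x ω, t ω)) y₀)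
    (hT : CH (cpn q y n) (fun w => t (w 0)) (fun w => x (w 0)) ≤
      CH (cpn q y n) (fun w => t (w 0)) (fun w => (L (w 0), fun i : Fin n => ell (w i.succ))) + e₁)
    (hl : CH q ell y₀ ≤ CH q ell y + e₂) :
    CH (cpn q y n) (fun w => fun i : Fin n => ell (w i.succ)) (fun w => x (w 0)) ≤
      CH (cpn q y n) (fun w => fun i : Fin n => ell (w i.succ)) (fun w => L (w 0)) +
        (e₁ + n * e₂) := by
  classical
  have hQl := cpn_law hq y n
  have Q0 := hQl.nonneg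
  have hpos := cpn_pos hq.nonneg y n
  obtain ⟨G, hG⟩ : ∃ G : (Fin (n + 1) → Ω) → Fin n → V, G = fun w i => ell (w i.succ) := ⟨_, rfl⟩
  rw [← hG]
  have hT' : CH (cpn q y n) (fun w => t (w 0)) (fun w => x (w 0)) ≤
      CH (cpn q y n) (fun w => t (w 0)) (fun w => (L (w 0), G w)) + e₁ := by
    rw [hG]
    exact hT
  -- given the time
  have a1 := CH_bayes Q0 G (fun w => t (w 0)) (fun w => x (w 0))
  have a2 : CH (cpn q y n) (fun w => t (w 0)) (fun w => (L (w 0), G w)) ≤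
      CH (cpn q y n) (fun w => t (w 0)) (fun w => (G w, x (w 0))) :=
    CH_mono_cond Q0 fun w w' hw hw' h => by
      have h1 := Prod.ext_iff.1 h
      exact Prod.ext h1.2 (hL _ _ ((hpos w hw).1 0) ((hpos w' hw').1 0) h1.1)
  have a3 : CH (cpn q y n) G (fun w => (t (w 0), x (w 0))) ≤ n * CH q ell y₀ := by
    have h1 : CH (cpn q y n) G (fun w => (t (w 0), x (w 0))) ≤
        CH (cpn q y n) G (fun w => y₀ (w 0)) :=
      CH_mono_cond Q0 fun w w' hw hw' h => by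
        have h1 := Prod.ext_iff.1 h
        exact hx _ _ ((hpos w hw).1 0) ((hpos w' hw').1 0) (Prod.ext h1.2 h1.1)
    refine h1.trans ((Pool.KS3.CH_pi_le Q0 G (fun w => y₀ (w 0))).trans (le_of_eq ?_))
    have h2 : ∀ i ∈ (Finset.univ : Finset (Fin n)), CH (cpn q y n) (fun w => G w i)
        (fun w => y₀ (w 0)) = CH q ell y₀ := fun i _ => by
      rw [hG]
      exact Pool.H52.TIE.CH_cpn_zero hq y n i.succ ell y₀ hy
    rw [Finset.sum_congr rfl h2, Finset.sum_const, Finset.card_univ, Fintype.card_fin,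
      nsmul_eq_mul]
  have a4 : n * CH q ell y ≤ CH (cpn q y n) G (fun w => L (w 0)) := by
    refine (Pool.ND54.cpn_tail hq y ell n).trans ?_
    rw [← hG]
    exact CH_mono_cond Q0 fun w w' _ _ h => by
      have h' : w 0 = w' 0 := h
      show L (w 0) = L (w' 0)
      rw [h']
  have a5 := mul_le_mul_of_nonneg_left hl (Nat.cast_nonneg (α := ℝ) n)
  linarith

end Pool.CLO80
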