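import Pool.Agent.H80.CLO.Few
import Pool.Agent.H80.CLO.Nds
import Pool.Agent.H73.D2.Tvl

/-!
# The slope polynomial of a tuple: the data on an event and at the records

`NdV`: on an event, closed charts of `c 2` and `c 3` at the window `W`, a closed chart of `c 3` at a far window
`X`, and the data `Nd4H` for the height of `c 2` and the slope of `c 3` in the direction `c 2`, at `k` digits
behind `W`. `NdT`: these data at all records.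
-/

set_option autoImplicit false

namespace Pool.CLO80

open Finset Real MvPolynomial
open Pool.Agent.H49.Ent Pool.Agent.H32.Dense Pool.STK Pool.KA Pool.KSAT Pool.K2S Pool.PB Pool.S6C
open Pool.GEN Pool.RCD Pool.CHT Pool.CHX Pool.D2Con Pool.D2A Pool.D2F
open Pool.LA91 Pool.PKG Pool.OWN68 Pool.ALT
open Pool.STB82 (dg)

variable {m : ℕ}

/-- **The data on an event.** `W` the window of the closed charts `Gu`, `GN` of `c 2`, `c 3`; `X` the window of the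
closed chart `GX` of `c 3`; `2 ^ gu` the scale of the heights, `sc` the scale of the slopes; `U` the height of `c 2`
over `Gu` in `k` digits; `φ` the slope. The copies, the tuples and the entropy inequalities are in `nd`; they
live on a law `q` over the law of the event (a law of configurations). -/
structure NdV {J : ℕ} (F : Fam m J) (c : ℕ → Fin m) (B : F.Ω → Prop) (K D Du W X k gu gx y : ℕ)
    (sc Θ ε e cc : ℝ) (Gu GN GX : PtT F → MvPolynomial (Option (Fin m)) ℝ)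
    (Hu HN HX : LnT F → MvPolynomial (Option (Fin m)) ℝ) (U : F.Ω → ℤ) (φ : F.Ω → ℝ) : Prop where
  du : ∀ z, (Gu z).totalDegree ≤ Du
  du' : ∀ s, (Hu s).totalDegree ≤ Du
  pu : ∀ z, DepC c 2 (Gu z)
  pu' : ∀ s, DepC c 2 (Hu s)
  cu : ∀ ω, B ω → Gu (ptr F J ω) = Hu (slam F W ω)
  dn : ∀ z, (GN z).totalDegree ≤ Du
  dn' : ∀ s, (HN s).totalDegree ≤ Du
  pn : ∀ z, DepC c 3 (GN z)
  pn' : ∀ s, DepC c 3 (HN s)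
  cn : ∀ ω, B ω → GN (ptr F J ω) = HN (slam F W ω)
  dx : ∀ z, (GX z).totalDegree ≤ Du
  dx' : ∀ s, (HX s).totalDegree ≤ Du
  px : ∀ z, DepC c 3 (GX z)
  px' : ∀ s, DepC c 3 (HX s)
  cx : ∀ ω, B ω → GX (ptr F J ω) = HX (slam F X ω)
  ax : ∀ ω, B ω → |F.x ω (c 3) - eval (bt F ω) (GX (ptr F J ω))| ≤ 2 ^ y / 2 ^ gx
  lu : ∀ ω, B ω → |(U ω : ℝ) / ((2 ^ k : ℕ) : ℝ) -
    2 ^ gu * (F.x ω (c 2) - eval (bt F ω) (Gu (ptr F J ω)))| ≤ ε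
  lp : ∀ ω, B ω → |φ ω - sc * (eval (bt F ω) (pderiv (some (c 2)) (GX (ptr F J ω))) -
    eval (bt F ω) (pderiv (some (c 2)) (GN (ptr F J ω))))| ≤ ε
  nd : ∃ (Om : Type) (_ : Fintype Om) (q : Om → ℝ) (pr : Om → F.Ω),
    Marg q (Pool.Agent.H49.Ent.cond F.p B True) pr ∧
    ∃ (Y X' Z Uf C V : Type) (n : ℕ) (jj : Fin (K + 1) → Fin n) (yy : Om → Y) (xx : Om → X')
    (Qc : F.Ω → Z) (Up : Om → Uf) (ct : Om → C) (ell : Om → V) (φc : Om → ℤ)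
    (uP cP : C → V → Polynomial ℝ),
    Nd4H q (fun v => slam F W (pr v)) (fun v => ptr F J (pr v)) yy xx (fun v => Qc (pr v)) Up ct
      ell (fun v => (dg F W k (pr v) : ℤ)) (fun v => U (pr v)) φc (fun v => φ (pr v)) uP cP D
      (2 ^ k) jj Θ ε e cc ∧
    ∃ (V₀ : Type) (z : PtT F → V₀) (z' : LnT F → V₀),
      (∀ ω, B ω → z (ptr F J ω) = z' (slam F W ω)) ∧
      Det (Pool.Agent.H49.Ent.cond F.p B True)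
        (fun ω => ((F.X J ω (c 1), F.X J ω (c 0), F.W ω), z (ptr F J ω))) Qc

/-- **The data at all records**, under the hypothesis `Z lam` on the class: `V₀`, `ν` the window and the number of
digits (units `q`), `X₁` a lower bound for the far window, `θ`, `e`, `cc` the precision. -/
def NdT (h : ℝ) (Sl : ℕ → ℝ) (κ : ℕ → Kg) {ι Λ : Type} (Q : PropG 4 ι) (Z : PropZ 4 Λ) : Prop :=
  ∀ al : ℝ, 0 < al → ∀ K₀ : ℝ, 0 < K₀ → ∀ S₀ : ℕ, 1 ≤ S₀ → ∃ K D : ℕ,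
  ∀ (ν V₀ X₁ θ e cc : ℝ), 0 < ν → 0 < θ → 0 < e → 0 < cc →
  ∃ (X Kr : ℝ) (Nr : ℕ) (Ar Vr : ℕ → ℝ), X₁ ≤ X ∧ 1 ≤ Kr ∧
    (∀ k < Nr, -Kr ≤ Vr k ∧ Vr k ≤ Ar k ∧ Ar k ≤ Kr) ∧
  ∀ S₂ : ℕ, S₀ ≤ S₂ → ∃ Du : ℕ, ∀ ω : ℝ, 0 < ω →
  ∃ (lam : Λ) (K₁ : ℝ) (Nv : ℕ) (Vv : ℕ → ℝ), (∀ j < Nv, -K₁ ≤ Vv j ∧ Vv j ≤ K₁) ∧
  ∀ K' : ℝ, K₁ ≤ K' → ∃ ε₀ : ℝ, 0 < ε₀ ∧ ∀ ε : ℝ, 0 < ε → ε ≤ ε₀ →
  ∀ (S : PCl 4) (g₀ : ℝ → ℝ) (P : List (Fin 4) × Fin 4 → ℝ → ℝ → ℝ)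
    (θ' : ℝ) (P₂ : ℕ → List (Fin 4) × Fin 4 → ℝ → ℝ → ℝ) (θ₂ Eb e₂ : ℕ → ℝ)
    (c : ℕ → Fin 4) (Pt : ℝ → ℝ → ℝ) (rt : ℝ → ℝ) (L T : ℕ → ℝ → ℝ → ℝ) (G : Set ℝ)
    (g : ℝ), IsClosed G → g ∈ G → (∀ l < 4, HasDerivAt (fun x => L l x x) (Sl l) g) →
    Z lam S P θ' c Pt rt L T κ G g →
    ∃ (p : ℕ → ι) (M : ℕ) (B₀ B₁ : ℕ → ℝ),
    (∀ j < M, B₀ j < B₁ j) ∧ ∀ k₀ : ℕ → ℕ, (∀ j < M, Q (p j) (k₀ j) S P θ' c Pt rt L T κ G g) →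
    ∃ q₁ : ℝ, 0 < q₁ ∧ ∀ (q t : ℝ) (x : ℕ → ℝ),
      q < q₁ → (∀ j < M, x j ∈ G ∧ t + B₀ j * q ≤ x j ∧ x j ≤ t + B₁ j * q ∧
        Q (p j) (k₀ j) S P θ' c Pt rt L T κ G (x j)) →
      ∀ (N : ℕ) (A V : ℕ → ℝ) (N' : ℕ) (V' : ℕ → ℝ),
      RecG S al g₀ P θ' P₂ θ₂ Eb e₂ c Pt rt h K₀ g L T Sl κ G S₀ N A V S₂ N' V' K' ε q t →
      (∀ k < Nr, ∃ j < N, A j = Ar k ∧ V j = Vr k) → (∀ k < Nv, ∃ j < N', V' j = Vv k) →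
      ∃ K₂ : ℝ, 0 < K₂ ∧ Bas S (fun J F A => ∃ B : F.Ω → Prop, Sub B A ∧
        Pe F.p A ≤ K₂ * Pe F.p B ∧ ∃ (gu gx y : ℕ) (sc : ℝ)
        (Gu GN GX : PtT F → MvPolynomial (Option (Fin 4)) ℝ)
        (Hu HN HX : LnT F → MvPolynomial (Option (Fin 4)) ℝ) (U : F.Ω → ℤ) (φ : F.Ω → ℝ),
        (y : ℝ) ≤ ω * q * J ∧ 0 < sc ∧
        (2 : ℝ) ^ ((L 3 (t + V₀ * q) (t + V₀ * q) - L 2 (t + V₀ * q) (t + V₀ * q) - ω * q) * J) ≤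
          sc ∧ (L 3 (t + X * q) (t + X * q) - ω * q) * J ≤ gx ∧
        NdV F c B K D Du ⌊(t + V₀ * q) * J⌋₊ ⌊(t + X * q) * J⌋₊ ⌊ν * q * J⌋₊ gu gx y sc
          (((2 ^ ⌊ν * q * J⌋₊ : ℕ) : ℝ) ^ θ) (((2 ^ ⌊ν * q * J⌋₊ : ℕ) : ℝ) ^ (θ - 1))
          (e * Real.log ((2 ^ ⌊ν * q * J⌋₊ : ℕ) : ℝ)) cc Gu GN GX Hu HN HX U φ)

end Pool.CLO80
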