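import Pool.Agent.H80.CLO.Mk
import Pool.Agent.H6.STB.Clo
import Pool.Agent.H46.PR.Tie
import Pool.Agent.H65.STB.Jet0
import Pool.Agent.H82.STB.Cls2
import Pool.Agent.H5.HL.Two

/-!
# The closed polynomials of a family of values, on an event

`clo_out`: if the values `V j`, `j < q`, have the data `CloH` at a window, then on a large part of the event
there are polynomials over the closed positions, which are exactly closed and give the values.
-/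

set_option autoImplicit false

namespace Pool.CLO80

open Finset Real MvPolynomial
open Pool.Agent.H49.Ent Pool.Agent.H32.Dense Pool.STK Pool.KA Pool.KSAT Pool.K2S Pool.PB Pool.S6C
open Pool.GEN Pool.CHT Pool.CHX Pool.D2Con Pool.D2A Pool.D2F Pool.RCD
open Pool.STB (V3 Po Bx cv)
open Pool.STB6 (CloH clo)
open Pool.STB82 (Fst dg pb_pe cond_pos_B)
open Pool.STB65 (rdp sl deg_rdp coeff_sl rdp_near rdp_congr rnd_all ev_co)
open Pool.BFL (Pb)
open Pool.Agent.H36.KBX (coef_bound)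
open Pool.PR46 (glue_select)

variable {m J : ℕ}

/-- A power of `2 ^ k` beats a constant. -/
theorem ev_pk (C a : ℝ) (ha : 0 < a) : ∃ k₀ : ℕ, ∀ k : ℕ, k₀ ≤ k →
    C ≤ (((2 ^ k : ℕ) : ℝ)) ^ a := by
  obtain ⟨k₀, hk₀⟩ := exists_nat_ge (2 * C / a)
  refine ⟨max k₀ 1, fun k hk => ?_⟩
  have h1 : ((k₀ : ℕ) : ℝ) ≤ k := by exact_mod_cast (le_max_left _ _).trans hk
  have h2 : 2 * C ≤ k * a := by
    have := hk₀.trans h1
    rwa [div_le_iff₀ ha] at this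
  have h3 : (((2 ^ k : ℕ) : ℝ)) ^ a = (2 : ℝ) ^ (k * a) := by
    push_cast
    rw [← Real.rpow_natCast, ← Real.rpow_mul (by norm_num)]
  rw [h3]
  have h4 : 0 ≤ (k : ℝ) * a := by positivity
  have h5 := one_add_mul_self_le_rpow_one_add (show (-1 : ℝ) ≤ 1 by norm_num)
    (p := (k : ℝ) * a + 1) (by linarith)
  have h6 : (1 : ℝ) + 1 = 2 := by norm_num
  rw [h6, Real.rpow_add (by norm_num : (0 : ℝ) < 2), Real.rpow_one] at h5
  linarith

/-- **The exactly closed polynomials.** -/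
theorem clo_out (N q : ℕ) (c₀ κ : ℝ) (hc₀ : 0 < c₀) (hκ : 0 < κ) : ∃ γ γ₁ : ℝ, 0 < γ ∧ 0 < γ₁ ∧
    ∀ γ₀ : ℝ, 0 < γ₀ → γ₀ ≤ γ₁ → ∃ (e₀ c : ℝ) (k₀ : ℕ), 0 < e₀ ∧ 0 < c ∧
    ∀ k : ℕ, k₀ ≤ k → ∀ {m J : ℕ} (F : Fam m J) (B : F.Ω → Prop), 0 < Pe F.p B → ∀ (W : ℕ)
      {Zt Yt 𝒟 : Type} (zp : PtT F → Zt) (y : F.Ω → Yt) (D : LnT F → 𝒟) (X : 𝒟 → V3)
      (x : Zt → V3) (V : ℕ → Zt → ℝ) (P : ℕ → LnT F → Polynomial ℝ),
      (∀ j < q, CloH (Pool.Agent.H49.Ent.cond F.p B True) (slam F W)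
        (fun ω => zp (ptr F J ω)) y (dg F W k) D X x (V j) (P j) N (2 ^ k)
        (((2 ^ k : ℕ) : ℝ) ^ e₀) (e₀ * Real.log ((2 ^ k : ℕ) : ℝ)) (((2 ^ k : ℕ) : ℝ) ^ (-γ₀)) c) →
      ∃ (B' : F.Ω → Prop) (fG : ℕ → PtT F → Po) (fL : ℕ → LnT F → Po), Sub B' B ∧
        (1 - c₀) * Pe F.p B ≤ Pe F.p B' ∧
        (∀ j y, (fG j y).totalDegree ≤ 3 * N) ∧ (∀ j s, (fL j s).totalDegree ≤ 3 * N) ∧
        (∀ j < q, ∀ ω, B' ω → fG j (ptr F J ω) = fL j (slam F W ω)) ∧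
        (∀ j < q, ∀ ω, B' ω → ∀ v, Bx 5 v →
          |eval v (fG j (ptr F J ω))| ≤ ((2 ^ k : ℕ) : ℝ) ^ κ) ∧
        ∀ j < q, ∀ ω, B' ω → |V j (zp (ptr F J ω)) -
          eval (x (zp (ptr F J ω))) (fG j (ptr F J ω))| ≤ ((2 ^ k : ℕ) : ℝ) ^ (-γ) := by
  classical
  obtain ⟨c', hc'⟩ : ∃ c' : ℝ, c' = c₀ / (4 * (q + 1)) := ⟨_, rfl⟩
  have hc'0 : 0 < c' := by rw [hc']; positivity
  obtain ⟨γc, γ₁, hγc, hγ₁, hclo⟩ := clo N c' (κ / 2) hc'0 (by positivity)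
  obtain ⟨C₁, hC₁, hcf⟩ := coef_bound 3 (3 * N)
  obtain ⟨C₂, hC₂, hev⟩ := ev_co (3 * N)
  obtain ⟨a, ha⟩ : ∃ a : ℝ, a = 4 * ((q : ℝ) * (sl (3 * N + 1)).card + 1) * (C₁ + 1) / c₀ :=
    ⟨_, rfl⟩
  have ha0 : 0 < a := by rw [ha]; positivity
  refine ⟨γc / 2, γ₁, by positivity, hγ₁, ?_⟩
  intro γ₀ hγ₀ hγ₀₁
  obtain ⟨e₀, c, M₀, he₀, hc, hM⟩ := hclo γ₀ hγ₀ hγ₀₁
  obtain ⟨k₁, hk₁⟩ := ev_pk (1 + C₂ * a) (γc / 2) (by positivity)
  obtain ⟨k₂, hk₂⟩ := ev_pk (C₂ * C₁ + C₂ * a) (κ / 2) (by positivity)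
  obtain ⟨k₃, hk₃⟩ : ∃ k₃ : ℕ, M₀ ≤ 2 ^ k₃ := ⟨M₀, Nat.lt_two_pow_self.le⟩
  refine ⟨e₀, c, max (max k₁ k₂) k₃, he₀, hc, ?_⟩
  intro k hk m J F B hB W Zt Yt 𝒟 zp y D X x V P hH
  have g1 := hk₁ k (((le_max_left _ _).trans (le_max_left _ _)).trans hk)
  have g2 := hk₂ k (((le_max_right _ _).trans (le_max_left _ _)).trans hk)
  have g3 : M₀ ≤ 2 ^ k := hk₃.trans (Nat.pow_le_pow_right (by norm_num)
    ((le_max_right _ _).trans hk))
  obtain ⟨M, hMd⟩ : ∃ M : ℝ, M = ((2 ^ k : ℕ) : ℝ) := ⟨_, rfl⟩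
  have hM1 : 1 ≤ M := by
    rw [hMd]
    exact_mod_cast Nat.one_le_two_pow
  have hM0 : 0 < M := by linarith
  obtain ⟨p, hp⟩ : ∃ p, p = Pool.Agent.H49.Ent.cond F.p B True := ⟨_, rfl⟩
  have hlaw : IsLaw p := hp ▸ isLaw_cond F.isLaw hB
  rw [← hp, ← hMd] at hH
  rw [← hMd] at g1 g2 ⊢
  obtain ⟨η, hη⟩ : ∃ η : ℝ, η = M ^ (-γc) := ⟨_, rfl⟩
  have hη0 : 0 < η := by rw [hη]; positivity
  have hne : Nonempty F.Ω := by
    by_contra hcon
    rw [not_nonempty_iff] at hcon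
    have h1 := hlaw.2
    rw [Finset.univ_eq_empty, Finset.sum_empty] at h1
    exact absurd h1 (by norm_num)
  -- the closed polynomials, one by one
  have hone : ∀ j < q, ∃ (f : Zt → Po) (sel : LnT F → F.Ω), (∀ r, (f r).totalDegree ≤ 3 * N ∧
      ∀ v, Bx 1 v → |eval v (f r)| ≤ M ^ (κ / 2)) ∧
      Pb p (fun ω => ¬ |V j (zp (ptr F J ω)) - eval (x (zp (ptr F J ω))) (f (zp (ptr F J ω)))| ≤
        η) ≤ c' ∧
      Pb p (fun ω => ¬ ∀ v, Bx 1 v → |eval v (f (zp (ptr F J ω))) -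
        eval v (f (zp (ptr F J (sel (slam F W ω)))))| ≤ η) ≤ c' := by
    intro j hj
    have hH' := hH j hj
    rw [hMd] at hH'
    obtain ⟨f, h1, h2, h3⟩ := hM (2 ^ k) g3 F.Ω (LnT F) Zt Yt 𝒟 p (slam F W)
      (fun ω => zp (ptr F J ω)) y (dg F W k) D X x (V j) (P j) hH'
    rw [← hMd] at h1 h2 h3
    rw [← hη] at h2 h3
    obtain ⟨sel, -, hs⟩ := glue_select hlaw hlaw (X := slam F W) (Y := slam F W) (fun _ => rfl)
      (fun ω ω' => ¬ ∀ v, Bx 1 v → |eval v (f (zp (ptr F J ω))) -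
        eval v (f (zp (ptr F J ω')))| ≤ η)
    exact ⟨f, sel, h1, h2, hs.trans h3⟩
  choose! f sel hf1 hf2 hf3 using hone
  -- the good event
  obtain ⟨B₁, hB₁⟩ : ∃ B₁ : F.Ω → Prop, B₁ = fun ω => B ω ∧ ∀ j < q,
      |V j (zp (ptr F J ω)) - eval (x (zp (ptr F J ω))) (f j (zp (ptr F J ω)))| ≤ η ∧
      ∀ v, Bx 1 v → |eval v (f j (zp (ptr F J ω))) -
        eval v (f j (zp (ptr F J (sel j (slam F W ω)))))| ≤ η := ⟨_, rfl⟩
  have hB₁s : Sub B₁ B := fun ω hω => by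
    rw [hB₁] at hω
    exact hω.1
  have hB₁g : ∀ ω, B₁ ω → ∀ j < q,
      |V j (zp (ptr F J ω)) - eval (x (zp (ptr F J ω))) (f j (zp (ptr F J ω)))| ≤ η ∧
      ∀ v, Bx 1 v → |eval v (f j (zp (ptr F J ω))) -
        eval v (f j (zp (ptr F J (sel j (slam F W ω)))))| ≤ η := fun ω hω => by
    rw [hB₁] at hω
    exact hω.2
  have hPB₁ : (1 - c₀ / 2) * Pe F.p B ≤ Pe F.p B₁ := by
    have p0 := hlaw.nonneg
    have h1 : Pb p (fun ω => ¬ ∀ j < q,
        |V j (zp (ptr F J ω)) - eval (x (zp (ptr F J ω))) (f j (zp (ptr F J ω)))| ≤ η ∧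
        ∀ v, Bx 1 v → |eval v (f j (zp (ptr F J ω))) -
          eval v (f j (zp (ptr F J (sel j (slam F W ω)))))| ≤ η) ≤ c₀ / 2 := by
      have h2 := Pool.HL5.Pb_ex p0 (fun j ω => ¬ (
        |V j (zp (ptr F J ω)) - eval (x (zp (ptr F J ω))) (f j (zp (ptr F J ω)))| ≤ η ∧
        ∀ v, Bx 1 v → |eval v (f j (zp (ptr F J ω))) -
          eval v (f j (zp (ptr F J (sel j (slam F W ω)))))| ≤ η)) q
      refine (Pool.STB.Pb_mono p0 fun ω _ hn => ?_).trans (h2.trans ?_)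
      · push Not at hn
        obtain ⟨j, hj, h3⟩ := hn
        exact ⟨j, hj, fun h4 => by
          obtain ⟨v, hv, hv'⟩ := h3 h4.1
          exact absurd (h4.2 v hv) (not_le.2 hv')⟩
      · have h3 : ∀ j ∈ Finset.range q, Pb p (fun ω => ¬ (
            |V j (zp (ptr F J ω)) - eval (x (zp (ptr F J ω))) (f j (zp (ptr F J ω)))| ≤ η ∧
            ∀ v, Bx 1 v → |eval v (f j (zp (ptr F J ω))) -
              eval v (f j (zp (ptr F J (sel j (slam F W ω)))))| ≤ η)) ≤ 2 * c' := by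
          intro j hj
          have hj' := Finset.mem_range.1 hj
          have h5 := Pool.STB.Pb_or p0 (fun ω =>
            ¬ |V j (zp (ptr F J ω)) - eval (x (zp (ptr F J ω))) (f j (zp (ptr F J ω)))| ≤ η)
            (fun ω => ¬ ∀ v, Bx 1 v → |eval v (f j (zp (ptr F J ω))) -
              eval v (f j (zp (ptr F J (sel j (slam F W ω)))))| ≤ η)
          refine (Pool.STB.Pb_mono p0 fun ω _ hn => not_and_or.1 hn).trans (h5.trans ?_)
          linarith [hf2 j hj', hf3 j hj']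
        refine (Finset.sum_le_sum h3).trans ?_
        rw [Finset.sum_const, Finset.card_range, nsmul_eq_mul, hc']
        have hq0 : (0 : ℝ) ≤ q := Nat.cast_nonneg q
        have e1 : (q : ℝ) * (2 * (c₀ / (4 * (q + 1)))) = q / (q + 1) * (c₀ / 2) := by
          field_simp
          ring
        rw [e1]
        exact mul_le_of_le_one_left (by positivity) (by rw [div_le_one (by positivity)]; linarith)
    rw [pb_pe, hp, Pool.K2S.Pe_cond, div_le_iff₀ hB] at h1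
    have h2 : Pe F.p B ≤ Pe F.p B₁ + Pe F.p (fun ω => B ω ∧ ¬ ∀ j < q,
        |V j (zp (ptr F J ω)) - eval (x (zp (ptr F J ω))) (f j (zp (ptr F J ω)))| ≤ η ∧
        ∀ v, Bx 1 v → |eval v (f j (zp (ptr F J ω))) -
          eval v (f j (zp (ptr F J (sel j (slam F W ω)))))| ≤ η) := by
      refine Pool.K2S.Pe_or F.isLaw fun ω hω => ?_
      by_cases h3 : ∀ j < q,
        |V j (zp (ptr F J ω)) - eval (x (zp (ptr F J ω))) (f j (zp (ptr F J ω)))| ≤ η ∧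
        ∀ v, Bx 1 v → |eval v (f j (zp (ptr F J ω))) -
          eval v (f j (zp (ptr F J (sel j (slam F W ω)))))| ≤ η
      · left
        rw [hB₁]
        exact ⟨hω, h3⟩
      · exact Or.inr ⟨hω, h3⟩
    linarith
  -- rounding
  obtain ⟨u, hu⟩ : ∃ u : ℝ, u = a * η := ⟨_, rfl⟩
  have hu0 : 0 < u := by rw [hu]; positivity
  obtain ⟨I, hI⟩ : ∃ I : Finset (ℕ × (Fin 3 →₀ ℕ)), I = range q ×ˢ sl (3 * N + 1) := ⟨_, rfl⟩
  have hIm : ∀ i < q, ∀ α ∈ sl (3 * N + 1), (i, α) ∈ I := by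
    intro i hi α hα
    rw [hI, Finset.mem_product]
    exact ⟨mem_range.2 hi, hα⟩
  have hIn : ∀ b ∈ I, b.1 < q := by
    intro b hb
    rw [hI, Finset.mem_product] at hb
    exact mem_range.1 hb.1
  have hIc : (I.card : ℝ) * ((C₁ + 1) / a) ≤ c₀ / 4 := by
    have e0 : (I.card : ℝ) = q * (sl (3 * N + 1)).card := by
      rw [hI, Finset.card_product, card_range]
      push_cast
      ring
    have e2 : (C₁ + 1) / a = c₀ / (4 * ((q : ℝ) * (sl (3 * N + 1)).card + 1)) := by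
      rw [ha]
      field_simp
    rw [e0, e2, mul_div_assoc', div_le_div_iff₀ (by positivity) (by norm_num)]
    have e3 : (0 : ℝ) ≤ (q : ℝ) * (sl (3 * N + 1)).card := by positivity
    nlinarith
  obtain ⟨θ, hθ, hpθ⟩ := rnd_all F.isLaw.nonneg B₁ I
    (fun b ω => coeff b.2 (f b.1 (zp (ptr F J ω))) / u)
    (fun b ω => coeff b.2 (f b.1 (zp (ptr F J (sel b.1 (slam F W ω))))) / u)
    (ε := C₁ / a) (ε' := (C₁ + 1) / a) (by
      rw [div_lt_div_iff_of_pos_right ha0]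
      linarith) (fun b hb ω hω => by
      have hj := hIn b hb
      have h1 := hcf (f b.1 (zp (ptr F J ω)) - f b.1 (zp (ptr F J (sel b.1 (slam F W ω))))) η
        ((totalDegree_sub _ _).trans (max_le (hf1 b.1 hj _).1 (hf1 b.1 hj _).1)) (fun v hv => by
          rw [map_sub]
          exact (hB₁g ω hω b.1 hj).2 v hv) b.2
      rw [coeff_sub] at h1
      rw [← sub_div, abs_div, abs_of_pos hu0, hu, div_le_div_iff₀ (by positivity) ha0]
      nlinarith)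
  obtain ⟨B₂, hB₂⟩ : ∃ B₂ : F.Ω → Prop, B₂ = fun ω => B₁ ω ∧ ∀ b ∈ I,
      ⌊coeff b.2 (f b.1 (zp (ptr F J ω))) / u + θ b⌋ =
        ⌊coeff b.2 (f b.1 (zp (ptr F J (sel b.1 (slam F W ω))))) / u + θ b⌋ := ⟨_, rfl⟩
  have hB₂s : Sub B₂ B₁ := fun ω hω => by
    rw [hB₂] at hω
    exact hω.1
  have hp0 := Pe_nonneg F.isLaw
  have hPB₂ : (1 - c₀) * Pe F.p B ≤ Pe F.p B₂ := by
    rw [← hB₂] at hpθ
    have h1 : (1 - c₀ / 4) * Pe F.p B₁ ≤ Pe F.p B₂ :=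
      (mul_le_mul_of_nonneg_right (by linarith) (hp0 B₁)).trans hpθ
    have h2 : Pe F.p B₁ ≤ Pe F.p B := Pool.K2S.Pe_mono F.isLaw hB₁s
    have h3 : 0 ≤ c₀ / 4 := by positivity
    nlinarith [mul_le_mul_of_nonneg_left h2 h3, mul_nonneg h3 (hp0 B)]
  have hdeg : ∀ j < q, ∀ r, (f j r).totalDegree ≤ (3 * N + 1) - 1 := fun j hj r => by
    have := (hf1 j hj r).1
    omega
  refine ⟨B₂, fun j y => rdp (sl (3 * N + 1)) u (fun α => θ (j, α))
      (fun α => ⌊coeff α (f j (zp y)) / u + θ (j, α)⌋),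
    fun j s => rdp (sl (3 * N + 1)) u (fun α => θ (j, α))
      (fun α => ⌊coeff α (f j (zp (ptr F J (sel j s)))) / u + θ (j, α)⌋),
    fun ω hω => hB₁s ω (hB₂s ω hω), hPB₂, fun j y => ?_, fun j s => ?_, ?_, ?_, ?_⟩
  · exact (deg_rdp (by omega) _ _ _).trans (by omega)
  · exact (deg_rdp (by omega) _ _ _).trans (by omega)
  · intro j hj ω hω
    rw [hB₂] at hω
    exact rdp_congr fun α hα => hω.2 (j, α) (hIm j hj α hα)
  all_goals
    intro j hj ω hω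
    obtain ⟨R, hR⟩ : ∃ R : Po, R = rdp (sl (3 * N + 1)) u (fun α => θ (j, α))
      (fun α => ⌊coeff α (f j (zp (ptr F J ω))) / u + θ (j, α)⌋) := ⟨_, rfl⟩
    have hRn : ∀ α, |coeff α (f j (zp (ptr F J ω)) - R)| ≤ u := fun α => by
      rw [hR]
      exact rdp_near (fun α hα => coeff_sl (hdeg j hj _) (by omega) hα) hu0 _ α
    have hRd : R.totalDegree ≤ 3 * N := by
      rw [hR]
      exact (deg_rdp (by omega) _ _ _).trans (by omega)
    have hRe : ∀ v, Bx 5 v → |eval v (f j (zp (ptr F J ω))) - eval v R| ≤ C₂ * u := fun v hv => by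
      rw [← map_sub]
      exact hev _ u ((totalDegree_sub _ _).trans (max_le (hf1 j hj _).1 hRd)) hRn v hv
    have hηM : η ≤ 1 := by
      rw [hη]
      exact Real.rpow_le_one_of_one_le_of_nonpos hM1 (by linarith)
  · intro v hv
    show |eval v (rdp (sl (3 * N + 1)) u (fun α => θ (j, α))
      (fun α => ⌊coeff α (f j (zp (ptr F J ω))) / u + θ (j, α)⌋))| ≤ M ^ κ
    rw [← hR]
    have h1 := hev (f j (zp (ptr F J ω))) (C₁ * M ^ (κ / 2)) (hf1 j hj _).1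
      (hcf _ _ (hf1 j hj _).1 fun v hv => (hf1 j hj _).2 v hv) v hv
    have h2 := hRe v hv
    have h3 : (1 : ℝ) ≤ M ^ (κ / 2) := Real.one_le_rpow hM1 (by positivity)
    have h4 : M ^ κ = M ^ (κ / 2) * M ^ (κ / 2) := by
      rw [← Real.rpow_add hM0]
      congr 1
      ring
    have h5 : |eval v R| ≤ |eval v (f j (zp (ptr F J ω)))| +
        |eval v (f j (zp (ptr F J ω))) - eval v R| := by
      have := abs_sub_abs_le_abs_sub (eval v R) (eval v (f j (zp (ptr F J ω))))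
      rw [abs_sub_comm (eval v R)] at this
      linarith
    have h6 : C₂ * u ≤ C₂ * a * M ^ (κ / 2) := by
      rw [hu]
      have : C₂ * (a * η) ≤ C₂ * (a * M ^ (κ / 2)) := by
        have : a * η ≤ a * M ^ (κ / 2) := mul_le_mul_of_nonneg_left (hηM.trans h3) ha0.le
        exact mul_le_mul_of_nonneg_left this (by linarith)
      linarith
    rw [h4]
    calc |eval v R| ≤ C₂ * (C₁ * M ^ (κ / 2)) + C₂ * a * M ^ (κ / 2) := by linarith
      _ = (C₂ * C₁ + C₂ * a) * M ^ (κ / 2) := by ring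
      _ ≤ M ^ (κ / 2) * M ^ (κ / 2) := mul_le_mul_of_nonneg_right g2 (by positivity)
  · show |V j (zp (ptr F J ω)) - eval (x (zp (ptr F J ω))) (rdp (sl (3 * N + 1)) u
      (fun α => θ (j, α)) (fun α => ⌊coeff α (f j (zp (ptr F J ω))) / u + θ (j, α)⌋))| ≤
        M ^ (-(γc / 2))
    rw [← hR]
    have h1 := (hB₁g ω (hB₂s ω hω) j hj).1
    have hx5 : Bx 5 (x (zp (ptr F J ω))) := fun i => ((hH j hj).x1 _ i).trans (by norm_num)
    have h2 := hRe _ hx5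
    have h3 := abs_sub_le (V j (zp (ptr F J ω)))
      (eval (x (zp (ptr F J ω))) (f j (zp (ptr F J ω)))) (eval (x (zp (ptr F J ω))) R)
    refine (h3.trans (add_le_add h1 h2)).trans ?_
    have h4 : η = M ^ (-(γc / 2)) * M ^ (-(γc / 2)) := by
      rw [hη, ← Real.rpow_add hM0]
      congr 1
      ring
    have h5 : η + C₂ * u = (1 + C₂ * a) * M ^ (-(γc / 2)) * M ^ (-(γc / 2)) := by
      rw [hu]
      calc η + C₂ * (a * η) = (1 + C₂ * a) * η := by ring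
        _ = _ := by rw [h4]; ring
    rw [h5]
    refine mul_le_of_le_one_left (by positivity) ?_
    have h6 : M ^ (γc / 2) * M ^ (-(γc / 2)) = 1 := by
      rw [← Real.rpow_add hM0, add_neg_cancel, Real.rpow_zero]
    calc (1 + C₂ * a) * M ^ (-(γc / 2)) ≤ M ^ (γc / 2) * M ^ (-(γc / 2)) :=
          mul_le_mul_of_nonneg_right g1 (by positivity)
      _ = 1 := h6

end Pool.CLO80
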