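import Pool.Agent.H80.CLO.Ndv
import Pool.Agent.H80.CLO.Nd7
import Pool.Agent.H80.CLO.Out
import Pool.Agent.H50.K2.Piece

/-!
# Closed values from the polynomials of the slopes

`nd4_mg`: the conclusion of `nd4` on a configuration law gives the one on the law of the samples. `rnd_vals`: the
rounded values at the nodes are closed. `vals_few`: they are few given the position and the closed record.
-/

set_option autoImplicit false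

namespace Pool.CLO80

open Finset Real MvPolynomial
open Pool.Agent.H49.Ent Pool.Agent.H32.Dense Pool.STK Pool.KA Pool.KSAT Pool.K2S Pool.PB Pool.S6C
open Pool.GEN Pool.CHT Pool.CHX Pool.D2Con Pool.D2A Pool.D2F Pool.RCD
open Pool.STB (V3 Po Bx cv)
open Pool.STB82 (Fst dg pb_pe cond_pos_B slam_coarse dg_cl2)
open Pool.STB65 (rnd_all)
open Pool.BFL (Pb)

variable {m J : ℕ}

/-- Events of the samples have the same mass on a law over the samples. -/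
theorem mg_Pb {Ω' Ω : Type} [Fintype Ω'] [Fintype Ω] {q : Ω' → ℝ} {p : Ω → ℝ} {pr : Ω' → Ω}
    (h : Marg q p pr) (E : Ω → Prop) : Pb q (fun v => E (pr v)) = Pb p E := by
  classical
  have h1 := h.ex (fun w => if E w then 1 else 0)
  unfold Ex at h1
  unfold Pb
  simpa using h1

/-- **The conclusion on the law of the samples.** -/
theorem nd4_mg {Ω' Ω Λ Pt Z : Type} [Fintype Ω'] [Fintype Ω] {q : Ω' → ℝ} {p : Ω → ℝ} {pr : Ω' → Ω}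
    {L : Ω → Λ} {P : Ω → Pt} {Qc : Ω → Z} {τ U : Ω → ℤ} {φ : Ω → ℝ} {K D M : ℕ} {B δ e c : ℝ}
    {Wv : Pt → Polynomial ℝ} {Qp : Λ → ℝ → Polynomial ℝ} (h : Marg q p pr)
    (O : Nd4O q (fun v => L (pr v)) (fun v => P (pr v)) (fun v => Qc (pr v)) (fun v => τ (pr v))
      (fun v => U (pr v)) (fun v => φ (pr v)) K D M B δ e c Wv Qp) :
    Nd4O p L P Qc τ U φ K D M B δ e c Wv Qp where
  dW := O.dW
  bW := O.bW
  dQ := O.dQ
  bQ := O.bQ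
  near := (mg_Pb h fun ω => ¬ |φ ω - (Wv (P ω)).eval ((U ω : ℝ) / M)| ≤ δ).symm.le.trans O.near
  path := (mg_Pb h fun ω => ¬ ∀ u : ℝ, |u| ≤ 1 →
    |(Wv (P ω)).eval u - (Qp (L ω) u).eval ((τ ω : ℝ) / M)| ≤ δ).symm.le.trans O.path
  few := fun u hu => by
    rw [← h.CH]
    exact O.few u hu

/-- **The rounded values are closed.** -/
theorem rnd_vals (F : Fam m J) {B : F.Ω → Prop} {W k n : ℕ} (hk : W + k ≤ J) {δ c' : ℝ}
    (hδ : 0 < δ) (hc' : 0 < c') {Wv : PtT F → Polynomial ℝ} {Qp : LnT F → ℝ → Polynomial ℝ}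
    (u : ℕ → ℝ) (h : ∀ ω, B ω → ∀ l < n, |(Wv (ptr F J ω)).eval (u l) -
      (Qp (slam F W ω) (u l)).eval ((dg F W k ω : ℝ) / ((2 ^ k : ℕ) : ℝ))| ≤ δ) :
    ∃ (B' : F.Ω → Prop) (V : ℕ → PtT F → ℝ), Sub B' B ∧ (1 - c') * Pe F.p B ≤ Pe F.p B' ∧
      (∀ l y, |V l y - (Wv y).eval (u l)| ≤ 2 * (n + 1) / c' * δ) ∧
      ∀ l < n, Cl2 (slam F (W + k)) (fun ω => ptr F J ω) B' (fun ω => V l (ptr F J ω)) := by
  classical
  have hn0 : (0 : ℝ) ≤ n := Nat.cast_nonneg n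
  obtain ⟨a, ha⟩ : ∃ a : ℝ, a = 2 * (n + 1) / c' := ⟨_, rfl⟩
  have ha0 : 0 < a := by
    rw [ha]
    positivity
  obtain ⟨u₀, hu₀⟩ : ∃ u₀ : ℝ, u₀ = a * δ := ⟨_, rfl⟩
  have hu00 : 0 < u₀ := hu₀ ▸ mul_pos ha0 hδ
  obtain ⟨v, hv⟩ : ∃ v : ℕ → F.Ω → ℝ, v = fun l ω => (Wv (ptr F J ω)).eval (u l) / u₀ := ⟨_, rfl⟩
  obtain ⟨w, hw⟩ : ∃ w : ℕ → F.Ω → ℝ, w = fun l ω =>
    (Qp (slam F W ω) (u l)).eval ((dg F W k ω : ℝ) / ((2 ^ k : ℕ) : ℝ)) / u₀ := ⟨_, rfl⟩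
  have hvw : ∀ l ∈ range n, ∀ ω, B ω → |v l ω - w l ω| ≤ 1 / a := by
    intro l hl ω hω
    have h1 := h ω hω l (mem_range.1 hl)
    rw [hv, hw]
    show |(Wv (ptr F J ω)).eval (u l) / u₀ -
      (Qp (slam F W ω) (u l)).eval ((dg F W k ω : ℝ) / ((2 ^ k : ℕ) : ℝ)) / u₀| ≤ 1 / a
    rw [← sub_div, abs_div, abs_of_pos hu00, div_le_div_iff₀ hu00 ha0, hu₀]
    nlinarith
  obtain ⟨θ, hθ, hmass⟩ := rnd_all F.isLaw.nonneg B (range n) v w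
    (ε := 1 / a) (ε' := 2 / a) (by
      rw [div_lt_div_iff_of_pos_right ha0]
      norm_num) hvw
  refine ⟨fun ω => B ω ∧ ∀ i ∈ range n, ⌊v i ω + θ i⌋ = ⌊w i ω + θ i⌋,
    fun l y => u₀ * ((⌊(Wv y).eval (u l) / u₀ + θ l⌋ : ℝ) - θ l), fun ω h => h.1, ?_, ?_, ?_⟩
  · refine le_trans ?_ hmass
    refine mul_le_mul_of_nonneg_right ?_ (Pe_nonneg F.isLaw _)
    rw [card_range]
    have h1 : (n : ℝ) * (2 / a) ≤ c' := by
      rw [ha, mul_div_assoc', div_le_iff₀ (by positivity)]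
      have : c' * (2 * (n + 1) / c') = 2 * (n + 1) := by field_simp
      rw [this]
      linarith
    linarith
  · intro l y
    have h1 := Int.floor_le ((Wv y).eval (u l) / u₀ + θ l)
    have h2 := Int.lt_floor_add_one ((Wv y).eval (u l) / u₀ + θ l)
    have h3 : |((⌊(Wv y).eval (u l) / u₀ + θ l⌋ : ℝ) - θ l) - (Wv y).eval (u l) / u₀| ≤ 1 := by
      rw [abs_le]
      constructor <;> linarith
    have h4 : u₀ * ((⌊(Wv y).eval (u l) / u₀ + θ l⌋ : ℝ) - θ l) - (Wv y).eval (u l) =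
        u₀ * (((⌊(Wv y).eval (u l) / u₀ + θ l⌋ : ℝ) - θ l) - (Wv y).eval (u l) / u₀) := by
      field_simp
    rw [h4, abs_mul, abs_of_pos hu00, ← ha, ← hu₀]
    nlinarith
  · intro l hl
    obtain ⟨φ, hφ⟩ := slam_coarse F (W := W) (W' := W + k) (by omega) hk
      (fun ω => B ω ∧ ∀ i ∈ range n, ⌊v i ω + θ i⌋ = ⌊w i ω + θ i⌋)
    obtain ⟨⟨ψ, hψ⟩, -⟩ := dg_cl2 F W k
      (fun ω => B ω ∧ ∀ i ∈ range n, ⌊v i ω + θ i⌋ = ⌊w i ω + θ i⌋)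
    refine ⟨⟨fun s => u₀ * ((⌊(Qp (φ s) (u l)).eval ((ψ s : ℝ) / ((2 ^ k : ℕ) : ℝ)) / u₀ +
      θ l⌋ : ℝ) - θ l), fun ω hω => ?_⟩, fun y => u₀ * ((⌊(Wv y).eval (u l) / u₀ + θ l⌋ : ℝ) - θ l),
      fun ω hω => rfl⟩
    have h1 := hω.2 l (mem_range.2 hl)
    rw [hv, hw] at h1
    show u₀ * ((⌊(Wv (ptr F J ω)).eval (u l) / u₀ + θ l⌋ : ℝ) - θ l) =
      u₀ * ((⌊(Qp (φ (slam F (W + k) ω)) (u l)).eval ((ψ (slam F (W + k) ω) : ℝ) /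
        ((2 ^ k : ℕ) : ℝ)) / u₀ + θ l⌋ : ℝ) - θ l)
    rw [← hφ ω hω, ← hψ ω hω]
    have h2 : (⌊(Wv (ptr F J ω)).eval (u l) / u₀ + θ l⌋ : ℤ) =
      ⌊(Qp (slam F W ω) (u l)).eval ((dg F W k ω : ℝ) / ((2 ^ k : ℕ) : ℝ)) / u₀ + θ l⌋ := h1
    rw [h2]

end Pool.CLO80
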