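import Pool.Agent.H80.CLO.Sxa
import Pool.Agent.H19.STB.RefG
import Pool.Agent.H23.D2.Cnu
import Pool.Agent.H23.D2.Nat
import Pool.Agent.H9.GEN.Own
import Pool.Agent.H6.STB.Geo

/-!
# The polynomial of the slopes

`slP`: from closed polynomials `f l` of the values at the nodes `u l` the polynomial over the time and the places
`c 0`, `c 1`, `c 2`. Evaluation, degree, places.
-/

set_option autoImplicit false

namespace Pool.CLO80

open Finset Real MvPolynomial
open Pool.Agent.H49.Ent Pool.Agent.H32.Dense Pool.STK Pool.KA Pool.KSAT Pool.K2S Pool.PB Pool.S6C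
open Pool.GEN Pool.CHT Pool.CHX Pool.D2Con Pool.D2A Pool.D2F Pool.RCD
open Pool.STB (V3 Po Bx cv eval_bnd deg_bnd dep_bnd)
open Pool.STB82 (yv)
open Pool.STB65 (Rs)
open Pool.PB.Trl (rt t_rt)
open Pool.D2R (eval_aev deg_aev depC_pderiv)

variable {m J : ℕ}

/-- The normalised position as polynomials. -/
noncomputable def poQ (c : ℕ → Fin m) (R A0 A1 T1 : ℝ) (P : MvPolynomial (Option (Fin m)) ℝ)
    (ctr : V3) : Fin 3 → MvPolynomial (Option (Fin m)) ℝ :=
  ![C R * (C A0 * X none - C T1 - C (ctr 0)), C R * (C A0 * X (some (c 0)) - C (ctr 1)),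
    C R * (C A1 * (X (some (c 1)) - P) - C (ctr 2))]

theorem poQ_eval (c : ℕ → Fin m) (R A0 A1 T1 : ℝ) (P : MvPolynomial (Option (Fin m)) ℝ)
    (ctr : V3) (b : Option (Fin m) → ℝ) :
    (fun j => eval b (poQ c R A0 A1 T1 P ctr j)) =
      R • ((![A0 * b none - T1, A0 * b (some (c 0)), A1 * (b (some (c 1)) - eval b P)] : V3) -
        ctr) := by
  funext j
  fin_cases j
  · show eval b (C R * (C A0 * X none - C T1 - C (ctr 0))) = R * ((A0 * b none - T1) - ctr 0)
    simp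
  · show eval b (C R * (C A0 * X (some (c 0)) - C (ctr 1))) = R * (A0 * b (some (c 0)) - ctr 1)
    simp
  · show eval b (C R * (C A1 * (X (some (c 1)) - P) - C (ctr 2))) =
      R * (A1 * (b (some (c 1)) - eval b P) - ctr 2)
    simp

theorem poQ_deg (c : ℕ → Fin m) (R A0 A1 T1 : ℝ) {P : MvPolynomial (Option (Fin m)) ℝ}
    (ctr : V3) {K : ℕ} (hP : P.totalDegree ≤ K) (j : Fin 3) :
    (poQ c R A0 A1 T1 P ctr j).totalDegree ≤ K + 1 := by
  have hX : ∀ o : Option (Fin m), (X o : MvPolynomial (Option (Fin m)) ℝ).totalDegree ≤ K + 1 :=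
    fun o => (totalDegree_X o).le.trans (by omega)
  have hC : ∀ a : ℝ, (C a : MvPolynomial (Option (Fin m)) ℝ).totalDegree ≤ K + 1 := fun a => by
    rw [totalDegree_C]
    omega
  have hm : ∀ (a : ℝ) (Q : MvPolynomial (Option (Fin m)) ℝ), Q.totalDegree ≤ K + 1 →
      (C a * Q).totalDegree ≤ K + 1 := fun a Q hQ => by
    refine (totalDegree_mul _ _).trans ?_
    rw [totalDegree_C, zero_add]
    exact hQ
  have hs : ∀ Q Q' : MvPolynomial (Option (Fin m)) ℝ, Q.totalDegree ≤ K + 1 →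
      Q'.totalDegree ≤ K + 1 → (Q - Q').totalDegree ≤ K + 1 := fun Q Q' h h' =>
    (totalDegree_sub _ _).trans (max_le h h')
  fin_cases j
  · exact hm _ _ (hs _ _ (hs _ _ (hm _ _ (hX _)) (hC _)) (hC _))
  · exact hm _ _ (hs _ _ (hm _ _ (hX _)) (hC _))
  · exact hm _ _ (hs _ _ (hm _ _ (hs _ _ (hX _) (by omega))) (hC _))

theorem poQ_dep {c : ℕ → Fin m} (R A0 A1 T1 : ℝ) {P : MvPolynomial (Option (Fin m)) ℝ}
    (ctr : V3) (hP : DepC c 2 P) (j : Fin 3) : DepC c 3 (poQ c R A0 A1 T1 P ctr j) := by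
  intro b b' h0 h1
  have e1 := congrFun (poQ_eval c R A0 A1 T1 P ctr b) j
  have e2 := congrFun (poQ_eval c R A0 A1 T1 P ctr b') j
  rw [e1, e2, hP b b' h0 fun l hl => h1 l (by omega), h0, h1 0 (by norm_num), h1 1 (by norm_num)]

/-- **The polynomial of the slopes.** -/
noncomputable def slP (c : ℕ → Fin m) (n : ℕ) (u : ℕ → ℝ) (R A0 A1 A2 sc T1 : ℝ)
    (P Gu GN : MvPolynomial (Option (Fin m)) ℝ) (ctr : V3) (f : ℕ → Po) :
    MvPolynomial (Option (Fin m)) ℝ :=
  pderiv (some (c 2)) GN + C sc⁻¹ * ∑ l ∈ range n, bind₁ (poQ c R A0 A1 T1 P ctr) (f l) *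
    Polynomial.aeval (C A2 * (X (some (c 2)) - Gu)) (Lagrange.basis (range n) u l)

theorem slP_eval (c : ℕ → Fin m) (n : ℕ) (u : ℕ → ℝ) (R A0 A1 A2 sc T1 : ℝ)
    (P Gu GN : MvPolynomial (Option (Fin m)) ℝ) (ctr : V3) (f : ℕ → Po) (b : Option (Fin m) → ℝ) :
    eval b (slP c n u R A0 A1 A2 sc T1 P Gu GN ctr f) = eval b (pderiv (some (c 2)) GN) +
      sc⁻¹ * ∑ l ∈ range n, eval (R • ((![A0 * b none - T1, A0 * b (some (c 0)),
        A1 * (b (some (c 1)) - eval b P)] : V3) - ctr)) (f l) *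
        (Lagrange.basis (range n) u l).eval (A2 * (b (some (c 2)) - eval b Gu)) := by
  unfold slP
  rw [map_add, map_mul, eval_C, map_sum]
  congr 2
  refine Finset.sum_congr rfl fun l _ => ?_
  rw [map_mul, eval_bnd, poQ_eval, eval_aev]
  congr 2
  simp

theorem slP_deg (c : ℕ → Fin m) (n : ℕ) {u : ℕ → ℝ} (hu : Set.InjOn u (range n))
    (R A0 A1 A2 sc T1 : ℝ) {P Gu GN : MvPolynomial (Option (Fin m)) ℝ} (ctr : V3) {f : ℕ → Po}
    {K₁ Du N : ℕ} (hP : P.totalDegree ≤ K₁) (hG : Gu.totalDegree ≤ Du) (hN : GN.totalDegree ≤ Du)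
    (hf : ∀ l, (f l).totalDegree ≤ N) :
    (slP c n u R A0 A1 A2 sc T1 P Gu GN ctr f).totalDegree ≤
      Du + (N * (K₁ + 1) + n * (Du + 1)) := by
  have hX : (X (some (c 2)) : MvPolynomial (Option (Fin m)) ℝ).totalDegree ≤ Du + 1 :=
    (totalDegree_X _).le.trans (by omega)
  unfold slP
  refine (totalDegree_add _ _).trans (max_le ((Pool.FRN.deg_pderiv_le hN _).trans (by omega)) ?_)
  refine (totalDegree_mul _ _).trans ?_
  rw [totalDegree_C, zero_add]
  refine totalDegree_finsetSum_le fun l hl => ?_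
  refine (totalDegree_mul _ _).trans ?_
  have h1 := (deg_bnd (fun j => poQ_deg c R A0 A1 T1 ctr hP j) (f l)).trans
    (Nat.mul_le_mul_right _ (hf l))
  have h2 := deg_aev (C A2 * (X (some (c 2)) - Gu)) (Lagrange.basis (range n) u l)
  have h3 : (C A2 * (X (some (c 2)) - Gu) : MvPolynomial (Option (Fin m)) ℝ).totalDegree ≤
      Du + 1 := by
    refine (totalDegree_mul _ _).trans ?_
    rw [totalDegree_C, zero_add]
    exact (totalDegree_sub _ _).trans (max_le hX (by omega))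
  have h4 : (Lagrange.basis (range n) u l).natDegree ≤ n := by
    rw [Lagrange.natDegree_basis hu hl, card_range]
    omega
  have h5 := h2.trans (Nat.mul_le_mul h4 h3)
  omega

theorem slP_dep {c : ℕ → Fin m} (n : ℕ) (u : ℕ → ℝ) (R A0 A1 A2 sc T1 : ℝ)
    {P Gu GN : MvPolynomial (Option (Fin m)) ℝ} (ctr : V3) (f : ℕ → Po) (hP : DepC c 2 P)
    (hG : DepC c 2 Gu) (hN : DepC c 3 GN) :
    DepC c 3 (slP c n u R A0 A1 A2 sc T1 P Gu GN ctr f) := by
  intro b b' h0 h1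
  rw [slP_eval, slP_eval, depC_pderiv hN _ b b' h0 h1, hP b b' h0 fun l hl => h1 l (by omega),
    hG b b' h0 fun l hl => h1 l (by omega), h0, h1 0 (by norm_num), h1 1 (by norm_num),
    h1 2 (by norm_num)]

end Pool.CLO80
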