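import Pool.Agent.H80.CLO.Sxb

/-!
# The polynomial of the slopes is near the slope

`lag_lip`: the basis polynomials are bounded and Lipschitz. `slp_near`: one sample.
-/

set_option autoImplicit false

namespace Pool.CLO80

open Finset Real MvPolynomial
open Pool.STB (V3 Po Bx)
open Pool.STB6 (lip1 lip3)

/-- The basis polynomials of the interpolation are bounded and Lipschitz. -/
theorem lag_lip (n : ℕ) (u : ℕ → ℝ) : ∃ C : ℝ, 1 ≤ C ∧
    (∀ l < n, ∀ x : ℝ, |x| ≤ 2 → |(Lagrange.basis (range n) u l).eval x| ≤ C) ∧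
    ∀ l < n, ∀ x y : ℝ, |x| ≤ 2 → |y| ≤ 2 → |(Lagrange.basis (range n) u l).eval x -
      (Lagrange.basis (range n) u l).eval y| ≤ C * |x - y| := by
  have hone : ∀ p : Polynomial ℝ, ∃ C : ℝ, 1 ≤ C ∧ (∀ x : ℝ, |x| ≤ 2 → |p.eval x| ≤ C) ∧
      ∀ x y : ℝ, |x| ≤ 2 → |y| ≤ 2 → |p.eval x - p.eval y| ≤ C * |x - y| := by
    intro p
    obtain ⟨U, hU⟩ := isCompact_Icc.exists_bound_of_continuousOn (s := Set.Icc (-2 : ℝ) 2)
      (f := fun x => p.eval x) p.continuous.continuousOn
    have hU' : ∀ x : ℝ, |x| ≤ 2 → |p.eval x| ≤ U := fun x hx => hU x (abs_le.1 hx)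
    have hU0 : 0 ≤ U := (abs_nonneg _).trans (hU' 0 (by norm_num))
    obtain ⟨C, hC, h⟩ := lip1 p.natDegree
    refine ⟨C * U + U + 1, ?_, fun x hx => ?_, fun x y hx hy => ?_⟩
    · have : 0 ≤ C * U := by positivity
      linarith
    · have h1 := hU' x hx
      have : 0 ≤ C * U := by positivity
      linarith
    · refine (h p U le_rfl hU' x y hx hy).trans ?_
      refine mul_le_mul_of_nonneg_right ?_ (abs_nonneg _)
      linarith
  choose Cf hC1 hC2 hC3 using fun l : ℕ => hone (Lagrange.basis (range n) u l)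
  have hsum : ∀ l < n, Cf l ≤ 1 + ∑ j ∈ range n, Cf j := fun l hl => by
    have := Finset.single_le_sum (f := Cf) (fun j _ => by linarith [hC1 j]) (mem_range.2 hl)
    linarith
  have h0 : 0 ≤ ∑ j ∈ range n, Cf j := Finset.sum_nonneg fun j _ => by linarith [hC1 j]
  refine ⟨1 + ∑ j ∈ range n, Cf j, by linarith, fun l hl x hx => ?_, fun l hl x y hx hy => ?_⟩
  · exact (hC2 l x hx).trans (hsum l hl)
  · exact (hC3 l x y hx hy).trans (mul_le_mul_of_nonneg_right (hsum l hl) (abs_nonneg _))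

/-- **The polynomial of the slopes is near the slope**, one sample. -/
theorem slp_near (K N : ℕ) (u : ℕ → ℝ) (hu : Set.InjOn u (range (K + 1)))  :
    ∃ C : ℝ, 1 ≤ C ∧ ∀ {f : ℕ → Po} {x q : V3} {V : ℕ → ℝ} {Wv : Polynomial ℝ}
      {B δ δ' ε η h s φ sc dX dN a : ℝ}, (∀ l, (f l).totalDegree ≤ N) →
      (∀ l < K + 1, ∀ v, Bx 5 v → |eval v (f l)| ≤ B) → Bx (1 / 2) q → 0 ≤ η → η ≤ 1 →
      Bx η (x - q) → (∀ l < K + 1, |V l - eval x (f l)| ≤ δ') → Wv.natDegree ≤ K →
      (∀ l < K + 1, |V l - Wv.eval (u l)| ≤ a) → |φ - Wv.eval s| ≤ δ → |s| ≤ 1 → |s - h| ≤ ε →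
      ε ≤ 1 → |φ - sc * (dX - dN)| ≤ ε → 0 < sc → 0 ≤ ε →
      |dX - (dN + sc⁻¹ * ∑ l ∈ range (K + 1), eval q (f l) *
        (Lagrange.basis (range (K + 1)) u l).eval h)| ≤
        sc⁻¹ * (C * (δ + a + δ' + B * η + (B + 1) * ε)) := by
  obtain ⟨CL, hCL, hL1, hL2⟩ := lag_lip (K + 1) u
  obtain ⟨C3, hC3, hl3⟩ := lip3 N
  refine ⟨1 + (K + 1) * CL * C3, by
    have : 0 ≤ (K + 1 : ℝ) * CL * C3 := by positivity
    linarith, ?_⟩
  intro f x q V Wv B δ δ' ε η h s φ sc dX dN a hfd hfB hq hη0 hη1 hxq hV hW hVW hφ hs hsh hε1 hφs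
    hsc hε0
  have hB0 : 0 ≤ B := (abs_nonneg _).trans (hfB 0 (by omega) 0 fun i => by simp)
  have hδ0 : 0 ≤ δ := (abs_nonneg _).trans hφ
  have hδ'0 : 0 ≤ δ' := (abs_nonneg _).trans (hV 0 (by omega))
  have ha0 : 0 ≤ a := (abs_nonneg _).trans (hVW 0 (by omega))
  -- the interpolation
  have hint : Wv.eval s = ∑ l ∈ range (K + 1), Wv.eval (u l) *
      (Lagrange.basis (range (K + 1)) u l).eval s := by
    have h1 : Wv = Lagrange.interpolate (range (K + 1)) u fun i => Wv.eval (u i) :=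
      Lagrange.eq_interpolate hu (by
        rw [card_range]
        refine lt_of_le_of_lt Polynomial.degree_le_natDegree ?_
        exact_mod_cast Nat.lt_succ_of_le hW)
    conv_lhs => rw [h1, Lagrange.interpolate_apply, Polynomial.eval_finsetSum]
    refine Finset.sum_congr rfl fun l _ => ?_
    rw [Polynomial.eval_mul, Polynomial.eval_C]
  have hh2 : |h| ≤ 2 := by
    have h1 : |h| ≤ |s| + |s - h| := by
      have := abs_sub_abs_le_abs_sub h s
      rw [abs_sub_comm] at this
      linarith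
    linarith
  have hterm : ∀ l ∈ range (K + 1), |Wv.eval (u l) *
      (Lagrange.basis (range (K + 1)) u l).eval s - eval q (f l) *
        (Lagrange.basis (range (K + 1)) u l).eval h| ≤
        CL * C3 * (a + δ' + B * η + B * ε) := by
    intro l hl
    have hl' := mem_range.1 hl
    have b1 : |Wv.eval (u l) - eval q (f l)| ≤ a + δ' + C3 * B * η := by
      have a1 := hVW l hl'
      have a2 := hV l hl'
      have a3 := hl3 (f l) B (hfd l) (fun v hv => hfB l hl' v fun i => (hv i).trans (by norm_num)) q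
        (x - q) η hη0 hη1 (fun i => (hq i).trans (by norm_num)) hxq
      rw [add_sub_cancel] at a3
      have e1 : Wv.eval (u l) - eval q (f l) = -(V l - Wv.eval (u l)) + (V l - eval x (f l)) +
        (eval x (f l) - eval q (f l)) := by ring
      rw [e1]
      refine (abs_add_three _ _ _).trans ?_
      rw [abs_neg]
      linarith
    have b2 := hL1 l hl' s (by linarith)
    have b3 := hL2 l hl' s h (by linarith) hh2
    have b4 := hfB l hl' q fun i => (hq i).trans (by norm_num)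
    have e2 : Wv.eval (u l) * (Lagrange.basis (range (K + 1)) u l).eval s - eval q (f l) *
        (Lagrange.basis (range (K + 1)) u l).eval h = (Wv.eval (u l) - eval q (f l)) *
        (Lagrange.basis (range (K + 1)) u l).eval s + eval q (f l) *
        ((Lagrange.basis (range (K + 1)) u l).eval s -
          (Lagrange.basis (range (K + 1)) u l).eval h) := by ring
    rw [e2]
    refine (abs_add_le _ _).trans ?_
    rw [abs_mul, abs_mul]
    have c1 : |Wv.eval (u l) - eval q (f l)| * |(Lagrange.basis (range (K + 1)) u l).eval s| ≤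
        (a + δ' + C3 * B * η) * CL :=
      mul_le_mul b1 b2 (abs_nonneg _) (by positivity)
    have c2 : |eval q (f l)| * |(Lagrange.basis (range (K + 1)) u l).eval s -
        (Lagrange.basis (range (K + 1)) u l).eval h| ≤ B * (CL * ε) :=
      mul_le_mul b4 (b3.trans (mul_le_mul_of_nonneg_left hsh (by linarith))) (abs_nonneg _) hB0
    refine (add_le_add c1 c2).trans ?_
    have d1 : 0 ≤ (C3 - 1) * (CL * (a + δ' + B * ε)) := by
      have : 0 ≤ C3 - 1 := by linarith
      positivity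
    nlinarith
  have hsum : |Wv.eval s - ∑ l ∈ range (K + 1), eval q (f l) *
      (Lagrange.basis (range (K + 1)) u l).eval h| ≤
      (K + 1) * (CL * C3 * (a + δ' + B * η + B * ε)) := by
    rw [hint, ← Finset.sum_sub_distrib]
    refine (Finset.abs_sum_le_sum_abs _ _).trans ?_
    refine (Finset.sum_le_sum hterm).trans (le_of_eq ?_)
    rw [Finset.sum_const, card_range, nsmul_eq_mul]
    push_cast
    ring
  obtain ⟨Sm, hSm⟩ : ∃ Sm, Sm = ∑ l ∈ range (K + 1), eval q (f l) *
      (Lagrange.basis (range (K + 1)) u l).eval h := ⟨_, rfl⟩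
  rw [← hSm] at hsum ⊢
  have e3 : dX - (dN + sc⁻¹ * Sm) = sc⁻¹ * (-(φ - sc * (dX - dN)) + (φ - Wv.eval s) +
      (Wv.eval s - Sm)) := by
    field_simp
    ring
  rw [e3, abs_mul, abs_of_pos (inv_pos.2 hsc)]
  refine mul_le_mul_of_nonneg_left ?_ (inv_pos.2 hsc).le
  refine (abs_add_three _ _ _).trans ?_
  rw [abs_neg]
  have f1 : 0 ≤ (K + 1 : ℝ) * CL * C3 * (δ + ε) := by positivity
  have f2 : 0 ≤ a + δ' + B * η + B * ε := by positivity
  nlinarith

end Pool.CLO80
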