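import Pool.Agent.H80.CLO.Sxa
import Pool.Agent.H83.OWN.Dic

/-!
# The closed values are few given the position and the closed record
-/

set_option autoImplicit false

namespace Pool.CLO80

open Finset Real MvPolynomial
open Pool.Agent.H49.Ent Pool.Agent.H32.Dense Pool.STK Pool.KA Pool.KSAT Pool.K2S Pool.PB Pool.S6C
open Pool.GEN Pool.CHT Pool.CHX Pool.D2Con Pool.D2A Pool.D2F Pool.RCD
open Pool.STB82 (Fst dg pb_pe cond_pos_B)

variable {m J : ℕ}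

theorem cond_pos_of {Ω : Type} [Fintype Ω] {p : Ω → ℝ} (hp : ∀ ω, 0 ≤ p ω) {A B : Ω → Prop}
    (h : Sub A B) (hB : 0 < Pe p B) {ω : Ω}
    (hω : 0 < Pool.Agent.H49.Ent.cond p A True ω) : 0 < Pool.Agent.H49.Ent.cond p B True ω := by
  have hA := cond_pos_B hω
  have h0 : 0 < p ω := by
    unfold Pool.Agent.H49.Ent.cond at hω
    split_ifs at hω with h1
    · by_contra h2
      have h3 : p ω = 0 := le_antisymm (not_lt.1 h2) (hp ω)
      rw [h3, zero_div] at hω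
      exact lt_irrefl _ hω
    · exact absurd hω (lt_irrefl _)
  unfold Pool.Agent.H49.Ent.cond
  rw [if_pos (eq_true (h ω hA))]
  exact div_pos h0 hB

/-- **The closed values are few.** -/
theorem vals_few (F : Fam m J) {B A : F.Ω → Prop} (hA : 0 < Pe F.p A) (hAB : Sub A B)
    {c : ℕ → Fin m} {W M : ℕ} {V₀ Z : Type} {z : PtT F → V₀} {z' : LnT F → V₀}
    (hz : ∀ ω, B ω → z (ptr F J ω) = z' (slam F W ω)) {Qc : F.Ω → Z}
    (hQ : Det (Pool.Agent.H49.Ent.cond F.p B True)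
      (fun ω => ((F.X J ω (c 1), F.X J ω (c 0), F.W ω), z (ptr F J ω))) Qc)
    {Wv : PtT F → Polynomial ℝ} {u e a : ℝ} (ha : 0 ≤ a)
    (hf : CH (Pool.Agent.H49.Ent.cond F.p B True) (fun ω => ⌊(M : ℝ) * (Wv (ptr F J ω)).eval u⌋)
      Qc ≤ e) {V : PtT F → ℝ} (hV : ∀ y, |V y - (Wv y).eval u| ≤ a) {Y : Type} {y : F.Ω → Y}
    (hy : Fst (slam F W) (fun ω => ptr F J ω) A y) :
    CH (Pool.Agent.H49.Ent.cond F.p A True) (fun ω => ⌊(M : ℝ) * V (ptr F J ω)⌋)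
      (fun ω => ((F.X J ω (c 1), F.X J ω (c 0), F.W ω), y ω)) ≤
      Pe F.p B / Pe F.p A * e + Real.log (2 * (M * a + 1) + 1) := by
  classical
  obtain ⟨p, hp⟩ : ∃ p, p = Pool.Agent.H49.Ent.cond F.p A True := ⟨_, rfl⟩
  have hB : 0 < Pe F.p B := hA.trans_le (Pe_mono F.isLaw fun ω h => hAB ω h)
  have hl : IsLaw p := hp ▸ isLaw_cond F.isLaw hA
  have h0 := hl.nonneg
  have hpA : ∀ ω, 0 < p ω → A ω := fun ω h => cond_pos_B (by rw [hp] at h; exact h)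
  have s1 := CH_le_add h0 (fun ω => ⌊(M : ℝ) * V (ptr F J ω)⌋)
    (fun ω => ⌊(M : ℝ) * (Wv (ptr F J ω)).eval u⌋)
    (fun ω => ((F.X J ω (c 1), F.X J ω (c 0), F.W ω), y ω))
  have s2 : CH p (fun ω => ⌊(M : ℝ) * V (ptr F J ω)⌋)
      (fun ω => (⌊(M : ℝ) * (Wv (ptr F J ω)).eval u⌋,
        ((F.X J ω (c 1), F.X J ω (c 0), F.W ω), y ω))) ≤ Real.log (2 * (M * a + 1) + 1) := by
    refine Pool.OWN83.CH_int hl _ _ (fun w => (w.1 : ℝ)) (by positivity) fun ω _ => ?_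
    have h1 := hV (ptr F J ω)
    have h2 := Int.floor_le ((M : ℝ) * V (ptr F J ω))
    have h3 := Int.lt_floor_add_one ((M : ℝ) * V (ptr F J ω))
    have h4 := Int.floor_le ((M : ℝ) * (Wv (ptr F J ω)).eval u)
    have h5 := Int.lt_floor_add_one ((M : ℝ) * (Wv (ptr F J ω)).eval u)
    have h6 : |(M : ℝ) * V (ptr F J ω) - (M : ℝ) * (Wv (ptr F J ω)).eval u| ≤ M * a := by
      rw [← mul_sub, abs_mul, abs_of_nonneg (Nat.cast_nonneg M)]
      exact mul_le_mul_of_nonneg_left h1 (Nat.cast_nonneg M)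
    obtain ⟨h7, h8⟩ := abs_le.1 h6
    show |((⌊(M : ℝ) * V (ptr F J ω)⌋ : ℤ) : ℝ) -
      ((⌊(M : ℝ) * (Wv (ptr F J ω)).eval u⌋ : ℤ) : ℝ)| ≤ M * a + 1
    rw [abs_le]
    constructor <;> linarith
  have s3 : CH p (fun ω => ⌊(M : ℝ) * (Wv (ptr F J ω)).eval u⌋)
      (fun ω => ((F.X J ω (c 1), F.X J ω (c 0), F.W ω), y ω)) ≤
      CH p (fun ω => ⌊(M : ℝ) * (Wv (ptr F J ω)).eval u⌋) Qc :=
    CH_mono_cond h0 fun ω ω' hω hω' e => by
      have e' := Prod.ext_iff.1 e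
      have h1 : z (ptr F J ω) = z (ptr F J ω') :=
        hy.fin V₀ (fun ω => z (ptr F J ω)) ⟨⟨z', fun ω h => hz ω (hAB ω h)⟩, z, fun ω _ => rfl⟩
          ω ω' (hpA ω hω) (hpA ω' hω') e'.2
      rw [hp] at hω hω'
      exact hQ ω ω' (cond_pos_of F.isLaw.nonneg hAB hB hω) (cond_pos_of F.isLaw.nonneg hAB hB hω')
        (Prod.ext e'.1 h1)
  have s4 := Pool.K2S.Piece.CH_sub F.isLaw hAB hB (fun ω => ⌊(M : ℝ) * (Wv (ptr F J ω)).eval u⌋) Qc
  have s5 : CH p (fun ω => ⌊(M : ℝ) * (Wv (ptr F J ω)).eval u⌋) Qc ≤ Pe F.p B / Pe F.p A * e := by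
    rw [hp, div_mul_eq_mul_div, le_div_iff₀ hA, mul_comm]
    refine s4.trans (mul_le_mul_of_nonneg_left hf hB.le)
  rw [← hp]
  linarith

end Pool.CLO80
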