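import Pool.Agent.H80.CLO.Sxc
import Pool.Agent.H80.CLO.Sxd
import Pool.Agent.H73.D2.Clre

/-!
# The closed slope polynomial on an event

`Nd4H.mono`: weaker numbers. `slx_ev`: from the data `NdV`, the geometric data `ClR`, the closed polynomials of
families of values `CloC` and the fewness of closed values given the position: a closed polynomial near the slope
of the far chart.
-/

set_option autoImplicit false

namespace Pool.CLO80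

open Finset Real MvPolynomial
open Pool.Agent.H49.Ent Pool.Agent.H32.Dense Pool.STK Pool.KA Pool.KSAT Pool.K2S Pool.PB Pool.S6C
open Pool.GEN Pool.CHT Pool.CHX Pool.D2Con Pool.D2A Pool.D2F Pool.RCD
open Pool.STB (V3 Po Bx cv)
open Pool.STB82 (Fst dg pb_pe cond_pos_B slam_coarse dg_cl2 yv hgP)
open Pool.STB65 (rnd_all InpP PosO Rs Rs_pos crs crs_slam)
open Pool.BFL (Pb)
open Pool.CLR73 (CloC ClR)
open Pool.PB.Trl (rt t_rt)
open Pool.NDD66 (mu Lam)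
open Pool.CLU (cpn_law cpn_pos)

variable {m J : ℕ}

theorem Pb_mn {Ω : Type} [Fintype Ω] {q : Ω → ℝ} (hq : ∀ ω, 0 ≤ q ω) {A B : Ω → Prop}
    (h : ∀ ω, A ω → B ω) : Pb q A ≤ Pb q B := by
  classical
  unfold Pb
  refine Finset.sum_le_sum fun ω _ => ?_
  by_cases h1 : A ω
  · rw [if_pos h1, if_pos (h ω h1)]
  · rw [if_neg h1]
    split_ifs
    exacts [hq ω, le_rfl]

theorem slP_congr (c : ℕ → Fin m) (n : ℕ) (u : ℕ → ℝ) (R A0 A1 A2 sc T1 : ℝ)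
    (P Gu GN : MvPolynomial (Option (Fin m)) ℝ) (ctr : V3) {f g : ℕ → Po}
    (h : ∀ l < n, f l = g l) : slP c n u R A0 A1 A2 sc T1 P Gu GN ctr f =
      slP c n u R A0 A1 A2 sc T1 P Gu GN ctr g := by
  unfold slP
  congr 2
  refine Finset.sum_congr rfl fun l hl => ?_
  rw [h l (mem_range.1 hl)]

/-- The mass of a good part. -/
theorem good_ev {Ω : Type} [Fintype Ω] {p : Ω → ℝ} (hp : IsLaw p) {B E : Ω → Prop} {c : ℝ}
    (hB : 0 < Pe p B) (h : Pb (Pool.Agent.H49.Ent.cond p B True) (fun ω => ¬ E ω) ≤ c) :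
    (1 - c) * Pe p B ≤ Pe p (fun ω => B ω ∧ E ω) := by
  rw [Pb_compl (isLaw_cond hp hB), pb_pe, Pool.K2S.Pe_cond] at h
  have h1 : 1 - c ≤ Pe p (fun ω => B ω ∧ E ω) / Pe p B := by linarith
  rwa [le_div_iff₀ hB] at h1

theorem Pb_or3 {Ω : Type} [Fintype Ω] {q : Ω → ℝ} (hq : ∀ ω, 0 ≤ q ω) (A B C : Ω → Prop) :
    Pb q (fun ω => ¬ (A ω ∧ B ω ∧ C ω)) ≤
      Pb q (fun ω => ¬ A ω) + Pb q (fun ω => ¬ B ω) + Pb q (fun ω => ¬ C ω) := by
  classical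
  unfold Pb
  rw [← Finset.sum_add_distrib, ← Finset.sum_add_distrib]
  refine Finset.sum_le_sum fun ω _ => ?_
  have := hq ω
  by_cases h1 : A ω <;> by_cases h2 : B ω <;> by_cases h3 : C ω <;> simp [h1, h2, h3] <;> linarith

/-- Weaker numbers. -/
theorem Nd4H.mono {Ω Λ Pt Y X Z Uf C V : Type} [Fintype Ω] {q : Ω → ℝ}
    {L : Ω → Λ} {P : Ω → Pt} {y : Ω → Y} {x : Ω → X} {Qc : Ω → Z} {Up : Ω → Uf} {ct : Ω → C}
    {ell : Ω → V} {τ U φc : Ω → ℤ} {φ : Ω → ℝ} {uP cP : C → V → Polynomial ℝ} {K n D M : ℕ}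
    {jj : Fin (K + 1) → Fin n} {Θ Θ' ε ε' e e' c c' : ℝ}
    (h : Nd4H q L P y x Qc Up ct ell τ U φc φ uP cP D M jj Θ ε e c) (hΘ0 : 0 < Θ) (hΘ : Θ ≤ Θ')
    (hε : ε ≤ ε') (he : e ≤ e') (hc : c ≤ c') :
    Nd4H q L P y x Qc Up ct ell τ U φc φ uP cP D M jj Θ' ε' e' c' where
  law := h.law
  Lx := h.Lx
  yx := h.yx
  yt := h.yt
  Ll := h.Ll
  Lc := h.Lc
  Qt := h.Qt
  PU := h.PU
  Pp := h.Pp
  PQ := h.PQ
  Ub := h.Ub
  tb := h.tb
  pc := h.pc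
  uD := h.uD
  cD := h.cD
  uB := fun ω hω s hs => (h.uB ω hω s hs).trans hΘ
  own := by
    refine le_trans ?_ (h.own.trans hc)
    refine Pb_mn h.law.nonneg fun ω hn hω => hn ⟨?_, ?_⟩
    · exact hω.1.trans hε
    · exact hω.2.trans hε
  par := fun ω ω' hω hω' e1 s hs => (h.par ω ω' hω hω' e1 s hs).trans hε
  fT := by linarith [h.fT]
  fU := by linarith [h.fU]
  fl := by linarith [h.fl]
  few := h.few.trans he
  fUp := by linarith [h.fUp]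
  dd := by
    refine le_trans ?_ (h.dd.trans hc)
    refine Pb_mn (cpn_law h.law y n).nonneg fun w hn hw => hn ⟨fun i k hik => ?_, fun i => ?_, ?_⟩
    · exact (one_div_le_one_div_of_le hΘ0 hΘ).trans (hw.1 i k hik)
    · exact ⟨(hw.2.1 i).1.trans hΘ, (hw.2.1 i).2.trans hΘ⟩
    · exact hw.2.2.trans hε

/-- **The closed slope polynomial on an event.** -/
theorem slx_ev (K D : ℕ) {γ e₀ cc : ℝ} (hγ : 0 < γ) (he₀ : 0 < e₀) (hcc : 0 < cc) :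
    ∃ (θ e c γ₂ : ℝ) (k₀ : ℕ), 0 < θ ∧ 0 < e ∧ 0 < c ∧ 0 < γ₂ ∧
    ∀ {m J : ℕ} (F : Fam m J) {c' : ℕ → Fin m} {B : F.Ω → Prop}
      {Du W X k gu gx y W₀ d g1 e₁ y' K₁ : ℕ} {sc Kp : ℝ}
      {Gu GN GX Pv : PtT F → MvPolynomial (Option (Fin m)) ℝ}
      {Hu HN HX Pl : LnT F → MvPolynomial (Option (Fin m)) ℝ} {U : F.Ω → ℤ} {φ : F.Ω → ℝ}
      {yt : PtT F → V3} {ctr xo : ℕ → F.Ω → V3} {D₁ : LnT F → V3}, 0 < Pe F.p B → k₀ ≤ k →
      W + k ≤ J → W₀ + d = W → 0 < sc →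
      NdV F c' B K D Du W X k gu gx y sc (((2 ^ k : ℕ) : ℝ) ^ θ) (((2 ^ k : ℕ) : ℝ) ^ (θ - 1))
        (e * Real.log ((2 ^ k : ℕ) : ℝ)) c Gu GN GX Hu HN HX U φ →
      ClR F c' B K₁ W₀ d k g1 e₁ y' Kp Pv Pl yt ctr xo D₁ →
      (∀ A : F.Ω → Prop, Sub A B → 1 / 2 * Pe F.p B ≤ Pe F.p A →
        CloC F A W k ((K + 1) * D) (K + 1) (1 / 2) (1 / 4) γ e₀ cc (xo 0)) →
      (∀ A : F.Ω → Prop, Sub A B → 1 / 2 * Pe F.p B ≤ Pe F.p A → ∀ (Y : Type) (y : F.Ω → Y),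
        Fst (slam F W) (fun ω => ptr F J ω) A y → ∀ (V' : Type) (V : F.Ω → V'),
        Cl2 (slam F (W + k)) (fun ω => ptr F J ω) A V →
        CH (Pool.Agent.H49.Ent.cond F.p A True) V (fun ω => (cv (2 ^ k) (xo 0 ω), y ω)) ≤
          CH (Pool.Agent.H49.Ent.cond F.p A True) V
            (fun ω => ((F.X J ω (c' 1), F.X J ω (c' 0), F.W ω), y ω)) +
            e₀ / 4 * Real.log ((2 ^ k : ℕ) : ℝ)) →
      ∃ (B' : F.Ω → Prop) (CL : LnT F → MvPolynomial (Option (Fin m)) ℝ)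
        (Cp : PtT F → MvPolynomial (Option (Fin m)) ℝ), Sub B' B ∧
        1 / 4 * Pe F.p B ≤ Pe F.p B' ∧
        (∀ s, (CL s).totalDegree ≤ Du + (3 * ((K + 1) * D) * (K₁ + 1) + (K + 1) * (Du + 1))) ∧
        (∀ z, (Cp z).totalDegree ≤ Du + (3 * ((K + 1) * D) * (K₁ + 1) + (K + 1) * (Du + 1))) ∧
        (∀ s, DepC c' 3 (CL s)) ∧ (∀ z, DepC c' 3 (Cp z)) ∧
        (∀ ω, B' ω → Cp (ptr F J ω) = CL (slam F W ω)) ∧
        ∀ ω, B' ω → |eval (bt F ω) (pderiv (some (c' 2)) (GX (ptr F J ω))) -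
          eval (bt F ω) (CL (slam F W ω))| ≤ sc⁻¹ * ((2 ^ k : ℕ) : ℝ) ^ (-γ₂) := by
  classical
  obtain ⟨θ', hθ'⟩ : ∃ θ' : ℝ, θ' = min (e₀ / 8) (1 / 8) := ⟨_, rfl⟩
  have hθ'0 : 0 < θ' := hθ' ▸ lt_min (by positivity) (by norm_num)
  have hθ'e : θ' ≤ e₀ / 8 := hθ' ▸ min_le_left _ _
  have hθ'8 : θ' ≤ 1 / 8 := hθ' ▸ min_le_right _ _
  obtain ⟨θ₁, e, c, M₀, hθ₁, he, hc, hnd4⟩ := nd4 K D hθ'0 (by linarith)
  obtain ⟨n, hn⟩ : ∃ n : ℕ, n = K + 1 := ⟨_, rfl⟩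
  obtain ⟨u, hu⟩ : ∃ u : ℕ → ℝ, u = fun l : ℕ => (l : ℝ) / (K + 1) := ⟨_, rfl⟩
  have hKp : (0 : ℝ) < K + 1 := by positivity
  have hu1 : ∀ l < K + 1, |u l| ≤ 1 := fun l hl => by
    rw [hu]
    show |(l : ℝ) / (K + 1)| ≤ 1
    rw [abs_of_nonneg (by positivity), div_le_one hKp]
    exact_mod_cast hl.le
  have hinj : Set.InjOn u (range (K + 1)) := by
    intro a _ b _ h
    rw [hu] at h
    have h1 : (a : ℝ) / (K + 1) = b / (K + 1) := h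
    have h2 : (a : ℝ) = b := by
      field_simp at h1
      exact h1
    exact_mod_cast h2
  obtain ⟨Cn, hCn, hnear⟩ := slp_near K (3 * ((K + 1) * D)) u hinj
  obtain ⟨a, ha⟩ : ∃ a : ℝ, a = 2 * (((K + 1 : ℕ) : ℝ) + 1) / (1 / 4) := ⟨_, rfl⟩
  have ha0 : 0 < a := by
    rw [ha]
    positivity
  obtain ⟨θ, hθ⟩ : ∃ θ : ℝ, θ = min θ₁ (1 / 4) := ⟨_, rfl⟩
  have hθ0 : 0 < θ := hθ ▸ lt_min hθ₁ (by norm_num)
  have hθ1 : θ ≤ θ₁ := hθ ▸ min_le_left _ _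
  have hθ4 : θ ≤ 1 / 4 := hθ ▸ min_le_right _ _
  obtain ⟨g, hg⟩ : ∃ g : ℝ, g = min γ (1 / 2) := ⟨_, rfl⟩
  have hg0 : 0 < g := hg ▸ lt_min hγ (by norm_num)
  have hgγ : g ≤ γ := hg ▸ min_le_left _ _
  have hg2 : g ≤ 1 / 2 := hg ▸ min_le_right _ _
  obtain ⟨k₁, hk₁⟩ := ev_pk (2 * a + 5) θ' hθ'0
  obtain ⟨k₂, hk₂⟩ := ev_pk (Cn * (6 + a)) (g / 2) (by positivity)
  refine ⟨θ, e, c, g / 2, max (max k₁ k₂) (M₀ + 1), hθ0, he, hc, by positivity, ?_⟩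
  intro m J F c' B Du W X k gu gx y W₀ d g1 e₁ y' K₁ sc Kp Gu GN GX Pv Hu HN HX Pl U φ yt ctr xo D₁
    hB hk hWk hWd hsc N R hclo hfw
  have hk1 : k₁ ≤ k := (le_max_left _ _).trans ((le_max_left _ _).trans hk)
  have hk2 : k₂ ≤ k := (le_max_right _ _).trans ((le_max_left _ _).trans hk)
  have hk3 : M₀ + 1 ≤ k := (le_max_right _ _).trans hk
  have hM₀ : M₀ ≤ 2 ^ k := (by omega : M₀ ≤ k).trans Nat.lt_two_pow_self.le
  obtain ⟨M, hM⟩ : ∃ M : ℝ, M = ((2 ^ k : ℕ) : ℝ) := ⟨_, rfl⟩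
  have hM2 : (2 : ℝ) ^ k = M := by
    rw [hM]
    push_cast
    rfl
  have hM1 : 2 ≤ M := by
    rw [← hM2]
    calc (2 : ℝ) = 2 ^ 1 := by norm_num
      _ ≤ 2 ^ k := pow_le_pow_right₀ one_le_two (by omega)
  have hM0 : 0 < M := by linarith
  have m1 : 2 * a + 5 ≤ M ^ θ' := hM ▸ hk₁ k hk1
  have m2 : Cn * (6 + a) ≤ M ^ (g / 2) := hM ▸ hk₂ k hk2
  have hlog : 0 ≤ Real.log M := Real.log_nonneg (by linarith)
  have hMx : ∀ x y : ℝ, x ≤ y → M ^ x ≤ M ^ y := fun x y h =>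
    Real.rpow_le_rpow_of_exponent_le (by linarith) h
  have hMp : ∀ x : ℝ, 0 < M ^ x := fun x => Real.rpow_pos_of_pos hM0 x
  obtain ⟨Om, iOm, q, pr, hmg, Y, X', Z, Uf, C, V, n', jj, yy, xx, Qc, Up, ct, ell, φc, uP, cP,
    hH, V₀, z, z', hz, hQ⟩ := N.nd
  obtain ⟨Wv, Qp, hO'⟩ := hnd4 (hH.mono (by positivity)
    (Real.rpow_le_rpow_of_exponent_le (by rw [← hM]; linarith) hθ1)
    (Real.rpow_le_rpow_of_exponent_le (by rw [← hM]; linarith) (by linarith)) le_rfl le_rfl) hM₀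
  have hO := nd4_mg (U := U) (φ := φ) (L := slam F W) (P := fun ω => ptr F J ω) (Qc := Qc)
    (τ := fun ω => (dg F W k ω : ℤ)) hmg hO'
  rw [← hM] at hO
  -- the good event
  obtain ⟨B₂, hB₂⟩ : ∃ B₂ : F.Ω → Prop, B₂ = fun ω => B ω ∧
      (|φ ω - (Wv (ptr F J ω)).eval ((U ω : ℝ) / M)| ≤ M ^ (θ' - 1) ∧
        (∀ v : ℝ, |v| ≤ 1 → |(Wv (ptr F J ω)).eval v -
          (Qp (slam F W ω) v).eval ((dg F W k ω : ℝ) / M)| ≤ M ^ (θ' - 1)) ∧
        |U ω| ≤ ((2 ^ k : ℕ) : ℤ)) := ⟨_, rfl⟩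
  have hlB := isLaw_cond F.isLaw hB
  have hUb : Pb (Pool.Agent.H49.Ent.cond F.p B True) (fun ω => ¬ |U ω| ≤ ((2 ^ k : ℕ) : ℤ)) ≤ 0 := by
    rw [← mg_Pb hmg]
    unfold Pb
    refine Finset.sum_nonpos fun v _ => ?_
    split_ifs with h1
    · by_contra h2
      exact h1 (hH.Ub v (not_le.1 h2))
    · exact le_rfl
  have hmass2 : 3 / 4 * Pe F.p B ≤ Pe F.p B₂ := by
    have h1 := good_ev F.isLaw hB (Pb_or3 hlB.nonneg
      (fun ω => |φ ω - (Wv (ptr F J ω)).eval ((U ω : ℝ) / M)| ≤ M ^ (θ' - 1))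
      (fun ω => ∀ v : ℝ, |v| ≤ 1 → |(Wv (ptr F J ω)).eval v -
          (Qp (slam F W ω) v).eval ((dg F W k ω : ℝ) / M)| ≤ M ^ (θ' - 1))
      (fun ω => |U ω| ≤ ((2 ^ k : ℕ) : ℤ)))
    rw [← hB₂] at h1
    refine le_trans ?_ h1
    refine mul_le_mul_of_nonneg_right ?_ hB.le
    have h2 := hO.near
    have h3 := hO.path
    rw [← hM] at h2 h3
    have h4 : Pb (Pool.Agent.H49.Ent.cond F.p B True) (fun ω => ¬ ∀ v : ℝ, |v| ≤ 1 →
        |(Wv (ptr F J ω)).eval v - (Qp (slam F W ω) v).eval ((dg F W k ω : ℝ) / M)| ≤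
          M ^ (θ' - 1)) ≤ θ' := h3
    linarith
  have hsub2 : Sub B₂ B := fun ω h => by
    rw [hB₂] at h
    exact h.1
  -- the rounded values
  obtain ⟨B₃, V₁, hsub3, hmass3, hV1, hV2⟩ := rnd_vals F (B := B₂) (W := W) (k := k) (n := K + 1)
    hWk (δ := M ^ (θ' - 1)) (c' := 1 / 4) (hMp _) (by norm_num) (Wv := Wv) (Qp := Qp) u
    (fun ω hω l hl => by
      rw [hB₂] at hω
      rw [← hM]
      exact hω.2.2.1 (u l) (hu1 l hl))
  rw [← ha] at hV1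
  have hsub3B : Sub B₃ B := fun ω h => hsub2 ω (hsub3 ω h)
  have hm3 : 1 / 2 * Pe F.p B ≤ Pe F.p B₃ := by
    have := hB.le
    linarith
  have hB3 : 0 < Pe F.p B₃ := by linarith
  have hV0 : ∀ l < K + 1, ∀ y, |V₁ l y| ≤ M ^ (2 * θ') := by
    intro l hl y
    have h1 := hV1 l y
    have h2 := hO.bW y (u l) (hu1 l hl)
    have h3 : |V₁ l y| ≤ |V₁ l y - (Wv y).eval (u l)| + |(Wv y).eval (u l)| := by
      have := abs_add_le (V₁ l y - (Wv y).eval (u l)) ((Wv y).eval (u l))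
      rwa [sub_add_cancel] at this
    have h4 : M ^ (θ' - 1) ≤ M ^ θ' := hMx _ _ (by linarith)
    have h5 : M ^ (2 * θ') = M ^ θ' * M ^ θ' := by
      rw [← Real.rpow_add hM0]
      ring_nf
    have h6 := hMp θ'
    have h7 : a * M ^ (θ' - 1) ≤ a * M ^ θ' := mul_le_mul_of_nonneg_left h4 ha0.le
    have h8 : (2 * a + 5) * M ^ θ' ≤ M ^ θ' * M ^ θ' := mul_le_mul_of_nonneg_right m1 h6.le
    have h9 : 0 ≤ a * M ^ θ' := by positivity
    rw [h5]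
    linarith
  have h2e : M ^ (2 * θ') ≤ M ^ e₀ := hMx _ _ (by linarith)
  have hpath3 : ∀ l < K + 1, ∀ ω, B₃ ω → |V₁ l (ptr F J ω) -
      (Qp (slam F W ω) (u l)).eval ((dg F W k ω : ℝ) / M)| ≤ (a + 1) * M ^ (θ' - 1) := by
    intro l hl ω hω
    have h1 := hV1 l (ptr F J ω)
    have h2 := hsub3 ω hω
    rw [hB₂] at h2
    have h3 := h2.2.2.1 (u l) (hu1 l hl)
    have h4 := abs_add_le (V₁ l (ptr F J ω) - (Wv (ptr F J ω)).eval (u l))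
      ((Wv (ptr F J ω)).eval (u l) - (Qp (slam F W ω) (u l)).eval ((dg F W k ω : ℝ) / M))
    rw [sub_add_sub_cancel] at h4
    linarith
  -- the closed polynomials
  have hM1' : M ^ (θ' - 1) = M ^ θ' / M := by
    rw [Real.rpow_sub hM0, Real.rpow_one]
  obtain ⟨B₄, fG, fL, O⟩ := hclo B₃ hsub3B hm3 (fun l ω => V₁ l (ptr F J ω))
    (fun l s => Qp s (u l)) hV2 (fun l hl ω _ => by
      rw [← hM]
      exact (hV0 l hl _).trans h2e) (fun l _ s => hO.dQ s (u l)) (fun l hl s x hx => by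
      rw [← hM]
      exact (hO.bQ s (u l) x (hu1 l hl) hx).trans (hMx _ _ (by linarith))) (fun l hl => by
      rw [← hM]
      refine le_trans (le_of_eq ?_) hcc.le
      unfold Pb
      refine Finset.sum_eq_zero fun ω _ => ?_
      split_ifs with h1
      · by_contra h2
        have h3 : 0 < Pool.Agent.H49.Ent.cond F.p B₃ True ω :=
          lt_of_le_of_ne ((isLaw_cond F.isLaw hB3).nonneg ω) (Ne.symm h2)
        refine h1 ((hpath3 l hl ω (cond_pos_B h3)).trans ?_)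
        rw [hM1', mul_div_assoc']
        refine div_le_div_of_nonneg_right ?_ hM0.le
        refine le_trans ?_ h2e
        have h5 : M ^ (2 * θ') = M ^ θ' * M ^ θ' := by
          rw [← Real.rpow_add hM0]
          ring_nf
        rw [h5]
        refine mul_le_mul_of_nonneg_right ?_ (hMp _).le
        linarith
      · rfl) (fun l hl Y₁ y₁ hy₁ => by
      have h1 := hfw B₃ hsub3B hm3 Y₁ y₁ hy₁ _ (fun ω => ⌊((2 ^ k : ℕ) : ℝ) * V₁ l (ptr F J ω)⌋)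
        ((hV2 l hl).comp fun x => ⌊((2 ^ k : ℕ) : ℝ) * x⌋)
      have h2 := vals_few F hB3 hsub3B (c := c') (W := W) (M := 2 ^ k) (z := z) (z' := z') hz hQ
        (Wv := Wv) (u := u l) (a := a * M ^ (θ' - 1)) (by positivity) (hO.few (u l) (hu1 l hl))
        (V := V₁ l) (hV1 l) hy₁
      rw [← hM] at h1 h2 ⊢
      have h3 : Pe F.p B / Pe F.p B₃ ≤ 2 := by
        rw [div_le_iff₀ hB3]
        linarith
      have h4 : Pe F.p B / Pe F.p B₃ * (θ' * Real.log M) ≤ 2 * (θ' * Real.log M) :=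
        mul_le_mul_of_nonneg_right h3 (by positivity)
      have h5 : Real.log (2 * (M * (a * M ^ (θ' - 1)) + 1) + 1) ≤ 2 * θ' * Real.log M := by
        rw [← Real.log_rpow hM0]
        refine Real.log_le_log (by positivity) ?_
        rw [hM1']
        have h6 : M * (a * (M ^ θ' / M)) = a * M ^ θ' := by field_simp
        rw [h6]
        have h7 : M ^ (2 * θ') = M ^ θ' * M ^ θ' := by
          rw [← Real.rpow_add hM0]
          ring_nf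
        rw [h7]
        have h8 : (2 * a + 5) * M ^ θ' ≤ M ^ θ' * M ^ θ' :=
          mul_le_mul_of_nonneg_right m1 (hMp _).le
        have h9 : 1 ≤ M ^ θ' := by linarith
        linarith
      have h10 : θ' * Real.log M ≤ e₀ / 8 * Real.log M := mul_le_mul_of_nonneg_right hθ'e hlog
      have h11 : 0 ≤ e₀ * Real.log M := mul_nonneg he₀.le hlog
      refine (h1.trans (add_le_add_left h2 _)).trans ?_
      linarith)
  -- the polynomials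
  have hWJ : W₀ + d ≤ J := by omega
  have hcc := R.pos.cc 0 one_pos
  rw [show W₀ + d + 0 * k = W by omega] at hcc
  obtain ⟨⟨ctrL, hctrL⟩, ctrP, hctrP⟩ := hcc
  have hcrs : ∀ ω, crs d (slam F W ω) = slam F W₀ ω := fun ω => by
    rw [← hWd]
    exact crs_slam F hWJ ω
  have hsub4 : Sub B₄ B := fun ω h => hsub3B ω (O.sub ω h)
  have hdep2 : ∀ P : MvPolynomial (Option (Fin m)) ℝ, DepC c' 1 P → DepC c' 2 P :=
    fun P hP b b' h0 h1 => hP b b' h0 fun l hl => h1 l (by omega)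
  refine ⟨B₄, fun s => slP c' (K + 1) u (Rs d k ((2 ^ y') ^ 2) 0) (2 ^ W₀) (2 ^ g1) (2 ^ gu) sc
    ((crs d s).2.2 : ℝ) (Pl (crs d s)) (Hu s) (HN s) (ctrL s) (fun l => fL l s),
    fun y => slP c' (K + 1) u (Rs d k ((2 ^ y') ^ 2) 0) (2 ^ W₀) (2 ^ g1) (2 ^ gu) sc
    ((y.2.1 / 2 ^ (J - W₀) : ℕ) : ℝ) (Pv y) (Gu y) (GN y) (ctrP y) (fun l => fG l y), hsub4,
    ?_, ?_, ?_, ?_, ?_, ?_, ?_⟩
  · have := O.mass
    linarith
  · intro s
    exact slP_deg c' (K + 1) hinj _ _ _ _ _ _ _ (R.Ld _) (N.du' s) (N.dn' s) fun l => O.dL l s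
  · intro z
    exact slP_deg c' (K + 1) hinj _ _ _ _ _ _ _ (R.Pd _) (N.du z) (N.dn z) fun l => O.dG l z
  · intro s
    exact slP_dep (K + 1) u _ _ _ _ _ _ _ _ (hdep2 _ (R.Lp _)) (N.pu' s) (N.pn' s)
  · intro z
    exact slP_dep (K + 1) u _ _ _ _ _ _ _ _ (hdep2 _ (R.Pp _)) (N.pu z) (N.pn z)
  · intro ω hω
    have hωB := hsub4 ω hω
    show slP c' (K + 1) u (Rs d k ((2 ^ y') ^ 2) 0) (2 ^ W₀) (2 ^ g1) (2 ^ gu) sc
      (((ptr F J ω).2.1 / 2 ^ (J - W₀) : ℕ) : ℝ) (Pv (ptr F J ω)) (Gu (ptr F J ω))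
      (GN (ptr F J ω)) (ctrP (ptr F J ω)) (fun l => fG l (ptr F J ω)) =
      slP c' (K + 1) u (Rs d k ((2 ^ y') ^ 2) 0) (2 ^ W₀) (2 ^ g1) (2 ^ gu) sc
      ((crs d (slam F W ω)).2.2 : ℝ) (Pl (crs d (slam F W ω))) (Hu (slam F W ω))
      (HN (slam F W ω)) (ctrL (slam F W ω)) (fun l => fL l (slam F W ω))
    rw [hcrs, ← R.Pc ω hωB, ← N.cu ω hωB, ← N.cn ω hωB, ← hctrL ω hωB, ← hctrP ω hωB]
    exact slP_congr c' (K + 1) u _ _ _ _ _ _ _ _ _ _ fun l hl => O.cl l hl ω hω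
  · intro ω hω
    have hωB := hsub4 ω hω
    have hω2 : B₂ ω := hsub3 ω (O.sub ω hω)
    rw [hB₂] at hω2
    obtain ⟨-, hφ2, -, hU2⟩ := hω2
    show |eval (bt F ω) (pderiv (some (c' 2)) (GX (ptr F J ω))) - eval (bt F ω)
      (slP c' (K + 1) u (Rs d k ((2 ^ y') ^ 2) 0) (2 ^ W₀) (2 ^ g1) (2 ^ gu) sc
      ((crs d (slam F W ω)).2.2 : ℝ) (Pl (crs d (slam F W ω))) (Hu (slam F W ω))
      (HN (slam F W ω)) (ctrL (slam F W ω)) (fun l => fL l (slam F W ω)))| ≤ _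
    rw [slP_eval, hcrs, ← hctrL ω hωB, ← N.cu ω hωB, ← N.cn ω hωB]
    have hyv : (![2 ^ W₀ * bt F ω none - ((slam F W₀ ω).2.2 : ℝ), 2 ^ W₀ * bt F ω (some (c' 0)),
        2 ^ g1 * (bt F ω (some (c' 1)) - eval (bt F ω) (Pl (slam F W₀ ω)))] : V3) =
        yv F c' W₀ g1 Pl ω := by
      have h1 : (2 : ℝ) ^ W₀ * bt F ω none - ((slam F W₀ ω).2.2 : ℝ) = rt F W₀ ω := by
        have h2 := t_rt F (w := W₀) (by omega) ω
        show (2 : ℝ) ^ W₀ * F.t ω - ((slam F W₀ ω).2.2 : ℝ) = rt F W₀ ω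
        rw [h2]
        field_simp
        ring
      rw [h1]
      rfl
    rw [hyv, ← hM]
    have hx1 := R.pos.qx 0 one_pos ω hωB
    have hx2 := R.pos.q1 0 one_pos ω hωB
    rw [hM2] at hx1
    have hs1 : |(U ω : ℝ) / M| ≤ 1 := by
      rw [abs_div, abs_of_pos hM0, div_le_one hM0, hM]
      exact_mod_cast hU2
    have hlu := N.lu ω hωB
    have hlp := N.lp ω hωB
    rw [← hM] at hlu hlp
    have hεs : M ^ (θ - 1) ≤ M ^ (-g) := hMx _ _ (by linarith)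
    have hε1 : M ^ (θ - 1) ≤ 1 :=
      Real.rpow_le_one_of_one_le_of_nonpos (by linarith) (by linarith)
    have h2M : 2 / M ≤ 1 := by
      rw [div_le_one hM0]
      exact hM1
    have hm := hnear (f := fun l => fL l (slam F W ω)) (x := xo 0 ω)
      (q := Rs d k ((2 ^ y') ^ 2) 0 • (yv F c' W₀ g1 Pl ω - ctr 0 ω))
      (V := fun l => V₁ l (ptr F J ω)) (Wv := Wv (ptr F J ω)) (B := M ^ (1 / 4 : ℝ))
      (δ := M ^ (θ' - 1)) (δ' := M ^ (-γ)) (ε := M ^ (θ - 1)) (η := 2 / M)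
      (h := 2 ^ gu * (F.x ω (c' 2) - eval (bt F ω) (Gu (ptr F J ω)))) (s := (U ω : ℝ) / M)
      (φ := φ ω) (sc := sc) (dX := eval (bt F ω) (pderiv (some (c' 2)) (GX (ptr F J ω))))
      (dN := eval (bt F ω) (pderiv (some (c' 2)) (GN (ptr F J ω)))) (a := a * M ^ (θ' - 1))
      (fun l => O.dL l _) (fun l hl v hv => by
        show |eval v (fL l (slam F W ω))| ≤ M ^ (1 / 4 : ℝ)
        rw [← O.cl l hl ω hω, hM]
        exact O.bd l hl ω hω v hv) hx2 (by positivity) h2M hx1 (fun l hl => by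
        show |V₁ l (ptr F J ω) - eval (xo 0 ω) (fL l (slam F W ω))| ≤ M ^ (-γ)
        rw [← O.cl l hl ω hω, hM]
        exact O.near l hl ω hω) (hO.dW _) (fun l _ => hV1 l _) hφ2 hs1 hlu hε1 hlp hsc (hMp _).le
    refine hm.trans (mul_le_mul_of_nonneg_left ?_ (inv_pos.2 hsc).le)
    -- the numbers
    have hgp := hMp (-g)
    have n1 : M ^ (θ' - 1) ≤ M ^ (-g) := hMx _ _ (by linarith)
    have n2 : M ^ (-γ) ≤ M ^ (-g) := hMx _ _ (by linarith)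
    have n3 : M ^ (1 / 4 : ℝ) * (2 / M) ≤ 2 * M ^ (-g) := by
      have e1 : M ^ (1 / 4 : ℝ) * (2 / M) = 2 * M ^ (1 / 4 - 1 : ℝ) := by
        rw [Real.rpow_sub hM0, Real.rpow_one]
        ring
      rw [e1]
      exact mul_le_mul_of_nonneg_left (hMx _ _ (by linarith)) (by norm_num)
    have n4 : (M ^ (1 / 4 : ℝ) + 1) * M ^ (θ - 1) ≤ 2 * M ^ (-g) := by
      have e1 : 1 ≤ M ^ (1 / 4 : ℝ) := Real.one_le_rpow (by linarith) (by norm_num)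
      have e2 : M ^ (1 / 4 : ℝ) * M ^ (θ - 1) ≤ M ^ (-g) := by
        rw [← Real.rpow_add hM0]
        exact hMx _ _ (by linarith)
      linarith
    have n5 : M ^ (-(g / 2)) = M ^ (g / 2) * M ^ (-g) := by
      rw [← Real.rpow_add hM0]
      ring_nf
    rw [n5]
    have n6 := mul_le_mul_of_nonneg_right m2 hgp.le
    have n7 : a * M ^ (θ' - 1) ≤ a * M ^ (-g) := mul_le_mul_of_nonneg_left n1 ha0.le
    have n8 : Cn * (M ^ (θ' - 1) + a * M ^ (θ' - 1) + M ^ (-γ) + M ^ (1 / 4 : ℝ) * (2 / M) +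
        (M ^ (1 / 4 : ℝ) + 1) * M ^ (θ - 1)) ≤ Cn * ((6 + a) * M ^ (-g)) :=
      mul_le_mul_of_nonneg_left (by linarith) (by linarith)
    linarith

end Pool.CLO80
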