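import Pool.Agent.H80.CLO.Sxe
import Pool.Agent.H80.CLO.Few
import Pool.Agent.H65.BXV.Bxm

/-!
# The closed slope at a record

`slx_rec`: at a record with the free velocities at one window, the data `NdV` on a part of every event give a closed
slope of the label of the far window (`SlX`), better than the natural size at the near window by `γ₂ ν q`.
-/

set_option autoImplicit false

namespace Pool.CLO80

open Finset Real MvPolynomial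
open Pool.Agent.H49.Ent Pool.Agent.H32.Dense Pool.STK Pool.KA Pool.KSAT Pool.K2S Pool.PB Pool.S6C
open Pool.GEN Pool.CHT Pool.CHX Pool.D2Con Pool.D2A Pool.D2F Pool.RCD
open Pool.LA91 Pool.PKG
open Pool.STB (V3 Po Bx cv)
open Pool.STB82 (Fst dg pb_pe cond_pos_B yv hgP)
open Pool.STB65 (PosO)
open Pool.CLR73 (CloC ClR clo_rec)
open Pool.BXV65 (SlX blx_valM)
open Pool.GRD (LbP)
open Pool.STA37 (chart_near)

/-- The numbers of the few closed values. -/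
theorem few_num {e₀ X Ye Yo : ℝ} {k y : ℕ} (he : 0 < e₀) (hk : X ≤ k + 1) (h1 : 96 * Ye ≤ e₀ * X)
    (h2 : 224 * Yo ≤ e₀ * X) (h3 : (21 + e₀ / 4) * 8 ≤ e₀ * X) (hy : (y : ℝ) ≤ Yo) :
    ((Ye + 2) + (Yo + 2 * Ye + 2)) * Real.log 2 + 3 * Real.log (5 * ((2 : ℝ) ^ y) ^ 2 + 3) +
      e₀ * X / 32 + 4 * Real.log 3 ≤ e₀ / 4 * (k * Real.log 2) := by
  have hl2 : 1 / 2 ≤ Real.log 2 := by
    have := Real.log_two_gt_d9
    linarith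
  have hl0 : 0 < Real.log 2 := by linarith
  have hl3 : Real.log 3 ≤ 2 * Real.log 2 := by
    have h := Real.log_le_log (by norm_num : (0 : ℝ) < 3) (by norm_num : (3 : ℝ) ≤ 2 ^ 2)
    rw [Real.log_pow] at h
    exact_mod_cast h
  have hs : Real.log (5 * ((2 : ℝ) ^ y) ^ 2 + 3) ≤ (3 + 2 * y) * Real.log 2 := by
    have e1 : (3 + 2 * (y : ℝ)) * Real.log 2 = Real.log (2 ^ (3 + 2 * y)) := by
      rw [Real.log_pow]
      push_cast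
      ring
    rw [e1]
    refine Real.log_le_log (by positivity) ?_
    have h4 : (1 : ℝ) ≤ 2 ^ y := one_le_pow₀ one_le_two
    have e2 : (2 : ℝ) ^ (3 + 2 * y) = 8 * (2 ^ y) ^ 2 := by
      rw [pow_add, pow_mul, ← pow_mul, ← pow_mul, mul_comm 2 y]
      norm_num
    rw [e2]
    nlinarith
  have hy0 : (0 : ℝ) ≤ y := Nat.cast_nonneg y
  have hX : 0 ≤ e₀ * X := by linarith
  have k1 : e₀ * X / 32 ≤ e₀ * X / 16 * Real.log 2 := by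
    have := mul_le_mul_of_nonneg_left hl2 (show 0 ≤ e₀ * X / 16 by linarith)
    linarith
  have k2 : (3 * Ye + Yo + 4 + 3 * (3 + 2 * y) + e₀ * X / 16 + 8) * Real.log 2 ≤
      (e₀ / 4 * k) * Real.log 2 := by
    refine mul_le_mul_of_nonneg_right ?_ hl0.le
    have h5 : e₀ / 4 * X ≤ e₀ / 4 * (k + 1) := mul_le_mul_of_nonneg_left hk (by linarith)
    linarith
  have e3 : ((Ye + 2) + (Yo + 2 * Ye + 2)) * Real.log 2 = (3 * Ye + Yo + 4) * Real.log 2 := by ring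
  have e4 : e₀ / 4 * (k * Real.log 2) = (e₀ / 4 * k) * Real.log 2 := by ring
  rw [e3, e4]
  linarith

/-- **The closed slope at a record.** -/
theorem slx_rec (S₀ : ℕ) (hS₀ : 1 ≤ S₀) : ∃ K₁ : ℕ, ∀ K D : ℕ, ∃ θ' e' c' γ₂ : ℝ, 0 < θ' ∧
    0 < e' ∧ 0 < c' ∧ 0 < γ₂ ∧ ∀ ν V₀ : ℝ, 0 < ν →
    ∃ (CF : ℕ) (κF : ℚ) (Kb ε₁ : ℝ), 0 < κF ∧ 0 < ε₁ ∧ 2 * ν + 40 ≤ CF ∧
    ∀ {S : PCl 4} {al : ℝ} {g₀ : ℝ → ℝ} {P₀ : List (Fin 4) × Fin 4 → ℝ → ℝ → ℝ}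
    {θ : ℝ} {P₂ : ℕ → List (Fin 4) × Fin 4 → ℝ → ℝ → ℝ} {θ₂ Eb e₂ : ℕ → ℝ}
    {c : ℕ → Fin 4} {Pt : ℝ → ℝ → ℝ} {r : ℝ → ℝ} {h K₀ g : ℝ} {L T : ℕ → ℝ → ℝ → ℝ}
    {Sl : ℕ → ℝ} {κ : ℕ → Kg} {G : Set ℝ} {N₀ : ℕ} {A V : ℕ → ℝ} {S₂ N' : ℕ} {V' : ℕ → ℝ}
    {K' ε q t : ℝ}, RecG S al g₀ P₀ θ P₂ θ₂ Eb e₂ c Pt r h K₀ g L T Sl κ G S₀ N₀ A V S₂ N' V' K' ε
      q t → κ 0 = .one → κ 1 = .one → Kb ≤ K' → 0 < ε → ε ≤ ε₁ → (∃ k < N', V' k = V₀) →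
    (∃ k < N', V' k = V₀ + ν) → (∃ k < N', V' k = V₀ - (CF + 28)) → ∀ {x₀ : ℝ} {k₀ : ℕ},
    t + (V₀ - (CF + 13 - ν)) * q ≤ x₀ → x₀ ≤ t + (V₀ - (CF / 2 + 28)) * q →
    FaQ (2, CF, 1, κF) k₀ S P₀ θ c Pt r L T κ G x₀ → q < (1 / 2) ^ k₀ →
    ∀ (X : ℝ) (Du : ℕ) (ω K₂ : ℝ), |X| + 1 ≤ K' → 0 < ω → ω ≤ 1 / 4 → 0 < K₂ →
    Bas S (fun J F A => ∃ B : F.Ω → Prop, Sub B A ∧
        Pe F.p A ≤ K₂ * Pe F.p B ∧ ∃ (gu gx y : ℕ) (sc : ℝ)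
        (Gu GN GX : PtT F → MvPolynomial (Option (Fin 4)) ℝ)
        (Hu HN HX : LnT F → MvPolynomial (Option (Fin 4)) ℝ) (U : F.Ω → ℤ) (φ : F.Ω → ℝ),
        (y : ℝ) ≤ ω * q * J ∧ 0 < sc ∧
        (2 : ℝ) ^ ((L 3 (t + V₀ * q) (t + V₀ * q) - L 2 (t + V₀ * q) (t + V₀ * q) - ω * q) * J) ≤
          sc ∧ (L 3 (t + X * q) (t + X * q) - ω * q) * J ≤ gx ∧
        NdV F c B K D Du ⌊(t + V₀ * q) * J⌋₊ ⌊(t + X * q) * J⌋₊ ⌊ν * q * J⌋₊ gu gx y sc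
          (((2 ^ ⌊ν * q * J⌋₊ : ℕ) : ℝ) ^ θ') (((2 ^ ⌊ν * q * J⌋₊ : ℕ) : ℝ) ^ (θ' - 1))
          (e' * Real.log ((2 ^ ⌊ν * q * J⌋₊ : ℕ) : ℝ)) c' Gu GN GX Hu HN HX U φ) →
    ∃ κ' : ℝ, 0 < κ' ∧ SlX S c 2 (Du + (3 * ((K + 1) * D) * (K₁ + 1) + (K + 1) * (Du + 1))) Du
      (t + V₀ * q) 1 (fun _ => t + X * q)
      (fun _ => L 3 (t + X * q) (t + X * q) - 2 * ω * q)
      (fun _ => L 2 (t + V₀ * q) (t + V₀ * q) - L 3 (t + V₀ * q) (t + V₀ * q) + 2 * ω * q -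
        γ₂ * ν * q) κ' := by
  classical
  obtain ⟨K₁, hclo⟩ := clo_rec S₀ hS₀
  refine ⟨K₁, fun K D => ?_⟩
  obtain ⟨γ, e₀, cc, hγ, he₀, hcc, hclo⟩ := hclo ((K + 1) * D) (K + 1) (c₀ := 1 / 2) (κ' := 1 / 4)
    (by norm_num) (by norm_num)
  obtain ⟨θ', e', c', γ₂, kk, hθ', he', hc', hγ₂, hev⟩ := slx_ev K D hγ he₀ hcc
  refine ⟨θ', e', c', γ₂, hθ', he', hc', hγ₂, fun ν V₀ hν => ?_⟩
  obtain ⟨CF, κF, Kb, ε₁, ωc, hκF, hε₁, hωc0, hωc1, hCF, hclo⟩ := hclo ν V₀ (e₀ * ν / 224) hν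
    (by positivity)
  refine ⟨CF, κF, max Kb (|V₀| + ν + CF + 30), min ε₁ (e₀ * ν / 96), hκF, lt_min hε₁ (by positivity),
    hCF, ?_⟩
  intro S al g₀ P₀ θ P₂ θ₂ Eb e₂ c Pt r h K₀ g L T Sl κ G N₀ A V S₂ N' V' K' ε q t R hκ0 hκ1 hKb hε
    hεε hV₀ hVν hVw x₀ k₀ hx1 hx2 hfa hq1 X Du ω K₂ hXK hω hω4 hK₂ hnd
  have hKb1 : Kb ≤ K' := (le_max_left _ _).trans hKb
  have hKb2 : |V₀| + ν + CF + 30 ≤ K' := (le_max_right _ _).trans hKb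
  have hεa : ε ≤ ε₁ := hεε.trans (min_le_left _ _)
  have hεb : ε ≤ e₀ * ν / 96 := hεε.trans (min_le_right _ _)
  have hq := R.q0
  obtain ⟨c₁, hc₁, hclo⟩ := hclo R (by norm_num) hκ0 hκ1 hKb1 hε hεa hV₀ hVν hVw hx1 hx2 hfa hq1
  obtain ⟨c₂, hc₂⟩ : ∃ c₂ : ℝ, c₂ = c₁ / (2 * K₂) := ⟨_, rfl⟩
  have hc₂0 : 0 < c₂ := hc₂ ▸ by positivity
  -- fullness
  obtain ⟨a', ha'⟩ : ∃ a', a' = t + (V₀ + ν) * q := ⟨_, rfl⟩
  obtain ⟨ka, hka, hVa⟩ := hVν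
  obtain ⟨u₁, rd, -, hch⟩ := (hfa.ch 2 (by norm_num)).ch a' (by
    rw [ha', ← hVa]
    exact R.memG.2 ka hka)
  have ht0 := R.t0
  have ht1 := R.t1
  have hV1 := le_abs_self V₀
  have hV2 := neg_abs_le V₀
  have hVq1 : V₀ * q ≤ |V₀| * q := mul_le_mul_of_nonneg_right hV1 hq.le
  have hVq2 : -|V₀| * q ≤ V₀ * q := mul_le_mul_of_nonneg_right hV2 hq.le
  have hKq' : (|V₀| + ν + CF + 30) * q ≤ K' * q := mul_le_mul_of_nonneg_right hKb2 hq.le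
  have hνq : 0 < ν * q := mul_pos hν hq
  have hCq : 0 ≤ (CF : ℝ) * q := mul_nonneg (Nat.cast_nonneg _) hq.le
  have hVq0 : 0 ≤ |V₀| * q := mul_nonneg (abs_nonneg _) hq.le
  have hXq1 : X * q ≤ |X| * q := mul_le_mul_of_nonneg_right (le_abs_self X) hq.le
  have hXq2 : -|X| * q ≤ X * q := mul_le_mul_of_nonneg_right (neg_abs_le X) hq.le
  have hXq0 : 0 ≤ |X| * q := mul_nonneg (abs_nonneg _) hq.le
  have hXKq : (|X| + 1) * q ≤ K' * q := mul_le_mul_of_nonneg_right hXK hq.le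
  have hεq : 0 < ε * q := mul_pos hε hq
  have hωq : 0 < ω * q := mul_pos hω hq
  have hω4q : ω * q ≤ 1 / 4 * q := mul_le_mul_of_nonneg_right hω4 hq.le
  have ha1 : a' ≤ 1 := by linarith
  have hfew := few_cls R.tmh (c := c) (a' := a') ha1 hch.ful (ε := e₀ * ν * q / 64)
    (by positivity)
  have hall := (hclo c₂ hc₂0).and ((Pool.LBK.Bas.ev hnd hc₁).and (Pool.LBK.Bas.ev hfew hc₂0))
  have s1 : Sl 1 = 1 := by
    have h1 := R.kd 1 (by norm_num)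
    rw [hκ1] at h1
    exact h1
  -- the size of `J`
  obtain ⟨J₁, hJ₁⟩ := exists_nat_ge ((kk : ℝ) / (ν * q))
  obtain ⟨J₂, hJ₂⟩ := exists_nat_ge ((21 + e₀ / 4) * 8 / (e₀ * (ν * q)))
  obtain ⟨J₃, hJ₃⟩ := exists_nat_ge (γ₂ / (ω * q))
  refine ⟨4 * K₂ / c₁, by positivity, Bas.mono (max J₁ (max J₂ J₃) + 1) hall ?_⟩
  rintro J hJ F A₀ ⟨⟨B₁, hsub1, hm1, d, g1, e₁, y₁, Kp, Pv, Pl, yt, ctr, xo, D₁, CR, hWd, hkd, hy1,
    hy1', hKp, hg1, hg1', he1, hwin, hroom, hclo⟩, hnd, hfew⟩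
  obtain ⟨B, hsubB, hmB, gu, gx, y, sc, Gu, GN, GX, Hu, HN, HX, U, φ, hy, hsc, hsc', hgx, N⟩ :=
    hnd B₁ hsub1 hm1
  have hJn : 1 ≤ J := by omega
  have hJ0 : (0 : ℝ) ≤ J := Nat.cast_nonneg J
  have j1 : ((J₁ : ℕ) : ℝ) + 1 ≤ J := by exact_mod_cast (show J₁ + 1 ≤ J by omega)
  have j2 : ((J₂ : ℕ) : ℝ) ≤ J := by exact_mod_cast (show J₂ ≤ J by omega)
  have j3 : ((J₃ : ℕ) : ℝ) ≤ J := by exact_mod_cast (show J₃ ≤ J by omega)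
  obtain ⟨k, hk⟩ : ∃ k, k = ⌊ν * q * (J : ℝ)⌋₊ := ⟨_, rfl⟩
  obtain ⟨W, hW⟩ : ∃ W, W = ⌊(t + V₀ * q) * (J : ℝ)⌋₊ := ⟨_, rfl⟩
  obtain ⟨W₀, hW₀⟩ : ∃ W₀, W₀ = ⌊(t + (V₀ - (CF + 28)) * q) * (J : ℝ)⌋₊ := ⟨_, rfl⟩
  rw [← hk] at N CR hkd hKp hwin hroom hclo
  rw [← hW] at N hWd hwin hclo
  rw [← hW₀] at CR hWd
  have k1 : (k : ℝ) ≤ ν * q * J := hk ▸ Nat.floor_le (by positivity)
  have k2 : ν * q * J < k + 1 := hk ▸ Nat.lt_floor_add_one _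
  have W1 : (W : ℝ) ≤ (t + V₀ * q) * J :=
    hW ▸ Nat.floor_le (mul_nonneg (by linarith) hJ0)
  have W2 : (t + V₀ * q) * J < W + 1 := hW ▸ Nat.lt_floor_add_one _
  obtain ⟨ww, hww⟩ : ∃ ww, ww = t + (V₀ - (CF + 28)) * q := ⟨_, rfl⟩
  rw [← hww] at hW₀ hg1 hg1'
  have hpos := Pe_nonneg F.isLaw
  have hmB' : c₁ / K₂ * Pe F.p A₀ ≤ Pe F.p B := by
    rw [div_mul_eq_mul_div, div_le_iff₀ hK₂]
    linarith
  have hcc2 : c₁ / K₂ = 2 * c₂ := by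
    rw [hc₂]
    field_simp
  have hBc : c₂ * Pe F.p A₀ ≤ Pe F.p B := by
    have := mul_nonneg hc₂0.le (hpos A₀)
    rw [hcc2] at hmB'
    linarith
  have hsubBA : Sub B A₀ := fun ω h => hsub1 ω (hsubB ω h)
  have hB := (hfew B hsubBA hBc).1
  have hhalf : ∀ A' : F.Ω → Prop, 1 / 2 * Pe F.p B ≤ Pe F.p A' → c₂ * Pe F.p A₀ ≤ Pe F.p A' := by
    intro A' h1
    rw [hcc2] at hmB'
    linarith
  have hkk : kk ≤ k := by
    have h1 : (kk : ℝ) ≤ ν * q * J₁ := by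
      rw [div_le_iff₀ hνq] at hJ₁
      linarith
    have h2 : ν * q * J₁ ≤ ν * q * J := mul_le_mul_of_nonneg_left (by linarith) hνq.le
    have h3 : (kk : ℝ) < k + 1 := by linarith
    exact_mod_cast Nat.lt_succ_iff.1 (by exact_mod_cast h3)
  have hwin' : ⌊a' * (J : ℝ)⌋₊ ≤ J := by
    refine Nat.floor_le_of_le ?_
    nlinarith
  rw [← ha'] at hwin
  have hWk : W + k ≤ J := hwin.trans hwin'
  have hWdr : (W₀ : ℝ) + d = W := by exact_mod_cast hWd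
  -- the levels
  have haw : |a' - t| ≤ K' * q := by
    rw [ha', abs_le]
    constructor <;> linarith
  have hwt : |ww - t| ≤ K' * q := by
    rw [hww, abs_le]
    constructor <;> linarith
  have l0 := (abs_le.1 (R.l0 a' haw)).2
  have l1 := (abs_le.1 (R.dL 1 (by norm_num) a' haw)).2
  have l1' := (abs_le.1 (R.dL 1 (by norm_num) ww hwt)).1
  rw [s1] at l1 l1'
  have hww0 : 0 ≤ ww := by
    rw [hww]
    linarith
  have w2 : (W₀ : ℝ) ≤ ww * J := hW₀ ▸ Nat.floor_le (mul_nonneg hww0 hJ0)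
  have haJ : a' * J ≤ W + k + 2 := by
    rw [ha']
    have : (t + (V₀ + ν) * q) * J = (t + V₀ * q) * J + ν * q * J := by ring
    linarith
  have m0 : L 0 a' a' * J ≤ (a' + ε * q) * J := mul_le_mul_of_nonneg_right (by linarith) hJ0
  have m1 : L 1 a' a' * J ≤ (L 1 ww ww + (a' - ww) + 2 * (ε * q)) * J :=
    mul_le_mul_of_nonneg_right (by linarith) hJ0
  have hlogk : Real.log ((2 ^ k : ℕ) : ℝ) = k * Real.log 2 := by
    push_cast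
    rw [Real.log_pow]
  -- the numbers
  have n1 : 96 * (ε * q * J) ≤ e₀ * (ν * q * J) := by
    have h1 := mul_le_mul_of_nonneg_right (mul_le_mul_of_nonneg_right hεb hq.le) hJ0
    linarith
  have n2 : 224 * (ωc * q * J) ≤ e₀ * (ν * q * J) := by
    have h1 := mul_le_mul_of_nonneg_right (mul_le_mul_of_nonneg_right hωc1 hq.le) hJ0
    linarith
  have n3 : (21 + e₀ / 4) * 8 ≤ e₀ * (ν * q * J) := by
    rw [div_le_iff₀ (by positivity)] at hJ₂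
    have h1 : (J₂ : ℝ) * (e₀ * (ν * q)) ≤ J * (e₀ * (ν * q)) :=
      mul_le_mul_of_nonneg_right j2 (by positivity)
    linarith
  have hnum := few_num he₀ k2.le n1 n2 n3 hy1
  have hfw : ∀ A : F.Ω → Prop, Sub A B → 1 / 2 * Pe F.p B ≤ Pe F.p A → ∀ (Y : Type) (y : F.Ω → Y),
      Fst (slam F W) (fun ω => ptr F J ω) A y → ∀ (V' : Type) (V : F.Ω → V'),
      Cl2 (slam F (W + k)) (fun ω => ptr F J ω) A V →
      CH (Pool.Agent.H49.Ent.cond F.p A True) V (fun ω => (cv (2 ^ k) (xo 0 ω), y ω)) ≤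
        CH (Pool.Agent.H49.Ent.cond F.p A True) V
          (fun ω => ((F.X J ω (c 1), F.X J ω (c 0), F.W ω), y ω)) +
          e₀ / 4 * Real.log ((2 ^ k : ℕ) : ℝ) := by
    intro A' hA' hmA' Y yy hyy V'' VV hVV
    have hA'B : Sub A' B₁ := fun ω h => hsubB ω (hA' ω h)
    have CR' := CR.sub hA'B
    rw [← hWd] at hyy hVV
    refine (hfew A' (fun ω h => hsubBA ω (hA' ω h)) (hhalf A' hmA')).2 W₀ d k g1 ((2 ^ y₁) ^ 2) Kp
      (2 ^ e₁) (ε * q * J + 2) (ωc * q * J + 2 * (ε * q * J) + 2) _ Pl ctr xo D₁ Pv CR'.pos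
      (by positivity) CR'.Pc (fun ω ω' hω hω' e1 e2 e3 e4 => ?_) (by rw [hWd]; exact hwin)
      (by omega) (by positivity) (pow_le_pow_right₀ one_le_two (by omega)) ?_ ?_ ?_ Y yy hyy V'' VV
      hVV
    · rw [← e1]
      refine chart_near (Prod.ext e2 e3) e4 (CR'.Pp _) fun b hb1 hb2 => CR'.Pg ω hω b ?_ ?_
      · rw [hb1, sub_self, abs_zero]
        positivity
      · refine hb2.trans (one_div_le_one_div_of_le (by positivity) ?_)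
        exact pow_le_pow_right₀ one_le_two (by omega)
    · show L 0 a' a' * J ≤ W₀ + d + k + (ε * q * J + 2)
      linarith
    · show L 1 a' a' * J ≤ g1 + d + k + (ωc * q * J + 2 * (ε * q * J) + 2)
      have h1 : (L 1 ww ww + (a' - ww) + 2 * (ε * q)) * J = L 1 ww ww * J + (a' * J - ww * J) +
        2 * (ε * q * J) := by ring
      linarith
    · rw [hlogk]
      have h1 : 2 * (e₀ * ν * q / 64) * (J : ℝ) = e₀ * (ν * q * J) / 32 := by ring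
      rw [h1]
      exact hnum
  obtain ⟨B', CL, Cp, b1, b2, b3, b4, b5, b6, b7, b8⟩ := hev F hB hkk hWk hWd hsc N (CR.sub hsubB)
    (fun A' hA' hmA' => hclo A' (fun ω h => hsubB ω (hA' ω h)) (hhalf A' hmA')) hfw
  have hX0 : q ≤ t + X * q := by linarith
  have hX1 : t + X * q ≤ 1 := by linarith
  have low3 : t + X * q ≤ L 3 (t + X * q) (t + X * q) :=
    R.low_at (by norm_num) (by linarith) le_rfl hX1
  have hygx : (y : ℝ) ≤ gx := by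
    refine hy.trans (le_trans ?_ hgx)
    refine mul_le_mul_of_nonneg_right ?_ hJ0
    linarith
  have hygx' : y ≤ gx := by exact_mod_cast hygx
  refine ⟨B', fun o h => hsubBA o (b1 o h), ?_, CL, Cp, b3, b4, b5, b6, fun o h => ?_,
    fun k' _ => ⟨{P : MvPolynomial (Option (Fin 4)) ℝ // P.totalDegree ≤ Du ∧ DepC c 3 P},
      fun z => ⟨GX z, N.dx z, N.px z⟩, fun s => ⟨HX s, N.dx' s, N.px' s⟩, fun P => P.1, gx - y,
      ⟨fun v => v.2.1, fun v b b' h0 h1 => v.2.2 b b' h0 fun l hl => h1 _ ?_, fun o h => ?_,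
        fun o h => ?_⟩, ?_, fun o h => ?_⟩⟩
  · rw [div_mul_eq_mul_div, le_div_iff₀ hc₁]
    have : K₂ * (1 / 4 * Pe F.p B) ≤ K₂ * Pe F.p B' := mul_le_mul_of_nonneg_left b2 hK₂.le
    linarith
  · rw [← hW]
    exact b7 o h
  · exact mem_image_of_mem c (mem_range.2 hl)
  · exact Subtype.ext (N.cx o (b1 o h))
  · show |F.x o (c 3) - eval (bt F o) (HX (slam F ⌊(t + X * q) * (J : ℝ)⌋₊ o))| ≤ 1 / 2 ^ (gx - y)
    rw [← N.cx o (b1 o h)]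
    refine (N.ax o (b1 o h)).trans (le_of_eq ?_)
    have e1 : (2 : ℝ) ^ gx = 2 ^ (gx - y) * 2 ^ y := by
      rw [← pow_add, Nat.sub_add_cancel hygx']
    rw [e1]
    field_simp
  · rw [Nat.cast_sub hygx']
    have e1 : (L 3 (t + X * q) (t + X * q) - 2 * ω * q) * (J : ℝ) =
        (L 3 (t + X * q) (t + X * q) - ω * q) * J - ω * q * J := by ring
    rw [e1]
    linarith
  · show |eval (bt F o) (pderiv (some (c 2)) (HX (slam F ⌊(t + X * q) * (J : ℝ)⌋₊ o))) -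
      eval (bt F o) (CL (slam F ⌊(t + V₀ * q) * (J : ℝ)⌋₊ o))| ≤ _
    rw [← N.cx o (b1 o h), ← hW]
    refine (b8 o h).trans ?_
    have f1 : sc⁻¹ ≤ (2 : ℝ) ^ (-((L 3 (t + V₀ * q) (t + V₀ * q) -
        L 2 (t + V₀ * q) (t + V₀ * q) - ω * q) * J)) := by
      rw [Real.rpow_neg (by norm_num)]
      exact inv_anti₀ (by positivity) hsc'
    have f2 : ((2 ^ k : ℕ) : ℝ) ^ (-γ₂) = (2 : ℝ) ^ (-(γ₂ * k)) := by
      push_cast
      rw [← Real.rpow_natCast, ← Real.rpow_mul (by norm_num)]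
      ring_nf
    rw [f2]
    refine (mul_le_mul_of_nonneg_right f1 (by positivity)).trans ?_
    rw [← Real.rpow_add (by norm_num)]
    refine Real.rpow_le_rpow_of_exponent_le (by norm_num) ?_
    have f3 : γ₂ ≤ ω * q * J := by
      rw [div_le_iff₀ hωq] at hJ₃
      have h1 : (J₃ : ℝ) * (ω * q) ≤ J * (ω * q) := mul_le_mul_of_nonneg_right j3 hωq.le
      linarith
    have f4 : γ₂ * (ν * q * J) ≤ γ₂ * (k + 1) := mul_le_mul_of_nonneg_left k2.le hγ₂.le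
    linarith

end Pool.CLO80
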