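import Mathlib

/-!
# Chains of windows

`chain_ex`: an increasing sequence with small steps through given points.
-/

set_option autoImplicit false

namespace Pool.CLO80

open Finset

/-- **An increasing sequence with small steps** from `a` to `b` through `x` and the points `w k ≤ x`. -/
theorem chain_ex {a b x del : ℝ} (hax : a ≤ x) (hxb : x ≤ b) (hdel : 0 < del) (n : ℕ) (w : ℕ → ℝ)
    (hw : ∀ k < n, a ≤ w k ∧ w k ≤ x) : ∃ (M Mp : ℕ) (W : ℕ → ℝ), Mp ≤ M ∧ W 0 = a ∧ W M = b ∧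
      (∀ i < M, W i < W (i + 1) ∧ W (i + 1) ≤ W i + del) ∧ (∀ i ≤ M, a ≤ W i ∧ W i ≤ b) ∧
      W Mp = x ∧ ∀ k < n, ∃ j ≤ Mp, W j = w k := by
  classical
  obtain ⟨N, hN⟩ := exists_nat_ge ((b - a) / del)
  have hN' : b ≤ a + N * del := by
    rw [div_le_iff₀ hdel] at hN
    linarith
  obtain ⟨s, hs⟩ : ∃ s : Finset ℝ, s = ((range n).image w ∪ {a, x, b}) ∪
      (range (N + 1)).image fun j : ℕ => min b (a + j * del) := ⟨_, rfl⟩
  have hab : a ≤ b := hax.trans hxb
  have hsb : ∀ z ∈ s, a ≤ z ∧ z ≤ b := by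
    intro z hz
    rw [hs, mem_union, mem_union, mem_image, mem_image, mem_insert, mem_insert,
      mem_singleton] at hz
    rcases hz with (⟨k, hk, rfl⟩ | rfl | rfl | rfl) | ⟨j, hj, rfl⟩
    · have h1 := hw k (mem_range.1 hk)
      exact ⟨h1.1, h1.2.trans hxb⟩
    · exact ⟨le_rfl, hab⟩
    · exact ⟨hax, hxb⟩
    · exact ⟨hab, le_rfl⟩
    · refine ⟨le_min hab ?_, min_le_left _ _⟩
      have : 0 ≤ (j : ℝ) * del := by positivity
      linarith
  have has : a ∈ s := by rw [hs]; simp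
  have hxs : x ∈ s := by rw [hs]; simp
  have hbs : b ∈ s := by rw [hs]; simp
  have hws : ∀ k < n, w k ∈ s := fun k hk => by
    rw [hs]
    exact mem_union_left _ (mem_union_left _ (mem_image_of_mem w (mem_range.2 hk)))
  obtain ⟨f, hf⟩ : ∃ f : Fin s.card ↪o ℝ, f = s.orderEmbOfFin rfl := ⟨_, rfl⟩
  have hfs : ∀ i, f i ∈ s := fun i => by
    rw [hf]
    exact s.orderEmbOfFin_mem rfl i
  have hsf : ∀ z ∈ s, ∃ i, f i = z := fun z hz => by
    have h1 : z ∈ Set.range (s.orderEmbOfFin rfl) := by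
      rw [range_orderEmbOfFin]
      exact hz
    rw [hf]
    exact h1
  have hcard : 0 < s.card := card_pos.2 ⟨a, has⟩
  obtain ⟨ia, hia⟩ := hsf a has
  obtain ⟨ib, hib⟩ := hsf b hbs
  obtain ⟨ix, hix⟩ := hsf x hxs
  obtain ⟨W, hW⟩ : ∃ W : ℕ → ℝ, W = fun i => if h : i < s.card then f ⟨i, h⟩ else b := ⟨_, rfl⟩
  have hWi : ∀ (i : ℕ) (h : i < s.card), W i = f ⟨i, h⟩ := fun i h => by
    rw [hW]
    exact dif_pos h
  refine ⟨s.card - 1, ix, W, by omega, ?_, ?_, ?_, ?_, ?_, ?_⟩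
  · rw [hWi 0 hcard]
    refine le_antisymm ?_ (hsb _ (hfs _)).1
    rw [← hia]
    exact f.monotone (Nat.zero_le _)
  · rw [hWi (s.card - 1) (by omega)]
    refine le_antisymm (hsb _ (hfs _)).2 ?_
    rw [← hib]
    refine f.monotone ?_
    rw [Fin.le_def]
    show (ib : ℕ) ≤ s.card - 1
    omega
  · intro i hi
    have h1 : i < s.card := by omega
    have h2 : i + 1 < s.card := by omega
    rw [hWi i h1, hWi (i + 1) h2]
    have hlt : f ⟨i, h1⟩ < f ⟨i + 1, h2⟩ := f.strictMono (by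
      rw [Fin.lt_def]
      exact Nat.lt_succ_self i)
    refine ⟨hlt, ?_⟩
    obtain ⟨j, hj⟩ : ∃ j : ℕ, j = ⌊(f ⟨i, h1⟩ - a) / del⌋₊ + 1 := ⟨_, rfl⟩
    have hfi := (hsb _ (hfs ⟨i, h1⟩)).1
    have h3 : (0 : ℝ) ≤ (f ⟨i, h1⟩ - a) / del := div_nonneg (by linarith) hdel.le
    have h4 := Nat.floor_le h3
    have h5 := Nat.lt_floor_add_one ((f ⟨i, h1⟩ - a) / del)
    rw [le_div_iff₀ hdel] at h4
    rw [div_lt_iff₀ hdel] at h5
    have h6 : f ⟨i, h1⟩ < a + j * del := by
      rw [hj]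
      push_cast
      linarith
    have h7 : a + j * del ≤ f ⟨i, h1⟩ + del := by
      rw [hj]
      push_cast
      linarith
    rcases lt_or_ge b (a + j * del) with h8 | h8
    · exact ((hsb _ (hfs _)).2.trans h8.le).trans h7
    · have hjN : j ≤ N := by
        have h9 : (j : ℝ) * del ≤ N * del := by linarith
        exact_mod_cast le_of_mul_le_mul_right h9 hdel
      have hmem : a + j * del ∈ s := by
        rw [hs]
        refine mem_union_right _ (mem_image.2 ⟨j, mem_range.2 (by omega), ?_⟩)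
        exact min_eq_right h8
      obtain ⟨m, hm⟩ := hsf _ hmem
      refine le_trans ?_ h7
      rw [← hm] at h6 ⊢
      have h9 := f.lt_iff_lt.1 h6
      refine f.monotone ?_
      rw [Fin.le_def]
      rw [Fin.lt_def] at h9
      exact h9
  · intro i hi
    rw [hWi i (by omega)]
    exact hsb _ (hfs _)
  · rw [hWi ix ix.2]
    exact hix
  · intro k hk
    obtain ⟨j, hj⟩ := hsf _ (hws k hk)
    refine ⟨j, ?_, ?_⟩
    · have h1 : f j ≤ f ix := by
        rw [hj, hix]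
        exact (hw k hk).2
      exact f.le_iff_le.1 h1
    · rw [hWi j j.2]
      exact hj

end Pool.CLO80
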