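import Pool.Agent.H80.CLO.Sxf
import Pool.Agent.H80.CLO.Sxg
import Pool.Agent.H73.D2.Tvl

/-!
# The closed slope at all records from the data `NdT`

`bxT_of_nd`: `BxT` for the place `2` of four coordinates, the places `0`, `1` of slope one, from `NdT` and the free
velocities (`FaQ`).
-/

set_option autoImplicit false

namespace Pool.CLO80

open Finset Real MvPolynomial
open Pool.Agent.H49.Ent Pool.Agent.H32.Dense Pool.STK Pool.KA Pool.KSAT Pool.K2S Pool.PB Pool.S6C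
  Pool.GEN Pool.RCD Pool.LA91 Pool.OWN68 Pool.PKG Pool.ALT
open Pool.CHT Pool.CHX Pool.ISO Pool.D2R Pool.D2G30 Pool.V1E Pool.CR99 Pool.GRW
open Pool.BXV65 (SlX blx_valM)

/-- **The closed slope at all records.** -/
theorem bxT_of_nd {h : ℝ} {Sl : ℕ → ℝ} {κ : ℕ → Kg} {ι Λ : Type} {Q : PropG 4 ι}
    {Z : PropZ 4 Λ} (hκ0 : κ 0 = .one) (hκ1 : κ 1 = .one) (hab : Sl 2 ≤ Sl 3)
    (H : NdT h Sl κ Q Z) :
    BxT 2 h Sl κ (sumQ Q (FaQ : PropG 4 (ℕ × ℕ × ℚ × ℚ))) Z := by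
  intro al hal K₀ hK₀ S₀ hS₀ y₀ nb bw
  obtain ⟨K₁c, hsr⟩ := slx_rec S₀ hS₀
  obtain ⟨K, D, H⟩ := H al hal K₀ hK₀ S₀ hS₀
  obtain ⟨θ', e', c', γ₂, hθ', he', hc', hγ₂, hsr⟩ := hsr K D
  obtain ⟨α, hα⟩ : ∃ α, α = Sl 2 := ⟨_, rfl⟩
  obtain ⟨s, hs⟩ : ∃ s, s = Sl 3 := ⟨_, rfl⟩
  rw [← hα, ← hs] at hab
  obtain ⟨Bw, hBw⟩ : ∃ Bw : ℝ, Bw = ∑ k ∈ range nb, |bw k| := ⟨_, rfl⟩
  have hBw0 : 0 ≤ Bw := by
    rw [hBw]
    exact Finset.sum_nonneg fun _ _ => abs_nonneg _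
  have hbwk : ∀ k < nb, |bw k| ≤ Bw := fun k hk => by
    rw [hBw]
    exact Finset.single_le_sum (f := fun k => |bw k|) (fun _ _ => abs_nonneg _)
      (mem_range.2 hk)
  obtain ⟨y₁, hy₁⟩ : ∃ y₁ : ℝ, y₁ = max y₀ (Bw + 1) := ⟨_, rfl⟩
  have hy0 : y₀ ≤ y₁ := by rw [hy₁]; exact le_max_left _ _
  have hyB : Bw + 1 ≤ y₁ := by rw [hy₁]; exact le_max_right _ _
  obtain ⟨ν, hν⟩ : ∃ ν : ℝ, ν = ((s - α) * (Bw + y₁) + 1) / γ₂ := ⟨_, rfl⟩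
  have hM0 : 0 ≤ (s - α) * (Bw + y₁) := mul_nonneg (by linarith) (by linarith)
  have hν0 : 0 < ν := by
    rw [hν]
    positivity
  have hγν : γ₂ * ν = (s - α) * (Bw + y₁) + 1 := by
    rw [hν]
    field_simp
  obtain ⟨CF, κF, Kb, ε₁, hκF, hε₁, hCF, hsr⟩ := hsr ν (-y₁) hν0
  obtain ⟨X, Kr, Nr, Ar, Vr, hX, hKr, hAV, H⟩ := H ν (-y₁) (Bw + 1) θ' e' c' hν0 hθ' he' hc'
  refine ⟨y₁, hy0, Kr, Nr, Ar, Vr, hKr, hAV, fun S₂ hS₂ => ?_⟩
  obtain ⟨Du, H⟩ := H S₂ hS₂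
  obtain ⟨Dm, hDm⟩ : ∃ Dm : ℕ, Dm = Du + (3 * ((K + 1) * D) * (K₁c + 1) + (K + 1) * (Du + 1)) :=
    ⟨_, rfl⟩
  obtain ⟨Dg, hbl⟩ := blx_valM 4 2 S₀ hS₀ Dm Du
  refine ⟨Dg, Dg, fun ρ hρ hρ1 => ?_⟩
  obtain ⟨a₀, ha₀⟩ : ∃ a₀ : ℝ, a₀ = ∑ l ∈ range 4, |Sl l| := ⟨_, rfl⟩
  have ha₀0 : 0 ≤ a₀ := by
    rw [ha₀]
    exact Finset.sum_nonneg fun _ _ => abs_nonneg _
  obtain ⟨del, ρ', ε₂, hdel, hρ', hρ'ρ, hε₂, hbl⟩ := hbl hρ ha₀0
  obtain ⟨ω, hω⟩ : ∃ ω : ℝ, ω = min (1 / 4) (ρ' / 8) := ⟨_, rfl⟩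
  have hω0 : 0 < ω := hω ▸ lt_min (by norm_num) (by positivity)
  have hω4 : ω ≤ 1 / 4 := hω ▸ min_le_left _ _
  have hωρ : ω ≤ ρ' / 8 := hω ▸ min_le_right _ _
  obtain ⟨lam, K₁n, Nv, Vv, hVv, H⟩ := H ω hω0
  obtain ⟨M, Mp, W, hMp, W0, WM, hWs, hWb, hWp, hWw⟩ := chain_ex (a := -y₁) (b := X) (x := Bw)
    (del := del) (by linarith) (by linarith) hdel nb bw (fun k hk => by
      have := abs_le.1 (hbwk k hk)
      constructor <;> linarith [this.1, this.2])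
  obtain ⟨Kw, hKw⟩ : ∃ Kw : ℝ, Kw = |X| + y₁ + ν + CF + 30 := ⟨_, rfl⟩
  have hCF0 : (0 : ℝ) ≤ CF := Nat.cast_nonneg CF
  have hXa := le_abs_self X
  have hXb := neg_abs_le X
  have hXc := abs_nonneg X
  refine ⟨lam, max K₁n (max Kb Kw), Nv + (M + 1 + 2), cmb Nv Vv (cmb (M + 1) W
    (fun i => if i = 0 then -y₁ + ν else -y₁ - (CF + 28))), fun j hj => ?_, fun K' hK' => ?_⟩
  · have m1 := le_max_left K₁n (max Kb Kw)
    have m2 := (le_max_right Kb Kw).trans (le_max_right K₁n (max Kb Kw))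
    rcases Nat.lt_or_ge j Nv with h1 | h1
    · rw [cmb_l h1]
      obtain ⟨h2, h3⟩ := hVv j h1
      exact ⟨by linarith, by linarith⟩
    · obtain ⟨i, rfl⟩ : ∃ i, j = Nv + i := ⟨j - Nv, by omega⟩
      rw [cmb_r]
      rcases Nat.lt_or_ge i (M + 1) with h2 | h2
      · rw [cmb_l h2]
        obtain ⟨h3, h4⟩ := hWb i (by omega)
        exact ⟨by linarith, by linarith⟩
      · obtain ⟨i', rfl⟩ : ∃ i', i = M + 1 + i' := ⟨i - (M + 1), by omega⟩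
        rw [cmb_r]
        split_ifs <;> constructor <;> linarith
  have hK1 : K₁n ≤ K' := (le_max_left _ _).trans hK'
  have hK2 : Kb ≤ K' := ((le_max_left _ _).trans (le_max_right _ _)).trans hK'
  have hK3 : Kw ≤ K' := ((le_max_right _ _).trans (le_max_right _ _)).trans hK'
  obtain ⟨ε₀, hε₀, H⟩ := H K' hK1
  refine ⟨min (min ε₀ ε₁) (min ε₂ (1 / 16)), by positivity, fun ε hε hεε => ?_⟩
  have hεa := (hεε.trans (min_le_left _ _)).trans (min_le_left _ _)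
  have hεb := (hεε.trans (min_le_left _ _)).trans (min_le_right _ _)
  have hεc := (hεε.trans (min_le_right _ _)).trans (min_le_left _ _)
  have hεd := (hεε.trans (min_le_right _ _)).trans (min_le_right _ _)
  intro S g₀ P θ P₂ θ₂ Eb e₂ c Pt rt L T G g hG hg hder hZ
  obtain ⟨p, Mq, B₀, B₁, hB, H⟩ := H ε hε hεa S g₀ P θ P₂ θ₂ Eb e₂ c Pt rt L T G g hG hg hder hZ
  refine ⟨fun j => if j < Mq then Sum.inl (p j) else Sum.inr (2, CF, 1, κF), Mq + 1,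
    fun j => if j < Mq then B₀ j else -y₁ - (CF + 13 - ν),
    fun j => if j < Mq then B₁ j else -y₁ - (CF / 2 + 28), fun j hj => ?_, fun k₀ hk₀ => ?_⟩
  · by_cases h1 : j < Mq
    · simp only [if_pos h1]
      exact hB j h1
    · simp only [if_neg h1]
      linarith
  have hin : ∀ j < Mq, ∀ x, (sumQ Q (FaQ : PropG 4 (ℕ × ℕ × ℚ × ℚ)))
      (if j < Mq then Sum.inl (p j) else Sum.inr (2, CF, 1, κF)) (k₀ j) S P θ c Pt rt L T κ G x →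
      Q (p j) (k₀ j) S P θ c Pt rt L T κ G x := fun j hj x hx => by
    rw [if_pos hj] at hx
    exact hx
  have hout : ∀ x, (sumQ Q (FaQ : PropG 4 (ℕ × ℕ × ℚ × ℚ)))
      (if Mq < Mq then Sum.inl (p Mq) else Sum.inr (2, CF, 1, κF)) (k₀ Mq) S P θ c Pt rt L T κ G x →
      FaQ (2, CF, 1, κF) (k₀ Mq) S P θ c Pt rt L T κ G x := fun x hx => by
    rw [if_neg (lt_irrefl _)] at hx
    exact hx
  obtain ⟨q₁, hq₁, H⟩ := H k₀ fun j hj => hin j hj _ (hk₀ j (by omega))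
  refine ⟨min q₁ ((1 / 2) ^ k₀ Mq), by positivity, fun q t x hq hx N A V N' V' R hp hv => ?_⟩
  have hq1 := hq.trans_le (min_le_left _ _)
  have hq2 := hq.trans_le (min_le_right _ _)
  have hq0 := R.q0
  -- the windows
  have hwn : ∀ k < Nv, ∃ j < N', V' j = Vv k := fun k hk => by
    obtain ⟨j, hj, h4⟩ := hv k (by omega)
    rw [cmb_l hk] at h4
    exact ⟨j, hj, h4⟩
  have hWV : ∀ i ≤ M, ∃ j < N', V' j = W i := fun i hi => by
    obtain ⟨j, hj, h4⟩ := hv (Nv + i) (by omega)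
    rw [cmb_r, cmb_l (by omega)] at h4
    exact ⟨j, hj, h4⟩
  have hV₀ : ∃ k < N', V' k = -y₁ := by
    obtain ⟨j, hj, h4⟩ := hWV 0 (by omega)
    exact ⟨j, hj, h4.trans W0⟩
  have hVν : ∃ k < N', V' k = -y₁ + ν := by
    obtain ⟨j, hj, h4⟩ := hv (Nv + (M + 1 + 0)) (by omega)
    rw [cmb_r, cmb_r, if_pos rfl] at h4
    exact ⟨j, hj, h4⟩
  have hVw : ∃ k < N', V' k = -y₁ - (CF + 28) := by
    obtain ⟨j, hj, h4⟩ := hv (Nv + (M + 1 + 1)) (by omega)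
    rw [cmb_r, cmb_r, if_neg one_ne_zero] at h4
    exact ⟨j, hj, h4⟩
  obtain ⟨K₂, hK₂, hnd⟩ := H q t x hq1 (fun j hj => by
    obtain ⟨h1, h2, h3, h4⟩ := hx j (by omega)
    simp only [if_pos hj] at h2 h3
    exact ⟨h1, h2, h3, hin j hj _ h4⟩) N A V N' V' R hp hwn
  obtain ⟨-, hxa, hxb, hxQ⟩ := hx Mq (by omega)
  simp only [lt_irrefl, if_false] at hxa hxb
  have hXK : |X| + 1 ≤ K' := by linarith
  obtain ⟨κ₁, hκ₁, hslx⟩ := hsr R hκ0 hκ1 hK2 hε hεb hV₀ hVν hVw hxa hxb (hout _ hxQ) hq2 X Du ω K₂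
    hXK hω0 hω4 hK₂ hnd
  rw [← hDm] at hslx
  -- the levels
  have hωq : ω * q ≤ ρ' / 8 * q := mul_le_mul_of_nonneg_right hωρ hq0.le
  have hω4q : ω * q ≤ 1 / 4 * q := mul_le_mul_of_nonneg_right hω4 hq0.le
  have hεq : ε * q ≤ 1 / 16 * q := mul_le_mul_of_nonneg_right hεd hq0.le
  have hρq : 0 < ρ' * q := mul_pos hρ' hq0
  have hBK : (Bw + 1) * q ≤ K' * q := mul_le_mul_of_nonneg_right (by linarith) hq0.le
  have hyK : (y₁ + 1) * q ≤ K' * q := mul_le_mul_of_nonneg_right (by linarith) hq0.le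
  have hBq : 0 ≤ Bw * q := mul_nonneg hBw0 hq0.le
  have hyq : 0 ≤ y₁ * q := mul_nonneg (by linarith) hq0.le
  have hbB : |t + Bw * q - t| ≤ K' * q := by
    rw [abs_le]
    constructor <;> linarith
  have hbV : |t + -y₁ * q - t| ≤ K' * q := by
    rw [abs_le]
    constructor <;> linarith
  have a1 := abs_le.1 (R.dL 2 (by norm_num) _ hbB)
  have a2 := abs_le.1 (R.dL 2 (by norm_num) _ hbV)
  have a3 := abs_le.1 (R.dL 3 (by norm_num) _ hbB)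
  have a4 := abs_le.1 (R.dL 3 (by norm_num) _ hbV)
  rw [← hα] at a1 a2
  rw [← hs] at a3 a4
  have hγq : γ₂ * ν * q = (s - α) * (Bw + y₁) * q + q := by
    rw [hγν]
    ring
  obtain ⟨κ', hκ', hbx⟩ := hbl R (by norm_num) (fun l hl => by
      rw [ha₀]
      exact Finset.single_le_sum (f := fun l => |Sl l|) (fun _ _ => abs_nonneg _)
        (mem_range.2 (by omega))) (by rw [← hα, ← hs]; exact hab) hεc M Mp W hMp hWs (fun i hi => by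
      obtain ⟨h1, h2⟩ := hWb i hi
      have h3 : |W i| ≤ |X| + y₁ := by
        rw [abs_le]
        constructor <;> linarith
      linarith) hWV (fun _ => t + X * q) (fun _ => L 3 (t + X * q) (t + X * q) - 2 * ω * q)
    (fun _ => L 2 (t + -y₁ * q) (t + -y₁ * q) - L 3 (t + -y₁ * q) (t + -y₁ * q) + 2 * ω * q -
        γ₂ * ν * q) κ₁ hκ₁ (by rw [WM]) (by
      show L 3 (t + X * q) (t + X * q) - ρ' * q ≤ L 3 (t + X * q) (t + X * q) - 2 * ω * q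
      linarith) (by
      show L 2 (t + -y₁ * q) (t + -y₁ * q) - L 3 (t + -y₁ * q) (t + -y₁ * q) + 2 * ω * q -
        γ₂ * ν * q ≤ L 2 (t + W Mp * q) (t + W Mp * q) - L 3 (t + W Mp * q) (t + W Mp * q) + ρ' * q
      rw [hWp, hγq]
      linarith [a1.1, a1.2, a2.1, a2.2, a3.1, a3.2, a4.1, a4.2]) (by
      rw [W0]
      exact hslx)
  rw [W0] at hbx
  refine ⟨κ', hκ', blX_mono hbx le_rfl le_rfl fun k hk => ?_⟩
  obtain ⟨j, hj, hjw⟩ := hWw k hk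
  refine ⟨j, by omega, ?_, ?_, ?_⟩
  · simp only [hjw]
  · simp only [hjw]
    exact le_rfl
  · simp only [hjw]
    exact le_rfl

end Pool.CLO80
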