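import Pool.Agent.H80.CLO.Sxe

/-!
# A closed polynomial near any function with the data `Nd4H`

`NdU`: the data on an event. `phi_ev`: the closed polynomial on a part of mass `1 - η`.
-/

set_option autoImplicit false

namespace Pool.CLO80

open Finset Real MvPolynomial
open Pool.Agent.H49.Ent Pool.Agent.H32.Dense Pool.STK Pool.KA Pool.KSAT Pool.K2S Pool.PB Pool.S6C
open Pool.GEN Pool.CHT Pool.CHX Pool.D2Con Pool.D2A Pool.D2F Pool.RCD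
open Pool.STB (V3 Po Bx cv)
open Pool.STB82 (Fst dg pb_pe cond_pos_B slam_coarse dg_cl2 yv hgP)
open Pool.STB65 (rnd_all InpP PosO Rs Rs_pos crs crs_slam)
open Pool.BFL (Pb)
open Pool.CLR73 (CloC ClR)
open Pool.PB.Trl (rt t_rt)
open Pool.NDD66 (mu Lam)
open Pool.CLU (cpn_law cpn_pos)

variable {m J : ℕ}

/-- **The data on an event for any function** `φ` with the data `Nd4H`. -/
structure NdU {J : ℕ} (F : Fam m J) (c : ℕ → Fin m) (B : F.Ω → Prop) (K D Du W k gu : ℕ)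
    (Θ ε e cc : ℝ) (Gu : PtT F → MvPolynomial (Option (Fin m)) ℝ)
    (Hu : LnT F → MvPolynomial (Option (Fin m)) ℝ) (U : F.Ω → ℤ) (φ : F.Ω → ℝ) : Prop where
  du : ∀ z, (Gu z).totalDegree ≤ Du
  du' : ∀ s, (Hu s).totalDegree ≤ Du
  pu : ∀ z, DepC c 2 (Gu z)
  pu' : ∀ s, DepC c 2 (Hu s)
  cu : ∀ ω, B ω → Gu (ptr F J ω) = Hu (slam F W ω)
  lu : ∀ ω, B ω → |(U ω : ℝ) / ((2 ^ k : ℕ) : ℝ) -
    2 ^ gu * (F.x ω (c 2) - eval (bt F ω) (Gu (ptr F J ω)))| ≤ ε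
  nd : ∃ (Om : Type) (_ : Fintype Om) (q : Om → ℝ) (pr : Om → F.Ω),
    Marg q (Pool.Agent.H49.Ent.cond F.p B True) pr ∧
    ∃ (Y X' Z Uf C V : Type) (n : ℕ) (jj : Fin (K + 1) → Fin n) (yy : Om → Y) (xx : Om → X')
    (Qc : F.Ω → Z) (Up : Om → Uf) (ct : Om → C) (ell : Om → V) (φc : Om → ℤ)
    (uP cP : C → V → Polynomial ℝ),
    Nd4H q (fun v => slam F W (pr v)) (fun v => ptr F J (pr v)) yy xx (fun v => Qc (pr v)) Up ct
      ell (fun v => (dg F W k (pr v) : ℤ)) (fun v => U (pr v)) φc (fun v => φ (pr v)) uP cP D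
      (2 ^ k) jj Θ ε e cc ∧
    ∃ (V₀ : Type) (z : PtT F → V₀) (z' : LnT F → V₀),
      (∀ ω, B ω → z (ptr F J ω) = z' (slam F W ω)) ∧
      Det (Pool.Agent.H49.Ent.cond F.p B True)
        (fun ω => ((F.X J ω (c 1), F.X J ω (c 0), F.W ω), z (ptr F J ω))) Qc

/-- **A closed polynomial near a function with the data** `Nd4H`, on an event. -/
theorem phi_ev (K D : ℕ) {γ e₀ cc η : ℝ} (hγ : 0 < γ) (he₀ : 0 < e₀) (hcc : 0 < cc)
    (hη : 0 < η) (hη1 : η ≤ 1) :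
    ∃ (θ e c γ₂ : ℝ) (k₀ : ℕ), 0 < θ ∧ 0 < e ∧ 0 < c ∧ 0 < γ₂ ∧
    ∀ {m J : ℕ} (F : Fam m J) {c' : ℕ → Fin m} {B : F.Ω → Prop}
      {Du W k gu W₀ d g1 e₁ y' K₁ : ℕ} {Kp : ℝ}
      {Gu Pv : PtT F → MvPolynomial (Option (Fin m)) ℝ}
      {Hu Pl : LnT F → MvPolynomial (Option (Fin m)) ℝ} {U : F.Ω → ℤ} {φ : F.Ω → ℝ}
      {yt : PtT F → V3} {ctr xo : ℕ → F.Ω → V3} {D₁ : LnT F → V3}, 0 < Pe F.p B → k₀ ≤ k →
      W + k ≤ J → W₀ + d = W →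
      NdU F c' B K D Du W k gu (((2 ^ k : ℕ) : ℝ) ^ θ) (((2 ^ k : ℕ) : ℝ) ^ (θ - 1))
        (e * Real.log ((2 ^ k : ℕ) : ℝ)) c Gu Hu U φ →
      ClR F c' B K₁ W₀ d k g1 e₁ y' Kp Pv Pl yt ctr xo D₁ →
      (∀ A : F.Ω → Prop, Sub A B → 1 / 2 * Pe F.p B ≤ Pe F.p A →
        CloC F A W k ((K + 1) * D) (K + 1) (η / 2) (1 / 4) γ e₀ cc (xo 0)) →
      (∀ A : F.Ω → Prop, Sub A B → 1 / 2 * Pe F.p B ≤ Pe F.p A → ∀ (Y : Type) (y : F.Ω → Y),
        Fst (slam F W) (fun ω => ptr F J ω) A y → ∀ (V' : Type) (V : F.Ω → V'),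
        Cl2 (slam F (W + k)) (fun ω => ptr F J ω) A V →
        CH (Pool.Agent.H49.Ent.cond F.p A True) V (fun ω => (cv (2 ^ k) (xo 0 ω), y ω)) ≤
          CH (Pool.Agent.H49.Ent.cond F.p A True) V
            (fun ω => ((F.X J ω (c' 1), F.X J ω (c' 0), F.W ω), y ω)) +
            e₀ / 4 * Real.log ((2 ^ k : ℕ) : ℝ)) →
      ∃ (B' : F.Ω → Prop) (CL : LnT F → MvPolynomial (Option (Fin m)) ℝ)
        (Cp : PtT F → MvPolynomial (Option (Fin m)) ℝ), Sub B' B ∧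
        (1 - η) * Pe F.p B ≤ Pe F.p B' ∧
        (∀ s, (CL s).totalDegree ≤ Du + (3 * ((K + 1) * D) * (K₁ + 1) + (K + 1) * (Du + 1))) ∧
        (∀ z, (Cp z).totalDegree ≤ Du + (3 * ((K + 1) * D) * (K₁ + 1) + (K + 1) * (Du + 1))) ∧
        (∀ s, DepC c' 3 (CL s)) ∧ (∀ z, DepC c' 3 (Cp z)) ∧
        (∀ ω, B' ω → Cp (ptr F J ω) = CL (slam F W ω)) ∧
        ∀ ω, B' ω → |φ ω - eval (bt F ω) (CL (slam F W ω))| ≤ ((2 ^ k : ℕ) : ℝ) ^ (-γ₂) := by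
  classical
  obtain ⟨θ', hθ'⟩ : ∃ θ' : ℝ, θ' = min (e₀ / 8) (η / 16) := ⟨_, rfl⟩
  have hθ'0 : 0 < θ' := hθ' ▸ lt_min (by positivity) (by positivity)
  have hθ'e : θ' ≤ e₀ / 8 := hθ' ▸ min_le_left _ _
  have hθ'η : θ' ≤ η / 16 := hθ' ▸ min_le_right _ _
  have hθ'8 : θ' ≤ 1 / 8 := by linarith
  obtain ⟨θ₁, e, c, M₀, hθ₁, he, hc, hnd4⟩ := nd4 K D hθ'0 (by linarith)
  obtain ⟨n, hn⟩ : ∃ n : ℕ, n = K + 1 := ⟨_, rfl⟩
  obtain ⟨u, hu⟩ : ∃ u : ℕ → ℝ, u = fun l : ℕ => (l : ℝ) / (K + 1) := ⟨_, rfl⟩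
  have hKp : (0 : ℝ) < K + 1 := by positivity
  have hu1 : ∀ l < K + 1, |u l| ≤ 1 := fun l hl => by
    rw [hu]
    show |(l : ℝ) / (K + 1)| ≤ 1
    rw [abs_of_nonneg (by positivity), div_le_one hKp]
    exact_mod_cast hl.le
  have hinj : Set.InjOn u (range (K + 1)) := by
    intro a _ b _ h
    rw [hu] at h
    have h1 : (a : ℝ) / (K + 1) = b / (K + 1) := h
    have h2 : (a : ℝ) = b := by
      field_simp at h1
      exact h1
    exact_mod_cast h2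
  obtain ⟨Cn, hCn, hnear⟩ := slp_near K (3 * ((K + 1) * D)) u hinj
  obtain ⟨a, ha⟩ : ∃ a : ℝ, a = 2 * (((K + 1 : ℕ) : ℝ) + 1) / (η / 4) := ⟨_, rfl⟩
  have ha0 : 0 < a := by
    rw [ha]
    positivity
  obtain ⟨θ, hθ⟩ : ∃ θ : ℝ, θ = min θ₁ (1 / 4) := ⟨_, rfl⟩
  have hθ0 : 0 < θ := hθ ▸ lt_min hθ₁ (by norm_num)
  have hθ1 : θ ≤ θ₁ := hθ ▸ min_le_left _ _
  have hθ4 : θ ≤ 1 / 4 := hθ ▸ min_le_right _ _
  obtain ⟨g, hg⟩ : ∃ g : ℝ, g = min γ (1 / 2) := ⟨_, rfl⟩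
  have hg0 : 0 < g := hg ▸ lt_min hγ (by norm_num)
  have hgγ : g ≤ γ := hg ▸ min_le_left _ _
  have hg2 : g ≤ 1 / 2 := hg ▸ min_le_right _ _
  obtain ⟨k₁, hk₁⟩ := ev_pk (2 * a + 5) θ' hθ'0
  obtain ⟨k₂, hk₂⟩ := ev_pk (Cn * (6 + a)) (g / 2) (by positivity)
  refine ⟨θ, e, c, g / 2, max (max k₁ k₂) (M₀ + 1), hθ0, he, hc, by positivity, ?_⟩
  intro m J F c' B Du W k gu W₀ d g1 e₁ y' K₁ Kp Gu Pv Hu Pl U φ yt ctr xo D₁
    hB hk hWk hWd N R hclo hfw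
  have hk1 : k₁ ≤ k := (le_max_left _ _).trans ((le_max_left _ _).trans hk)
  have hk2 : k₂ ≤ k := (le_max_right _ _).trans ((le_max_left _ _).trans hk)
  have hk3 : M₀ + 1 ≤ k := (le_max_right _ _).trans hk
  have hM₀ : M₀ ≤ 2 ^ k := (by omega : M₀ ≤ k).trans Nat.lt_two_pow_self.le
  obtain ⟨M, hM⟩ : ∃ M : ℝ, M = ((2 ^ k : ℕ) : ℝ) := ⟨_, rfl⟩
  have hM2 : (2 : ℝ) ^ k = M := by
    rw [hM]
    push_cast
    rfl
  have hM1 : 2 ≤ M := by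
    rw [← hM2]
    calc (2 : ℝ) = 2 ^ 1 := by norm_num
      _ ≤ 2 ^ k := pow_le_pow_right₀ one_le_two (by omega)
  have hM0 : 0 < M := by linarith
  have m1 : 2 * a + 5 ≤ M ^ θ' := hM ▸ hk₁ k hk1
  have m2 : Cn * (6 + a) ≤ M ^ (g / 2) := hM ▸ hk₂ k hk2
  have hlog : 0 ≤ Real.log M := Real.log_nonneg (by linarith)
  have hMx : ∀ x y : ℝ, x ≤ y → M ^ x ≤ M ^ y := fun x y h =>
    Real.rpow_le_rpow_of_exponent_le (by linarith) h
  have hMp : ∀ x : ℝ, 0 < M ^ x := fun x => Real.rpow_pos_of_pos hM0 x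
  obtain ⟨Om, iOm, q, pr, hmg, Y, X', Z, Uf, C, V, n', jj, yy, xx, Qc, Up, ct, ell, φc, uP, cP,
    hH, V₀, z, z', hz, hQ⟩ := N.nd
  obtain ⟨Wv, Qp, hO'⟩ := hnd4 (hH.mono (by positivity)
    (Real.rpow_le_rpow_of_exponent_le (by rw [← hM]; linarith) hθ1)
    (Real.rpow_le_rpow_of_exponent_le (by rw [← hM]; linarith) (by linarith)) le_rfl le_rfl) hM₀
  have hO := nd4_mg (U := U) (φ := φ) (L := slam F W) (P := fun ω => ptr F J ω) (Qc := Qc)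
    (τ := fun ω => (dg F W k ω : ℤ)) hmg hO'
  rw [← hM] at hO
  -- the good event
  obtain ⟨B₂, hB₂⟩ : ∃ B₂ : F.Ω → Prop, B₂ = fun ω => B ω ∧
      (|φ ω - (Wv (ptr F J ω)).eval ((U ω : ℝ) / M)| ≤ M ^ (θ' - 1) ∧
        (∀ v : ℝ, |v| ≤ 1 → |(Wv (ptr F J ω)).eval v -
          (Qp (slam F W ω) v).eval ((dg F W k ω : ℝ) / M)| ≤ M ^ (θ' - 1)) ∧
        |U ω| ≤ ((2 ^ k : ℕ) : ℤ)) := ⟨_, rfl⟩
  have hlB := isLaw_cond F.isLaw hB
  have hUb : Pb (Pool.Agent.H49.Ent.cond F.p B True) (fun ω => ¬ |U ω| ≤ ((2 ^ k : ℕ) : ℤ)) ≤ 0 := by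
    rw [← mg_Pb hmg]
    unfold Pb
    refine Finset.sum_nonpos fun v _ => ?_
    split_ifs with h1
    · by_contra h2
      exact h1 (hH.Ub v (not_le.1 h2))
    · exact le_rfl
  have hmass2 : (1 - η / 8) * Pe F.p B ≤ Pe F.p B₂ := by
    have h1 := good_ev F.isLaw hB (Pb_or3 hlB.nonneg
      (fun ω => |φ ω - (Wv (ptr F J ω)).eval ((U ω : ℝ) / M)| ≤ M ^ (θ' - 1))
      (fun ω => ∀ v : ℝ, |v| ≤ 1 → |(Wv (ptr F J ω)).eval v -
          (Qp (slam F W ω) v).eval ((dg F W k ω : ℝ) / M)| ≤ M ^ (θ' - 1))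
      (fun ω => |U ω| ≤ ((2 ^ k : ℕ) : ℤ)))
    rw [← hB₂] at h1
    refine le_trans ?_ h1
    refine mul_le_mul_of_nonneg_right ?_ hB.le
    have h2 := hO.near
    have h3 := hO.path
    rw [← hM] at h2 h3
    have h4 : Pb (Pool.Agent.H49.Ent.cond F.p B True) (fun ω => ¬ ∀ v : ℝ, |v| ≤ 1 →
        |(Wv (ptr F J ω)).eval v - (Qp (slam F W ω) v).eval ((dg F W k ω : ℝ) / M)| ≤
          M ^ (θ' - 1)) ≤ θ' := h3
    linarith
  have hsub2 : Sub B₂ B := fun ω h => by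
    rw [hB₂] at h
    exact h.1
  -- the rounded values
  obtain ⟨B₃, V₁, hsub3, hmass3, hV1, hV2⟩ := rnd_vals F (B := B₂) (W := W) (k := k) (n := K + 1)
    hWk (δ := M ^ (θ' - 1)) (c' := η / 4) (hMp _) (by positivity) (Wv := Wv) (Qp := Qp) u
    (fun ω hω l hl => by
      rw [hB₂] at hω
      rw [← hM]
      exact hω.2.2.1 (u l) (hu1 l hl))
  rw [← ha] at hV1
  have hsub3B : Sub B₃ B := fun ω h => hsub2 ω (hsub3 ω h)
  have hm3' : (1 - η / 2) * Pe F.p B ≤ Pe F.p B₃ := by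
    have h1 : 0 ≤ η * Pe F.p B := mul_nonneg hη.le hB.le
    have h2 : (1 - η / 4) * ((1 - η / 8) * Pe F.p B) ≤ (1 - η / 4) * Pe F.p B₂ :=
      mul_le_mul_of_nonneg_left hmass2 (by linarith)
    have h3 : 0 ≤ η * (η * Pe F.p B) := mul_nonneg hη.le h1
    linarith
  have hm3 : 1 / 2 * Pe F.p B ≤ Pe F.p B₃ := by
    have h1 : η * Pe F.p B ≤ 1 * Pe F.p B := mul_le_mul_of_nonneg_right hη1 hB.le
    linarith
  have hB3 : 0 < Pe F.p B₃ := by linarith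
  have hV0 : ∀ l < K + 1, ∀ y, |V₁ l y| ≤ M ^ (2 * θ') := by
    intro l hl y
    have h1 := hV1 l y
    have h2 := hO.bW y (u l) (hu1 l hl)
    have h3 : |V₁ l y| ≤ |V₁ l y - (Wv y).eval (u l)| + |(Wv y).eval (u l)| := by
      have := abs_add_le (V₁ l y - (Wv y).eval (u l)) ((Wv y).eval (u l))
      rwa [sub_add_cancel] at this
    have h4 : M ^ (θ' - 1) ≤ M ^ θ' := hMx _ _ (by linarith)
    have h5 : M ^ (2 * θ') = M ^ θ' * M ^ θ' := by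
      rw [← Real.rpow_add hM0]
      ring_nf
    have h6 := hMp θ'
    have h7 : a * M ^ (θ' - 1) ≤ a * M ^ θ' := mul_le_mul_of_nonneg_left h4 ha0.le
    have h8 : (2 * a + 5) * M ^ θ' ≤ M ^ θ' * M ^ θ' := mul_le_mul_of_nonneg_right m1 h6.le
    have h9 : 0 ≤ a * M ^ θ' := by positivity
    rw [h5]
    linarith
  have h2e : M ^ (2 * θ') ≤ M ^ e₀ := hMx _ _ (by linarith)
  have hpath3 : ∀ l < K + 1, ∀ ω, B₃ ω → |V₁ l (ptr F J ω) -
      (Qp (slam F W ω) (u l)).eval ((dg F W k ω : ℝ) / M)| ≤ (a + 1) * M ^ (θ' - 1) := by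
    intro l hl ω hω
    have h1 := hV1 l (ptr F J ω)
    have h2 := hsub3 ω hω
    rw [hB₂] at h2
    have h3 := h2.2.2.1 (u l) (hu1 l hl)
    have h4 := abs_add_le (V₁ l (ptr F J ω) - (Wv (ptr F J ω)).eval (u l))
      ((Wv (ptr F J ω)).eval (u l) - (Qp (slam F W ω) (u l)).eval ((dg F W k ω : ℝ) / M))
    rw [sub_add_sub_cancel] at h4
    linarith
  -- the closed polynomials
  have hM1' : M ^ (θ' - 1) = M ^ θ' / M := by
    rw [Real.rpow_sub hM0, Real.rpow_one]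
  obtain ⟨B₄, fG, fL, O⟩ := hclo B₃ hsub3B hm3 (fun l ω => V₁ l (ptr F J ω))
    (fun l s => Qp s (u l)) hV2 (fun l hl ω _ => by
      rw [← hM]
      exact (hV0 l hl _).trans h2e) (fun l _ s => hO.dQ s (u l)) (fun l hl s x hx => by
      rw [← hM]
      exact (hO.bQ s (u l) x (hu1 l hl) hx).trans (hMx _ _ (by linarith))) (fun l hl => by
      rw [← hM]
      refine le_trans (le_of_eq ?_) hcc.le
      unfold Pb
      refine Finset.sum_eq_zero fun ω _ => ?_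
      split_ifs with h1
      · by_contra h2
        have h3 : 0 < Pool.Agent.H49.Ent.cond F.p B₃ True ω :=
          lt_of_le_of_ne ((isLaw_cond F.isLaw hB3).nonneg ω) (Ne.symm h2)
        refine h1 ((hpath3 l hl ω (cond_pos_B h3)).trans ?_)
        rw [hM1', mul_div_assoc']
        refine div_le_div_of_nonneg_right ?_ hM0.le
        refine le_trans ?_ h2e
        have h5 : M ^ (2 * θ') = M ^ θ' * M ^ θ' := by
          rw [← Real.rpow_add hM0]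
          ring_nf
        rw [h5]
        refine mul_le_mul_of_nonneg_right ?_ (hMp _).le
        linarith
      · rfl) (fun l hl Y₁ y₁ hy₁ => by
      have h1 := hfw B₃ hsub3B hm3 Y₁ y₁ hy₁ _ (fun ω => ⌊((2 ^ k : ℕ) : ℝ) * V₁ l (ptr F J ω)⌋)
        ((hV2 l hl).comp fun x => ⌊((2 ^ k : ℕ) : ℝ) * x⌋)
      have h2 := vals_few F hB3 hsub3B (c := c') (W := W) (M := 2 ^ k) (z := z) (z' := z') hz hQ
        (Wv := Wv) (u := u l) (a := a * M ^ (θ' - 1)) (by positivity) (hO.few (u l) (hu1 l hl))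
        (V := V₁ l) (hV1 l) hy₁
      rw [← hM] at h1 h2 ⊢
      have h3 : Pe F.p B / Pe F.p B₃ ≤ 2 := by
        rw [div_le_iff₀ hB3]
        linarith
      have h4 : Pe F.p B / Pe F.p B₃ * (θ' * Real.log M) ≤ 2 * (θ' * Real.log M) :=
        mul_le_mul_of_nonneg_right h3 (by positivity)
      have h5 : Real.log (2 * (M * (a * M ^ (θ' - 1)) + 1) + 1) ≤ 2 * θ' * Real.log M := by
        rw [← Real.log_rpow hM0]
        refine Real.log_le_log (by positivity) ?_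
        rw [hM1']
        have h6 : M * (a * (M ^ θ' / M)) = a * M ^ θ' := by field_simp
        rw [h6]
        have h7 : M ^ (2 * θ') = M ^ θ' * M ^ θ' := by
          rw [← Real.rpow_add hM0]
          ring_nf
        rw [h7]
        have h8 : (2 * a + 5) * M ^ θ' ≤ M ^ θ' * M ^ θ' :=
          mul_le_mul_of_nonneg_right m1 (hMp _).le
        have h9 : 1 ≤ M ^ θ' := by linarith
        linarith
      have h10 : θ' * Real.log M ≤ e₀ / 8 * Real.log M := mul_le_mul_of_nonneg_right hθ'e hlog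
      have h11 : 0 ≤ e₀ * Real.log M := mul_nonneg he₀.le hlog
      refine (h1.trans (add_le_add_left h2 _)).trans ?_
      linarith)
  -- the polynomials
  have hWJ : W₀ + d ≤ J := by omega
  have hcc := R.pos.cc 0 one_pos
  rw [show W₀ + d + 0 * k = W by omega] at hcc
  obtain ⟨⟨ctrL, hctrL⟩, ctrP, hctrP⟩ := hcc
  have hcrs : ∀ ω, crs d (slam F W ω) = slam F W₀ ω := fun ω => by
    rw [← hWd]
    exact crs_slam F hWJ ω
  have hsub4 : Sub B₄ B := fun ω h => hsub3B ω (O.sub ω h)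
  have hdep2 : ∀ P : MvPolynomial (Option (Fin m)) ℝ, DepC c' 1 P → DepC c' 2 P :=
    fun P hP b b' h0 h1 => hP b b' h0 fun l hl => h1 l (by omega)
  refine ⟨B₄, fun s => slP c' (K + 1) u (Rs d k ((2 ^ y') ^ 2) 0) (2 ^ W₀) (2 ^ g1) (2 ^ gu) 1
    ((crs d s).2.2 : ℝ) (Pl (crs d s)) (Hu s) 0 (ctrL s) (fun l => fL l s),
    fun y => slP c' (K + 1) u (Rs d k ((2 ^ y') ^ 2) 0) (2 ^ W₀) (2 ^ g1) (2 ^ gu) 1
    ((y.2.1 / 2 ^ (J - W₀) : ℕ) : ℝ) (Pv y) (Gu y) 0 (ctrP y) (fun l => fG l y), hsub4,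
    ?_, ?_, ?_, ?_, ?_, ?_, ?_⟩
  · have h1 : 0 ≤ η * Pe F.p B := mul_nonneg hη.le hB.le
    have h2 : (1 - η / 2) * ((1 - η / 2) * Pe F.p B) ≤ (1 - η / 2) * Pe F.p B₃ :=
      mul_le_mul_of_nonneg_left hm3' (by linarith)
    have h3 : 0 ≤ η * (η * Pe F.p B) := mul_nonneg hη.le h1
    have h4 := O.mass
    linarith
  · intro s
    exact slP_deg c' (K + 1) hinj _ _ _ _ _ _ _ (R.Ld _) (N.du' s) (by simp) fun l => O.dL l s
  · intro z
    exact slP_deg c' (K + 1) hinj _ _ _ _ _ _ _ (R.Pd _) (N.du z) (by simp) fun l => O.dG l z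
  · intro s
    exact slP_dep (K + 1) u _ _ _ _ _ _ _ _ (hdep2 _ (R.Lp _)) (N.pu' s) (fun b b' _ _ => by simp)
  · intro z
    exact slP_dep (K + 1) u _ _ _ _ _ _ _ _ (hdep2 _ (R.Pp _)) (N.pu z) (fun b b' _ _ => by simp)
  · intro ω hω
    have hωB := hsub4 ω hω
    show slP c' (K + 1) u (Rs d k ((2 ^ y') ^ 2) 0) (2 ^ W₀) (2 ^ g1) (2 ^ gu) 1
      (((ptr F J ω).2.1 / 2 ^ (J - W₀) : ℕ) : ℝ) (Pv (ptr F J ω)) (Gu (ptr F J ω))
      0 (ctrP (ptr F J ω)) (fun l => fG l (ptr F J ω)) =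
      slP c' (K + 1) u (Rs d k ((2 ^ y') ^ 2) 0) (2 ^ W₀) (2 ^ g1) (2 ^ gu) 1
      ((crs d (slam F W ω)).2.2 : ℝ) (Pl (crs d (slam F W ω))) (Hu (slam F W ω))
      0 (ctrL (slam F W ω)) (fun l => fL l (slam F W ω))
    rw [hcrs, ← R.Pc ω hωB, ← N.cu ω hωB, ← hctrL ω hωB, ← hctrP ω hωB]
    exact slP_congr c' (K + 1) u _ _ _ _ _ _ _ _ _ _ fun l hl => O.cl l hl ω hω
  · intro ω hω
    have hωB := hsub4 ω hω
    have hω2 : B₂ ω := hsub3 ω (O.sub ω hω)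
    rw [hB₂] at hω2
    obtain ⟨-, hφ2, -, hU2⟩ := hω2
    show |φ ω - eval (bt F ω)
      (slP c' (K + 1) u (Rs d k ((2 ^ y') ^ 2) 0) (2 ^ W₀) (2 ^ g1) (2 ^ gu) 1
      ((crs d (slam F W ω)).2.2 : ℝ) (Pl (crs d (slam F W ω))) (Hu (slam F W ω))
      0 (ctrL (slam F W ω)) (fun l => fL l (slam F W ω)))| ≤ _
    rw [slP_eval, hcrs, ← hctrL ω hωB, ← N.cu ω hωB]
    have hyv : (![2 ^ W₀ * bt F ω none - ((slam F W₀ ω).2.2 : ℝ), 2 ^ W₀ * bt F ω (some (c' 0)),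
        2 ^ g1 * (bt F ω (some (c' 1)) - eval (bt F ω) (Pl (slam F W₀ ω)))] : V3) =
        yv F c' W₀ g1 Pl ω := by
      have h1 : (2 : ℝ) ^ W₀ * bt F ω none - ((slam F W₀ ω).2.2 : ℝ) = rt F W₀ ω := by
        have h2 := t_rt F (w := W₀) (by omega) ω
        show (2 : ℝ) ^ W₀ * F.t ω - ((slam F W₀ ω).2.2 : ℝ) = rt F W₀ ω
        rw [h2]
        field_simp
        ring
      rw [h1]
      rfl
    rw [hyv, ← hM]
    have hx1 := R.pos.qx 0 one_pos ω hωB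
    have hx2 := R.pos.q1 0 one_pos ω hωB
    rw [hM2] at hx1
    have hs1 : |(U ω : ℝ) / M| ≤ 1 := by
      rw [abs_div, abs_of_pos hM0, div_le_one hM0, hM]
      exact_mod_cast hU2
    have hlu := N.lu ω hωB
    have hlp : |φ ω - 1 * (φ ω - eval (bt F ω) (pderiv (some (c' 2))
        (0 : MvPolynomial (Option (Fin m)) ℝ)))| ≤ M ^ (θ - 1) := by
      rw [map_zero, map_zero, sub_zero, one_mul, sub_self, abs_zero]
      exact (hMp _).le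
    rw [← hM] at hlu
    have hεs : M ^ (θ - 1) ≤ M ^ (-g) := hMx _ _ (by linarith)
    have hε1 : M ^ (θ - 1) ≤ 1 :=
      Real.rpow_le_one_of_one_le_of_nonpos (by linarith) (by linarith)
    have h2M : 2 / M ≤ 1 := by
      rw [div_le_one hM0]
      exact hM1
    have hm := hnear (f := fun l => fL l (slam F W ω)) (x := xo 0 ω)
      (q := Rs d k ((2 ^ y') ^ 2) 0 • (yv F c' W₀ g1 Pl ω - ctr 0 ω))
      (V := fun l => V₁ l (ptr F J ω)) (Wv := Wv (ptr F J ω)) (B := M ^ (1 / 4 : ℝ))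
      (δ := M ^ (θ' - 1)) (δ' := M ^ (-γ)) (ε := M ^ (θ - 1)) (η := 2 / M)
      (h := 2 ^ gu * (F.x ω (c' 2) - eval (bt F ω) (Gu (ptr F J ω)))) (s := (U ω : ℝ) / M)
      (φ := φ ω) (sc := 1) (dX := φ ω) (dN := eval (bt F ω) (pderiv (some (c' 2))
        (0 : MvPolynomial (Option (Fin m)) ℝ))) (a := a * M ^ (θ' - 1))
      (fun l => O.dL l _) (fun l hl v hv => by
        show |eval v (fL l (slam F W ω))| ≤ M ^ (1 / 4 : ℝ)
        rw [← O.cl l hl ω hω, hM]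
        exact O.bd l hl ω hω v hv) hx2 (by positivity) h2M hx1 (fun l hl => by
        show |V₁ l (ptr F J ω) - eval (xo 0 ω) (fL l (slam F W ω))| ≤ M ^ (-γ)
        rw [← O.cl l hl ω hω, hM]
        exact O.near l hl ω hω) (hO.dW _) (fun l _ => hV1 l _) hφ2 hs1 hlu hε1 hlp one_pos (hMp _).le
    simp only [inv_one, one_mul] at hm ⊢
    refine hm.trans ?_
    -- the numbers
    have hgp := hMp (-g)
    have n1 : M ^ (θ' - 1) ≤ M ^ (-g) := hMx _ _ (by linarith)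
    have n2 : M ^ (-γ) ≤ M ^ (-g) := hMx _ _ (by linarith)
    have n3 : M ^ (1 / 4 : ℝ) * (2 / M) ≤ 2 * M ^ (-g) := by
      have e1 : M ^ (1 / 4 : ℝ) * (2 / M) = 2 * M ^ (1 / 4 - 1 : ℝ) := by
        rw [Real.rpow_sub hM0, Real.rpow_one]
        ring
      rw [e1]
      exact mul_le_mul_of_nonneg_left (hMx _ _ (by linarith)) (by norm_num)
    have n4 : (M ^ (1 / 4 : ℝ) + 1) * M ^ (θ - 1) ≤ 2 * M ^ (-g) := by
      have e1 : 1 ≤ M ^ (1 / 4 : ℝ) := Real.one_le_rpow (by linarith) (by norm_num)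
      have e2 : M ^ (1 / 4 : ℝ) * M ^ (θ - 1) ≤ M ^ (-g) := by
        rw [← Real.rpow_add hM0]
        exact hMx _ _ (by linarith)
      linarith
    have n5 : M ^ (-(g / 2)) = M ^ (g / 2) * M ^ (-g) := by
      rw [← Real.rpow_add hM0]
      ring_nf
    rw [n5]
    have n6 := mul_le_mul_of_nonneg_right m2 hgp.le
    have n7 : a * M ^ (θ' - 1) ≤ a * M ^ (-g) := mul_le_mul_of_nonneg_left n1 ha0.le
    have n8 : Cn * (M ^ (θ' - 1) + a * M ^ (θ' - 1) + M ^ (-γ) + M ^ (1 / 4 : ℝ) * (2 / M) +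
        (M ^ (1 / 4 : ℝ) + 1) * M ^ (θ - 1)) ≤ Cn * ((6 + a) * M ^ (-g)) :=
      mul_le_mul_of_nonneg_left (by linarith) (by linarith)
    linarith

end Pool.CLO80
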