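import Pool.Agent.H80.CLO.Sxf

/-!
# The geometric data, the closed polynomials and the few closed values at a record

`cf_rec`: at a record with the free velocities at one window, on a part of every event and all its large parts:
`ClR`, `CloC`, and closed values are few given the near position.
-/

set_option autoImplicit false

namespace Pool.CLO80

open Finset Real MvPolynomial
open Pool.Agent.H49.Ent Pool.Agent.H32.Dense Pool.STK Pool.KA Pool.KSAT Pool.K2S Pool.PB Pool.S6C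
open Pool.GEN Pool.CHT Pool.CHX Pool.D2Con Pool.D2A Pool.D2F Pool.RCD
open Pool.LA91 Pool.PKG
open Pool.STB (V3 Po Bx cv)
open Pool.STB82 (Fst dg pb_pe cond_pos_B yv hgP)
open Pool.STB65 (PosO)
open Pool.CLR73 (CloC ClR clo_rec)
open Pool.BXV65 (SlX blx_valM)
open Pool.GRD (LbP)
open Pool.STA37 (chart_near)

/-- **The geometric data, the closed polynomials and the few closed values at a record.** -/
theorem cf_rec (S₀ : ℕ) (hS₀ : 1 ≤ S₀) : ∃ K₁ : ℕ, ∀ (N q' : ℕ) {c₀ κ₀ : ℝ}, 0 < c₀ → 0 < κ₀ →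
    ∃ γ e₀ cc : ℝ, 0 < γ ∧ 0 < e₀ ∧ 0 < cc ∧ ∀ (ν V₀ ω₁ : ℝ), 0 < ν → 0 < ω₁ →
    ∃ (CF : ℕ) (κF : ℚ) (Kb ε₁ : ℝ), 0 < κF ∧ 0 < ε₁ ∧ 2 * ν + 40 ≤ CF ∧
    ∀ {S : PCl 4} {al : ℝ} {g₀ : ℝ → ℝ} {P₀ : List (Fin 4) × Fin 4 → ℝ → ℝ → ℝ}
    {θ : ℝ} {P₂ : ℕ → List (Fin 4) × Fin 4 → ℝ → ℝ → ℝ} {θ₂ Eb e₂ : ℕ → ℝ}
    {c : ℕ → Fin 4} {Pt : ℝ → ℝ → ℝ} {r : ℝ → ℝ} {h K₀ g : ℝ} {L T : ℕ → ℝ → ℝ → ℝ}
    {Sl : ℕ → ℝ} {κ : ℕ → Kg} {G : Set ℝ} {N₀ : ℕ} {A V : ℕ → ℝ} {S₂ N' : ℕ} {V' : ℕ → ℝ}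
    {K' ε q t : ℝ}, RecG S al g₀ P₀ θ P₂ θ₂ Eb e₂ c Pt r h K₀ g L T Sl κ G S₀ N₀ A V S₂ N' V' K' ε
      q t → κ 0 = .one → κ 1 = .one → Kb ≤ K' → 0 < ε → ε ≤ ε₁ → (∃ k < N', V' k = V₀) →
    (∃ k < N', V' k = V₀ + ν) → (∃ k < N', V' k = V₀ - (CF + 28)) → ∀ {x₀ : ℝ} {k₀ : ℕ},
    t + (V₀ - (CF + 13 - ν)) * q ≤ x₀ → x₀ ≤ t + (V₀ - (CF / 2 + 28)) * q →
    FaQ (2, CF, 1, κF) k₀ S P₀ θ c Pt r L T κ G x₀ → q < (1 / 2) ^ k₀ →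
    ∃ c₁ : ℝ, 0 < c₁ ∧ ∀ (c₂ : ℝ) (kk : ℕ), 0 < c₂ → c₂ ≤ c₁ →
      Bas S (fun J F A => ∃ B : F.Ω → Prop, Sub B A ∧
      c₁ * Pe F.p A ≤ Pe F.p B ∧ ∃ (d g1 e₁ y : ℕ) (Kp : ℝ)
      (Pv : PtT F → MvPolynomial (Option (Fin 4)) ℝ)
      (Pl : LnT F → MvPolynomial (Option (Fin 4)) ℝ) (yt : PtT F → V3) (ctr xo : ℕ → F.Ω → V3)
      (D₁ : LnT F → V3), ClR F c B K₁ ⌊(t + (V₀ - (CF + 28)) * q) * J⌋₊ d ⌊ν * q * J⌋₊ g1 e₁ y Kp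
        Pv Pl yt ctr xo D₁ ∧
      ⌊(t + (V₀ - (CF + 28)) * q) * J⌋₊ + d = ⌊(t + V₀ * q) * J⌋₊ ∧ ⌊ν * q * J⌋₊ ≤ d ∧
      (y : ℝ) ≤ ω₁ * q * J ∧ 1 ≤ y ∧ Kp ≤ ((2 ^ ⌊ν * q * J⌋₊ : ℕ) : ℝ) ^ e₀ ∧
      (g1 : ℝ) ≤ L 1 (t + (V₀ - (CF + 28)) * q) (t + (V₀ - (CF + 28)) * q) * J ∧
      L 1 (t + (V₀ - (CF + 28)) * q) (t + (V₀ - (CF + 28)) * q) * J ≤ g1 + ω₁ * q * J ∧
      ⌊(t + V₀ * q) * J⌋₊ + ⌊ν * q * J⌋₊ ≤ J ∧ kk ≤ ⌊ν * q * J⌋₊ ∧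
      e₁ + g1 + (d + ⌊ν * q * J⌋₊) + 4 ≤ J ∧
      ∀ B₂ : F.Ω → Prop, Sub B₂ B → c₂ * Pe F.p A ≤ Pe F.p B₂ → 0 < Pe F.p B₂ ∧
        CloC F B₂ ⌊(t + V₀ * q) * J⌋₊ ⌊ν * q * J⌋₊ N q' c₀ κ₀ γ e₀ cc (xo 0) ∧
        ∀ (Y : Type) (y : F.Ω → Y), Fst (slam F ⌊(t + V₀ * q) * J⌋₊) (fun ω => ptr F J ω) B₂ y →
        ∀ (V' : Type) (V : F.Ω → V'),
          Cl2 (slam F (⌊(t + V₀ * q) * J⌋₊ + ⌊ν * q * J⌋₊)) (fun ω => ptr F J ω) B₂ V →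
          CH (Pool.Agent.H49.Ent.cond F.p B₂ True) V
            (fun ω => (cv (2 ^ ⌊ν * q * J⌋₊) (xo 0 ω), y ω)) ≤
            CH (Pool.Agent.H49.Ent.cond F.p B₂ True) V
              (fun ω => ((F.X J ω (c 1), F.X J ω (c 0), F.W ω), y ω)) +
              e₀ / 4 * Real.log ((2 ^ ⌊ν * q * J⌋₊ : ℕ) : ℝ)) := by
  classical
  obtain ⟨K₁, hclo⟩ := clo_rec S₀ hS₀
  refine ⟨K₁, fun N q' c₀ κ₀ hc₀ hκ₀ => ?_⟩
  obtain ⟨γ, e₀, cc, hγ, he₀, hcc, hclo⟩ := hclo N q' hc₀ hκ₀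
  refine ⟨γ, e₀, cc, hγ, he₀, hcc, fun ν V₀ ω₁ hν hω₁ => ?_⟩
  obtain ⟨CF, κF, Kb, ε₁, ωc, hκF, hε₁, hωc0, hωc, hCF, hclo⟩ := hclo ν V₀ (min ω₁ (e₀ * ν / 224))
    hν (lt_min hω₁ (by positivity))
  have hωc1 : ωc ≤ e₀ * ν / 224 := hωc.trans (min_le_right _ _)
  have hωc2 : ωc ≤ ω₁ := hωc.trans (min_le_left _ _)
  refine ⟨CF, κF, max Kb (|V₀| + ν + CF + 30), min ε₁ (e₀ * ν / 96), hκF,
    lt_min hε₁ (by positivity), hCF, ?_⟩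
  intro S al g₀ P₀ θ P₂ θ₂ Eb e₂ c Pt r h K₀ g L T Sl κ G N₀ A V S₂ N' V' K' ε q t R hκ0 hκ1 hKb hε
    hεε hV₀ hVν hVw x₀ k₀ hx1 hx2 hfa hq1
  have hKb1 : Kb ≤ K' := (le_max_left _ _).trans hKb
  have hKb2 : |V₀| + ν + CF + 30 ≤ K' := (le_max_right _ _).trans hKb
  have hεa : ε ≤ ε₁ := hεε.trans (min_le_left _ _)
  have hεb : ε ≤ e₀ * ν / 96 := hεε.trans (min_le_right _ _)
  have hq := R.q0
  obtain ⟨c₁, hc₁, hclo⟩ := hclo R (by norm_num) hκ0 hκ1 hKb1 hε hεa hV₀ hVν hVw hx1 hx2 hfa hq1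
  refine ⟨c₁, hc₁, fun c₂ kk hc₂0 hcc21 => ?_⟩
  -- fullness
  obtain ⟨a', ha'⟩ : ∃ a', a' = t + (V₀ + ν) * q := ⟨_, rfl⟩
  obtain ⟨ka, hka, hVa⟩ := hVν
  obtain ⟨u₁, rd, -, hch⟩ := (hfa.ch 2 (by norm_num)).ch a' (by
    rw [ha', ← hVa]
    exact R.memG.2 ka hka)
  have ht0 := R.t0
  have ht1 := R.t1
  have hV1 := le_abs_self V₀
  have hV2 := neg_abs_le V₀
  have hVq1 : V₀ * q ≤ |V₀| * q := mul_le_mul_of_nonneg_right hV1 hq.le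
  have hVq2 : -|V₀| * q ≤ V₀ * q := mul_le_mul_of_nonneg_right hV2 hq.le
  have hKq' : (|V₀| + ν + CF + 30) * q ≤ K' * q := mul_le_mul_of_nonneg_right hKb2 hq.le
  have hνq : 0 < ν * q := mul_pos hν hq
  have hCq : 0 ≤ (CF : ℝ) * q := mul_nonneg (Nat.cast_nonneg _) hq.le
  have hVq0 : 0 ≤ |V₀| * q := mul_nonneg (abs_nonneg _) hq.le
  have hεq : 0 < ε * q := mul_pos hε hq
  have ha1 : a' ≤ 1 := by linarith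
  have hfew := few_cls R.tmh (c := c) (a' := a') ha1 hch.ful (ε := e₀ * ν * q / 64)
    (by positivity)
  have hall := (hclo c₂ hc₂0).and (Pool.LBK.Bas.ev hfew hc₂0)
  have s1 : Sl 1 = 1 := by
    have h1 := R.kd 1 (by norm_num)
    rw [hκ1] at h1
    exact h1
  -- the size of `J`
  obtain ⟨J₁, hJ₁⟩ := exists_nat_ge ((kk : ℝ) / (ν * q))
  obtain ⟨J₂, hJ₂⟩ := exists_nat_ge ((21 + e₀ / 4) * 8 / (e₀ * (ν * q)))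
  refine Bas.mono (max J₁ J₂ + 1) hall ?_
  rintro J hJ F A₀ ⟨⟨B₁, hsub1, hm1, d, g1, e₁, y₁, Kp, Pv, Pl, yt, ctr, xo, D₁, CR, hWd, hkd, hy1,
    hy1', hKp, hg1, hg1', he1, hwin, hroom, hclo⟩, hfew⟩
  have hJn : 1 ≤ J := by omega
  have hJ0 : (0 : ℝ) ≤ J := Nat.cast_nonneg J
  have j1 : ((J₁ : ℕ) : ℝ) + 1 ≤ J := by exact_mod_cast (show J₁ + 1 ≤ J by omega)
  have j2 : ((J₂ : ℕ) : ℝ) ≤ J := by exact_mod_cast (show J₂ ≤ J by omega)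
  obtain ⟨k, hk⟩ : ∃ k, k = ⌊ν * q * (J : ℝ)⌋₊ := ⟨_, rfl⟩
  obtain ⟨W, hW⟩ : ∃ W, W = ⌊(t + V₀ * q) * (J : ℝ)⌋₊ := ⟨_, rfl⟩
  obtain ⟨W₀, hW₀⟩ : ∃ W₀, W₀ = ⌊(t + (V₀ - (CF + 28)) * q) * (J : ℝ)⌋₊ := ⟨_, rfl⟩
  rw [← hk] at CR hkd hKp hwin hroom hclo ⊢
  rw [← hW] at hWd hwin hclo ⊢
  rw [← hW₀] at CR hWd ⊢
  have k1 : (k : ℝ) ≤ ν * q * J := hk ▸ Nat.floor_le (by positivity)
  have k2 : ν * q * J < k + 1 := hk ▸ Nat.lt_floor_add_one _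
  have W1 : (W : ℝ) ≤ (t + V₀ * q) * J :=
    hW ▸ Nat.floor_le (mul_nonneg (by linarith) hJ0)
  have W2 : (t + V₀ * q) * J < W + 1 := hW ▸ Nat.lt_floor_add_one _
  obtain ⟨ww, hww⟩ : ∃ ww, ww = t + (V₀ - (CF + 28)) * q := ⟨_, rfl⟩
  rw [← hww] at hW₀ hg1 hg1' ⊢
  have hkk : kk ≤ k := by
    have h1 : (kk : ℝ) ≤ ν * q * J₁ := by
      rw [div_le_iff₀ hνq] at hJ₁
      linarith
    have h2 : ν * q * J₁ ≤ ν * q * J := mul_le_mul_of_nonneg_left (by linarith) hνq.le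
    have h3 : (kk : ℝ) < k + 1 := by linarith
    exact_mod_cast Nat.lt_succ_iff.1 (by exact_mod_cast h3)
  have hwin' : ⌊a' * (J : ℝ)⌋₊ ≤ J := by
    refine Nat.floor_le_of_le ?_
    nlinarith
  rw [← ha'] at hwin
  have hWk : W + k ≤ J := hwin.trans hwin'
  have hWdr : (W₀ : ℝ) + d = W := by exact_mod_cast hWd
  -- the levels
  have haw : |a' - t| ≤ K' * q := by
    rw [ha', abs_le]
    constructor <;> linarith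
  have hwt : |ww - t| ≤ K' * q := by
    rw [hww, abs_le]
    constructor <;> linarith
  have l0 := (abs_le.1 (R.l0 a' haw)).2
  have l1 := (abs_le.1 (R.dL 1 (by norm_num) a' haw)).2
  have l1' := (abs_le.1 (R.dL 1 (by norm_num) ww hwt)).1
  rw [s1] at l1 l1'
  have hww0 : 0 ≤ ww := by
    rw [hww]
    linarith
  have w2 : (W₀ : ℝ) ≤ ww * J := hW₀ ▸ Nat.floor_le (mul_nonneg hww0 hJ0)
  have haJ : a' * J ≤ W + k + 2 := by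
    rw [ha']
    have : (t + (V₀ + ν) * q) * J = (t + V₀ * q) * J + ν * q * J := by ring
    linarith
  have m0 : L 0 a' a' * J ≤ (a' + ε * q) * J := mul_le_mul_of_nonneg_right (by linarith) hJ0
  have m1 : L 1 a' a' * J ≤ (L 1 ww ww + (a' - ww) + 2 * (ε * q)) * J :=
    mul_le_mul_of_nonneg_right (by linarith) hJ0
  have hlogk : Real.log ((2 ^ k : ℕ) : ℝ) = k * Real.log 2 := by
    push_cast
    rw [Real.log_pow]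
  -- the numbers
  have n1 : 96 * (ε * q * J) ≤ e₀ * (ν * q * J) := by
    have h1 := mul_le_mul_of_nonneg_right (mul_le_mul_of_nonneg_right hεb hq.le) hJ0
    linarith
  have n2 : 224 * (ωc * q * J) ≤ e₀ * (ν * q * J) := by
    have h1 := mul_le_mul_of_nonneg_right (mul_le_mul_of_nonneg_right hωc1 hq.le) hJ0
    linarith
  have n3 : (21 + e₀ / 4) * 8 ≤ e₀ * (ν * q * J) := by
    rw [div_le_iff₀ (by positivity)] at hJ₂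
    have h1 : (J₂ : ℝ) * (e₀ * (ν * q)) ≤ J * (e₀ * (ν * q)) :=
      mul_le_mul_of_nonneg_right j2 (by positivity)
    linarith
  have hnum := few_num he₀ k2.le n1 n2 n3 hy1
  have hqJ : 0 ≤ q * (J : ℝ) := mul_nonneg hq.le hJ0
  have hyω : ωc * q * J ≤ ω₁ * q * J := by
    have := mul_le_mul_of_nonneg_right hωc2 hqJ
    linarith
  refine ⟨B₁, hsub1, hm1, d, g1, e₁, y₁, Kp, Pv, Pl, yt, ctr, xo, D₁, CR, hWd, hkd, hy1.trans hyω,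
    hy1', hKp, hg1, by linarith, hWk, hkk, hroom, fun B₂ hB₂ hm₂ =>
      ⟨(hfew B₂ (fun ω h => hsub1 ω (hB₂ ω h)) hm₂).1, hclo B₂ hB₂ hm₂, ?_⟩⟩
  intro Y yy hyy V'' VV hVV
  have CR' := CR.sub hB₂
  rw [← hWd] at hyy hVV
  refine (hfew B₂ (fun ω h => hsub1 ω (hB₂ ω h)) hm₂).2 W₀ d k g1 ((2 ^ y₁) ^ 2) Kp
    (2 ^ e₁) (ε * q * J + 2) (ωc * q * J + 2 * (ε * q * J) + 2) _ Pl ctr xo D₁ Pv CR'.pos
    (by positivity) CR'.Pc (fun ω ω' hω hω' e1 e2 e3 e4 => ?_) (by rw [hWd]; exact hwin)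
    (by omega) (by positivity) (pow_le_pow_right₀ one_le_two (by omega)) ?_ ?_ ?_ Y yy hyy V'' VV
    hVV
  · rw [← e1]
    refine chart_near (Prod.ext e2 e3) e4 (CR'.Pp _) fun b hb1 hb2 => CR'.Pg ω hω b ?_ ?_
    · rw [hb1, sub_self, abs_zero]
      positivity
    · refine hb2.trans (one_div_le_one_div_of_le (by positivity) ?_)
      exact pow_le_pow_right₀ one_le_two (by omega)
  · show L 0 a' a' * J ≤ W₀ + d + k + (ε * q * J + 2)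
    linarith
  · show L 1 a' a' * J ≤ g1 + d + k + (ωc * q * J + 2 * (ε * q * J) + 2)
    have h1 : (L 1 ww ww + (a' - ww) + 2 * (ε * q)) * J = L 1 ww ww * J + (a' * J - ww * J) +
      2 * (ε * q * J) := by ring
    linarith
  · rw [hlogk]
    have h1 : 2 * (e₀ * ν * q / 64) * (J : ℝ) = e₀ * (ν * q * J) / 32 := by ring
    rw [h1]
    exact hnum

end Pool.CLO80
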