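import Pool.Agent.H66.NDD.Ncp
import Pool.Agent.H6.STB.EjR

/-!
# The interpolation polynomial of a tuple of paths

`tpS`, `tpU`: the interpolation polynomial in the height of the values `cP i` at the heights
`uP 0 + (h i - h 0)`, as a polynomial in the time and in the height. `tp_newton`: the remainder is the divided
difference.
-/

set_option autoImplicit false

namespace Pool.CLO80

open Finset Real
open Pool.TT37 (pj)
open Pool.NDD66 (mu Lam)

variable {K : ℕ}

/-- The interpolation polynomial as a polynomial in the time. -/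
noncomputable def tpS (uP cP : Fin (K + 1) → Polynomial ℝ) (h : Fin (K + 1) → ℝ) (u : ℝ) :
    Polynomial ℝ :=
  ∑ i, cP i * ∏ j ∈ univ.erase i, (Polynomial.C (h i - h j)⁻¹ *
    (Polynomial.C u - uP 0 - Polynomial.C (h j - h 0)))

/-- The interpolation polynomial as a polynomial in the height. -/
noncomputable def tpU (uP cP : Fin (K + 1) → Polynomial ℝ) (h : Fin (K + 1) → ℝ) (s : ℝ) :
    Polynomial ℝ :=
  ∑ i, Polynomial.C ((cP i).eval s) * ∏ j ∈ univ.erase i, (Polynomial.C (h i - h j)⁻¹ *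
    (Polynomial.X - Polynomial.C ((uP 0).eval s + (h j - h 0))))

theorem tpS_eval (uP cP : Fin (K + 1) → Polynomial ℝ) (h : Fin (K + 1) → ℝ) (u s : ℝ) :
    (tpS uP cP h u).eval s = ∑ i, (cP i).eval s * ∏ j ∈ univ.erase i, ((h i - h j)⁻¹ *
      (u - (uP 0).eval s - (h j - h 0))) := by
  unfold tpS
  rw [Polynomial.eval_finsetSum]
  refine Finset.sum_congr rfl fun i _ => ?_
  rw [Polynomial.eval_mul, Polynomial.eval_prod]
  congr 1
  refine Finset.prod_congr rfl fun j _ => ?_
  simp only [Polynomial.eval_mul, Polynomial.eval_sub, Polynomial.eval_C]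

theorem tpU_eval (uP cP : Fin (K + 1) → Polynomial ℝ) (h : Fin (K + 1) → ℝ) (u s : ℝ) :
    (tpU uP cP h s).eval u = (tpS uP cP h u).eval s := by
  rw [tpS_eval]
  unfold tpU
  rw [Polynomial.eval_finsetSum]
  refine Finset.sum_congr rfl fun i _ => ?_
  rw [Polynomial.eval_mul, Polynomial.eval_prod, Polynomial.eval_C]
  congr 1
  refine Finset.prod_congr rfl fun j _ => ?_
  simp only [Polynomial.eval_mul, Polynomial.eval_sub, Polynomial.eval_C, Polynomial.eval_X]
  ring

theorem tpS_deg {D : ℕ} {uP cP : Fin (K + 1) → Polynomial ℝ} (hu : (uP 0).natDegree ≤ D)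
    (hc : ∀ i, (cP i).natDegree ≤ D) (h : Fin (K + 1) → ℝ) (u : ℝ) :
    (tpS uP cP h u).natDegree ≤ (K + 1) * D := by
  unfold tpS
  refine Polynomial.natDegree_sum_le_of_forall_le _ _ fun i _ => ?_
  refine Polynomial.natDegree_mul_le.trans ?_
  have h1 : (∏ j ∈ univ.erase i, (Polynomial.C (h i - h j)⁻¹ *
      (Polynomial.C u - uP 0 - Polynomial.C (h j - h 0)))).natDegree ≤ K * D := by
    refine (Polynomial.natDegree_prod_le _ _).trans ?_
    refine (Finset.sum_le_card_nsmul _ _ D fun j _ => ?_).trans (le_of_eq ?_)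
    · refine Polynomial.natDegree_mul_le.trans ?_
      rw [Polynomial.natDegree_C, zero_add]
      refine (Polynomial.natDegree_sub_le _ _).trans (max_le ?_ ?_)
      · refine (Polynomial.natDegree_sub_le _ _).trans (max_le ?_ hu)
        rw [Polynomial.natDegree_C]
        exact Nat.zero_le _
      · rw [Polynomial.natDegree_C]
        exact Nat.zero_le _
    · rw [Finset.card_erase_of_mem (Finset.mem_univ _), Finset.card_univ, Fintype.card_fin,
        smul_eq_mul, Nat.add_sub_cancel]
  have h2 := hc i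
  calc _ ≤ D + K * D := Nat.add_le_add h2 h1
    _ = (K + 1) * D := by ring

theorem tpU_deg (uP cP : Fin (K + 1) → Polynomial ℝ) (h : Fin (K + 1) → ℝ) (s : ℝ) :
    (tpU uP cP h s).natDegree ≤ K := by
  unfold tpU
  refine Polynomial.natDegree_sum_le_of_forall_le _ _ fun i _ => ?_
  refine Polynomial.natDegree_mul_le.trans ?_
  rw [Polynomial.natDegree_C, zero_add]
  refine (Polynomial.natDegree_prod_le _ _).trans ?_
  refine (Finset.sum_le_card_nsmul _ _ 1 fun j _ => ?_).trans (le_of_eq ?_)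
  · refine Polynomial.natDegree_mul_le.trans ?_
    rw [Polynomial.natDegree_C, zero_add, Polynomial.natDegree_X_sub_C]
  · rw [Finset.card_erase_of_mem (Finset.mem_univ _), Finset.card_univ, Fintype.card_fin,
      smul_eq_mul, Nat.add_sub_cancel, mul_one]

/-- **The bound.** -/
theorem tpS_bd {uP cP : Fin (K + 1) → Polynomial ℝ} {h : Fin (K + 1) → ℝ} {u s B σ H : ℝ}
    (hσ : 0 < σ) (hs : ∀ i j, i ≠ j → σ ≤ |h i - h j|) (hB : 0 ≤ B)
    (hc : ∀ i, |(cP i).eval s| ≤ B) (hH : ∀ j, |u - (uP 0).eval s - (h j - h 0)| ≤ H) :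
    |(tpS uP cP h u).eval s| ≤ (K + 1) * (B * (H / σ) ^ K) := by
  rw [tpS_eval]
  refine (Finset.abs_sum_le_sum_abs _ _).trans ?_
  refine (Finset.sum_le_card_nsmul _ _ (B * (H / σ) ^ K) fun i _ => ?_).trans (le_of_eq ?_)
  · rw [abs_mul]
    refine mul_le_mul (hc i) ?_ (abs_nonneg _) hB
    rw [Finset.abs_prod]
    refine (Finset.prod_le_prod (g := fun _ => H / σ) (fun j _ => abs_nonneg _)
      fun j hj => ?_).trans (le_of_eq ?_)
    · rw [abs_mul, abs_inv]
      have h1 := hs i j (Finset.ne_of_mem_erase hj).symm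
      have h2 : 0 < |h i - h j| := lt_of_lt_of_le hσ h1
      rw [inv_mul_eq_div]
      exact div_le_div₀ ((abs_nonneg _).trans (hH j)) (hH j) hσ h1
    · rw [Finset.prod_const, Finset.card_erase_of_mem (Finset.mem_univ _), Finset.card_univ,
        Fintype.card_fin, Nat.add_sub_cancel]
  · rw [Finset.card_univ, Fintype.card_fin, nsmul_eq_mul]
    push_cast
    ring

/-- The divided difference and the interpolation. -/
theorem newton {h : Fin (K + 2) → ℝ} (hinj : Function.Injective h) (y : Fin (K + 2) → ℝ) :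
    ∑ i, mu h i * y i = y 0 - ∑ i : Fin (K + 1), y i.succ * ∏ j ∈ univ.erase i,
      ((h i.succ - h j.succ)⁻¹ * (h 0 - h j.succ)) := by
  classical
  have hpj : ∀ j : Fin (K + 2), pj h j = ∏ k ∈ Finset.univ.erase j, (h j - h k) := by
    intro j
    unfold pj
    rw [← Finset.mul_prod_erase Finset.univ _ (Finset.mem_univ j), if_pos rfl, one_mul]
    refine Finset.prod_congr rfl fun k hk => if_neg (Finset.ne_of_mem_erase hk)
  have hne : ∀ i j : Fin (K + 2), i ≠ j → h i - h j ≠ 0 := fun i j hij e =>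
    hij (hinj (sub_eq_zero.1 e))
  have hp0 : pj h 0 ≠ 0 := by
    rw [hpj]
    exact Finset.prod_ne_zero_iff.2 fun k hk => hne 0 k (Finset.ne_of_mem_erase hk).symm
  rw [Fin.sum_univ_succ, sub_eq_add_neg, ← Finset.sum_neg_distrib]
  have e0 : mu h 0 * y 0 = y 0 := by
    unfold mu
    rw [div_self hp0, one_mul]
  rw [e0]
  congr 1
  refine Finset.sum_congr rfl fun i _ => ?_
  have e1 : pj h 0 = (h 0 - h i.succ) * ∏ j ∈ univ.erase i, (h 0 - h j.succ) := by
    rw [hpj]
    have : (Finset.univ.erase (0 : Fin (K + 2))) = Finset.univ.image Fin.succ := by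
      ext k
      simp only [Finset.mem_erase, Finset.mem_univ, and_true, Finset.mem_image, true_and]
      constructor
      · intro hk
        exact ⟨k.pred hk, Fin.succ_pred k hk⟩
      · rintro ⟨a, rfl⟩
        exact Fin.succ_ne_zero a
    rw [this, Finset.prod_image fun a _ b _ hab => Fin.succ_injective _ hab,
      ← Finset.mul_prod_erase Finset.univ _ (Finset.mem_univ i)]
  have e2 : pj h i.succ = (h i.succ - h 0) * ∏ j ∈ univ.erase i, (h i.succ - h j.succ) := by
    rw [hpj]
    have : (Finset.univ.erase (i.succ : Fin (K + 2))) = insert 0 ((univ.erase i).image Fin.succ) := by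
      ext k
      simp only [Finset.mem_erase, Finset.mem_univ, and_true, Finset.mem_image, Finset.mem_insert]
      constructor
      · intro hk
        by_cases hk0 : k = 0
        · exact Or.inl hk0
        · exact Or.inr ⟨k.pred hk0, fun e => hk (by rw [← e, Fin.succ_pred]), Fin.succ_pred k hk0⟩
      · rintro (rfl | ⟨a, ha, rfl⟩)
        · exact (Fin.succ_ne_zero i).symm
        · exact fun e => ha (Fin.succ_injective _ e)
    rw [this, Finset.prod_insert, Finset.prod_image fun a _ b _ hab => Fin.succ_injective _ hab]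
    intro hm
    obtain ⟨a, -, ha⟩ := Finset.mem_image.1 hm
    exact Fin.succ_ne_zero a ha
  have e3 : ∏ j ∈ univ.erase i, ((h i.succ - h j.succ)⁻¹ * (h 0 - h j.succ)) =
      (∏ j ∈ univ.erase i, (h i.succ - h j.succ))⁻¹ * ∏ j ∈ univ.erase i, (h 0 - h j.succ) := by
    rw [Finset.prod_mul_distrib, Finset.prod_inv_distrib]
  unfold mu
  rw [e1, e2, e3]
  have h1 := hne i.succ 0 (Fin.succ_ne_zero i)
  have h2 : ∏ j ∈ univ.erase i, (h i.succ - h j.succ) ≠ 0 :=
    Finset.prod_ne_zero_iff.2 fun k hk => hne _ _ fun e =>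
      (Finset.ne_of_mem_erase hk) (Fin.succ_injective _ e).symm
  have h3 : h 0 - h i.succ = -(h i.succ - h 0) := by ring
  rw [h3]
  field_simp

/-- Products of near factors. -/
theorem prod_near {ι : Type} [DecidableEq ι] (S : Finset ι) {f g : ι → ℝ} {H ε : ℝ} (hH : 1 ≤ H)
    (hε : 0 ≤ ε) (hf : ∀ j ∈ S, |f j| ≤ H) (hg : ∀ j ∈ S, |g j| ≤ H)
    (hfg : ∀ j ∈ S, |f j - g j| ≤ ε) : |∏ j ∈ S, f j - ∏ j ∈ S, g j| ≤ S.card * ε * H ^ S.card := by
  induction S using Finset.induction_on with
  | empty => simp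
  | insert a S ha ih =>
    have hH0 : 0 ≤ H := by linarith
    rw [Finset.prod_insert ha, Finset.prod_insert ha, Finset.card_insert_of_notMem ha]
    have h1 := ih (fun j hj => hf j (Finset.mem_insert_of_mem hj))
      (fun j hj => hg j (Finset.mem_insert_of_mem hj))
      (fun j hj => hfg j (Finset.mem_insert_of_mem hj))
    have e1 : f a * ∏ j ∈ S, f j - g a * ∏ j ∈ S, g j =
        (f a - g a) * ∏ j ∈ S, f j + g a * (∏ j ∈ S, f j - ∏ j ∈ S, g j) := by ring
    have h2 : |∏ j ∈ S, f j| ≤ H ^ S.card := by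
      rw [Finset.abs_prod]
      refine (Finset.prod_le_prod (g := fun _ => H) (fun j _ => abs_nonneg _)
        fun j hj => hf j (Finset.mem_insert_of_mem hj)).trans (le_of_eq ?_)
      rw [Finset.prod_const]
    rw [e1]
    refine (abs_add_le _ _).trans ?_
    rw [abs_mul, abs_mul]
    have h3 : |f a - g a| * |∏ j ∈ S, f j| ≤ ε * H ^ S.card :=
      mul_le_mul (hfg a (Finset.mem_insert_self _ _)) h2 (abs_nonneg _) hε
    have h4 : |g a| * |∏ j ∈ S, f j - ∏ j ∈ S, g j| ≤ H * (S.card * ε * H ^ S.card) :=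
      mul_le_mul (hg a (Finset.mem_insert_self _ _)) h1 (abs_nonneg _) hH0
    refine (add_le_add h3 h4).trans ?_
    push_cast
    have h5 : H ^ S.card ≤ H ^ (S.card + 1) := pow_le_pow_right₀ hH (Nat.le_succ _)
    have h6 : ε * H ^ S.card ≤ ε * H ^ (S.card + 1) := mul_le_mul_of_nonneg_left h5 hε
    have e2 : H * (S.card * ε * H ^ S.card) = S.card * ε * H ^ (S.card + 1) := by
      rw [pow_succ]
      ring
    rw [e2]
    nlinarith

/-- The remainder as a polynomial in the time. -/
noncomputable def tpR (uP cP : Fin (K + 2) → Polynomial ℝ) (h : Fin (K + 2) → ℝ) : Polynomial ℝ :=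
  cP 0 - ∑ i : Fin (K + 1), cP i.succ * ∏ j ∈ univ.erase i, (Polynomial.C (h i.succ - h j.succ)⁻¹ *
    (uP 0 - uP (Fin.succ 0) - Polynomial.C (h j.succ - h (Fin.succ 0))))

theorem tpR_eval (uP cP : Fin (K + 2) → Polynomial ℝ) (h : Fin (K + 2) → ℝ) (s : ℝ) :
    (tpR uP cP h).eval s = (cP 0).eval s - (tpS (fun i => uP i.succ) (fun i => cP i.succ)
      (fun i => h i.succ) ((uP 0).eval s)).eval s := by
  rw [tpS_eval]
  unfold tpR
  rw [Polynomial.eval_sub, Polynomial.eval_finsetSum]
  congr 1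
  refine Finset.sum_congr rfl fun i _ => ?_
  rw [Polynomial.eval_mul, Polynomial.eval_prod]
  congr 1
  refine Finset.prod_congr rfl fun j _ => ?_
  simp only [Polynomial.eval_mul, Polynomial.eval_sub, Polynomial.eval_C]

theorem tpR_deg {D : ℕ} {uP cP : Fin (K + 2) → Polynomial ℝ} (hu : ∀ i, (uP i).natDegree ≤ D)
    (hc : ∀ i, (cP i).natDegree ≤ D) (h : Fin (K + 2) → ℝ) :
    (tpR uP cP h).natDegree ≤ (K + 1) * D := by
  unfold tpR
  refine (Polynomial.natDegree_sub_le _ _).trans (max_le ((hc 0).trans (Nat.le_mul_of_pos_left _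
    (Nat.succ_pos K))) ?_)
  refine Polynomial.natDegree_sum_le_of_forall_le _ _ fun i _ => ?_
  refine Polynomial.natDegree_mul_le.trans ?_
  have h1 : (∏ j ∈ univ.erase i, (Polynomial.C (h i.succ - h j.succ)⁻¹ *
      (uP 0 - uP (Fin.succ 0) - Polynomial.C (h j.succ - h (Fin.succ 0))))).natDegree ≤ K * D := by
    refine (Polynomial.natDegree_prod_le _ _).trans ?_
    refine (Finset.sum_le_card_nsmul _ _ D fun j _ => ?_).trans (le_of_eq ?_)
    · refine Polynomial.natDegree_mul_le.trans ?_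
      rw [Polynomial.natDegree_C, zero_add]
      refine (Polynomial.natDegree_sub_le _ _).trans (max_le ?_ ?_)
      · exact (Polynomial.natDegree_sub_le _ _).trans (max_le (hu _) (hu _))
      · rw [Polynomial.natDegree_C]
        exact Nat.zero_le _
    · rw [Finset.card_erase_of_mem (Finset.mem_univ _), Finset.card_univ, Fintype.card_fin,
        smul_eq_mul, Nat.add_sub_cancel]
  calc _ ≤ D + K * D := Nat.add_le_add (hc _) h1
    _ = (K + 1) * D := by ring

/-- **The remainder is small**, if the divided difference is small and the heights are parallel. -/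
theorem tpR_near {uP cP : Fin (K + 2) → Polynomial ℝ} {h : Fin (K + 2) → ℝ} {s B σ H ε₀ ε₁ : ℝ}
    (hσ : 0 < σ) (hσH : σ ≤ H) (hs : ∀ i j, i ≠ j → σ ≤ |h i - h j|)
    (hH : ∀ i j, |h i - h j| + ε₀ ≤ H) (hε₀ : 0 ≤ ε₀)
    (hc : ∀ i, |(cP i).eval s| ≤ B)
    (hpar : ∀ i, |(uP i).eval s - (uP 0).eval s - (h i - h 0)| ≤ ε₀)
    (hdd : |∑ i, mu h i * (cP i).eval s| ≤ ε₁) :
    |(tpR uP cP h).eval s| ≤ ε₁ + (K + 1) * (B * (K * (ε₀ / σ) * (H / σ) ^ K)) := by
  classical
  have hinj : Function.Injective h := fun i j e => by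
    by_contra hij
    have := hs i j hij
    rw [e, sub_self, abs_zero] at this
    linarith
  have hB : 0 ≤ B := (abs_nonneg _).trans (hc 0)
  rw [newton hinj] at hdd
  rw [tpR_eval, tpS_eval]
  have h1 : |(∑ i : Fin (K + 1), (cP i.succ).eval s * ∏ j ∈ univ.erase i,
        ((h i.succ - h j.succ)⁻¹ * (h 0 - h j.succ))) -
      ∑ i : Fin (K + 1), (cP i.succ).eval s * ∏ j ∈ univ.erase i, ((h i.succ - h j.succ)⁻¹ *
        ((uP 0).eval s - (uP (Fin.succ 0)).eval s - (h j.succ - h (Fin.succ 0))))| ≤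
      (K + 1) * (B * (K * (ε₀ / σ) * (H / σ) ^ K)) := by
    rw [← Finset.sum_sub_distrib]
    refine (Finset.abs_sum_le_sum_abs _ _).trans ?_
    refine (Finset.sum_le_card_nsmul _ _ (B * (K * (ε₀ / σ) * (H / σ) ^ K)) fun i _ => ?_).trans
      (le_of_eq ?_)
    · rw [← mul_sub, abs_mul]
      refine mul_le_mul (hc _) ?_ (abs_nonneg _) hB
      have hfac : ∀ j ∈ univ.erase i, ∀ z : ℝ, |z| ≤ H → |(h i.succ - h j.succ)⁻¹ * z| ≤ H / σ := by
        intro j hj z hz
        have h2 := hs i.succ j.succ fun e => (Finset.ne_of_mem_erase hj) (Fin.succ_injective _ e).symm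
        rw [abs_mul, abs_inv, inv_mul_eq_div]
        exact div_le_div₀ ((abs_nonneg _).trans hz) hz hσ h2
      have h3 := prod_near (univ.erase i)
        (f := fun j => (h i.succ - h j.succ)⁻¹ * (h 0 - h j.succ))
        (g := fun j => (h i.succ - h j.succ)⁻¹ *
          ((uP 0).eval s - (uP (Fin.succ 0)).eval s - (h j.succ - h (Fin.succ 0))))
        (H := H / σ) (ε := ε₀ / σ) (by rw [le_div_iff₀ hσ]; linarith) (by positivity)
        (fun j hj => hfac j hj _ (by linarith [hH 0 j.succ]))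
        (fun j hj => hfac j hj _ (by
          have h4 := hpar (Fin.succ 0)
          have h5 := hH 0 j.succ
          have e1 : (uP 0).eval s - (uP (Fin.succ 0)).eval s - (h j.succ - h (Fin.succ 0)) =
              -((uP (Fin.succ 0)).eval s - (uP 0).eval s - (h (Fin.succ 0) - h 0)) +
                (h 0 - h j.succ) := by ring
          rw [e1]
          refine (abs_add_le _ _).trans ?_
          rw [abs_neg]
          linarith))
        (fun j hj => by
          have h2 := hs i.succ j.succ fun e => (Finset.ne_of_mem_erase hj)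
            (Fin.succ_injective _ e).symm
          rw [← mul_sub, abs_mul, abs_inv, inv_mul_eq_div]
          have h4 := hpar (Fin.succ 0)
          have e1 : h 0 - h j.succ - ((uP 0).eval s - (uP (Fin.succ 0)).eval s -
              (h j.succ - h (Fin.succ 0))) =
              (uP (Fin.succ 0)).eval s - (uP 0).eval s - (h (Fin.succ 0) - h 0) := by ring
          rw [e1]
          exact div_le_div₀ hε₀ h4 hσ h2)
      rw [Finset.card_erase_of_mem (Finset.mem_univ _), Finset.card_univ, Fintype.card_fin,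
        Nat.add_sub_cancel] at h3
      exact h3
    · rw [Finset.card_univ, Fintype.card_fin, nsmul_eq_mul]
      push_cast
      ring
  have e1 : (cP 0).eval s - ∑ i : Fin (K + 1), (cP i.succ).eval s * ∏ j ∈ univ.erase i,
      ((h i.succ - h j.succ)⁻¹ * ((uP 0).eval s - (uP (Fin.succ 0)).eval s -
        (h j.succ - h (Fin.succ 0)))) =
      ((cP 0).eval s - ∑ i : Fin (K + 1), (cP i.succ).eval s * ∏ j ∈ univ.erase i,
        ((h i.succ - h j.succ)⁻¹ * (h 0 - h j.succ))) +
      ((∑ i : Fin (K + 1), (cP i.succ).eval s * ∏ j ∈ univ.erase i,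
        ((h i.succ - h j.succ)⁻¹ * (h 0 - h j.succ))) -
      ∑ i : Fin (K + 1), (cP i.succ).eval s * ∏ j ∈ univ.erase i, ((h i.succ - h j.succ)⁻¹ *
        ((uP 0).eval s - (uP (Fin.succ 0)).eval s - (h j.succ - h (Fin.succ 0))))) := by ring
  rw [e1]
  exact (abs_add_le _ _).trans (add_le_add hdd h1)

end Pool.CLO80
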